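import Pool.Agent.H39.HC.Ideal

/-!
# Valuations and absolute values of good polynomials
-/

open MvPolynomial

noncomputable section

namespace Pool.Agent.H39.HC

variable {ι : Type} {n r K : ℕ} {t : ι → Fin (n + 1) → ℂ}
  {Q : MvPolynomial (Fin r × Fin (n + 1)) ℂ}

private theorem Bounds_ev_linX {R : Type*} [CommRing R] [Algebra ℂ R]
    (u : Fin r → Fin (n + 1) → R) (v : Fin (n + 1) → ℂ) (a : Fin r) :
    ev u (linX v a) = lin v (u a) := by
  unfold ev linX lin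
  rw [map_sum]
  refine Finset.sum_congr rfl fun i _ => ?_
  rw [map_mul, aeval_C, aeval_X, Algebra.smul_def]

private theorem Bounds_ord_nonneg {L : Type*} [Field L] [Algebra ℂ L]
    (v : AddValuation L (WithTop ℤ)) (hv : ∀ c : ℂ, 0 ≤ v (algebraMap ℂ L c))
    {u : Fin r → Fin (n + 1) → L} (hu : ∀ a i, 0 ≤ v (u a i))
    (P : MvPolynomial (Fin r × Fin (n + 1)) ℂ) : 0 ≤ v (ev u P) := by
  induction P using MvPolynomial.induction_on with
  | C c =>
    unfold ev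
    rw [aeval_C]
    exact hv c
  | add p q hp hq =>
    rw [map_add]
    exact v.map_le_add hp hq
  | mul_X p i hp =>
    rw [map_mul, v.map_mul]
    refine add_nonneg hp ?_
    unfold ev
    rw [aeval_X]
    exact hu _ _

private theorem Bounds_ord_prod {L α : Type*} [Field L]
    (v : AddValuation L (WithTop ℤ)) (s : Finset α) (f : α → L) (ε : α → ℤ)
    (h : ∀ j ∈ s, (ε j : WithTop ℤ) ≤ v (f j)) :
    ((∑ j ∈ s, ε j : ℤ) : WithTop ℤ) ≤ v (∏ j ∈ s, f j) := by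
  classical
  induction s using Finset.induction_on with
  | empty => simp
  | insert a s ha ih =>
    rw [Finset.sum_insert ha, Finset.prod_insert ha, v.map_mul, WithTop.coe_add]
    exact add_le_add (h a (Finset.mem_insert_self _ _))
      (ih fun j hj => h j (Finset.mem_insert_of_mem hj))

private theorem Bounds_norm (P : MvPolynomial (Fin r × Fin (n + 1)) ℂ) :
    ∃ C : ℝ, 0 ≤ C ∧ ∀ u : Fin r → Fin (n + 1) → ℂ, (∀ a i, ‖u a i‖ ≤ 1) → ‖ev u P‖ ≤ C := by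
  induction P using MvPolynomial.induction_on with
  | C c =>
    refine ⟨‖c‖, norm_nonneg _, fun u _ => ?_⟩
    unfold ev
    rw [aeval_C]
    exact le_rfl
  | add p q hp hq =>
    obtain ⟨C1, h1, H1⟩ := hp
    obtain ⟨C2, h2, H2⟩ := hq
    refine ⟨C1 + C2, add_nonneg h1 h2, fun u hu => ?_⟩
    rw [map_add]
    exact (norm_add_le _ _).trans (add_le_add (H1 u hu) (H2 u hu))
  | mul_X p i hp =>
    obtain ⟨C1, h1, H1⟩ := hp
    refine ⟨C1, h1, fun u hu => ?_⟩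
    rw [map_mul, norm_mul]
    have h2 : ‖ev u (X i)‖ ≤ 1 := by
      unfold ev
      rw [aeval_X]
      exact hu _ _
    calc ‖ev u p‖ * ‖ev u (X i)‖ ≤ C1 * 1 :=
          mul_le_mul (H1 u hu) h2 (norm_nonneg _) h1
      _ = C1 := mul_one _

/-- The valuation of a good polynomial. -/
theorem Good.le_ord (hQ : Good t K Q) {L : Type*} [Field L] [Algebra ℂ L]
    (v : AddValuation L (WithTop ℤ)) (hv : ∀ c : ℂ, 0 ≤ v (algebraMap ℂ L c)) {B : Finset ι}
    (hB : LinearIndependent ℂ fun j : B => t j) {u : Fin r → Fin (n + 1) → L}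
    (hu : ∀ a i, 0 ≤ v (u a i)) {ε : ι → ℤ}
    (hε : ∀ j ∈ B, ∀ a, (ε j : WithTop ℤ) ≤ v (lin (t j) (u a))) :
    ((∑ j ∈ B, ε j : ℤ) : WithTop ℤ) ≤ v (ev u Q) := by
  classical
  obtain ⟨R, hR⟩ := hQ.exists_decomp hB
  rw [hR, map_sum]
  refine v.map_le_sum fun σ _ => ?_
  rw [map_mul, map_prod, v.map_mul]
  have h1 : ((∑ j ∈ B, ε j : ℤ) : WithTop ℤ) ≤ v (∏ j : B, ev u (linX (t j) (σ j))) := by
    rw [← Finset.sum_coe_sort B ε]
    refine Bounds_ord_prod v Finset.univ _ (fun j : B => ε j) fun j _ => ?_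
    rw [Bounds_ev_linX]
    exact hε j j.2 (σ j)
  calc ((∑ j ∈ B, ε j : ℤ) : WithTop ℤ) = ((∑ j ∈ B, ε j : ℤ) : WithTop ℤ) + 0 :=
        (add_zero _).symm
    _ ≤ _ := add_le_add h1 (Bounds_ord_nonneg v hv hu (R σ))

/-- The absolute value of a good polynomial. -/
theorem Good.norm_bound (hQ : Good t K Q) {B : Finset ι}
    (hB : LinearIndependent ℂ fun j : B => t j) :
    ∃ C : ℝ, 0 ≤ C ∧ ∀ (u : Fin r → Fin (n + 1) → ℂ) (δ : ι → ℝ), (∀ a i, ‖u a i‖ ≤ 1) →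
      (∀ j ∈ B, ∀ a, ‖lin (t j) (u a)‖ ≤ δ j) → (∀ j ∈ B, 0 ≤ δ j) →
        ‖ev u Q‖ ≤ C * ∏ j ∈ B, δ j := by
  classical
  obtain ⟨R, hR⟩ := hQ.exists_decomp hB
  choose C hC HC using fun σ => Bounds_norm (R σ)
  refine ⟨∑ σ, C σ, Finset.sum_nonneg fun σ _ => hC σ, fun u δ hu hδ hδ0 => ?_⟩
  rw [hR, map_sum, Finset.sum_mul]
  refine (norm_sum_le _ _).trans (Finset.sum_le_sum fun σ _ => ?_)
  rw [map_mul, map_prod, norm_mul, norm_prod, mul_comm (C σ)]
  refine mul_le_mul ?_ (HC σ u hu) (norm_nonneg _) (Finset.prod_nonneg hδ0)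
  rw [← Finset.prod_coe_sort B δ]
  refine Finset.prod_le_prod (fun _ _ => norm_nonneg _) fun j _ => ?_
  rw [Bounds_ev_linX]
  exact hδ j j.2 (σ j)

end Pool.Agent.H39.HC
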