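import Pool.Agent.H39.HC.Defs
import Pool.Agent.H5.DG.CovAlg

/-!
# The orders of the forms along the prime divisors
-/

open MvPolynomial
open Pool.Agent.H17GT (coordFun)
open Pool.Agent.H17LG.Variety (FunField ratio)
open Pool.Agent.H23.Fano (PrimeDivisorOver)
open Pool.Agent.H5.DG (comb BaseFree RamM OnForms valAt)

noncomputable section

namespace Pool.Agent.H39.HC

section Helpers

variable {Nn w : ℕ} {P : Ideal (MvPolynomial (Fin (Nn + 1)) ℂ)}

private theorem CovOrd_ratio_self [P.IsPrime] {j₀ : Fin (Nn + 1)} (h : coordFun P j₀ ≠ 0) :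
    ratio P j₀ j₀ = 1 := by
  apply Subtype.ext
  exact div_self h

private theorem CovOrd_ratio_mul [P.IsPrime] {j₁ : Fin (Nn + 1)} (h : coordFun P j₁ ≠ 0)
    (i j₀ : Fin (Nn + 1)) : ratio P j₁ j₀ * ratio P i j₁ = ratio P i j₀ := by
  apply Subtype.ext
  change coordFun P j₁ / coordFun P j₀ * (coordFun P i / coordFun P j₁) =
    coordFun P i / coordFun P j₀
  rw [div_mul_div_comm, mul_comm (coordFun P j₀), mul_div_mul_left _ _ h]

private theorem CovOrd_eval_zero [P.IsPrime] {j₀ : Fin (Nn + 1)} (h : coordFun P j₀ ≠ 0)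
    {n : ℕ} {Q : MvPolynomial (Fin (Nn + 1)) ℂ} (hQ : Q.IsHomogeneous n) (hQP : Q ∈ P) :
    aeval (fun i => ratio P i j₀) Q = 0 := by
  set x : Fin (Nn + 1) → Pool.Agent.H17GT.functionField P := fun i => ratio P i j₀ with hx
  have h0 : aeval (fun i => ratio P i j₀) Q =
    (aeval x Q : Pool.Agent.H17GT.functionField P) := rfl
  have h1 : ((aeval x Q : Pool.Agent.H17GT.functionField P) :
      FractionRing (MvPolynomial (Fin (Nn + 1)) ℂ ⧸ P)) =
      aeval (fun i => (coordFun P j₀)⁻¹ * coordFun P i) Q := by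
    have h3 : ((Pool.Agent.H17GT.functionField P).val (aeval x Q)) =
        aeval (fun i => (Pool.Agent.H17GT.functionField P).val (x i)) Q := by
      rw [← MvPolynomial.comp_aeval]
      rfl
    change (Pool.Agent.H17GT.functionField P).val (aeval x Q) = _
    rw [h3]
    congr 2
    funext i
    change coordFun P i / coordFun P j₀ = _
    rw [div_eq_inv_mul]
  rw [Pool.Agent.H92.GT.Proj.aeval_scale hQ] at h1
  have h2 := (Pool.Agent.H92.GT.Proj.aeval_coordFun_eq_zero_iff P Q).2 hQP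
  rw [h0]
  apply Subtype.ext
  rw [h1, h2, mul_zero]
  rfl

private theorem CovOrd_eval_of_mem [P.IsPrime] (hP : Pool.Agent.H5.DG.Homog P)
    {j₀ : Fin (Nn + 1)} (h : coordFun P j₀ ≠ 0) {Q : MvPolynomial (Fin (Nn + 1)) ℂ}
    (hQ : Q ∈ P) : aeval (fun i => ratio P i j₀) Q = 0 := by
  rw [← sum_homogeneousComponent Q, map_sum]
  exact Finset.sum_eq_zero fun d _ => CovOrd_eval_zero h
    (homogeneousComponent_isHomogeneous d Q) (hP Q hQ d)

private theorem CovOrd_scale {m : ℕ} {K : Type} [Field K] [Algebra ℂ K]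
    {G : MvPolynomial (Fin m) ℂ} {n : ℕ} (hG : G.IsHomogeneous n) (c : K) (x : Fin m → K) :
    aeval (fun i => c * x i) G = c ^ n * aeval x G := by
  rw [aeval_def, aeval_def, eval₂_eq, eval₂_eq, Finset.mul_sum]
  refine Finset.sum_congr rfl fun m hm => ?_
  have h5 : ∑ i ∈ m.support, m i = n := by
    have := hG (mem_support_iff.1 hm)
    rw [Finsupp.weight_apply, Finsupp.sum] at this
    simpa using this
  simp only [mul_pow, Finset.prod_mul_distrib]
  rw [Finset.prod_pow_eq_pow_sum, h5]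
  ring

end Helpers

section Val

variable {K : Type} [Field K] [Algebra ℂ K] {w : ℕ}

private theorem CovOrd_nonneg {m : ℕ} (E : PrimeDivisorOver K w) {y : Fin m → K}
    (hy : ∀ i, 0 ≤ E.ord (y i)) (G : MvPolynomial (Fin m) ℂ) : 0 ≤ E.ord (aeval y G) := by
  induction G using MvPolynomial.induction_on with
  | C c => rw [aeval_C]; exact E.ord_const c
  | add p q hp hq => rw [map_add]; exact E.ord.map_le_add hp hq
  | mul_X p i hp =>
    rw [map_mul, aeval_X, AddValuation.map_mul]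
    exact add_nonneg hp (hy i)

/-- The polynomials whose value has order at least `o`. -/
private def CovOrd_ge {m : ℕ} (E : PrimeDivisorOver K w) {y : Fin m → K}
    (hy : ∀ i, 0 ≤ E.ord (y i)) (o : WithTop ℤ) : Ideal (MvPolynomial (Fin m) ℂ) where
  carrier := {G | o ≤ E.ord (aeval y G)}
  zero_mem' := by
    change o ≤ E.ord (aeval y 0)
    rw [map_zero, AddValuation.map_zero]
    exact le_top
  add_mem' := by
    intro a b ha hb
    change o ≤ E.ord (aeval y (a + b))
    rw [map_add]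
    exact E.ord.map_le_add ha hb
  smul_mem' := by
    intro c a ha
    change o ≤ E.ord (aeval y (c • a))
    rw [smul_eq_mul, map_mul, AddValuation.map_mul, ← zero_add o]
    exact add_le_add (CovOrd_nonneg E hy c) ha

private theorem CovOrd_mem_ge {m : ℕ} (E : PrimeDivisorOver K w) {y : Fin m → K}
    (hy : ∀ i, 0 ≤ E.ord (y i)) (o : WithTop ℤ) (G : MvPolynomial (Fin m) ℂ) :
    G ∈ CovOrd_ge E hy o ↔ o ≤ E.ord (aeval y G) := Iff.rfl

private theorem CovOrd_pow {m : ℕ} (E : PrimeDivisorOver K w) {y : Fin m → K}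
    (hy : ∀ i, 0 ≤ E.ord (y i)) (q : ℕ) :
    CovOrd_ge E hy 1 ^ q ≤ CovOrd_ge E hy ((q : ℤ) : WithTop ℤ) := by
  induction q with
  | zero =>
    intro G _
    rw [CovOrd_mem_ge]
    exact CovOrd_nonneg E hy G
  | succ q ih =>
    rw [pow_succ, Ideal.mul_le]
    intro a ha b hb
    have ha' := ih ha
    rw [CovOrd_mem_ge] at ha' hb ⊢
    rw [map_mul, AddValuation.map_mul]
    have h1 : (((q + 1 : ℕ) : ℤ) : WithTop ℤ) = ((q : ℤ) : WithTop ℤ) + 1 := by
      push_cast
      rfl
    rw [h1]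
    exact add_le_add ha' hb

private theorem CovOrd_one_le {o : WithTop ℤ} : 1 ≤ o ↔ 0 < o := by
  induction o with
  | top => simp
  | coe o =>
    rw [← WithTop.coe_one, ← WithTop.coe_zero, WithTop.coe_le_coe, WithTop.coe_lt_coe]
    exact Iff.rfl

private theorem CovOrd_radical {m : ℕ} (E : PrimeDivisorOver K w) {y : Fin m → K}
    (hy : ∀ i, 0 ≤ E.ord (y i)) {J : Ideal (MvPolynomial (Fin m) ℂ)}
    (hJ : J ≤ CovOrd_ge E hy 1) : J.radical ≤ CovOrd_ge E hy 1 := by
  intro B hB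
  obtain ⟨s, hs⟩ := hB
  have h1 := hJ hs
  rw [CovOrd_mem_ge, CovOrd_one_le] at h1 ⊢
  rw [map_pow, AddValuation.map_pow] at h1
  by_contra hcon
  have h2 : E.ord (aeval y B) = 0 := le_antisymm (not_lt.1 hcon) (CovOrd_nonneg E hy B)
  rw [h2, smul_zero] at h1
  exact lt_irrefl _ h1

end Val

/-- Along a prime divisor, not centred in the removed hypersurfaces, the orders of the linear forms
are minimal or larger by at least `q`. -/
theorem cov_ord {r q m Nn e w : ℕ} (hq : 1 ≤ q) {l : Fin m → Fin (r + 1) → ℂ}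
    (P : Ideal (MvPolynomial (Fin (Nn + 1)) ℂ)) [P.IsPrime] (hP : Pool.Agent.H5.DG.Homog P)
    {F : Fin (r + 1) → MvPolynomial (Fin (Nn + 1)) ℂ} (hF : BaseFree P e F) (O : Finset (Fin m))
    (hram : ∀ j ∉ O, RamM q P (comb (l j) F)) {j₀ : Fin (Nn + 1)} (hj₀ : coordFun P j₀ ≠ 0)
    {a₀ : Fin (r + 1)} (ha₀ : valAt P j₀ F a₀ ≠ 0) (E : PrimeDivisorOver (FunField P) w)
    (hE : ¬ OnForms P O (fun j => comb (l j) F) E) (i₁ : Fin (r + 1))
    (hi₁ : ∀ i, E.ord (valAt P j₀ F i₁ / valAt P j₀ F a₀) ≤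
      E.ord (valAt P j₀ F i / valAt P j₀ F a₀)) (j : Fin m) :
    E.ord (lin (l j) fun a => valAt P j₀ F a / valAt P j₀ F a₀) =
        E.ord (valAt P j₀ F i₁ / valAt P j₀ F a₀) ∨
      E.ord (valAt P j₀ F i₁ / valAt P j₀ F a₀) + (q : WithTop ℤ) ≤
        E.ord (lin (l j) fun a => valAt P j₀ F a / valAt P j₀ F a₀) := by
  classical
  -- the coordinate of minimal order
  obtain ⟨j₁, -, hj₁⟩ := Finset.exists_min_image (Finset.univ : Finset (Fin (Nn + 1)))
    (fun i => E.ord (ratio P i j₀)) ⟨j₀, Finset.mem_univ _⟩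
  have hj₁' : ∀ i, E.ord (ratio P j₁ j₀) ≤ E.ord (ratio P i j₀) :=
    fun i => hj₁ i (Finset.mem_univ _)
  have hc0 : ratio P j₁ j₀ ≠ 0 := by
    intro h
    have h1 := hj₁' j₀
    rw [h, CovOrd_ratio_self hj₀, AddValuation.map_zero, AddValuation.map_one] at h1
    exact absurd h1 (by simp)
  have hcf : coordFun P j₁ ≠ 0 := by
    intro h
    apply hc0
    apply Subtype.ext
    change coordFun P j₁ / coordFun P j₀ = 0
    rw [h, zero_div]
  have hfin : ∀ f : FunField P, f ≠ 0 → ∃ o : ℤ, E.ord f = (o : WithTop ℤ) := by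
    intro f hf
    have h1 : E.ord f ≠ ⊤ := fun h => hf ((AddValuation.top_iff _).1 h)
    exact ⟨(E.ord f).untop h1, (WithTop.coe_untop _ h1).symm⟩
  have hcancel : ∀ (c : FunField P), c ≠ 0 → ∀ a b : WithTop ℤ,
      E.ord c + a ≤ E.ord c + b → a ≤ b := by
    intro c hc a b h
    obtain ⟨o, ho⟩ := hfin c hc
    rw [ho] at h
    exact (WithTop.add_le_add_iff_left WithTop.coe_ne_top).1 h
  set y : Fin (Nn + 1) → FunField P := fun i => ratio P i j₁ with hy
  have hy0 : ∀ i, 0 ≤ E.ord (y i) := by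
    intro i
    refine hcancel _ hc0 _ _ ?_
    rw [add_zero, ← AddValuation.map_mul, hy]
    change E.ord (ratio P j₁ j₀) ≤ E.ord (ratio P j₁ j₀ * ratio P i j₁)
    rw [CovOrd_ratio_mul hcf]
    exact hj₁' i
  have hy1 : y j₁ = 1 := CovOrd_ratio_self hcf
  set v : Fin (r + 1) → FunField P := fun a => aeval y (F a) with hv
  have hval : ∀ a, valAt P j₀ F a = ratio P j₁ j₀ ^ e * v a := by
    intro a
    have h1 : (fun i => ratio P i j₀) = fun i => ratio P j₁ j₀ * y i := by
      funext i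
      exact (CovOrd_ratio_mul hcf i j₀).symm
    change aeval (fun i => ratio P i j₀) (F a) = _
    rw [h1]
    exact CovOrd_scale (hF.hom a) _ _
  have hce : ratio P j₁ j₀ ^ e ≠ 0 := pow_ne_zero _ hc0
  have hdiv : ∀ a, valAt P j₀ F a / valAt P j₀ F a₀ = v a / v a₀ := by
    intro a
    rw [hval, hval, mul_div_mul_left _ _ hce]
  have hva₀ : v a₀ ≠ 0 := by
    intro h
    apply ha₀
    rw [hval, h, mul_zero]
  have hordv : ∀ a, E.ord (v a₀) + E.ord (v a / v a₀) = E.ord (v a) := by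
    intro a
    rw [← AddValuation.map_mul, mul_div_cancel₀ _ hva₀]
  have hPle : ∀ q : WithTop ℤ, P ≤ CovOrd_ge E hy0 q := by
    intro q G hG
    rw [CovOrd_mem_ge]
    have h1 : aeval y G = 0 := CovOrd_eval_of_mem hP hcf hG
    rw [h1, AddValuation.map_zero]
    exact le_top
  have hXk : ∀ k : ℕ, aeval y (X j₁ ^ k : MvPolynomial (Fin (Nn + 1)) ℂ) = 1 := by
    intro k
    rw [map_pow, aeval_X, hy1, one_pow]
  -- the minimum of the orders is zero
  have hexists : ∃ a, E.ord (v a) ≤ 0 := by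
    by_contra hcon
    push Not at hcon
    obtain ⟨k, hk⟩ := hF.base j₁
    have h1 : Ideal.span (Set.range F) ⊔ P ≤ CovOrd_ge E hy0 1 := by
      refine sup_le ?_ (hPle 1)
      rw [Ideal.span_le]
      rintro _ ⟨a, rfl⟩
      change F a ∈ CovOrd_ge E hy0 1
      rw [CovOrd_mem_ge, CovOrd_one_le]
      exact hcon a
    have h2 := h1 hk
    rw [CovOrd_mem_ge, CovOrd_one_le, hXk, AddValuation.map_one] at h2
    exact lt_irrefl _ h2
  have hv0 : ∀ a, 0 ≤ E.ord (v a) := fun a => CovOrd_nonneg E hy0 (F a)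
  have hi₁v : E.ord (v i₁) = 0 := by
    obtain ⟨a, ha⟩ := hexists
    refine le_antisymm ?_ (hv0 i₁)
    have h1 := hi₁ a
    rw [hdiv, hdiv] at h1
    have h2 := add_le_add_right h1 (E.ord (v a₀))
    have h3 : E.ord (v i₁) ≤ E.ord (v a) := by
      rw [← hordv i₁, ← hordv a]
      exact add_le_add le_rfl h1
    exact h3.trans ha
  -- the form
  have hlin : (lin (l j) fun a => valAt P j₀ F a / valAt P j₀ F a₀) =
      aeval y (comb (l j) F) / v a₀ := by
    have h1 : aeval y (comb (l j) F) = ∑ a, l j a • v a := by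
      rw [comb, map_sum]
      refine Finset.sum_congr rfl fun a _ => ?_
      rw [map_mul, aeval_C, Algebra.smul_def]
    rw [h1, lin, Finset.sum_div]
    refine Finset.sum_congr rfl fun a _ => ?_
    rw [hdiv, smul_div_assoc]
  set lam : FunField P := aeval y (comb (l j) F) with hlam
  have hordlam : E.ord (v a₀) + E.ord (lam / v a₀) = E.ord lam := by
    rw [← AddValuation.map_mul, mul_div_cancel₀ _ hva₀]
  have hlam0 : 0 ≤ E.ord lam := CovOrd_nonneg E hy0 _
  rw [hlin, hdiv]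
  have hmain : E.ord lam = 0 ∨ ((q : ℤ) : WithTop ℤ) ≤ E.ord lam := by
    by_cases h0 : E.ord lam = 0
    · exact Or.inl h0
    have hpos : 0 < E.ord lam := lt_of_le_of_ne hlam0 (Ne.symm h0)
    by_cases hj : j ∈ O
    · exact absurd ⟨j₁, hcf, hy0, j, hj, hpos⟩ hE
    · right
      obtain ⟨k, hk⟩ := hram j hj j₁
      have h1 : Ideal.span {comb (l j) F} ⊔ P ≤ CovOrd_ge E hy0 1 := by
        refine sup_le ?_ (hPle 1)
        rw [Ideal.span_le, Set.singleton_subset_iff]
        change comb (l j) F ∈ CovOrd_ge E hy0 1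
        rw [CovOrd_mem_ge, CovOrd_one_le]
        exact hpos
      have h2 : (Ideal.radical (Ideal.span {comb (l j) F} ⊔ P)) ^ q ⊔ P ≤
          CovOrd_ge E hy0 ((q : ℤ) : WithTop ℤ) :=
        sup_le ((Ideal.pow_right_mono (CovOrd_radical E hy0 h1) q).trans
          (CovOrd_pow E hy0 q)) (hPle _)
      have h3 := h2 hk
      rw [CovOrd_mem_ge, map_mul, hXk, one_mul] at h3
      exact h3
  rcases hmain with h0 | h0
  · left
    refine le_antisymm (hcancel _ hva₀ _ _ ?_) (hcancel _ hva₀ _ _ ?_)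
    · rw [hordlam, hordv, h0, hi₁v]
    · rw [hordlam, hordv, h0, hi₁v]
  · right
    refine hcancel _ hva₀ _ _ ?_
    rw [← add_assoc, hordlam, hordv, hi₁v, zero_add]
    exact h0

end Pool.Agent.H39.HC
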