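import Pool.Agent.H39.HC.Defs
import Pool.Agent.H62.FC.LGTMain

/-!
# Independence of the derivatives, and the transcendence degree
-/

open MvPolynomial
open Pool.Agent.H23 (dualDer)

noncomputable section

namespace Pool.Agent.H39.HC

variable {L : Type} [Field L] [Algebra ℂ L]

/-- A derivation that vanishes on a subfield over which `L` is algebraic is zero. -/
private theorem Jac_der {F : IntermediateField ℂ L} (halg : Algebra.IsAlgebraic F L)
    (Y : Derivation ℂ L L) (hY : ∀ c ∈ F, Y c = 0) (f : L) : Y f = 0 := by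
  have h1 : Algebra.IsSeparable F L := inferInstance
  have h2 : Algebra.FormallyUnramified F L := Algebra.FormallyUnramified.of_isSeparable F L
  let T : L →ₗ[F] L :=
    { toFun := Y
      map_add' := map_add Y
      map_smul' := fun c g => by
        have h3 : c • g = (c : L) * g := rfl
        rw [h3, Y.leibniz, hY c c.2, smul_zero, add_zero]
        rfl }
  let YF : Derivation F L L := Derivation.mk' T fun a b => Y.leibniz a b
  have h4 : YF f = YF.liftKaehlerDifferential (KaehlerDifferential.D F L f) := by
    rw [Derivation.liftKaehlerDifferential_comp_D]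
  have h5 : KaehlerDifferential.D F L f = 0 := Subsingleton.elim _ _
  rw [h5, map_zero] at h4
  exact h4

private theorem Jac_adjoin {ι : Type} (x : ι → L) (Y : Derivation ℂ L L)
    (hY : ∀ l, Y (x l) = 0) : ∀ c ∈ IntermediateField.adjoin ℂ (Set.range x), Y c = 0 := by
  intro c hc
  induction hc using IntermediateField.adjoin_induction with
  | mem c hc =>
    obtain ⟨l, rfl⟩ := hc
    exact hY l
  | algebraMap c => exact Y.map_algebraMap c
  | add a b _ _ ha hb => rw [map_add, ha, hb, add_zero]
  | inv a _ ha =>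
    rcases eq_or_ne a 0 with h0 | h0
    · rw [h0, inv_zero, map_zero]
    · have h1 : Y (a * a⁻¹) = 0 := by
        rw [mul_inv_cancel₀ h0]
        exact Y.map_one_eq_zero
      rw [Y.leibniz, ha, smul_zero, add_zero, smul_eq_mul] at h1
      exact (mul_eq_zero.mp h1).resolve_left h0
  | mul a b _ _ ha hb => rw [Y.leibniz, ha, hb, smul_zero, smul_zero, add_zero]

/-- The coordinate vector and its derivatives are linearly independent. -/
theorem linearIndependent_derivatives {k n : ℕ} {x : Fin (n + 1) → L} {i₀ : Fin (n + 1)}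
    (hi₀ : x i₀ = 1)
    (halg : Algebra.IsAlgebraic (IntermediateField.adjoin ℂ (Set.range x)) L)
    (b : Module.Basis (Fin (k + 1)) L Ω[L⁄ℂ]) :
    LinearIndependent L
      (Fin.cons x fun i l => dualDer b i (x l) : Fin (k + 2) → Fin (n + 1) → L) := by
  rw [Fintype.linearIndependent_iff]
  intro g hg
  rw [Fin.sum_univ_succ] at hg
  simp only [Fin.cons_zero, Fin.cons_succ] at hg
  have h1 : ∀ l, g 0 * x l + ∑ i : Fin (k + 1), g i.succ * dualDer b i (x l) = 0 := by
    intro l
    have h2 := congrFun hg l
    simpa [Finset.sum_apply] using h2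
  have hg0 : g 0 = 0 := by
    have h2 := h1 i₀
    rw [hi₀] at h2
    have h3 : ∀ i, dualDer b i (1 : L) = 0 := fun i => (dualDer b i).map_one_eq_zero
    simpa [h3] using h2
  let Y : Derivation ℂ L L := ∑ i : Fin (k + 1), g i.succ • dualDer b i
  have hYf : ∀ f, Y f = ∑ i : Fin (k + 1), g i.succ * dualDer b i f := by
    intro f
    let ψ : Derivation ℂ L L →+ L := ⟨⟨fun D => D f, rfl⟩, fun _ _ => rfl⟩
    exact map_sum ψ (fun i : Fin (k + 1) => g i.succ • dualDer b i) Finset.univ
  have hY : ∀ l, Y (x l) = 0 := by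
    intro l
    have h2 := h1 l
    rw [hg0, zero_mul, zero_add] at h2
    rw [hYf, h2]
  have hY0 : ∀ f, Y f = 0 := Jac_der halg Y (Jac_adjoin x Y hY)
  let Φ : Ω[L⁄ℂ] →ₗ[L] L := ∑ i : Fin (k + 1), g i.succ • b.coord i
  have hΦ : Φ = 0 := by
    refine LinearMap.ext_on_range (KaehlerDifferential.span_range_derivation ℂ L) fun f => ?_
    have h2 := hY0 f
    rw [hYf] at h2
    simp only [Φ, LinearMap.sum_apply, LinearMap.smul_apply, Module.Basis.coord_apply,
      smul_eq_mul, LinearMap.zero_apply]
    exact h2
  intro a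
  refine Fin.cases hg0 (fun j => ?_) a
  have h3 : Φ (b j) = 0 := by rw [hΦ, LinearMap.zero_apply]
  simp only [Φ, LinearMap.sum_apply, LinearMap.smul_apply, Module.Basis.coord_apply,
    smul_eq_mul, Module.Basis.repr_self] at h3
  rw [Finset.sum_eq_single j] at h3
  · simpa using h3
  · intro i _ hij
    simp [Ne.symm hij]
  · intro h
    exact absurd (Finset.mem_univ j) h

private theorem Jac_trdeg {ι : Type} [Fintype ι] {y : ι → L} {w : ℕ}
    (halg : Algebra.IsAlgebraic (IntermediateField.adjoin ℂ (Set.range y)) L) {z : Fin w → L}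
    (hz : IsTranscendenceBasis ℂ z) : w ≤ Fintype.card ι := by
  have h1 : Algebra.IsAlgebraic (Algebra.adjoin ℂ (Set.range y)) L := by
    open scoped IntermediateField.algebraAdjoinAdjoin in
    exact (IsFractionRing.comap_isAlgebraic_iff (A := Algebra.adjoin ℂ (Set.range y))
      (K := IntermediateField.adjoin ℂ (Set.range y)) (C := L)).mpr halg
  have h2 := Algebra.IsAlgebraic.trdeg_le_cardinalMk ℂ (Set.range y)
  have h3 : Cardinal.mk (Fin w) = Algebra.trdeg ℂ L := hz.cardinalMk_eq_trdeg
  rw [← h3] at h2
  have h4 : Cardinal.mk (Set.range y) ≤ Cardinal.mk ι := Cardinal.mk_range_le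
  have h5 := h2.trans h4
  simpa using h5

/-- The transcendence degree is at most `n`. -/
theorem trdeg_le {w n : ℕ} {x : Fin (n + 1) → L} {i₀ : Fin (n + 1)} (hi₀ : x i₀ = 1)
    (halg : Algebra.IsAlgebraic (IntermediateField.adjoin ℂ (Set.range x)) L) {z : Fin w → L}
    (hz : IsTranscendenceBasis ℂ z) : w ≤ n := by
  classical
  let y' : {l : Fin (n + 1) // l ≠ i₀} → L := fun l => x l
  have hsub : IntermediateField.adjoin ℂ (Set.range x) ≤
      IntermediateField.adjoin ℂ (Set.range y') := by
    rw [IntermediateField.adjoin_le_iff]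
    rintro _ ⟨l, rfl⟩
    by_cases hl : l = i₀
    · rw [hl, hi₀]
      exact one_mem _
    · exact IntermediateField.subset_adjoin ℂ _ ⟨⟨l, hl⟩, rfl⟩
  have halg' : Algebra.IsAlgebraic (IntermediateField.adjoin ℂ (Set.range y')) L := by
    let _ : Algebra (IntermediateField.adjoin ℂ (Set.range x))
      (IntermediateField.adjoin ℂ (Set.range y')) :=
      (IntermediateField.inclusion hsub).toAlgebra
    have : IsScalarTower (IntermediateField.adjoin ℂ (Set.range x))
      (IntermediateField.adjoin ℂ (Set.range y')) L := IsScalarTower.of_algebraMap_eq fun _ => rfl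
    exact Algebra.IsAlgebraic.tower_top (K := IntermediateField.adjoin ℂ (Set.range x)) _
  have hw := Jac_trdeg halg' hz
  have hc : Fintype.card {l : Fin (n + 1) // l ≠ i₀} = n := by
    rw [Fintype.card_subtype_compl, Fintype.card_fin, Fintype.card_subtype_eq]
    omega
  omega

end Pool.Agent.H39.HC
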