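import Pool.Agent.H39.HC.Defs

/-!
# The numerical condition
-/

namespace Pool.Agent.H39.HC

private theorem Num_step {b n r : ℕ} (hb : n ≤ b) (hr : 1 ≤ r) (hrn : r + 1 ≤ n + 1) :
    (r + 1) * wtK n (b + 1) (r + 1) ≤ r * wtK n (b + 1) r := by
  obtain ⟨j, rfl⟩ : ∃ j, n = r + j := ⟨n - r, by omega⟩
  unfold wtK
  have h1 : b + 1 + (r + j) - (r + 1) = b + j := by omega
  have h2 : r + j + 1 - (r + 1) = j := by omega
  have h3 : b + 1 + (r + j) - r = b + j + 1 := by omega
  have h4 : r + j + 1 - r = j + 1 := by omega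
  rw [h1, h2, h3, h4]
  have h5 := Nat.add_one_mul_choose_eq (b + j) j
  have h6 : (r + 1) * (j + 1) ≤ r * (b + j + 1) := by nlinarith
  have h7 : (r + 1) * (b + j).choose j * (j + 1) ≤ r * (b + j + 1).choose (j + 1) * (j + 1) := by
    calc (r + 1) * (b + j).choose j * (j + 1) = (r + 1) * (j + 1) * (b + j).choose j := by ring
      _ ≤ r * (b + j + 1) * (b + j).choose j := Nat.mul_le_mul_right _ h6
      _ = r * ((b + j + 1) * (b + j).choose j) := by ring
      _ = r * ((b + j + 1).choose (j + 1) * (j + 1)) := by rw [h5]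
      _ = _ := by ring
  exact Nat.le_of_mul_le_mul_right h7 (Nat.succ_pos j)

private theorem Num_dec {b n : ℕ} (hb : n ≤ b) {r : ℕ} (hr : 2 ≤ r) (hrn : r ≤ n + 1) :
    r * wtK n (b + 1) r ≤ 2 * wtK n (b + 1) 2 := by
  induction r, hr using Nat.le_induction with
  | base => exact le_refl _
  | succ r hr ih => exact (Num_step hb (by omega) hrn).trans (ih (by omega))

/-- The numerical condition. -/
theorem numCond {n m b r : ℕ} (hn : 1 ≤ n) (hm : 2 ≤ m) (hb : n * (m + 1) < b * (m - 1))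
    (hr : 2 ≤ r) (hrn : r ≤ n + 1) :
    m * r * wtK n (b + 1) r < (m - 1) * (n + b).choose n := by
  obtain ⟨k, rfl⟩ : ∃ k, n = k + 1 := ⟨n - 1, by omega⟩
  obtain ⟨m', rfl⟩ : ∃ m', m = m' + 2 := ⟨m - 2, by omega⟩
  have hm1 : m' + 2 - 1 = m' + 1 := by omega
  rw [hm1] at hb ⊢
  have hbn : k + 1 ≤ b := by
    by_contra hc
    push Not at hc
    have h1 : b * (m' + 1) ≤ (k + 1) * (m' + 1) := Nat.mul_le_mul_right _ hc.le
    have h2 : (k + 1) * (m' + 1) ≤ (k + 1) * (m' + 2 + 1) := Nat.mul_le_mul_left _ (by omega)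
    omega
  have h1 := Num_dec hbn hr hrn
  have h2 : wtK (k + 1) (b + 1) 2 = (b + k).choose k := by
    unfold wtK
    congr 1
    omega
  rw [h2] at h1
  have h3 := Nat.add_one_mul_choose_eq (b + k) k
  have h4 : (k + 1 + b).choose (k + 1) = (b + k + 1).choose (k + 1) := by
    congr 1
    omega
  rw [h4]
  have hpos : 0 < (b + k).choose k := Nat.choose_pos (by omega)
  have h5 : (m' + 2) * (2 * (b + k).choose k) * (k + 1) <
      (m' + 1) * (b + k + 1).choose (k + 1) * (k + 1) := by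
    calc (m' + 2) * (2 * (b + k).choose k) * (k + 1)
        = (2 * (m' + 2) * (k + 1)) * (b + k).choose k := by ring
      _ < ((m' + 1) * (b + k + 1)) * (b + k).choose k := by
        refine Nat.mul_lt_mul_of_pos_right ?_ hpos
        nlinarith
      _ = (m' + 1) * ((b + k + 1) * (b + k).choose k) := by ring
      _ = (m' + 1) * ((b + k + 1).choose (k + 1) * (k + 1)) := by rw [h3]
      _ = _ := by ring
  have h6 := lt_of_mul_lt_mul_right h5 (Nat.zero_le _)
  calc (m' + 2) * r * wtK (k + 1) (b + 1) r = (m' + 2) * (r * wtK (k + 1) (b + 1) r) := by ring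
    _ ≤ (m' + 2) * (2 * (b + k).choose k) := Nat.mul_le_mul_left _ h1
    _ < _ := h6

end Pool.Agent.H39.HC
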