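import Pool.Agent.H39.HC.Defs

/-!
# Restriction of the linear forms to a linear subspace, and independent conditions
-/

open MvPolynomial

noncomputable section

namespace Pool.Agent.H39.HC

variable {ι : Type} {n : ℕ}

/-- The coefficients of the restriction of the linear form `lin v` to the subspace parametrised by
`B`. -/
def restr {n' : ℕ} (B : Fin (n + 1) → Fin (n' + 1) → ℂ) (v : Fin (n + 1) → ℂ) :
    Fin (n' + 1) → ℂ :=
  fun l => ∑ i, v i * B i l

private theorem Restrict_finrank (n b : ℕ) :
    Module.finrank ℂ (homogeneousSubmodule (Fin (n + 1)) ℂ b) = (n + b).choose n := by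
  classical
  have hs : {d : Fin (n + 1) →₀ ℕ | d.degree = b} =
      ((Finset.univ : Finset (Fin (n + 1))).finsuppAntidiag b : Set (Fin (n + 1) →₀ ℕ)) := by
    ext d
    simp only [Set.mem_ofPred_eq, Finset.mem_coe, Finset.mem_finsuppAntidiag, Finset.subset_univ,
      and_true]
    rw [Finsupp.degree_eq_sum]
  rw [homogeneousSubmodule_eq_finsupp_supported, hs,
    LinearEquiv.finrank_eq (AddMonoidAlgebra.supportedEquivFinsupp (R := ℂ) (S := ℂ)
      ((Finset.univ : Finset (Fin (n + 1))).finsuppAntidiag b : Set (Fin (n + 1) →₀ ℕ))),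
    Module.finrank_finsupp_self]
  refine (Fintype.card_coe ((Finset.univ : Finset (Fin (n + 1))).finsuppAntidiag b)).trans ?_
  rw [Finset.card_finsuppAntidiag_nat_eq_choose, Finset.card_univ, Fintype.card_fin,
    show n + 1 + b - 1 = n + b by omega, Nat.choose_symm_add]

private theorem Restrict_basis {κ : Type} [Fintype κ] (v : κ → Fin (n + 1) → ℂ)
    (hv : LinearIndependent ℂ v) (hne : Submodule.span ℂ (Set.range v) ≠ ⊤) :
    ∃ (n' : ℕ) (b : Module.Basis (κ ⊕ Fin (n' + 1)) ℂ (Fin (n + 1) → ℂ)),
      Fintype.card κ + n' = n ∧ ∀ k, b (Sum.inl k) = v k := by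
  obtain ⟨W', hW⟩ := Submodule.exists_isCompl (Submodule.span ℂ (Set.range v))
  have hpos : Module.finrank ℂ W' ≠ 0 := by
    intro h
    rw [Submodule.finrank_eq_zero] at h
    rw [h] at hW
    exact hne (eq_top_of_isCompl_bot hW)
  obtain ⟨n', hn'⟩ := Nat.exists_eq_succ_of_ne_zero hpos
  refine ⟨n', ((Module.Basis.span hv).prod (Module.finBasisOfFinrankEq ℂ W' hn')).map
    (Submodule.prodEquivOfIsCompl _ W' hW), ?_, fun k => ?_⟩
  · have h1 := Submodule.finrank_add_eq_of_isCompl hW
    rw [finrank_span_eq_card hv, hn', Module.finrank_fintype_fun_eq_card, Fintype.card_fin] at h1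
    omega
  · rw [Module.Basis.map_apply, Submodule.coe_prodEquivOfIsCompl', Module.Basis.prod_apply]
    simp [Module.Basis.span_apply]

private theorem Restrict_repr {κ : Type} [Fintype κ] (b : Module.Basis κ ℂ (Fin (n + 1) → ℂ))
    (v : Fin (n + 1) → ℂ) (x : κ) :
    ∑ i, v i * b.repr (Pi.single i (1 : ℂ)) x = b.repr v x := by
  have h : v = ∑ i, v i • (Pi.single i (1 : ℂ) : Fin (n + 1) → ℂ) := by
    ext k
    simp [Finset.sum_apply, Pi.single_apply]
  conv_rhs => rw [h]
  rw [map_sum, Finsupp.finsetSum_apply]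
  refine Finset.sum_congr rfl fun i _ => ?_
  rw [map_smul, Finsupp.smul_apply, smul_eq_mul]

/-- `lin (restr B v) y = lin v (B y)`. -/
theorem lin_restr {R : Type*} [CommRing R] [Algebra ℂ R] {n' : ℕ}
    (B : Fin (n + 1) → Fin (n' + 1) → ℂ) (v : Fin (n + 1) → ℂ) (y : Fin (n' + 1) → R) :
    lin (restr B v) y = lin v fun i => lin (B i) y := by
  simp only [lin, restr, Finset.sum_smul, Finset.smul_sum, mul_smul]
  exact Finset.sum_comm

/-- The restriction of linear forms in general position, whose coefficient vectors lie on no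
hypersurface of degree `b`, to the intersection of some of the hyperplanes. -/
theorem exists_restrict {b : ℕ} (hb1 : 1 ≤ b) {t : ι → Fin (n + 1) → ℂ} (ht : GenPos t)
    (hb : Spans b t) (J : Finset ι) (hJ : ∃ x : Fin (n + 1) → ℂ, x ≠ 0 ∧ ∀ j ∈ J, lin (t j) x = 0) :
    ∃ (n' : ℕ) (B : Fin (n + 1) → Fin (n' + 1) → ℂ) (C : Fin (n' + 1) → Fin (n + 1) → ℂ)
      (D : Fin (n + 1) → ι → ℂ), n' ≤ n ∧
      (∀ l l', ∑ i, C l i * B i l' = if l = l' then 1 else 0) ∧
      (∀ i k, (if i = k then (1 : ℂ) else 0) = ∑ l, B i l * C l k + ∑ j ∈ J, D i j * t j k) ∧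
      GenPos (fun j : {j // j ∉ J} => restr B (t j)) ∧
      Spans b (fun j : {j // j ∉ J} => restr B (t j)) := by
  classical
  obtain ⟨x, hx0, hx⟩ := hJ
  -- the span of vectors `t j`, `j` in a subset of `J`, is not everything
  have hspan : ∀ S : Finset ι, S ⊆ J →
      Submodule.span ℂ (Set.range fun j : S => t j) ≠ ⊤ := by
    intro S hS htop
    let φ : (Fin (n + 1) → ℂ) →ₗ[ℂ] ℂ :=
      { toFun := fun w => lin w x
        map_add' := fun w w' => by simp [lin, add_mul, Finset.sum_add_distrib]
        map_smul' := fun c w => by simp [lin, mul_assoc, Finset.mul_sum] }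
    have h1 : Submodule.span ℂ (Set.range fun j : S => t j) ≤ LinearMap.ker φ := by
      rw [Submodule.span_le]
      rintro _ ⟨j, rfl⟩
      exact hx j (hS j.2)
    rw [htop, top_le_iff, LinearMap.ker_eq_top] at h1
    apply hx0
    ext i
    have h2 : φ (Pi.single i 1) = 0 := by rw [h1]; rfl
    have h3 : φ (Pi.single i 1) = x i := by
      change lin (Pi.single i (1 : ℂ)) x = x i
      simp [lin, Pi.single_apply]
    rw [← h3, h2]
    rfl
  have hJn : J.card ≤ n := by
    by_contra hcon
    obtain ⟨S, hSJ, hSc⟩ := Finset.exists_subset_card_eq (show n + 1 ≤ J.card by omega)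
    refine hspan S hSJ ?_
    refine (ht S hSc.le).span_eq_top_of_card_eq_finrank' ?_
    rw [Fintype.card_coe, hSc, Module.finrank_fintype_fun_eq_card, Fintype.card_fin]
  obtain ⟨n', β, hcard, hβ⟩ := Restrict_basis (fun j : J => t j) (ht J (by omega))
    (hspan J (le_refl J))
  rw [Fintype.card_coe] at hcard
  set B : Fin (n + 1) → Fin (n' + 1) → ℂ :=
    fun i l => β.repr (Pi.single i (1 : ℂ)) (Sum.inr l) with hB
  have hres : ∀ v l, restr B v l = β.repr v (Sum.inr l) := fun v l => Restrict_repr β v _
  have hresJ : ∀ j ∈ J, restr B (t j) = 0 := by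
    intro j hj
    ext l
    rw [hres, ← hβ ⟨j, hj⟩, β.repr_self]
    simp
  have hCB : ∀ l l', ∑ i, β (Sum.inr l) i * B i l' = if l = l' then 1 else 0 := by
    intro l l'
    have h1 := Restrict_repr β (β (Sum.inr l)) (Sum.inr l')
    rw [β.repr_self] at h1
    rw [hB]
    rw [h1, Finsupp.single_apply]
    simp
  have hker : ∀ v, restr B v = 0 → v ∈ Submodule.span ℂ (Set.range fun j : J => t j) := by
    intro v hv
    rw [← β.sum_repr v, Fintype.sum_sum_type]
    refine Submodule.add_mem _ ?_ ?_
    · refine Submodule.sum_mem _ fun j _ => Submodule.smul_mem _ _ ?_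
      rw [hβ]
      exact Submodule.subset_span ⟨j, rfl⟩
    · refine Submodule.sum_mem _ fun l _ => ?_
      rw [← hres, hv]
      simp
  refine ⟨n', B, fun l k => β (Sum.inr l) k,
    fun i j => if h : j ∈ J then β.repr (Pi.single i (1 : ℂ)) (Sum.inl ⟨j, h⟩) else 0,
    by omega, hCB, ?_, ?_, ?_⟩
  · intro i k
    have h1 := congrFun (β.sum_repr (Pi.single i (1 : ℂ))) k
    rw [Fintype.sum_sum_type] at h1
    simp only [Pi.add_apply, Finset.sum_apply, Pi.smul_apply, smul_eq_mul] at h1
    rw [Pi.single_apply] at h1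
    rw [show (if i = k then (1 : ℂ) else 0) = if k = i then 1 else 0 by
      simp only [eq_comm (a := i)], ← h1, add_comm]
    congr 1
    rw [← Finset.sum_coe_sort J]
    refine Finset.sum_congr rfl fun j _ => ?_
    dsimp only
    rw [hβ, dif_pos j.2]
  · intro S hS
    let Rm : (Fin (n + 1) → ℂ) →ₗ[ℂ] (Fin (n' + 1) → ℂ) :=
      { toFun := restr B
        map_add' := fun v w => by
          ext l
          simp only [hres, map_add, Finsupp.add_apply, Pi.add_apply]
        map_smul' := fun c v => by
          ext l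
          simp only [hres, map_smul, Finsupp.smul_apply, Pi.smul_apply, RingHom.id_apply] }
    set S' : Finset ι := S.map (Function.Embedding.subtype _) with hS'
    have hdisj : Disjoint J S' := by
      rw [Finset.disjoint_left]
      intro j hj hj'
      obtain ⟨y, -, hy⟩ := Finset.mem_map.1 hj'
      exact y.2 (by rw [show (y : ι) = j from hy]; exact hj)
    have hli := ht (J ∪ S') (by
      rw [Finset.card_union_of_disjoint hdisj, hS', Finset.card_map]
      omega)
    have hmem : ∀ j : S, ((j : {j // j ∉ J}) : ι) ∈ J ∪ S' := fun j =>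
      Finset.mem_union_right _ (Finset.mem_map.2 ⟨j, j.2, rfl⟩)
    let f : S → (J ∪ S' : Finset ι) := fun j => ⟨_, hmem j⟩
    have hf : Function.Injective f := by
      intro a b hab
      have := congrArg Subtype.val hab
      exact Subtype.ext (Subtype.ext this)
    have h1 : LinearIndependent ℂ (fun j : S => t ((j : {j // j ∉ J}) : ι)) := hli.comp f hf
    refine h1.map (f := Rm) ?_
    have hd := hli.disjoint_span_image
      (s := {y : (J ∪ S' : Finset ι) | (y : ι) ∈ S'}) (t := {y | (y : ι) ∈ J}) (by
        rw [Set.disjoint_left]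
        intro y hy hy'
        exact Finset.disjoint_left.1 hdisj hy' hy)
    refine hd.mono (Submodule.span_mono ?_) ?_
    · rintro _ ⟨j, rfl⟩
      exact ⟨f j, Finset.mem_map.2 ⟨j, j.2, rfl⟩, rfl⟩
    · intro v hv
      refine Submodule.span_mono ?_ (hker v hv)
      rintro _ ⟨j, rfl⟩
      exact ⟨⟨j, Finset.mem_union_left _ j.2⟩, j.2, rfl⟩
  · intro g hg hgj
    set h : MvPolynomial (Fin (n + 1)) ℂ :=
      aeval (fun l : Fin (n' + 1) => ∑ i, MvPolynomial.C (B i l) * X i) g with hh
    have hhom : h.IsHomogeneous b := by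
      have := hg.aeval (fun l : Fin (n' + 1) => ∑ i, MvPolynomial.C (B i l) * X i) (n := 1)
        (fun l => by
          refine IsHomogeneous.sum _ _ _ fun i _ => ?_
          have := (isHomogeneous_C (Fin (n + 1)) (B i l)).mul (isHomogeneous_X ℂ i)
          rwa [zero_add] at this)
      rwa [one_mul] at this
    have hev : ∀ v, eval v h = eval (restr B v) g := by
      intro v
      rw [hh, ← MvPolynomial.coe_aeval_eq_eval, ← MvPolynomial.coe_aeval_eq_eval]
      change (aeval v) (aeval _ g) = aeval (restr B v) g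
      rw [← AlgHom.comp_apply, MvPolynomial.comp_aeval]
      congr 2
      funext l
      simp only [map_sum, map_mul, aeval_X, aeval_C, Algebra.algebraMap_self, RingHom.id_apply,
        restr]
      exact Finset.sum_congr rfl fun i _ => mul_comm _ _
    have h0 : h = 0 := by
      refine hb h hhom fun j => ?_
      rw [hev]
      by_cases hj : j ∈ J
      · rw [hresJ j hj]
        rw [MvPolynomial.eval_zero, constantCoeff_eq]
        exact hg.coeff_eq_zero (by rw [map_zero]; omega)
      · exact hgj ⟨j, hj⟩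
    apply MvPolynomial.funext
    intro y
    have h2 : restr B (fun i => ∑ l, y l * β (Sum.inr l) i) = y := by
      ext l'
      simp only [restr, Finset.sum_mul]
      rw [Finset.sum_comm]
      have : ∀ l, ∑ i, y l * β (Sum.inr l) i * B i l' = y l * if l = l' then 1 else 0 := by
        intro l
        rw [← hCB, Finset.mul_sum]
        exact Finset.sum_congr rfl fun i _ => mul_assoc _ _ _
      simp only [this]
      simp
    rw [← h2, ← hev, h0, map_zero, map_zero]

/-- The coordinates of the points of the subspace. -/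
theorem eq_lin_of_restrict {R : Type*} [CommRing R] [Algebra ℂ R] {n' : ℕ} {J : Finset ι}
    {t : ι → Fin (n + 1) → ℂ} {B : Fin (n + 1) → Fin (n' + 1) → ℂ}
    {C : Fin (n' + 1) → Fin (n + 1) → ℂ} {D : Fin (n + 1) → ι → ℂ}
    (h : ∀ i k, (if i = k then (1 : ℂ) else 0) = ∑ l, B i l * C l k + ∑ j ∈ J, D i j * t j k)
    {x : Fin (n + 1) → R} (hx : ∀ j ∈ J, lin (t j) x = 0) (i : Fin (n + 1)) :
    x i = lin (B i) fun l => lin (C l) x := by
  have h1 : x i = ∑ k, (if i = k then (1 : ℂ) else 0) • x k := by
    simp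
  rw [h1]
  simp only [h, add_smul, Finset.sum_add_distrib, Finset.sum_smul, mul_smul]
  have h2 : ∑ k, ∑ j ∈ J, D i j • t j k • x k = 0 := by
    rw [Finset.sum_comm]
    refine Finset.sum_eq_zero fun j hj => ?_
    rw [← Finset.smul_sum]
    have := hx j hj
    rw [lin] at this
    rw [this, smul_zero]
  rw [h2, add_zero, Finset.sum_comm]
  simp only [lin, Finset.smul_sum]

/-- Points that lie on no hypersurface of degree `b` contain points that impose independent
conditions on forms of degree `b`, as many as possible. -/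
theorem exists_indep [Finite ι] {b : ℕ} {t : ι → Fin (n + 1) → ℂ} (hb : Spans b t) :
    ∃ T : Finset ι, T.card = (n + b).choose n ∧ Indep b fun j : T => t j := by
  classical
  let V := homogeneousSubmodule (Fin (n + 1)) ℂ b
  have hVf : Module.Finite ℂ V := Module.Finite.iff_fg.2 (homogeneousSubmodule_fg _ _ b)
  let φ : ι → Module.Dual ℂ V := fun j => (aeval (t j) : MvPolynomial _ ℂ →ₐ[ℂ] ℂ).toLinearMap ∘ₗ
    V.subtype
  have hφ : ∀ j (g : V), φ j g = eval (t j) (g : MvPolynomial (Fin (n + 1)) ℂ) := by
    intro j g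
    change aeval (t j) (g : MvPolynomial (Fin (n + 1)) ℂ) = _
    rw [← MvPolynomial.coe_aeval_eq_eval]
    rfl
  obtain ⟨κ, a, ha, hsp, hli⟩ := exists_linearIndependent' ℂ φ
  have hκ : Finite κ := Finite.of_injective a ha
  let hκ' := Fintype.ofFinite κ
  let E : V →ₗ[ℂ] (κ → ℂ) := LinearMap.pi fun k => φ (a k)
  have hEinj : Function.Injective E := by
    rw [← LinearMap.ker_eq_bot, LinearMap.ker_eq_bot']
    intro g hg
    have h1 : ∀ ψ ∈ Submodule.span ℂ (Set.range φ), ψ g = 0 := by
      intro ψ hψ
      rw [← hsp] at hψ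
      induction hψ using Submodule.span_induction with
      | mem ψ hψ =>
        obtain ⟨k, rfl⟩ := hψ
        exact congrFun hg k
      | zero => rfl
      | add ψ ψ' _ _ h h' => rw [LinearMap.add_apply, h, h', add_zero]
      | smul c ψ _ h => rw [LinearMap.smul_apply, h, smul_zero]
    apply Subtype.ext
    refine hb g g.2 fun j => ?_
    rw [← hφ]
    exact h1 _ (Submodule.subset_span ⟨j, rfl⟩)
  have hle1 : Module.finrank ℂ V ≤ Fintype.card κ := by
    have := LinearMap.finrank_le_finrank_of_injective hEinj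
    rwa [Module.finrank_fintype_fun_eq_card] at this
  have hle2 : Fintype.card κ ≤ Module.finrank ℂ V := by
    have := hli.fintype_card_le_finrank
    rwa [Subspace.dual_finrank_eq] at this
  have hcard : Fintype.card κ = Module.finrank ℂ V := le_antisymm hle2 hle1
  have hEsurj : Function.Surjective E :=
    (LinearMap.injective_iff_surjective_of_finrank_eq_finrank (by
      rw [Module.finrank_fintype_fun_eq_card, hcard])).1 hEinj
  refine ⟨Finset.univ.image a, ?_, ?_⟩
  · rw [Finset.card_image_of_injective _ ha, Finset.card_univ, hcard, Restrict_finrank]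
  · intro y
    obtain ⟨g, hg⟩ := hEsurj fun k => y ⟨a k, Finset.mem_image_of_mem a (Finset.mem_univ k)⟩
    refine ⟨g, g.2, ?_⟩
    rintro ⟨j, hj⟩
    obtain ⟨k, -, rfl⟩ := Finset.mem_image.1 hj
    have := congrFun hg k
    rw [← hφ]
    exact this

end Pool.Agent.H39.HC
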