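import Pool.Agent.H39.HC.GoodSharp

/-!
# Good polynomials that do not vanish at vectors over an extension field
-/

open MvPolynomial

noncomputable section

namespace Pool.Agent.H39.HC

variable {ι : Type} {n : ℕ}

/-- an `r × r` minor of a matrix with independent rows is not zero -/
private theorem Spec_minor {L : Type} [Field L] {r m : ℕ} {u : Fin r → Fin m → L}
    (hu : LinearIndependent L u) :
    ∃ c : Fin r → Fin m, Matrix.det (Matrix.of fun a b => u a (c b)) ≠ 0 := by
  let M : Matrix (Fin r) (Fin m) L := Matrix.of u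
  have hrank : M.rank = r := by
    have h1 : LinearIndependent L M.row := hu
    rw [h1.rank_matrix, Fintype.card_fin]
  rw [Matrix.rank_eq_finrank_span_cols] at hrank
  obtain ⟨κ, a, ha, hsp, hli⟩ := exists_linearIndependent' L M.col
  haveI : Finite κ := Finite.of_injective a ha
  haveI : Fintype κ := Fintype.ofFinite κ
  have hcard : Fintype.card κ = r := by
    have h1 := finrank_span_eq_card hli
    rw [hsp, hrank] at h1
    exact h1.symm
  let e : Fin r ≃ κ := (Fintype.equivFinOfCardEq hcard).symm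
  refine ⟨fun b => a (e b), ?_⟩
  have hli2 : LinearIndependent L (fun b : Fin r => M.col (a (e b))) :=
    hli.comp e e.injective
  let A : Matrix (Fin r) (Fin r) L := Matrix.of fun x b => u x (a (e b))
  have h3 : LinearIndependent L A.col := hli2
  have h4 : IsUnit A := Matrix.linearIndependent_cols_iff_isUnit.1 h3
  have h5 : IsUnit A.det := (Matrix.isUnit_iff_isUnit_det A).1 h4
  exact h5.ne_zero

private theorem Spec_ev_lin {L : Type} [CommRing L] [Algebra ℂ L] {r : ℕ} (v : Fin (n + 1) → ℂ)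
    (u : Fin r → Fin (n + 1) → L) (a : Fin r) : ev u (linX v a) = lin v (u a) := by
  unfold ev linX lin
  rw [map_sum]
  refine Finset.sum_congr rfl fun i _ => ?_
  rw [map_mul, aeval_X, algHom_C, Algebra.smul_def]

private theorem Spec_ev_det {L : Type} [CommRing L] [Algebra ℂ L] {r : ℕ}
    (u : Fin r → Fin (n + 1) → L) (c : Fin r → Fin (n + 1)) :
    ev u (Matrix.det (Matrix.of fun a b => (X (a, c b) : MvPolynomial (Fin r × Fin (n + 1)) ℂ))) =
      Matrix.det (Matrix.of fun a b => u a (c b)) := by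
  rw [AlgHom.map_det]
  congr 1
  ext a b
  simp only [AlgHom.mapMatrix_apply, Matrix.map_apply, Matrix.of_apply, ev, aeval_X]

/-- Good polynomials that do not vanish at given vectors over an extension field of `ℂ`. -/
theorem exists_good_field [Finite ι] {r e : ℕ} (hr1 : 1 ≤ r) (hr : r ≤ n + 1) (he : 1 ≤ e)
    {t : ι → Fin (n + 1) → ℂ} (ht : ∀ j, t j ≠ 0) (hT : Indep (e - 1) t) {L : Type} [Field L]
    [Algebra ℂ L] {u : Fin r → Fin (n + 1) → L} (hu : LinearIndependent L u)
    (hH : ∀ j, ∃ a, lin (t j) (u a) ≠ 0) :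
    ∃ Q : MvPolynomial (Fin r × Fin (n + 1)) ℂ, Good t (wtK n e r) Q ∧ ev u Q ≠ 0 := by
  classical
  haveI : Fintype ι := Fintype.ofFinite ι
  obtain ⟨c, hc⟩ := Spec_minor hu
  choose a ha using hH
  let h : MvPolynomial (Fin r × Fin (n + 1)) ℂ :=
    Matrix.det (Matrix.of fun a b => X (a, c b)) * ∏ j, linX (t j) (a j)
  have hev : ∀ {L' : Type} [Field L'] [Algebra ℂ L'] (w : Fin r → Fin (n + 1) → L'),
      ev w h = Matrix.det (Matrix.of fun a b => w a (c b)) * ∏ j, lin (t j) (w (a j)) := by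
    intro L' _ _ w
    simp only [h]
    rw [map_mul, map_prod, Spec_ev_det]
    congr 1
    exact Finset.prod_congr rfl fun j _ => Spec_ev_lin _ _ _
  have hne : ev u h ≠ 0 := by
    rw [hev]
    exact mul_ne_zero hc (Finset.prod_ne_zero_iff.2 fun j _ => ha j)
  let I : Ideal (MvPolynomial (Fin r × Fin (n + 1)) ℂ) := RingHom.ker (ev u)
  haveI : I.IsPrime := RingHom.ker_isPrime (ev u)
  have hI : h ∉ vanishingIdeal ℂ (zeroLocus ℂ I) := by
    rw [IsPrime.vanishingIdeal_zeroLocus]
    exact hne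
  rw [mem_vanishingIdeal_iff] at hI
  push Not at hI
  obtain ⟨x, hx, hxh⟩ := hI
  let w : Fin r → Fin (n + 1) → ℂ := fun a i => x (a, i)
  have hwx : ∀ Q, ev w Q = aeval x Q := fun Q => rfl
  rw [← hwx, hev] at hxh
  have hdet : Matrix.det (Matrix.of fun a b => w a (c b)) ≠ 0 := left_ne_zero_of_mul hxh
  have hprod := right_ne_zero_of_mul hxh
  rw [Finset.prod_ne_zero_iff] at hprod
  have hwH : ∀ j, ∃ a, lin (t j) (w a) ≠ 0 := fun j => ⟨a j, hprod j (Finset.mem_univ j)⟩
  have hw : LinearIndependent ℂ w := by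
    have h1 := Matrix.linearIndependent_rows_of_det_ne_zero hdet
    rw [Fintype.linearIndependent_iff] at h1 ⊢
    intro g hg
    refine h1 g ?_
    funext b
    have h2 := congrFun hg (c b)
    simp only [Finset.sum_apply, Pi.smul_apply, Pi.zero_apply, smul_eq_mul] at h2 ⊢
    exact h2
  have hfin : ∀ Q : MvPolynomial (Fin r × Fin (n + 1)) ℂ, ev w Q ≠ 0 → ev u Q ≠ 0 := by
    intro Q hQ h0
    exact hQ (hx Q h0)
  obtain ⟨Q, hQ1, hQ2⟩ := exists_good_sharp hr1 hr he ht hT hw hwH
  exact ⟨Q, hQ1, hfin Q hQ2⟩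

end Pool.Agent.H39.HC
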