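import Pool.Agent.H39.HC.GTEndO
import Pool.Agent.H39.HC.CovOrd
import Pool.Agent.H39.HC.Spec
import Pool.Agent.H39.HC.Restrict
import Pool.Agent.H39.HC.Num
import Pool.Agent.H39.HC.Jac

/-!
# Closed subvarieties of the covers are of log general type
-/

open MvPolynomial
open Pool.Agent.H17LG.Variety (FunField ratio IsLogGeneralType)
open Pool.Agent.H5.DG (comb BaseFree RamM OnForms)

noncomputable section

namespace Pool.Agent.H39.HC

private theorem CovLGT_lin_single {R : Type*} [CommRing R] [Algebra ℂ R] {n : ℕ}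
    (i : Fin (n + 1)) (x : Fin (n + 1) → R) : lin (Pi.single i 1) x = x i := by
  unfold lin
  rw [Finset.sum_eq_single i]
  · rw [Pi.single_eq_same, one_smul]
  · intro j _ hj
    rw [Pi.single_eq_of_ne hj, zero_smul]
  · intro h
    exact absurd (Finset.mem_univ i) h

private theorem CovLGT_lin_div {F : Type*} [Field F] [Algebra ℂ F] {n : ℕ}
    (v : Fin (n + 1) → ℂ) (x : Fin (n + 1) → F) (a : F) :
    lin v (fun i => x i / a) = lin v x / a := by
  unfold lin
  rw [Finset.sum_div]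
  exact Finset.sum_congr rfl fun i _ => by rw [smul_div_assoc]

private theorem CovLGT_ord_lin {F : Type} [Field F] [Algebra ℂ F] {k n : ℕ}
    (E : Pool.Agent.H23.Fano.PrimeDivisorOver F k) (v : Fin (n + 1) → ℂ) (x : Fin (n + 1) → F)
    (μ : WithTop ℤ) (h : ∀ i, μ ≤ E.ord (x i)) : μ ≤ E.ord (lin v x) := by
  unfold lin
  refine AddValuation.map_le_sum E.ord fun i _ => ?_
  rw [Algebra.smul_def, AddValuation.map_mul]
  calc μ = 0 + μ := (zero_add μ).symm
    _ ≤ _ := add_le_add (E.ord_const (v i)) (h i)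

/-- a proper subspace is contained in a hyperplane -/
private theorem CovLGT_func {n : ℕ} {S : Set (Fin (n + 1) → ℂ)} (h : Submodule.span ℂ S ≠ ⊤) :
    ∃ x : Fin (n + 1) → ℂ, x ≠ 0 ∧ ∀ v ∈ S, lin v x = 0 := by
  obtain ⟨f, hf0, hf⟩ := Submodule.exists_le_ker_of_lt_top _ (lt_top_iff_ne_top.2 h)
  have h1 : ∀ v, lin v (fun i => f (Pi.single i 1)) = f v := by
    intro v
    have h2 := LinearMap.pi_apply_eq_sum_univ f v
    rw [h2]
    unfold lin
    refine Finset.sum_congr rfl fun i _ => ?_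
    have h3 : (fun j => if i = j then (1 : ℂ) else 0) = Pi.single i 1 := by
      funext j
      simp [Pi.single_apply, eq_comm]
    rw [h3]
  refine ⟨fun i => f (Pi.single i 1), fun hx => hf0 ?_, fun v hv => ?_⟩
  · refine LinearMap.ext fun v => ?_
    rw [← h1, hx]
    unfold lin
    simp
  · rw [h1]
    exact hf (Submodule.subset_span hv)

/-- points on no hypersurface span the space -/
private theorem CovLGT_spans {ι : Type} {n b : ℕ} (hb : 1 ≤ b) {t : ι → Fin (n + 1) → ℂ}
    (hs : Spans b t) : Submodule.span ℂ (Set.range t) = ⊤ := by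
  by_contra hne
  obtain ⟨x, hx0, hx⟩ := CovLGT_func hne
  let l : MvPolynomial (Fin (n + 1)) ℂ := ∑ i, C (x i) * X i
  have hl : l.IsHomogeneous 1 := by
    refine IsHomogeneous.sum _ _ _ fun i _ => ?_
    have h2 := (isHomogeneous_C (Fin (n + 1)) (x i)).mul (isHomogeneous_X ℂ i)
    rwa [zero_add] at h2
  have hev : ∀ v, eval v l = lin v x := by
    intro v
    simp only [l, map_sum, map_mul, eval_C, eval_X]
    unfold lin
    exact Finset.sum_congr rfl fun i _ => by rw [smul_eq_mul, mul_comm]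
  have h1 := hs (l ^ b) (by simpa using hl.pow b) fun j => by
    rw [map_pow, hev, hx _ ⟨j, rfl⟩, zero_pow (by omega)]
  have h2 : l = 0 := pow_eq_zero_iff (by omega) |>.1 h1
  apply hx0
  funext i
  have h3 := hev (Pi.single i 1)
  rw [h2, map_zero, CovLGT_lin_single] at h3
  exact h3.symm

/-- `x i` is a combination of the forms `lin (t j) x` -/
private theorem CovLGT_coord {ι : Type} [Fintype ι] {n : ℕ} {t : ι → Fin (n + 1) → ℂ}
    (ht : Submodule.span ℂ (Set.range t) = ⊤) (i : Fin (n + 1)) :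
    ∃ a : ι → ℂ, ∀ {F : Type} [Field F] [Algebra ℂ F]
      (x : Fin (n + 1) → F), x i = ∑ j, a j • lin (t j) x := by
  have h1 : (Pi.single i 1 : Fin (n + 1) → ℂ) ∈ Submodule.span ℂ (Set.range t) := by
    rw [ht]
    exact Submodule.mem_top
  rw [Submodule.mem_span_range_iff_exists_fun] at h1
  obtain ⟨a, ha⟩ := h1
  refine ⟨a, fun {F} _ _ x => ?_⟩
  rw [← CovLGT_lin_single i x, ← ha]
  unfold lin
  simp only [Finset.sum_apply, Pi.smul_apply, smul_eq_mul, Finset.sum_smul, Finset.smul_sum,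
    mul_smul]
  rw [Finset.sum_comm]

private theorem CovLGT_genPos {ι : Type} {n : ℕ} {t : ι → Fin (n + 1) → ℂ} (ht : GenPos t)
    (T : Finset ι) : GenPos fun j : T => t j := by
  classical
  intro S hS
  let S' : Finset ι := S.map (Function.Embedding.subtype _)
  have h1 := ht S' (by rw [Finset.card_map]; exact hS)
  let f : S → S' := fun j => ⟨j.1.1, Finset.mem_map.2 ⟨j.1, j.2, rfl⟩⟩
  have hf : Function.Injective f := by
    intro a b hab
    have h2 : (f a).1 = (f b).1 := by rw [hab]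
    exact Subtype.ext (Subtype.ext h2)
  exact h1.comp f hf

private theorem CovLGT_alg {F : Type*} [Field F] [Algebra ℂ F] {E E' : IntermediateField ℂ F}
    (h : E ≤ E') (hE : Algebra.IsAlgebraic E F) : Algebra.IsAlgebraic E' F := by
  refine ⟨fun y => ?_⟩
  obtain ⟨p, hp0, hp⟩ := hE.isAlgebraic y
  let f : E →+* E' := (IntermediateField.inclusion h).toRingHom
  refine ⟨p.map f, ?_, ?_⟩
  · exact (Polynomial.map_ne_zero_iff f.injective).2 hp0
  · rw [Polynomial.aeval_def, Polynomial.eval₂_map]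
    exact hp

/-- **All closed subvarieties of the covers are of log general type.** -/
theorem cov_lgt {r q b m Nn e : ℕ} (hr : 1 ≤ r) (hq : 2 ≤ q) (hb : r * (q + 1) < b * (q - 1))
    {l : Fin m → Fin (r + 1) → ℂ} (hl : GenPos l) (hs : Spans b l)
    (P : Ideal (MvPolynomial (Fin (Nn + 1)) ℂ)) [P.IsPrime] (hP : Pool.Agent.H5.DG.Homog P)
    {F : Fin (r + 1) → MvPolynomial (Fin (Nn + 1)) ℂ} (hF : BaseFree P e F) (O : Finset (Fin m))
    (hO : ∀ j ∈ O, comb (l j) F ∉ P) (hram : ∀ j ∉ O, RamM q P (comb (l j) F)) {w : ℕ}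
    (hw : 1 ≤ w) (hz : ∃ z : Fin w → FunField P, IsTranscendenceBasis ℂ z) :
    IsLogGeneralType (OnForms P O (fun j => comb (l j) F) (w := w)) := by
  classical
  have hb1 : 1 ≤ b := by
    rcases Nat.eq_zero_or_pos b with h | h
    · rw [h, zero_mul] at hb
      omega
    · exact h
  obtain ⟨k, rfl⟩ : ∃ w', w = w' + 1 := ⟨w - 1, by omega⟩
  obtain ⟨z, hz'⟩ := hz
  obtain ⟨j₀, hj₀⟩ := Pool.Agent.H92.GT.Proj.exists_coordFun_ne_zero P (k := k) z hz'
  obtain ⟨a₀, ha₀, halg⟩ := Pool.Agent.H5.DG.fun_algebraic P hP hF hj₀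
  obtain ⟨x, hx⟩ : ∃ x : Fin (r + 1) → FunField P, x = fun a =>
    Pool.Agent.H5.DG.valAt P j₀ F a / Pool.Agent.H5.DG.valAt P j₀ F a₀ := ⟨_, rfl⟩
  have hxa₀ : x a₀ = 1 := by rw [hx]; exact div_self ha₀
  rw [← hx] at halg
  have hess : Algebra.EssFiniteType ℂ (FunField P) :=
    Pool.Agent.H17GT.essFiniteType_functionField P
  obtain ⟨bb, hbb⟩ := Pool.Agent.H23.exists_basis_kaehler hz'
  have hx0 : ∃ i, x i ≠ 0 := ⟨a₀, by rw [hxa₀]; exact one_ne_zero⟩
  let J : Finset (Fin m) := Finset.univ.filter fun j => lin (l j) x = 0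
  have hJ0 : ∀ j ∈ J, lin (l j) x = 0 := fun j hj => (Finset.mem_filter.1 hj).2
  have hJ : ∃ y : Fin (r + 1) → ℂ, y ≠ 0 ∧ ∀ j ∈ J, lin (l j) y = 0 := by
    have hne : Submodule.span ℂ (Set.range fun j : J => l j) ≠ ⊤ := by
      intro htop
      obtain ⟨i, hi⟩ := hx0
      obtain ⟨a, ha⟩ := CovLGT_coord htop i
      apply hi
      rw [ha x]
      exact Finset.sum_eq_zero fun j _ => by rw [hJ0 j j.2, smul_zero]
    obtain ⟨y, hy0, hy⟩ := CovLGT_func hne
    exact ⟨y, hy0, fun j hj => hy _ ⟨⟨j, hj⟩, rfl⟩⟩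
  obtain ⟨n', B, C', D, hn', hCB, hBC, hGP, hSp⟩ := exists_restrict hb1 hl hs J hJ
  obtain ⟨x', hx'⟩ : ∃ x' : Fin (n' + 1) → FunField P, x' = fun l => lin (C' l) x := ⟨_, rfl⟩
  have hxB : ∀ i, x i = lin (B i) x' := by
    intro i
    rw [hx']
    exact eq_lin_of_restrict hBC hJ0 i
  have hlin' : ∀ j, lin (restr B (l j)) x' = lin (l j) x := by
    intro j
    rw [lin_restr]
    congr 1
    funext i
    exact (hxB i).symm
  obtain ⟨i₀, hi₀⟩ : ∃ i, x' i ≠ 0 := by
    by_contra hcon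
    push Not at hcon
    obtain ⟨i, hi⟩ := hx0
    apply hi
    rw [hxB i]
    unfold lin
    exact Finset.sum_eq_zero fun l _ => by rw [hcon l, smul_zero]
  obtain ⟨x'', hx''⟩ : ∃ x'' : Fin (n' + 1) → FunField P, x'' = fun l => x' l / x' i₀ := ⟨_, rfl⟩
  have hx''0 : x'' i₀ = 1 := by rw [hx'']; exact div_self hi₀
  have hlin'' : ∀ v, lin v x'' = lin v x' / x' i₀ := by
    intro v
    rw [hx'']
    exact CovLGT_lin_div v x' (x' i₀)
  have hne'' : ∀ j : {j // j ∉ J}, lin (restr B (l j)) x'' ≠ 0 := by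
    intro j
    rw [hlin'', hlin']
    refine div_ne_zero (fun h => j.2 ?_) hi₀
    exact Finset.mem_filter.2 ⟨Finset.mem_univ _, h⟩
  have halg'' : Algebra.IsAlgebraic (IntermediateField.adjoin ℂ (Set.range x'')) (FunField P) := by
    have hle : IntermediateField.adjoin ℂ (Set.range x) ≤
        IntermediateField.adjoin ℂ (Set.range x'') := by
      rw [IntermediateField.adjoin_le_iff]
      rintro _ ⟨i, rfl⟩
      have hmem : ∀ v, lin v x'' ∈ IntermediateField.adjoin ℂ (Set.range x'') := by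
        intro v
        unfold lin
        refine sum_mem fun l _ => ?_
        rw [Algebra.smul_def]
        exact mul_mem (IntermediateField.algebraMap_mem _ _)
          (IntermediateField.subset_adjoin _ _ ⟨l, rfl⟩)
      have h1 : x i = lin (B i) x'' / lin (B a₀) x'' := by
        rw [hlin'', hlin'', ← hxB i, ← hxB a₀, hxa₀, div_div_div_cancel_right₀ hi₀, div_one]
      rw [h1]
      exact div_mem (hmem _) (hmem _)
    exact CovLGT_alg hle halg
  have hkn : k + 1 ≤ n' := trdeg_le hx''0 halg'' hz'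
  obtain ⟨T, hTcard, hTind⟩ := exists_indep hSp
  have htne : ∀ j : T, restr B (l j.1) ≠ 0 := by
    intro j h
    apply hne'' j.1
    unfold lin
    exact Finset.sum_eq_zero fun i _ => by
      rw [h, Pi.zero_apply, zero_smul]
  have hli := linearIndependent_derivatives hx''0 halg'' bb
  obtain ⟨Q, hQ, hQne⟩ := exists_good_field (r := k + 2) (e := b + 1)
    (t := fun j : T => restr B (l j.1)) (by omega) (by omega) (by omega) htne hTind hli
    (fun j => ⟨0, by
      rw [Fin.cons_zero]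
      exact hne'' j.1⟩)
  have hwtK : 1 ≤ wtK n' (b + 1) (k + 2) := by
    unfold wtK
    exact Nat.choose_pos (by omega)
  have hb' : n' * (q + 1) < b * (q - 1) :=
    lt_of_le_of_lt (Nat.mul_le_mul_right _ hn') hb
  have hnum := numCond (n := n') (m := q) (b := b) (r := k + 2) (by omega) hq hb' (by omega)
    (by omega)
  have hnum' : q * (k + 2) * wtK n' (b + 1) (k + 2) < (q - 1) * Fintype.card T := by
    rw [Fintype.card_coe, hTcard]
    exact hnum
  refine isLogGeneralType_of_goodO hz' (CovLGT_genPos hGP T) hx''0 halg''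
    (fun j : T => hne'' j.1) hq hwtK hQ bb hQne hnum' ?_
  intro E hE i₁ hi₁ j
  have hfin : ∀ f : FunField P, f ≠ 0 → ∃ o : ℤ, E.ord f = (o : WithTop ℤ) := by
    intro f hf
    have h1 : E.ord f ≠ ⊤ := fun h => hf ((AddValuation.top_iff _).1 h)
    exact ⟨(E.ord f).untop h1, (WithTop.coe_untop _ h1).symm⟩
  obtain ⟨γ, hγ⟩ := hfin _ hi₀
  -- a coordinate of least order
  obtain ⟨i₂, -, hi₂⟩ := Finset.exists_min_image (Finset.univ : Finset (Fin (r + 1)))
    (fun i => E.ord (x i)) ⟨a₀, Finset.mem_univ _⟩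
  have hi₂' : ∀ i, E.ord (x i₂) ≤ E.ord (x i) := fun i => hi₂ i (Finset.mem_univ _)
  have hmul : ∀ v, E.ord (lin v x') = E.ord (lin v x'') + (γ : WithTop ℤ) := by
    intro v
    have h1 : lin v x' = lin v x'' * x' i₀ := by
      rw [hlin'', div_mul_cancel₀ _ hi₀]
    rw [h1, AddValuation.map_mul, hγ]
  have hmulx : ∀ i, E.ord (x' i) = E.ord (x'' i) + (γ : WithTop ℤ) := by
    intro i
    have h1 := hmul (Pi.single i 1)
    rwa [CovLGT_lin_single, CovLGT_lin_single] at h1
  have hle1 : E.ord (x i₂) ≤ E.ord (x'' i₁) + (γ : WithTop ℤ) := by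
    rw [← hmulx i₁, hx']
    exact CovLGT_ord_lin E _ x _ hi₂'
  have hle2 : E.ord (x'' i₁) + (γ : WithTop ℤ) ≤ E.ord (x i₂) := by
    rw [hxB i₂]
    refine CovLGT_ord_lin E _ x' _ fun i => ?_
    rw [hmulx i]
    exact add_le_add (hi₁ i) le_rfl
  have hmin : E.ord (x i₂) = E.ord (x'' i₁) + (γ : WithTop ℤ) := le_antisymm hle1 hle2
  have hord := cov_ord (by omega : 1 ≤ q) P hP hF O hram hj₀ ha₀ E hE i₂
    (by rw [hx] at hi₂'; exact hi₂') j.1
  have hx1 : (fun a => Pool.Agent.H5.DG.valAt P j₀ F a / Pool.Agent.H5.DG.valAt P j₀ F a₀) = x :=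
    hx.symm
  have hx2 : ∀ a, Pool.Agent.H5.DG.valAt P j₀ F a / Pool.Agent.H5.DG.valAt P j₀ F a₀ = x a :=
    fun a => congrFun hx1 a
  rw [hx1, hx2, ← hlin', hmul, hmin] at hord
  have hcancel : ∀ u v : WithTop ℤ, u + (γ : WithTop ℤ) ≤ v + (γ : WithTop ℤ) → u ≤ v := by
    intro u v h
    exact (WithTop.add_le_add_iff_right (WithTop.coe_ne_top)).1 h
  rcases hord with h | h
  · left
    exact le_antisymm (hcancel _ _ h.le) (hcancel _ _ h.ge)
  · right
    refine hcancel _ _ ?_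
    rw [add_right_comm]
    exact h

end Pool.Agent.H39.HC
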