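import Pool.Agent.H39.HC.Orb
import Pool.Agent.H39.HC.CovLGT
import Pool.Agent.H5.DG.FinalDefs

/-!
# The theorem for hyperplanes whose points lie on no hypersurface of small degree
-/

open MvPolynomial
open Pool.Agent.H17 (PN HolomorphicInto puncturedDisc VanishesAt)
open Pool.Agent.H17LG.Variety (FunField)
open Pool.Agent.H5.DG

noncomputable section

namespace Pool.Agent.H39.HC

/-- The points span the space. -/
private theorem Covers_span {b r m : ℕ} (hb1 : 1 ≤ b) {l : Fin m → Fin (r + 1) → ℂ}
    (hs : Spans b l) : Submodule.span ℂ (Set.range l) = ⊤ := by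
  by_contra hcon
  obtain ⟨φ, hφ, hφ'⟩ := Submodule.exists_le_ker_of_lt_top _ (lt_top_iff_ne_top.2 hcon)
  -- the linear form `φ` as a polynomial
  set G : MvPolynomial (Fin (r + 1)) ℂ := ∑ i, C (φ (Pi.single i 1)) * X i with hG
  have hev : ∀ x : Fin (r + 1) → ℂ, eval x G = φ x := by
    intro x
    have h1 : x = ∑ i, x i • (Pi.single i 1 : Fin (r + 1) → ℂ) := by
      funext k
      simp [Finset.sum_apply, Pi.single_apply]
    conv_rhs => rw [h1]
    rw [hG, map_sum, map_sum]
    refine Finset.sum_congr rfl fun i _ => ?_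
    rw [map_mul, eval_C, eval_X, map_smul, smul_eq_mul, mul_comm]
  have hhom : G.IsHomogeneous 1 := by
    refine IsHomogeneous.sum _ _ _ fun i _ => ?_
    exact (isHomogeneous_C_mul_X _ i)
  have h0 : G ^ b = 0 := by
    refine hs _ (by simpa using hhom.pow b) fun j => ?_
    rw [map_pow, hev, LinearMap.mem_ker.1 (hφ' (Submodule.subset_span ⟨j, rfl⟩)),
      zero_pow (by omega)]
  have h1 : G = 0 := pow_eq_zero_iff (by omega) |>.1 h0
  apply hφ
  refine LinearMap.ext fun x => ?_
  rw [← hev, h1, map_zero, LinearMap.zero_apply]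

private theorem Covers_genPos {b r m : ℕ} (hb1 : 1 ≤ b) {l : Fin m → Fin (r + 1) → ℂ}
    (hl : ∀ s : Fin (r + 1) → Fin m, Function.Injective s → LinearIndependent ℂ fun i => l (s i))
    (hs : Spans b l) : GenPos l := by
  classical
  have hm : r + 1 ≤ m := by
    have h1 := finrank_span_le_card (R := ℂ) (Set.range l)
    rw [Covers_span hb1 hs, finrank_top, Module.finrank_fin_fun] at h1
    have h2 : (Set.range l).toFinset.card ≤ m := by
      rw [Set.toFinset_range]
      exact Finset.card_image_le.trans (by simp)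
    omega
  intro S hS
  obtain ⟨S', hSS', -, hS'⟩ := Finset.exists_subsuperset_card_eq (Finset.subset_univ S) hS
    (by simpa using hm)
  let e : Fin (r + 1) ≃ S' := (Finset.equivFinOfCardEq hS').symm
  have h1 := hl (fun i => (e i : Fin m)) (Subtype.val_injective.comp e.injective)
  have h2 : LinearIndependent ℂ fun j : S' => l j := by
    have h3 := h1.comp e.symm e.symm.injective
    have h4 : ((fun i => l (e i : Fin m)) ∘ e.symm) = fun j : S' => l j := by
      funext j
      simp
    rwa [h4] at h3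
  exact h2.comp (fun j : S => (⟨j, hSS' j.2⟩ : S')) fun a b hab => by
    have := congrArg Subtype.val hab
    exact Subtype.ext this

/-- **Empty exceptional set.** -/
theorem hyperplaneTheorem_of_spans {q b r m : ℕ} (hr : 1 ≤ r) (hq : 2 ≤ q)
    (hb : r * (q + 1) < b * (q - 1)) {l : Fin m → Fin (r + 1) → ℂ}
    (hl : ∀ s : Fin (r + 1) → Fin m, Function.Injective s → LinearIndependent ℂ fun i => l (s i))
    (hs : ∀ g : MvPolynomial (Fin (r + 1)) ℂ, g.IsHomogeneous b → (∀ j, eval (l j) g = 0) →
      g = 0) :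
    HyperplaneTheorem q l 1 := by
  have hb1 : 1 ≤ b := by
    rcases Nat.eq_zero_or_pos b with h | h
    · subst h
      omega
    · exact h
  have hs' : Spans b l := hs
  have hgp : GenPos l := Covers_genPos hb1 hl hs'
  have hk : (1 : MvPolynomial (Fin (r + 1)) ℂ).IsHomogeneous 0 := isHomogeneous_one _ _
  have horb : OrbExt q l 1 := fun f hf hm _ => orb_ext hr hq hb hgp hs' hf hm
  refine ⟨⟨horb, fun f hf hm hne => horb.brody hk hf hm hne⟩, ?_⟩
  intro N e I _ F O hI hF hO hram
  have hcov : CoverPart l 1 I F O := ⟨fun f hf hfX hne => picard_coverM hk horb hI hF hram hf hfX hne,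
    fun f hf hfX hne => brody_coverM hk horb hI hF hram hf hfX hne,
    fun P _ hP hIP hOP _ w hw hz => cov_lgt hr hq hb hgp hs' P hP (hF.mono hIP) O hOP
      (fun j hj => (hram j hj).mono hIP) hw hz⟩
  refine ⟨hcov, fun w hw hz => ⟨fun _ => ?_, fun hΔI => hcov.four hI hF hk hΔI hO hw hz⟩⟩
  rw [map_one]
  intro h1
  exact (inferInstance : I.IsPrime).ne_top ((Ideal.eq_top_iff_one I).2 h1)

end Pool.Agent.H39.HC
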