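import Pool.Agent.H62.FC.Defs

/-!
# Covers of projective space branched over hyperplanes: definitions
-/

open MvPolynomial

noncomputable section

namespace Pool.Agent.H39.HC

/-- The value of the linear form with the coefficients `v i` at `x`. -/
def lin {R : Type*} [CommRing R] [Algebra ℂ R] {n : ℕ} (v : Fin (n + 1) → ℂ)
    (x : Fin (n + 1) → R) : R :=
  ∑ i, v i • x i

/-- General position: at most `n + 1` of the vectors `t j` are always linearly independent. -/
def GenPos {ι : Type} {n : ℕ} (t : ι → Fin (n + 1) → ℂ) : Prop :=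
  ∀ S : Finset ι, S.card ≤ n + 1 → LinearIndependent ℂ fun j : S => t j

/-- The points `t j` impose independent conditions on forms of degree `d`: forms of degree `d` take
arbitrary values at them. -/
def Indep {ι : Type} {n : ℕ} (d : ℕ) (t : ι → Fin (n + 1) → ℂ) : Prop :=
  ∀ y : ι → ℂ, ∃ g : MvPolynomial (Fin (n + 1)) ℂ, g.IsHomogeneous d ∧ ∀ j, eval (t j) g = y j

/-- The value at the `r` vectors `u a` of a polynomial in the coordinates of `r` vectors. -/
def ev {R : Type*} [CommRing R] [Algebra ℂ R] {r n : ℕ} (u : Fin r → Fin (n + 1) → R) :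
    MvPolynomial (Fin r × Fin (n + 1)) ℂ →ₐ[ℂ] R :=
  aeval fun p => u p.1 p.2

/-- The polynomial `Q` in the coordinates of `r` vectors is multiplied by `det A ^ K` if the vectors
are transformed by the matrix `A`, and it vanishes if all `r` vectors lie in one of the hyperplanes
`lin (t j) = 0`. -/
structure Good {ι : Type} {r n : ℕ} (t : ι → Fin (n + 1) → ℂ) (K : ℕ)
    (Q : MvPolynomial (Fin r × Fin (n + 1)) ℂ) : Prop where
  det : ∀ (A : Matrix (Fin r) (Fin r) ℂ) (u : Fin r → Fin (n + 1) → ℂ),
    ev (fun a i => ∑ b, A a b * u b i) Q = A.det ^ K * ev u Q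
  van : ∀ (j : ι) (u : Fin r → Fin (n + 1) → ℂ), (∀ a, lin (t j) (u a) = 0) → ev u Q = 0

/-- The points `t j` lie on no hypersurface of degree `d`. -/
def Spans {ι : Type} {n : ℕ} (d : ℕ) (t : ι → Fin (n + 1) → ℂ) : Prop :=
  ∀ g : MvPolynomial (Fin (n + 1)) ℂ, g.IsHomogeneous d → (∀ j, eval (t j) g = 0) → g = 0

/-- The weight of the polynomials in `r` vectors which we construct. -/
def wtK (n e r : ℕ) : ℕ := (e + n - r).choose (n + 1 - r)

/-- The linear form with coefficient vector `v` in the coordinates of the `a`-th vector. -/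
def linX {r n : ℕ} (v : Fin (n + 1) → ℂ) (a : Fin r) : MvPolynomial (Fin r × Fin (n + 1)) ℂ :=
  ∑ i, C (v i) * X (a, i)

/-- The diagonal form `∑ a j * x j ^ m`. -/
def diagForm {N : ℕ} (a : Fin (N + 1) → ℂ) (m : ℕ) : MvPolynomial (Fin (N + 1)) ℂ :=
  ∑ j, C (a j) * X j ^ m

end Pool.Agent.H39.HC
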