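import Pool.Agent.H39.HC.Defs

/-!
# Restriction of forms that vanish at given points to a linear subspace
-/

open MvPolynomial

noncomputable section

namespace Pool.Agent.H39.HC

variable {ι : Type} {n : ℕ}

private theorem Interp_lin (S : Submodule ℂ (Fin (n + 1) → ℂ)) [Finite ι]
    {t : ι → Fin (n + 1) → ℂ} (hS : ∀ j, t j ∉ S) :
    ∃ W : MvPolynomial (Fin (n + 1)) ℂ, W.IsHomogeneous 1 ∧ (∀ j, eval (t j) W ≠ 0) ∧
      ∀ s ∈ S, eval s W = 0 := by
  obtain ⟨f, hf⟩ := Module.exists_dual_forall_apply_ne_zero (K := ℂ)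
    (fun j => S.mkQ (t j)) (fun j => by
      intro h0
      apply hS j
      rwa [Submodule.mkQ_apply, Submodule.Quotient.mk_eq_zero] at h0)
  let w : (Fin (n + 1) → ℂ) →ₗ[ℂ] ℂ := f.comp S.mkQ
  have hw : ∀ x, w x = f (S.mkQ x) := fun x => rfl
  let W : MvPolynomial (Fin (n + 1)) ℂ :=
    ∑ i, C (w (fun j => if i = j then (1 : ℂ) else 0)) * X i
  have hW : ∀ x, eval x W = w x := by
    intro x
    rw [LinearMap.pi_apply_eq_sum_univ w x]
    simp only [W, map_sum, map_mul, eval_C, eval_X, smul_eq_mul]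
    exact Finset.sum_congr rfl fun i _ => mul_comm _ _
  refine ⟨W, ?_, fun j => ?_, fun s hs => ?_⟩
  · refine IsHomogeneous.sum _ _ _ fun i _ => ?_
    have h1 := (isHomogeneous_C (Fin (n + 1)) (w (fun j => if i = j then (1 : ℂ) else 0))).mul
      (isHomogeneous_X ℂ i)
    rwa [zero_add] at h1
  · rw [hW, hw]
    exact hf j
  · rw [hW, hw, Submodule.mkQ_apply, (Submodule.Quotient.mk_eq_zero S).2 hs, map_zero]

/-- **Key lemma.**  If the points `t j` impose independent conditions on forms of degree `e - 1` and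
do not lie in the linear subspace `S`, then every form of degree `e` on `S` is the restriction of a
form of degree `e` that vanishes at all the points `t j`. -/
theorem exists_form_restrict [Finite ι] {e : ℕ} (he : 1 ≤ e) {t : ι → Fin (n + 1) → ℂ}
    (hT : Indep (e - 1) t) (S : Submodule ℂ (Fin (n + 1) → ℂ)) (hS : ∀ j, t j ∉ S)
    {h : MvPolynomial (Fin (n + 1)) ℂ} (hh : h.IsHomogeneous e) :
    ∃ g : MvPolynomial (Fin (n + 1)) ℂ, g.IsHomogeneous e ∧ (∀ j, eval (t j) g = 0) ∧
      ∀ s ∈ S, eval s g = eval s h := by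
  obtain ⟨W, hW1, hW2, hW3⟩ := Interp_lin S hS
  obtain ⟨a, ha1, ha2⟩ := hT fun j => eval (t j) h / eval (t j) W
  refine ⟨h - W * a, ?_, fun j => ?_, fun s hs => ?_⟩
  · have h1 := hW1.mul ha1
    have h2 : 1 + (e - 1) = e := by omega
    rw [h2] at h1
    exact hh.sub h1
  · rw [map_sub, map_mul, ha2 j, mul_div_cancel₀ _ (hW2 j), sub_self]
  · rw [map_sub, map_mul, hW3 s hs, zero_mul, sub_zero]

end Pool.Agent.H39.HC
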