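import Pool.Agent.H39.HC.SymDet
import Pool.Agent.H39.HC.Interp

/-!
# The determinant of the coefficients of forms restricted to a linear subspace
-/

open MvPolynomial

noncomputable section

namespace Pool.Agent.H39.HC

/-- The coefficients of the restrictions of the forms `g β` to the subspace spanned by `p` vectors,
as polynomials in the coordinates of these vectors. -/
def formMat {p e n : ℕ} (g : MI p e → MvPolynomial (Fin (n + 1)) ℂ) :
    Matrix (MI p e) (MI p e) (MvPolynomial (Fin p × Fin (n + 1)) ℂ) :=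
  fun β β' => coeff β'.1 (aeval (fun i => (∑ l, C (X (l, i)) * X l :
    MvPolynomial (Fin p) (MvPolynomial (Fin p × Fin (n + 1)) ℂ))) (g β))

section
variable {R : Type*} [CommRing R] [Algebra ℂ R] {p n : ℕ}

/-- the polynomial in the parameters -/
private def FormMat_G (g : MvPolynomial (Fin (n + 1)) ℂ) (s : Fin p → Fin (n + 1) → R) :
    MvPolynomial (Fin p) R :=
  aeval (fun i => ∑ l, C (s l i) * X l) g

private theorem FormMat_G_map {S : Type*} [CommRing S] [Algebra ℂ S] (φ : R →ₐ[ℂ] S)
    (g : MvPolynomial (Fin (n + 1)) ℂ) (s : Fin p → Fin (n + 1) → R) :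
    MvPolynomial.map (φ : R →+* S) (FormMat_G g s) = FormMat_G g (fun i k => φ (s i k)) := by
  unfold FormMat_G
  have h1 : (mapAlgHom (σ := Fin p) φ) (aeval (fun k => ∑ i, C (s i k) * X i) g) =
      aeval (fun k => mapAlgHom φ (∑ i, C (s i k) * X i)) g := by
    rw [← AlgHom.comp_apply, comp_aeval]
  have h2 : ∀ q : MvPolynomial (Fin p) R, MvPolynomial.map (φ : R →+* S) q = mapAlgHom φ q :=
    fun q => rfl
  rw [h2, h1]
  congr 1
  simp [map_sum]

private theorem FormMat_G_eval (g : MvPolynomial (Fin (n + 1)) ℂ) (s : Fin p → Fin (n + 1) → ℂ)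
    (c : Fin p → ℂ) : eval c (FormMat_G g s) = eval (fun k => ∑ i, s i k * c i) g := by
  unfold FormMat_G
  have h1 : aeval c (aeval (fun k => ∑ i, (C (s i k) : MvPolynomial (Fin p) ℂ) * X i) g) =
      aeval (fun k => aeval c (∑ i, (C (s i k) : MvPolynomial (Fin p) ℂ) * X i)) g := by
    rw [← AlgHom.comp_apply, comp_aeval]
  rw [← MvPolynomial.coe_aeval_eq_eval, RingHom.coe_coe, h1]
  simp [aeval_eq_eval]

private theorem FormMat_G_homog {g : MvPolynomial (Fin (n + 1)) ℂ} {e : ℕ}
    (hg : g.IsHomogeneous e) (s : Fin p → Fin (n + 1) → ℂ) :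
    (FormMat_G g s).IsHomogeneous e := by
  unfold FormMat_G
  have := hg.aeval (g := fun k => ∑ i, C (s i k) * (X i : MvPolynomial (Fin p) ℂ)) (n := 1) (by
    intro k
    refine IsHomogeneous.sum _ _ _ fun i _ => ?_
    simpa using (isHomogeneous_C (Fin p) (s i k)).mul (isHomogeneous_X ℂ i))
  rwa [one_mul] at this

/-- the matrix of the coefficients -/
private def FormMat_W {e : ℕ} (g : MI p e → MvPolynomial (Fin (n + 1)) ℂ)
    (s : Fin p → Fin (n + 1) → R) : Matrix (MI p e) (MI p e) R :=
  Matrix.of fun β β' => coeff (β' : Fin p →₀ ℕ) (FormMat_G (g β) s)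

private theorem FormMat_W_map {S : Type*} [CommRing S] [Algebra ℂ S] (φ : R →ₐ[ℂ] S) {e : ℕ}
    (g : MI p e → MvPolynomial (Fin (n + 1)) ℂ) (s : Fin p → Fin (n + 1) → R) :
    φ (FormMat_W g s).det = (FormMat_W g (fun i k => φ (s i k))).det := by
  rw [AlgHom.map_det]
  congr 1
  ext β β'
  simp only [FormMat_W, AlgHom.mapMatrix_apply, Matrix.map_apply, Matrix.of_apply]
  rw [← FormMat_G_map, coeff_map]
  rfl

private theorem FormMat_W_zero {e : ℕ} {g : MI p e → MvPolynomial (Fin (n + 1)) ℂ}
    (hg : ∀ β, (g β).IsHomogeneous e) (s : Fin p → Fin (n + 1) → ℂ) (c : Fin p → ℂ) (hc : c ≠ 0)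
    (h : ∀ β, eval (fun k => ∑ i, s i k * c i) (g β) = 0) : (FormMat_W g s).det = 0 := by
  classical
  obtain ⟨i0, hi0⟩ : ∃ i, c i ≠ 0 := by
    by_contra hcon
    push Not at hcon
    exact hc (funext hcon)
  rw [← Matrix.exists_mulVec_eq_zero_iff]
  refine ⟨fun β => ∏ i, c i ^ ((β : Fin p →₀ ℕ) i), ?_, ?_⟩
  · intro h0
    have h1 := congrFun h0 ⟨Finsupp.single i0 e, by
      rw [Finset.mem_finsuppAntidiag]
      simp⟩
    simp only [Pi.zero_apply] at h1
    rw [Finset.prod_eq_zero_iff] at h1
    obtain ⟨i, -, hi⟩ := h1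
    by_cases hii : i = i0
    · subst hii
      exact absurd hi (pow_ne_zero _ hi0)
    · rw [Finsupp.single_eq_of_ne (by exact hii)] at hi
      simp at hi
  · ext β
    have h1 := h β
    rw [← FormMat_G_eval, eval_eq'] at h1
    simp only [Matrix.mulVec, dotProduct, FormMat_W, Matrix.of_apply, Pi.zero_apply]
    rw [← h1]
    have h2 : ∑ x : MI p e, coeff (x : Fin p →₀ ℕ) (FormMat_G (g β) s) *
        ∏ i, c i ^ ((x : Fin p →₀ ℕ) i) =
        ∑ d ∈ (Finset.univ : Finset (Fin p)).finsuppAntidiag e,
          coeff d (FormMat_G (g β) s) * ∏ i, c i ^ (d i) :=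
      Finset.sum_coe_sort ((Finset.univ : Finset (Fin p)).finsuppAntidiag e)
        (fun d => coeff d (FormMat_G (g β) s) * ∏ i, c i ^ (d i))
    rw [h2]
    symm
    apply Finset.sum_subset
    · intro d hd
      rw [Finset.mem_finsuppAntidiag]
      have h3 := (FormMat_G_homog (hg β) s) (mem_support_iff.1 hd)
      rw [Finsupp.weight_apply] at h3
      constructor
      · rw [← h3, Finsupp.sum_fintype]
        · simp
        · simp
      · simp
    · intro d _ hd
      rw [notMem_support_iff.1 hd, zero_mul]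

end

private theorem FormMat_ev {p e n : ℕ} (g : MI p e → MvPolynomial (Fin (n + 1)) ℂ)
    (s : Fin p → Fin (n + 1) → ℂ) : ev s (formMat g).det = (FormMat_W g s).det := by
  have h1 : formMat g = FormMat_W g (fun l i => (X (l, i) :
      MvPolynomial (Fin p × Fin (n + 1)) ℂ)) := rfl
  rw [h1, FormMat_W_map]
  congr 2
  funext l i
  simp [ev]

/-- A change of the basis of the subspace. -/
theorem det_formMat_mul {p e n : ℕ} (hp : 1 ≤ p) {g : MI p e → MvPolynomial (Fin (n + 1)) ℂ}
    (hg : ∀ β, (g β).IsHomogeneous e) (A : Matrix (Fin p) (Fin p) ℂ)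
    (s : Fin p → Fin (n + 1) → ℂ) :
    ev (fun a i => ∑ b, A a b * s b i) (formMat g).det =
      A.det ^ (e + p - 1).choose p * ev s (formMat g).det := by
  rw [FormMat_ev, FormMat_ev]
  have hmul : FormMat_W g (fun a i => ∑ b, A a b * s b i) =
      FormMat_W g s * symMat e A.transpose := by
    ext β β'
    rw [Matrix.mul_apply]
    simp only [FormMat_W, Matrix.of_apply]
    rw [← coeff_subst (FormMat_G_homog (hg β) s) A.transpose β']
    congr 1
    refine MvPolynomial.funext fun c => ?_
    rw [FormMat_G_eval]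
    have h1 : eval c (aeval (fun l => (∑ l', C (A.transpose l l') * X l' :
        MvPolynomial (Fin p) ℂ)) (FormMat_G (g β) s)) =
        eval (fun l => ∑ l', A.transpose l l' * c l') (FormMat_G (g β) s) := by
      have h2 : aeval c (aeval (fun l => (∑ l', C (A.transpose l l') * X l' :
          MvPolynomial (Fin p) ℂ)) (FormMat_G (g β) s)) =
          aeval (fun l => aeval c (∑ l', C (A.transpose l l') * X l' :
            MvPolynomial (Fin p) ℂ)) (FormMat_G (g β) s) := by
        rw [← AlgHom.comp_apply, comp_aeval]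
      rw [← MvPolynomial.coe_aeval_eq_eval, RingHom.coe_coe, h2]
      simp [aeval_eq_eval]
    rw [h1, FormMat_G_eval]
    congr 1
    congr 1
    funext k
    simp only [Finset.sum_mul, Finset.mul_sum, Matrix.transpose_apply]
    rw [Finset.sum_comm]
    refine Finset.sum_congr rfl fun b _ => Finset.sum_congr rfl fun l _ => ?_
    ring
  rw [hmul, Matrix.det_mul, det_symMat hp, Matrix.det_transpose, mul_comm]

/-- The determinant vanishes if the forms have a common zero in the subspace. -/
theorem det_formMat_eq_zero {p e n : ℕ} (he : 1 ≤ e) {g : MI p e → MvPolynomial (Fin (n + 1)) ℂ}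
    (hg : ∀ β, (g β).IsHomogeneous e) {s : Fin p → Fin (n + 1) → ℂ} {t : Fin (n + 1) → ℂ}
    (ht0 : t ≠ 0) (ht : ∀ β, eval t (g β) = 0) (hts : t ∈ Submodule.span ℂ (Set.range s)) :
    ev s (formMat g).det = 0 := by
  rw [FormMat_ev]
  obtain ⟨c, hc⟩ := (Submodule.mem_span_range_iff_exists_fun ℂ).1 hts
  have hc0 : c ≠ 0 := by
    rintro rfl
    apply ht0
    rw [← hc]
    simp
  refine FormMat_W_zero hg s c hc0 fun β => ?_
  have h1 : (fun k => ∑ i, s i k * c i) = t := by
    rw [← hc]
    funext k
    rw [Finset.sum_apply]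
    exact Finset.sum_congr rfl fun i _ => by rw [Pi.smul_apply, smul_eq_mul, mul_comm]
  rw [h1]
  exact ht β

/-- There are forms vanishing at the points `t j` for which the determinant does not vanish. -/
theorem exists_det_formMat_ne_zero {ι : Type} [Finite ι] {p e n : ℕ} (hp : 1 ≤ p) (he : 1 ≤ e)
    {t : ι → Fin (n + 1) → ℂ} (hT : Indep (e - 1) t) {s : Fin p → Fin (n + 1) → ℂ}
    (hs : LinearIndependent ℂ s) (hts : ∀ j, t j ∉ Submodule.span ℂ (Set.range s)) :
    ∃ g : MI p e → MvPolynomial (Fin (n + 1)) ℂ, (∀ β, (g β).IsHomogeneous e) ∧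
      (∀ β j, eval (t j) (g β) = 0) ∧ ev s (formMat g).det ≠ 0 := by
  classical
  -- a left inverse
  obtain ⟨L, hL⟩ := LinearMap.exists_leftInverse_of_injective
    (Fintype.linearCombination ℂ s) (LinearMap.ker_eq_bot'.2 (fun c hc => by
      rw [Fintype.linearCombination_apply] at hc
      exact funext (Fintype.linearIndependent_iff.1 hs c hc)))
  have hL' : ∀ c : Fin p → ℂ, L (fun k => ∑ i, s i k * c i) = c := by
    intro c
    have h1 := LinearMap.congr_fun hL c
    rw [LinearMap.comp_apply, LinearMap.id_apply] at h1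
    have h2 : (fun k => ∑ i, s i k * c i) = Fintype.linearCombination ℂ s c := by
      funext k
      rw [Fintype.linearCombination_apply, Finset.sum_apply]
      exact Finset.sum_congr rfl fun i _ => by rw [Pi.smul_apply, smul_eq_mul, mul_comm]
    rw [h2]
    exact h1
  let lf : Fin p → MvPolynomial (Fin (n + 1)) ℂ := fun l =>
    ∑ k, C (L (fun j => if k = j then (1 : ℂ) else 0) l) * X k
  have hlf : ∀ l x, eval x (lf l) = L x l := by
    intro l x
    have h1 := LinearMap.pi_apply_eq_sum_univ L x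
    rw [h1, Finset.sum_apply]
    simp only [lf, map_sum, map_mul, eval_C, eval_X, Pi.smul_apply, smul_eq_mul]
    exact Finset.sum_congr rfl fun i _ => mul_comm _ _
  let hf : MI p e → MvPolynomial (Fin (n + 1)) ℂ := fun β =>
    ∏ l, (lf l) ^ ((β : Fin p →₀ ℕ) l)
  have hfh : ∀ β, (hf β).IsHomogeneous e := by
    intro β
    have h1 := IsHomogeneous.prod Finset.univ
      (fun l => (lf l) ^ ((β : Fin p →₀ ℕ) l))
      (fun l => 1 * ((β : Fin p →₀ ℕ) l)) (by
        intro i _
        refine IsHomogeneous.pow ?_ _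
        refine IsHomogeneous.sum _ _ _ fun k _ => ?_
        simpa using (isHomogeneous_C (Fin (n + 1)) (L (fun j => if k = j then (1 : ℂ) else 0)
          i)).mul (isHomogeneous_X ℂ k))
    have h2 := (Finset.mem_finsuppAntidiag.1 β.2).1
    simp only [one_mul] at h1
    rw [h2] at h1
    exact h1
  choose g hg1 hg2 hg3 using fun β =>
    exists_form_restrict he hT (Submodule.span ℂ (Set.range s)) hts (hfh β)
  refine ⟨g, hg1, hg2, ?_⟩
  rw [FormMat_ev]
  have h1 : FormMat_W g s = 1 := by
    ext β β'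
    simp only [FormMat_W, Matrix.of_apply]
    have h2 : FormMat_G (g β) s = monomial (β : Fin p →₀ ℕ) 1 := by
      refine MvPolynomial.funext fun c => ?_
      rw [FormMat_G_eval, hg3]
      · rw [eval_monomial, one_mul, Finsupp.prod_fintype _ _ (by simp)]
        simp only [hf, map_prod, map_pow]
        refine Finset.prod_congr rfl fun i _ => ?_
        rw [hlf, hL']
      · rw [Submodule.mem_span_range_iff_exists_fun]
        refine ⟨c, ?_⟩
        funext k
        rw [Finset.sum_apply]
        exact Finset.sum_congr rfl fun i _ => by rw [Pi.smul_apply, smul_eq_mul, mul_comm]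
    rw [h2, coeff_monomial, Matrix.one_apply]
    simp only [Subtype.ext_iff]
  rw [h1, Matrix.det_one]
  exact one_ne_zero

end Pool.Agent.H39.HC
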