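import Pool.Agent.H39.HC.WrapF
import Pool.Agent.H39.HC.Bounds
import Pool.Agent.H39.HC.Jac

/-!
# Log general type from a good polynomial
-/

open MvPolynomial
open Pool.Agent.H23.Fano (PrimeDivisorOver Form)
open Pool.Agent.H17LG.Variety (IsLogGeneralType PoleAtMost)
open Pool.Agent.H23 (dualDer)

noncomputable section

namespace Pool.Agent.H39.HC

variable {L : Type} [Field L] [Algebra ℂ L]

/-- A change of the basis of the differentials. -/
theorem Good.frame {ι : Type} {k n K : ℕ} {t : ι → Fin (n + 1) → ℂ}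
    {Q : MvPolynomial (Fin (k + 2) × Fin (n + 1)) ℂ} (hQ : Good t K Q) (x : Fin (n + 1) → L)
    (b b' : Module.Basis (Fin (k + 1)) L Ω[L⁄ℂ]) :
    ev (Fin.cons x fun i l => dualDer b i (x l) : Fin (k + 2) → Fin (n + 1) → L) Q *
        (b'.toMatrix b).det ^ K =
      ev (Fin.cons x fun i l => dualDer b' i (x l) : Fin (k + 2) → Fin (n + 1) → L) Q := by
  classical
  set A : Matrix (Fin (k + 2)) (Fin (k + 2)) L := Matrix.of
    (Fin.cons (Fin.cons 1 0) fun i => Fin.cons 0 (b'.toMatrix b i)) with hA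
  have h := hQ.det_ring A
    (Fin.cons x fun i l => dualDer b i (x l) : Fin (k + 2) → Fin (n + 1) → L)
  have e1 : (fun a l => ∑ a', A a a' *
      (Fin.cons x fun i l => dualDer b i (x l) : Fin (k + 2) → Fin (n + 1) → L) a' l) =
      (Fin.cons x fun i l => dualDer b' i (x l) : Fin (k + 2) → Fin (n + 1) → L) := by
    funext a l
    rw [Fin.sum_univ_succ]
    refine Fin.cases ?_ (fun i => ?_) a
    · simp only [hA, Matrix.of_apply, Fin.cons_zero, Fin.cons_succ, one_mul, Pi.zero_apply,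
        zero_mul, Finset.sum_const_zero, add_zero]
    · simp only [hA, Matrix.of_apply, Fin.cons_zero, Fin.cons_succ, zero_mul, zero_add]
      rw [Pool.Agent.H23.dualDer_apply]
      have e2 := b.toMatrix_mulVec_repr b' (KaehlerDifferential.D ℂ L (x l))
      have e3 := congrFun e2 i
      rw [← e3]
      rfl
  have e2 : A.det = (b'.toMatrix b).det := by
    rw [Matrix.det_succ_row_zero, Finset.sum_eq_single 0]
    · simp only [hA, Matrix.of_apply, Fin.cons_zero, Fin.val_zero, pow_zero, one_mul,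
        Fin.succAbove_zero]
      congr 1
    · intro j _ hj
      obtain ⟨j', rfl⟩ := Fin.exists_succ_eq.2 hj
      simp only [hA, Matrix.of_apply, Fin.cons_zero, Fin.cons_succ, Pi.zero_apply, mul_zero,
        zero_mul]
    · intro h0
      exact absurd (Finset.mem_univ _) h0
  rw [e1, e2] at h
  rw [h, mul_comm]

/-- Scaling of the coordinates. -/
theorem Good.scale {ι : Type} {k n K : ℕ} {t : ι → Fin (n + 1) → ℂ}
    {Q : MvPolynomial (Fin (k + 2) × Fin (n + 1)) ℂ} (hQ : Good t K Q) (x : Fin (n + 1) → L)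
    (D : Fin (k + 1) → Derivation ℂ L L) (c : L) :
    ev (Fin.cons (fun l => c * x l) fun i l => D i (c * x l) : Fin (k + 2) → Fin (n + 1) → L) Q =
      c ^ ((k + 2) * K) *
        ev (Fin.cons x fun i l => D i (x l) : Fin (k + 2) → Fin (n + 1) → L) Q := by
  classical
  set A : Matrix (Fin (k + 2)) (Fin (k + 2)) L := Matrix.of
    (Fin.cons (Fin.cons c 0) fun i => Fin.cons (D i c) fun j => if i = j then c else 0) with hA
  have h := hQ.det_ring A
    (Fin.cons x fun i l => D i (x l) : Fin (k + 2) → Fin (n + 1) → L)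
  have e1 : (fun a l => ∑ a', A a a' *
      (Fin.cons x fun i l => D i (x l) : Fin (k + 2) → Fin (n + 1) → L) a' l) =
      (Fin.cons (fun l => c * x l) fun i l => D i (c * x l) :
        Fin (k + 2) → Fin (n + 1) → L) := by
    funext a l
    rw [Fin.sum_univ_succ]
    refine Fin.cases ?_ (fun i => ?_) a
    · simp only [hA, Matrix.of_apply, Fin.cons_zero, Fin.cons_succ, Pi.zero_apply,
        zero_mul, Finset.sum_const_zero, add_zero]
    · simp only [hA, Matrix.of_apply, Fin.cons_zero, Fin.cons_succ, ite_mul, zero_mul,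
        Finset.sum_ite_eq, Finset.mem_univ, if_true]
      rw [Derivation.leibniz, smul_eq_mul, smul_eq_mul]
      ring
  have e2 : A.det = c ^ (k + 2) := by
    rw [Matrix.det_succ_row_zero, Finset.sum_eq_single 0]
    · simp only [hA, Matrix.of_apply, Fin.cons_zero, Fin.val_zero, pow_zero, one_mul,
        Fin.succAbove_zero]
      have e3 : (Matrix.of (Fin.cons (Fin.cons c 0) fun i => Fin.cons (D i c)
          fun j => if i = j then c else 0 : Fin (k + 2) → Fin (k + 2) → L)).submatrix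
          Fin.succ Fin.succ = Matrix.diagonal fun _ : Fin (k + 1) => c := by
        ext i j
        simp only [Matrix.submatrix_apply, Matrix.of_apply, Fin.cons_succ, Matrix.diagonal_apply]
      rw [e3, Matrix.det_diagonal, Finset.prod_const, Finset.card_univ, Fintype.card_fin]
      ring
    · intro j _ hj
      obtain ⟨j', rfl⟩ := Fin.exists_succ_eq.2 hj
      simp only [hA, Matrix.of_apply, Fin.cons_zero, Fin.cons_succ, Pi.zero_apply, mul_zero,
        zero_mul]
    · intro h0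
      exact absurd (Finset.mem_univ _) h0
  rw [e1, e2, ← pow_mul] at h
  exact h

omit [Algebra ℂ L] in
private theorem GTEnd_mul (v : AddValuation L (WithTop ℤ)) {a b : L} {α β : ℤ} (ha : v a = α)
    (hb : v b = β) : v (a * b) = ((α + β : ℤ) : WithTop ℤ) := by
  rw [v.map_mul, ha, hb, WithTop.coe_add]

omit [Algebra ℂ L] in
private theorem GTEnd_pow (v : AddValuation L (WithTop ℤ)) {a : L} {α : ℤ} (ha : v a = α)
    (s : ℕ) : v (a ^ s) = ((s * α : ℤ) : WithTop ℤ) := by
  induction s with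
  | zero => rw [pow_zero, v.map_one]; simp
  | succ s ih =>
    rw [pow_succ, GTEnd_mul v ih ha]
    congr 1
    push_cast
    ring

omit [Algebra ℂ L] in
private theorem GTEnd_prod (v : AddValuation L (WithTop ℤ)) {ι : Type} {f : ι → L} {α : ι → ℤ}
    (hf : ∀ j, v (f j) = α j) (s : Finset ι) :
    v (∏ j ∈ s, f j) = ((∑ j ∈ s, α j : ℤ) : WithTop ℤ) := by
  classical
  induction s using Finset.induction_on with
  | empty => rw [Finset.prod_empty, v.map_one, Finset.sum_empty]; simp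
  | insert a s ha ih =>
    rw [Finset.prod_insert ha, Finset.sum_insert ha]
    exact GTEnd_mul v (hf a) ih

private theorem GTEnd_lin_mul {n : ℕ} (v : Fin (n + 1) → ℂ) (c : L) (x : Fin (n + 1) → L) :
    lin v (fun l => c * x l) = c * lin v x := by
  unfold lin
  rw [Finset.mul_sum]
  exact Finset.sum_congr rfl fun i _ => (mul_smul_comm _ _ _).symm

private theorem GTEnd_lin_der {n : ℕ} (v : Fin (n + 1) → ℂ) (D : Derivation ℂ L L)
    (x : Fin (n + 1) → L) : lin v (fun l => D (x l)) = D (lin v x) := by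
  unfold lin
  rw [map_sum]
  exact Finset.sum_congr rfl fun i _ => (D.map_smul _ _).symm

/-- At most `n` of the values of the linear forms have positive order. -/
private theorem GTEnd_card (v : AddValuation L (WithTop ℤ))
    (hv : ∀ c : ℂ, 0 ≤ v (algebraMap ℂ L c)) {n : ℕ} {ι : Type} {t : ι → Fin (n + 1) → ℂ}
    (ht : GenPos t) {y : Fin (n + 1) → L} {i₁ : Fin (n + 1)} (hy : v (y i₁) = 0) {B : Finset ι}
    (hB : ∀ j ∈ B, 1 ≤ v (lin (t j) y)) : B.card ≤ n := by
  classical
  by_contra hcon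
  push Not at hcon
  obtain ⟨S, hSB, hS⟩ := Finset.exists_subset_card_eq (Nat.succ_le_of_lt hcon)
  have hli := ht S hS.le
  have hspan : Submodule.span ℂ (Set.range fun j : S => t j) = ⊤ :=
    hli.span_eq_top_of_card_eq_finrank' (by
      rw [Fintype.card_coe, hS, Module.finrank_fintype_fun_eq_card, Fintype.card_fin])
  have hmem : (Pi.single i₁ 1 : Fin (n + 1) → ℂ) ∈
      Submodule.span ℂ (Set.range fun j : S => t j) := by rw [hspan]; trivial
  obtain ⟨c, hc⟩ := (Submodule.mem_span_range_iff_exists_fun ℂ).1 hmem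
  have e1 : y i₁ = ∑ j : S, c j • lin (t j) y := by
    unfold lin
    have e2 : ∀ j : S, c j • ∑ i, t j i • y i = ∑ i, (c j * t j i) • y i := by
      intro j
      rw [Finset.smul_sum]
      exact Finset.sum_congr rfl fun i _ => smul_smul _ _ _
    rw [Finset.sum_congr rfl fun j _ => e2 j, Finset.sum_comm]
    have e3 : ∀ i, ∑ j : S, (c j * t j i) • y i = (Pi.single i₁ 1 : Fin (n + 1) → ℂ) i • y i := by
      intro i
      rw [← Finset.sum_smul, ← hc]
      congr 1
      rw [Finset.sum_apply]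
      rfl
    rw [Finset.sum_congr rfl fun i _ => e3 i, Finset.sum_eq_single i₁]
    · rw [Pi.single_eq_same, one_smul]
    · intro i _ hi
      rw [Pi.single_eq_of_ne hi, zero_smul]
    · intro h0
      exact absurd (Finset.mem_univ _) h0
  have h1 : (1 : WithTop ℤ) ≤ v (y i₁) := by
    rw [e1]
    refine v.map_le_sum fun j _ => ?_
    rw [Algebra.smul_def, v.map_mul]
    have h2 := hB j (hSB j.2)
    calc (1 : WithTop ℤ) = 0 + 1 := by rw [zero_add]
      _ ≤ _ := add_le_add (hv _) h2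
  rw [hy] at h1
  exact absurd h1 (by decide)

/-- **Log general type from a good polynomial.** -/
theorem isLogGeneralType_of_good [Algebra.EssFiniteType ℂ L] {k n : ℕ} {z : Fin (k + 1) → L}
    (hz : IsTranscendenceBasis ℂ z) {Bd : PrimeDivisorOver L (k + 1) → Prop} {ι : Type}
    [Fintype ι] {t : ι → Fin (n + 1) → ℂ} (ht : GenPos t) {x : Fin (n + 1) → L}
    {i₀ : Fin (n + 1)} (hi₀ : x i₀ = 1)
    (halg : Algebra.IsAlgebraic (IntermediateField.adjoin ℂ (Set.range x)) L)
    (hx : ∀ j, lin (t j) x ≠ 0) {m K : ℕ} (hm : 2 ≤ m) (hK : 1 ≤ K)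
    {Q : MvPolynomial (Fin (k + 2) × Fin (n + 1)) ℂ} (hQ : Good t K Q)
    (b : Module.Basis (Fin (k + 1)) L Ω[L⁄ℂ])
    (hΘ : ev (Fin.cons x fun i l => dualDer b i (x l) : Fin (k + 2) → Fin (n + 1) → L) Q ≠ 0)
    (hnum : m * (k + 2) * K < (m - 1) * Fintype.card ι)
    (hmult : ∀ (E : PrimeDivisorOver L (k + 1)) (i₁ : Fin (n + 1)),
      (∀ i, E.ord (x i₁) ≤ E.ord (x i)) → ∀ j, E.ord (lin (t j) x) = E.ord (x i₁) ∨
        E.ord (x i₁) + (m : WithTop ℤ) ≤ E.ord (lin (t j) x)) :
    IsLogGeneralType Bd := by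
  classical
  have hP0 : ∏ j, lin (t j) x ^ (m - 1) ≠ 0 :=
    Finset.prod_ne_zero_iff.2 fun j _ => pow_ne_zero _ (hx j)
  refine isLogGeneralType_of_function (M := m * K) hz (b := b) (Nat.mul_pos (by omega) hK) hi₀ halg
    (Θ := ev (Fin.cons x fun i l => dualDer b i (x l) : Fin (k + 2) → Fin (n + 1) → L) Q ^ m /
      ∏ j, lin (t j) x ^ (m - 1)) (div_ne_zero (pow_ne_zero _ hΘ) hP0) ?_
  intro E g₀ bE hg₀ hD1 hD2 hD3 i
  suffices hmain : 0 ≤ E.ord (ev (Fin.cons x fun i l => dualDer b i (x l) :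
      Fin (k + 2) → Fin (n + 1) → L) Q ^ m / (∏ j, lin (t j) x ^ (m - 1)) * x i *
      (bE.toMatrix b).det ^ (m * K)) from
    ⟨fun _ => hmain, add_nonneg hmain (by positivity)⟩
  set G := ev (Fin.cons x fun i l => dualDer b i (x l) :
      Fin (k + 2) → Fin (n + 1) → L) Q ^ m / (∏ j, lin (t j) x ^ (m - 1)) * x i *
      (bE.toMatrix b).det ^ (m * K) with hG
  by_cases hG0 : G = 0
  · rw [hG0, E.ord.map_zero]
    exact le_top
  have hframe := hQ.frame x b bE
  set Θb := ev (Fin.cons x fun i l => dualDer b i (x l) :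
      Fin (k + 2) → Fin (n + 1) → L) Q with hΘb
  set ΘE := ev (Fin.cons x fun i l => dualDer bE i (x l) :
      Fin (k + 2) → Fin (n + 1) → L) Q with hΘE
  have hGeq : G * ∏ j, lin (t j) x ^ (m - 1) = ΘE ^ m * x i := by
    rw [hG, ← hframe, mul_pow, ← pow_mul, mul_comm K m]
    field_simp
  have hxi : x i ≠ 0 := by
    intro h0
    apply hG0
    rw [hG, h0, mul_zero, zero_mul]
  have hΘE0 : ΘE ≠ 0 := by
    intro h0
    rw [h0, zero_pow (by omega), zero_mul] at hGeq
    rcases mul_eq_zero.1 hGeq with h1 | h1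
    · exact hG0 h1
    · exact hP0 h1
  -- the minimal order
  obtain ⟨i₁, -, hi₁⟩ := Finset.exists_min_image Finset.univ (fun i => E.ord (x i))
    ⟨i₀, Finset.mem_univ _⟩
  have hi₁' : ∀ i, E.ord (x i₁) ≤ E.ord (x i) := fun i => hi₁ i (Finset.mem_univ i)
  have hmu0 : E.ord (x i₁) ≤ 0 := by
    have := hi₁' i₀
    rwa [hi₀, E.ord.map_one] at this
  obtain ⟨μ, hμ⟩ : ∃ μ : ℤ, E.ord (x i₁) = μ := by
    have : E.ord (x i₁) ≠ ⊤ := ne_top_of_le_ne_top (by simp) hmu0
    exact ⟨(E.ord (x i₁)).untop this, by simp⟩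
  have hμ0 : μ ≤ 0 := by
    rw [hμ] at hmu0
    exact_mod_cast hmu0
  obtain ⟨s, hs⟩ : ∃ s : ℕ, (s : ℤ) = -μ := ⟨(-μ).toNat, Int.toNat_of_nonneg (by omega)⟩
  have hg₀' : E.ord g₀ = ((1 : ℤ) : WithTop ℤ) := by rw [hg₀]; rfl
  set c := g₀ ^ s with hc
  have hvc : E.ord c = ((-μ : ℤ) : WithTop ℤ) := by
    rw [hc, GTEnd_pow E.ord hg₀' s, mul_one, hs]
  have hc0 : c ≠ 0 := by
    intro h0
    rw [h0, E.ord.map_zero] at hvc
    exact WithTop.coe_ne_top hvc.symm
  set y : Fin (n + 1) → L := fun l => c * x l with hy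
  have hy0 : ∀ l, 0 ≤ E.ord (y l) := by
    intro l
    rw [hy]
    show 0 ≤ E.ord (c * x l)
    rw [E.ord.map_mul, hvc]
    calc (0 : WithTop ℤ) = ((-μ : ℤ) : WithTop ℤ) + (μ : WithTop ℤ) := by
          rw [← WithTop.coe_add]; simp
      _ ≤ _ := by
          rw [← hμ]
          exact add_le_add le_rfl (hi₁' l)
  have hy1 : E.ord (y i₁) = 0 := by
    show E.ord (c * x i₁) = 0
    rw [GTEnd_mul E.ord hvc hμ]
    simp
  -- the orders of the linear forms
  have hl : ∀ j, ∃ l : ℤ, E.ord (lin (t j) x) = l := fun j => by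
    have := (E.ord.ne_top_iff).2 (hx j)
    exact ⟨(E.ord (lin (t j) x)).untop this, by simp⟩
  choose l hl using hl
  set e : ι → ℤ := fun j => l j - μ with he
  have hey : ∀ j, E.ord (lin (t j) y) = ((e j : ℤ) : WithTop ℤ) := by
    intro j
    rw [hy, GTEnd_lin_mul, GTEnd_mul E.ord hvc (hl j), he]
    congr 1
    ring
  have hem : ∀ j, e j = 0 ∨ (m : ℤ) ≤ e j := by
    intro j
    rcases hmult E i₁ hi₁' j with h1 | h1
    · left
      rw [hl, hμ] at h1
      have : l j = μ := by exact_mod_cast h1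
      rw [he]
      show l j - μ = 0
      omega
    · right
      rw [hl, hμ] at h1
      have : μ + (m : ℤ) ≤ l j := by exact_mod_cast h1
      rw [he]
      show (m : ℤ) ≤ l j - μ
      omega
  set B : Finset ι := Finset.univ.filter fun j => e j ≠ 0 with hB
  have hBe : ∀ j ∈ B, (m : ℤ) ≤ e j := fun j hj =>
    (hem j).resolve_left (Finset.mem_filter.1 hj).2
  have hBcard : B.card ≤ n := by
    refine GTEnd_card E.ord E.ord_const ht hy1 fun j hj => ?_
    rw [hey]
    have h1 := hBe j hj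
    have h2 : (1 : ℤ) ≤ e j := by omega
    exact_mod_cast h2
  have hBli : LinearIndependent ℂ fun j : B => t j := ht B (by omega)
  -- the order of the good polynomial
  set F := ev (Fin.cons y fun i l => dualDer bE i (y l) :
      Fin (k + 2) → Fin (n + 1) → L) Q with hF
  have hFeq : F = c ^ ((k + 2) * K) * ΘE := hQ.scale x (fun i => dualDer bE i) c
  have hFle : ((∑ j ∈ B, (e j - 1) : ℤ) : WithTop ℤ) ≤ E.ord F := by
    refine hQ.le_ord E.ord E.ord_const hBli (ε := fun j => e j - 1) ?_ ?_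
    · intro a i
      refine Fin.cases ?_ (fun a => ?_) a
      · simp only [Fin.cons_zero]
        exact hy0 i
      · simp only [Fin.cons_succ]
        exact hD1 a _ (hy0 i)
    · intro j hj a
      refine Fin.cases ?_ (fun a => ?_) a
      · simp only [Fin.cons_zero]
        rw [hey]
        have : e j - 1 ≤ e j := by omega
        exact_mod_cast this
      · simp only [Fin.cons_succ]
        rw [GTEnd_lin_der]
        by_cases ha : a = 0
        · subst ha
          have h1 := hD3 (lin (t j) y)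
          rw [E.ord.map_mul, hg₀, hey] at h1
          rcases eq_or_ne (E.ord (dualDer bE 0 (lin (t j) y))) ⊤ with h2 | h2
          · rw [h2]
            exact le_top
          · obtain ⟨w, hw⟩ := WithTop.ne_top_iff_exists.1 h2
            rw [← hw] at h1 ⊢
            have h3 : e j ≤ 1 + w := by exact_mod_cast h1
            have h4 : e j - 1 ≤ w := by omega
            exact WithTop.coe_le_coe.2 h4
        · have h1 := hD2 a ha (lin (t j) y)
          rw [hey] at h1
          refine le_trans ?_ h1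
          have : e j - 1 ≤ e j := by omega
          exact_mod_cast this
  -- integers
  obtain ⟨θ, hθ⟩ : ∃ θ : ℤ, E.ord ΘE = θ :=
    ⟨(E.ord ΘE).untop ((E.ord.ne_top_iff).2 hΘE0), by simp⟩
  obtain ⟨ξ, hξ⟩ : ∃ ξ : ℤ, E.ord (x i) = ξ :=
    ⟨(E.ord (x i)).untop ((E.ord.ne_top_iff).2 hxi), by simp⟩
  obtain ⟨γ, hγ⟩ : ∃ γ : ℤ, E.ord G = γ :=
    ⟨(E.ord G).untop ((E.ord.ne_top_iff).2 hG0), by simp⟩
  have h1 : ∑ j ∈ B, (e j - 1) ≤ ((k + 2) * K : ℕ) * (-μ) + θ := by
    rw [hFeq, GTEnd_mul E.ord (GTEnd_pow E.ord hvc _) hθ] at hFle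
    exact_mod_cast hFle
  have h2 : γ + ∑ j, ((m - 1 : ℕ) : ℤ) * l j = (m : ℤ) * θ + ξ := by
    have e1 := congrArg E.ord hGeq
    rw [GTEnd_mul E.ord hγ (GTEnd_prod E.ord (fun j => GTEnd_pow E.ord (hl j) (m - 1)) _),
      GTEnd_mul E.ord (GTEnd_pow E.ord hθ m) hξ] at e1
    exact_mod_cast e1
  have h3 : μ ≤ ξ := by
    have := hi₁' i
    rw [hμ, hξ] at this
    exact_mod_cast this
  rw [hγ]
  have h4 : ∑ j, l j = ∑ j ∈ B, e j + (Fintype.card ι : ℤ) * μ := by
    have e1 : ∑ j ∈ B, e j = ∑ j, e j := by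
      rw [hB]
      exact Finset.sum_filter_ne_zero _
    rw [e1, he, Finset.sum_sub_distrib, Finset.sum_const, Finset.card_univ, nsmul_eq_mul]
    ring
  have h5 : ∑ j ∈ B, (m : ℤ) ≤ ∑ j ∈ B, e j := Finset.sum_le_sum hBe
  rw [Finset.sum_const, nsmul_eq_mul] at h5
  rw [Finset.sum_sub_distrib, Finset.sum_const, nsmul_eq_mul, mul_one] at h1
  rw [← Finset.mul_sum, h4] at h2
  have hm1 : ((m - 1 : ℕ) : ℤ) = (m : ℤ) - 1 := by
    rw [Nat.cast_sub (by omega)]; rfl
  have hnum' : (m : ℤ) * (k + 2) * K + 1 ≤ ((m : ℤ) - 1) * Fintype.card ι := by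
    rw [← hm1]
    exact_mod_cast hnum
  rw [hm1] at h2
  push_cast at h1
  set Se := ∑ j ∈ B, e j with hSe
  have h6 : 0 ≤ γ := by
    have e1 : γ = (m : ℤ) * θ + ξ - ((m : ℤ) - 1) * (Se + (Fintype.card ι : ℤ) * μ) := by
      linarith
    have e2 : (m : ℤ) * (Se - B.card) ≤ (m : ℤ) * (((k : ℤ) + 2) * K * (-μ) + θ) :=
      mul_le_mul_of_nonneg_left h1 (by positivity)
    have e3 : 0 ≤ (-μ) * (((m : ℤ) - 1) * Fintype.card ι - (m : ℤ) * (k + 2) * K - 1) :=
      mul_nonneg (by omega) (by linarith)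
    nlinarith
  exact_mod_cast h6

end Pool.Agent.H39.HC
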