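import Pool.Agent.H39.HC.General

/-!
# General diagonal forms
-/

open MvPolynomial

noncomputable section

namespace Pool.Agent.H39.HC

private theorem GenDiag_comp {σ τ : Type} (f : σ → MvPolynomial τ ℂ) (v : τ → ℂ)
    (g : MvPolynomial σ ℂ) : eval v (aeval f g) = eval (fun s => eval v (f s)) g := by
  induction g using MvPolynomial.induction_on with
  | C a => simp
  | add p q hp hq => rw [map_add, map_add, map_add, hp, hq]
  | mul_X p i hp => rw [map_mul, map_mul, map_mul, hp, aeval_X, eval_X]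

section Aux

variable {n M : ℕ}

/-- The indices `≤ n` and the `M` other ones. -/
private def GenDiag_e (n M : ℕ) : Fin (n + 1) ⊕ Fin M ≃ Fin (n + M + 1) :=
  finSumFinEquiv.trans (finCongr (by omega))

private def GenDiag_A1 {R : Type} [CommRing R] (a : Fin M → Fin (n + M + 1) → R) :
    Matrix (Fin M) (Fin (n + 1)) R :=
  Matrix.of fun l i => a l (GenDiag_e n M (Sum.inl i))

private def GenDiag_A2 {R : Type} [CommRing R] (a : Fin M → Fin (n + M + 1) → R) :
    Matrix (Fin M) (Fin M) R :=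
  Matrix.of fun l l' => a l (GenDiag_e n M (Sum.inr l'))

private def GenDiag_t {R : Type} [CommRing R] (a : Fin M → Fin (n + M + 1) → R) :
    Fin (n + M + 1) → Fin (n + 1) → R := fun j =>
  Sum.elim (fun i i' => if i = i' then (GenDiag_A2 a).det else 0)
    (fun l i' => -(((GenDiag_A2 a).adjugate * GenDiag_A1 a) l i')) ((GenDiag_e n M).symm j)

private theorem GenDiag_nat {R S : Type} [CommRing R] [CommRing S] (f : R →+* S)
    (a : Fin M → Fin (n + M + 1) → R) (j : Fin (n + M + 1)) (i : Fin (n + 1)) :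
    f (GenDiag_t a j i) = GenDiag_t (fun l j => f (a l j)) j i := by
  have h2 : GenDiag_A2 (fun l j => f (a l j)) = (GenDiag_A2 a).map f := rfl
  have h1 : GenDiag_A1 (fun l j => f (a l j)) = (GenDiag_A1 a).map f := rfl
  unfold GenDiag_t
  rcases (GenDiag_e n M).symm j with i' | l
  · simp only [Sum.elim_inl, h2]
    rw [apply_ite f, map_zero, RingHom.map_det]
    rfl
  · simp only [Sum.elim_inr, h2, h1]
    rw [map_neg]
    have h3 : ((GenDiag_A2 a).map f).adjugate = (GenDiag_A2 a).adjugate.map f :=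
      (RingHom.map_adjugate f (GenDiag_A2 a)).symm
    rw [h3, ← Matrix.map_mul]
    rfl

private theorem GenDiag_sum (a : Fin M → Fin (n + M + 1) → ℂ) (b : Fin (n + M + 1) → ℂ) :
    ∑ j, b j • GenDiag_t a j =
      (GenDiag_A2 a).det • (fun i => b (GenDiag_e n M (Sum.inl i))) -
        Matrix.vecMul (fun l => b (GenDiag_e n M (Sum.inr l)))
          ((GenDiag_A2 a).adjugate * GenDiag_A1 a) := by
  funext i'
  rw [Finset.sum_apply, ← (GenDiag_e n M).sum_comp, Fintype.sum_sum_type]
  simp only [GenDiag_t, Equiv.symm_apply_apply, Sum.elim_inl, Sum.elim_inr, Pi.smul_apply,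
    smul_eq_mul, Pi.sub_apply, Matrix.vecMul, dotProduct, mul_neg, Finset.sum_neg_distrib,
    mul_ite, mul_zero, Finset.sum_ite_eq', Finset.mem_univ, if_true]
  ring

private theorem GenDiag_rel (a : Fin M → Fin (n + M + 1) → ℂ) (ha : (GenDiag_A2 a).det ≠ 0)
    (b : Fin (n + M + 1) → ℂ) :
    ∑ j, b j • GenDiag_t a j = 0 ↔ b ∈ Submodule.span ℂ (Set.range a) := by
  rw [GenDiag_sum, Submodule.mem_span_range_iff_exists_fun, sub_eq_zero]
  have hb : ∀ c : Fin M → ℂ, ∑ l, c l • a l = b ↔
      Matrix.vecMul c (GenDiag_A1 a) = (fun i => b (GenDiag_e n M (Sum.inl i))) ∧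
        Matrix.vecMul c (GenDiag_A2 a) = (fun l => b (GenDiag_e n M (Sum.inr l))) := by
    intro c
    constructor
    · rintro rfl
      constructor
      · funext i
        simp [Matrix.vecMul, dotProduct, GenDiag_A1]
      · funext i
        simp [Matrix.vecMul, dotProduct, GenDiag_A2]
    · rintro ⟨h1, h2⟩
      funext j
      obtain ⟨s, rfl⟩ := (GenDiag_e n M).surjective j
      rcases s with i | l
      · have h3 := congrFun h1 i
        simpa [Matrix.vecMul, dotProduct, GenDiag_A1] using h3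
      · have h3 := congrFun h2 l
        simpa [Matrix.vecMul, dotProduct, GenDiag_A2] using h3
  simp only [hb]
  set D := (GenDiag_A2 a).det with hD
  constructor
  · intro h
    refine ⟨D⁻¹ • Matrix.vecMul (fun l => b (GenDiag_e n M (Sum.inr l)))
      (GenDiag_A2 a).adjugate, ?_, ?_⟩
    · rw [Matrix.smul_vecMul, Matrix.vecMul_vecMul, ← h, smul_smul, inv_mul_cancel₀ ha, one_smul]
    · rw [Matrix.smul_vecMul, Matrix.vecMul_vecMul, Matrix.adjugate_mul, Matrix.vecMul_smul,
        Matrix.vecMul_one, smul_smul, ← hD, inv_mul_cancel₀ ha, one_smul]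
  · rintro ⟨c, h1, h2⟩
    rw [← h1, ← h2, Matrix.vecMul_vecMul, ← Matrix.mul_assoc, Matrix.mul_adjugate,
      Matrix.smul_mul, Matrix.one_mul, Matrix.vecMul_smul]

private theorem GenDiag_norm {d q : ℕ} {Δ : MvPolynomial (Fin (n + M + 1) × Fin (n + 1)) ℂ}
    (hΔ : Δ ≠ 0)
    (h : ∀ t : Fin (n + M + 1) → Fin (n + 1) → ℂ, eval (fun p => t p.1 p.2) Δ ≠ 0 ↔
      GenPos t ∧ Spans d fun j : firstIdx (n + M) q => t j) :
    ∃ t : Fin (n + M + 1) → Fin (n + 1) → ℂ, eval (fun p => t p.1 p.2) Δ ≠ 0 ∧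
      ∀ i i', t (GenDiag_e n M (Sum.inl i)) i' = (1 : Matrix (Fin (n + 1)) (Fin (n + 1)) ℂ) i i' := by
  classical
  obtain ⟨t1, ht1⟩ : ∃ t : Fin (n + M + 1) → Fin (n + 1) → ℂ,
      eval (fun p => t p.1 p.2) Δ ≠ 0 := by
    by_contra hne
    push Not at hne
    apply hΔ
    apply MvPolynomial.funext
    intro x
    rw [map_zero]
    exact hne fun j i => x (j, i)
  obtain ⟨hgp, hind⟩ := (h t1).mp ht1
  let G : Matrix (Fin (n + 1)) (Fin (n + 1)) ℂ :=
    Matrix.of fun i i' => t1 (GenDiag_e n M (Sum.inl i)) i'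
  have hinj : Function.Injective fun i : Fin (n + 1) => GenDiag_e n M (Sum.inl i) := fun i i' hii =>
    Sum.inl_injective ((GenDiag_e n M).injective hii)
  have hG : LinearIndependent ℂ fun i : Fin (n + 1) => t1 (GenDiag_e n M (Sum.inl i)) := by
    let S : Finset (Fin (n + M + 1)) := Finset.univ.image fun i => GenDiag_e n M (Sum.inl i)
    have hS : S.card ≤ n + 1 := by
      refine Finset.card_image_le.trans ?_
      simp
    have h1 := hgp S hS
    let κ : Fin (n + 1) → S := fun i =>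
      ⟨GenDiag_e n M (Sum.inl i), Finset.mem_image_of_mem _ (Finset.mem_univ i)⟩
    have hκ : Function.Injective κ := fun i i' hii => hinj (congrArg Subtype.val hii)
    exact h1.comp κ hκ
  have hGu : IsUnit G := Matrix.linearIndependent_rows_iff_isUnit.mp hG
  have hGd : IsUnit G.det := (Matrix.isUnit_iff_isUnit_det G).mp hGu
  let t2 : Fin (n + M + 1) → Fin (n + 1) → ℂ := fun j => Matrix.vecMul (t1 j) G⁻¹
  have hback : ∀ j, Matrix.vecMul (t2 j) G = t1 j := by
    intro j
    simp only [t2]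
    rw [Matrix.vecMul_vecMul, Matrix.nonsing_inv_mul G hGd, Matrix.vecMul_one]
  refine ⟨t2, ?_, ?_⟩
  · rw [h]
    constructor
    · intro S hS
      have h1 := hgp S hS
      have h2 : Function.Injective (Matrix.vecMulLinear G⁻¹) := by
        intro v w hvw
        have h3 : Matrix.vecMul (Matrix.vecMul v G⁻¹) G = Matrix.vecMul (Matrix.vecMul w G⁻¹) G :=
          congrArg (fun u => Matrix.vecMul u G) hvw
        rwa [Matrix.vecMul_vecMul, Matrix.vecMul_vecMul, Matrix.nonsing_inv_mul G hGd,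
          Matrix.vecMul_one, Matrix.vecMul_one] at h3
      exact h1.map' (Matrix.vecMulLinear G⁻¹) (LinearMap.ker_eq_bot.mpr h2)
    · intro g hg hgy
      let g' : MvPolynomial (Fin (n + 1)) ℂ :=
        aeval (fun i' : Fin (n + 1) => ∑ i, C (G⁻¹ i i') * X i) g
      have hg' : g'.IsHomogeneous d := by
        have h3 := hg.aeval (fun i' : Fin (n + 1) =>
          (∑ i, C (G⁻¹ i i') * X i : MvPolynomial (Fin (n + 1)) ℂ)) (n := 1) (fun i' =>
            IsHomogeneous.sum _ _ _ fun i _ => by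
              have h4 := (isHomogeneous_C (Fin (n + 1)) (G⁻¹ i i')).mul (isHomogeneous_X ℂ i)
              simpa using h4)
        rw [one_mul] at h3
        exact h3
      have hev : ∀ v : Fin (n + 1) → ℂ, eval v g' = eval (Matrix.vecMul v G⁻¹) g := by
        intro v
        simp only [g']
        rw [GenDiag_comp]
        congr 2
        funext i'
        simp [Matrix.vecMul, dotProduct, mul_comm]
      have h0 := hind g' hg' fun j => by
        rw [hev]
        exact hgy j
      refine MvPolynomial.funext fun v => ?_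
      have h1 := hev (Matrix.vecMul v G)
      rw [h0, map_zero, Matrix.vecMul_vecMul, Matrix.mul_nonsing_inv G hGd,
        Matrix.vecMul_one] at h1
      rw [← h1, map_zero]
  · intro i i'
    have h1 : t2 (GenDiag_e n M (Sum.inl i)) = (G * G⁻¹) i := by
      simp only [t2]
      rw [Matrix.mul_apply_eq_vecMul]
      rfl
    rw [h1, Matrix.mul_nonsing_inv G hGd]

private theorem GenDiag_main {d q : ℕ} (hq : q = (n + d).choose n) (hqN : q ≤ n + M + 1) :
    ∃ Δ : MvPolynomial (Fin M × Fin (n + M + 1)) ℂ, Δ ≠ 0 ∧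
      ∀ a : Fin M → Fin (n + M + 1) → ℂ, eval (fun p => a p.1 p.2) Δ ≠ 0 →
        ∃ t : Fin (n + M + 1) → Fin (n + 1) → ℂ, GenPos t ∧ Spans d t ∧
          ∀ b : Fin (n + M + 1) → ℂ, ∑ j, b j • t j = 0 ↔
            b ∈ Submodule.span ℂ (Set.range a) := by
  classical
  obtain ⟨Δ, hΔ, hiff⟩ := exists_general (n := n) (N := n + M) (d := d) (q := q)
    (Nat.le_add_right n M) hq hqN
  let A : Fin M → Fin (n + M + 1) → MvPolynomial (Fin M × Fin (n + M + 1)) ℂ :=
    fun l j => X (l, j)
  let Δ' : MvPolynomial (Fin M × Fin (n + M + 1)) ℂ :=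
    (GenDiag_A2 A).det * aeval (fun p : Fin (n + M + 1) × Fin (n + 1) => GenDiag_t A p.1 p.2) Δ
  have hA : ∀ a : Fin M → Fin (n + M + 1) → ℂ,
      (fun l j => eval (fun p : Fin M × Fin (n + M + 1) => a p.1 p.2) (A l j)) = a := by
    intro a
    funext l j
    simp [A]
  have hev : ∀ a : Fin M → Fin (n + M + 1) → ℂ, eval (fun p => a p.1 p.2) Δ' =
      (GenDiag_A2 a).det * eval (fun p => GenDiag_t a p.1 p.2) Δ := by
    intro a
    simp only [Δ']
    rw [map_mul]
    congr 1
    · rw [RingHom.map_det]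
      congr 1
      ext l l'
      simp [GenDiag_A2, A]
    · rw [GenDiag_comp]
      congr 2
      funext p
      rw [GenDiag_nat, hA]
  refine ⟨Δ', ?_, ?_⟩
  · obtain ⟨t2, ht2, hone⟩ := GenDiag_norm hΔ hiff
    let a₀ : Fin M → Fin (n + M + 1) → ℂ := fun l j =>
      Sum.elim (fun i => -t2 (GenDiag_e n M (Sum.inr l)) i)
        (fun l' => (1 : Matrix (Fin M) (Fin M) ℂ) l l') ((GenDiag_e n M).symm j)
    have h2 : GenDiag_A2 a₀ = 1 := by
      ext l l'
      simp [GenDiag_A2, a₀]
    have h1 : ∀ l i, GenDiag_A1 a₀ l i = -t2 (GenDiag_e n M (Sum.inr l)) i := by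
      intro l i
      simp [GenDiag_A1, a₀]
    have ht : GenDiag_t a₀ = t2 := by
      funext j i'
      obtain ⟨s, rfl⟩ := (GenDiag_e n M).surjective j
      unfold GenDiag_t
      rw [Equiv.symm_apply_apply]
      rcases s with i | l
      · rw [Sum.elim_inl, h2, Matrix.det_one, hone, Matrix.one_apply]
      · rw [Sum.elim_inr, h2, Matrix.adjugate_one, Matrix.one_mul, h1, neg_neg]
    intro h0
    have h3 := hev a₀
    rw [h0, map_zero, h2, Matrix.det_one, one_mul, ht] at h3
    exact ht2 h3.symm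
  · intro a ha
    rw [hev] at ha
    have h1 := left_ne_zero_of_mul ha
    have h2 := right_ne_zero_of_mul ha
    obtain ⟨h3, h4⟩ := (hiff (GenDiag_t a)).mp h2
    exact ⟨GenDiag_t a, h3, fun g hg hg0 => h4 g hg fun j => hg0 j, GenDiag_rel a h1⟩

end Aux

/-- General diagonal forms belong to linear forms `lin (t j)` in general position whose coefficient
vectors lie on no hypersurface of degree `d`. -/
theorem exists_general_diag {n N d : ℕ} (hN : n ≤ N) (hqN : (n + d).choose n ≤ N + 1) :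
    ∃ Δ : MvPolynomial (Fin (N - n) × Fin (N + 1)) ℂ, Δ ≠ 0 ∧
      ∀ a : Fin (N - n) → Fin (N + 1) → ℂ, eval (fun p => a p.1 p.2) Δ ≠ 0 →
        ∃ t : Fin (N + 1) → Fin (n + 1) → ℂ, GenPos t ∧ Spans d t ∧
          ∀ b : Fin (N + 1) → ℂ, ∑ j, b j • t j = 0 ↔ b ∈ Submodule.span ℂ (Set.range a) := by
  obtain ⟨M, rfl⟩ := Nat.exists_eq_add_of_le hN
  rw [Nat.add_sub_cancel_left]
  exact GenDiag_main rfl hqN

end Pool.Agent.H39.HC
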