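import Pool.Agent.H39.HC.Defs
import Pool.Agent.H17.OpenHyperbolic

/-!
# The cover is a smooth complete intersection
-/

open MvPolynomial
open Pool.Agent.H17 (PN SmoothIntersection)
open Pool.Agent.H62.FC (openLocus)

noncomputable section

namespace Pool.Agent.H39.HC

private theorem Geometry_span_top {n : ℕ} {ι : Type} [Finite ι] {t : ι → Fin (n + 1) → ℂ}
    (ht : GenPos t) {S : Finset ι} (hS : S.card = n + 1) :
    Submodule.span ℂ (Set.range fun j : S => t j) = ⊤ := by
  apply LinearIndependent.span_eq_top_of_card_eq_finrank' (ht S hS.le)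
  rw [Fintype.card_coe, hS, Module.finrank_fin_fun]

private theorem Geometry_finrank_ker {n N : ℕ} (hN : n ≤ N) {t : Fin (N + 1) → Fin (n + 1) → ℂ}
    (ht : GenPos t) :
    Module.finrank ℂ (LinearMap.ker (Fintype.linearCombination ℂ t)) = N - n := by
  obtain ⟨S, -, hS⟩ := Finset.exists_subset_card_eq
    (s := (Finset.univ : Finset (Fin (N + 1)))) (n := n + 1)
    (by rw [Finset.card_univ, Fintype.card_fin]; omega)
  have h1 : LinearMap.range (Fintype.linearCombination ℂ t) = ⊤ := by
    rw [Fintype.range_linearCombination, eq_top_iff, ← Geometry_span_top ht hS]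
    apply Submodule.span_mono
    rintro _ ⟨j, rfl⟩
    exact ⟨j, rfl⟩
  have h2 := LinearMap.finrank_range_add_finrank_ker (Fintype.linearCombination ℂ t)
  rw [h1, finrank_top, Module.finrank_fin_fun, Module.finrank_fin_fun] at h2
  omega

private theorem Geometry_eval {N m : ℕ} (b : Fin (N + 1) → ℂ) (x : Fin (N + 1) → ℂ) :
    eval x (diagForm b m) = ∑ j, b j * x j ^ m := by
  rw [diagForm, map_sum]
  refine Finset.sum_congr rfl fun j _ => ?_
  rw [map_mul, map_pow, eval_C, eval_X]

private theorem Geometry_pderiv {N m : ℕ} (b : Fin (N + 1) → ℂ) (x : Fin (N + 1) → ℂ)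
    (j : Fin (N + 1)) : eval x (pderiv j (diagForm b m)) = b j * (m * x j ^ (m - 1)) := by
  rw [diagForm, map_sum, map_sum, Finset.sum_eq_single j]
  · rw [Derivation.leibniz, pderiv_C, smul_zero, add_zero, Derivation.leibniz_pow, pderiv_X_self]
    simp only [nsmul_eq_mul, smul_eq_mul, mul_one, map_mul, map_pow, eval_C, eval_X, map_natCast]
  · intro i _ hi
    rw [Derivation.leibniz, pderiv_C, smul_zero, add_zero, Derivation.leibniz_pow,
      pderiv_X_of_ne hi]
    simp
  · intro h
    exact absurd (Finset.mem_univ _) h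

private theorem Geometry_lin {n N : ℕ} (t : Fin (N + 1) → Fin (n + 1) → ℂ) (b : Fin (N + 1) → ℂ)
    (c : Fin (n + 1) → ℂ) : ∑ j, b j * lin (t j) c = ∑ i, (∑ j, b j • t j) i * c i := by
  simp only [lin, Finset.mul_sum, Finset.sum_apply, Pi.smul_apply, smul_eq_mul, Finset.sum_mul]
  rw [Finset.sum_comm]
  refine Finset.sum_congr rfl fun i _ => Finset.sum_congr rfl fun j _ => ?_
  ring

/-- A basis of the relations. -/
theorem exists_relations {n N : ℕ} (hN : n ≤ N) {t : Fin (N + 1) → Fin (n + 1) → ℂ}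
    (ht : GenPos t) :
    ∃ a : Fin (N - n) → Fin (N + 1) → ℂ,
      ∀ b : Fin (N + 1) → ℂ, ∑ j, b j • t j = 0 ↔ b ∈ Submodule.span ℂ (Set.range a) := by
  set Φ := Fintype.linearCombination ℂ t with hΦ
  let B := Module.finBasisOfFinrankEq ℂ (LinearMap.ker Φ) (Geometry_finrank_ker hN ht)
  refine ⟨fun l => (B l : Fin (N + 1) → ℂ), fun b => ?_⟩
  have h1 : Submodule.span ℂ (Set.range fun l => (B l : Fin (N + 1) → ℂ)) = LinearMap.ker Φ := by
    have h2 : (Set.range fun l => (B l : Fin (N + 1) → ℂ)) =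
        (LinearMap.ker Φ).subtype '' Set.range B := by
      rw [← Set.range_comp]
      rfl
    rw [h2, Submodule.span_image, B.span_eq, Submodule.map_top, Submodule.range_subtype]
  rw [h1, LinearMap.mem_ker, hΦ, Fintype.linearCombination_apply]

/-- The points of the cover. -/
theorem eval_diagForm_eq_zero_iff {n N m : ℕ} {t : Fin (N + 1) → Fin (n + 1) → ℂ}
    {a : Fin (N - n) → Fin (N + 1) → ℂ}
    (ha : ∀ b : Fin (N + 1) → ℂ, ∑ j, b j • t j = 0 ↔ b ∈ Submodule.span ℂ (Set.range a))
    (x : Fin (N + 1) → ℂ) : (∀ l, eval x (diagForm (a l) m) = 0) ↔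
        ∃ c : Fin (n + 1) → ℂ, ∀ j, x j ^ m = lin (t j) c := by
  simp only [Geometry_eval]
  constructor
  · intro h
    set Φ := Fintype.linearCombination ℂ t with hΦ
    let ψ : Module.Dual ℂ (Fin (N + 1) → ℂ) := Fintype.linearCombination ℂ fun j => x j ^ m
    have hψ : ∀ b, ψ b = ∑ j, b j * x j ^ m := fun b => by
      simp only [ψ, Fintype.linearCombination_apply, smul_eq_mul]
    have h1 : ψ ∈ (LinearMap.ker Φ).dualAnnihilator := by
      rw [Submodule.mem_dualAnnihilator]
      intro b hb
      rw [LinearMap.mem_ker, hΦ, Fintype.linearCombination_apply, ha] at hb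
      have h2 : Submodule.span ℂ (Set.range a) ≤ LinearMap.ker ψ := by
        rw [Submodule.span_le]
        rintro _ ⟨l, rfl⟩
        change a l ∈ LinearMap.ker ψ
        rw [LinearMap.mem_ker, hψ]
        exact h l
      exact LinearMap.mem_ker.1 (h2 hb)
    rw [← LinearMap.range_dualMap_eq_dualAnnihilator_ker] at h1
    obtain ⟨g, hg⟩ := h1
    refine ⟨fun i => g (Pi.single i 1), fun j => ?_⟩
    have h2 : ψ (Pi.single j 1) = x j ^ m := by
      rw [hψ, Finset.sum_eq_single j]
      · rw [Pi.single_eq_same, one_mul]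
      · intro i _ hi
        rw [Pi.single_eq_of_ne hi, zero_mul]
      · intro h
        exact absurd (Finset.mem_univ _) h
    rw [← h2, ← hg, LinearMap.dualMap_apply]
    have h3 : Φ (Pi.single j 1) = t j := by
      rw [hΦ, Fintype.linearCombination_apply_single, one_smul]
    rw [h3, lin]
    conv_lhs => rw [pi_eq_sum_univ' (t j), map_sum]
    refine Finset.sum_congr rfl fun i _ => ?_
    rw [map_smul]
  · rintro ⟨c, hc⟩ l
    simp only [hc]
    rw [Geometry_lin, (ha (a l)).2 (Submodule.subset_span ⟨l, rfl⟩)]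
    simp

/-- The cover is a smooth complete intersection. -/
theorem smoothIntersection_diagForm {n N m : ℕ} (hm : 1 ≤ m) (hN : n ≤ N)
    {t : Fin (N + 1) → Fin (n + 1) → ℂ} (ht : GenPos t) {a : Fin (N - n) → Fin (N + 1) → ℂ}
    (ha : ∀ b : Fin (N + 1) → ℂ, ∑ j, b j • t j = 0 ↔ b ∈ Submodule.span ℂ (Set.range a)) :
    SmoothIntersection fun l => diagForm (a l) m := by
  intro x hx hxa
  have hspan : Submodule.span ℂ (Set.range a) = LinearMap.ker (Fintype.linearCombination ℂ t) := by
    ext b
    rw [← ha, LinearMap.mem_ker, Fintype.linearCombination_apply]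
  have hli : LinearIndependent ℂ a := by
    rw [linearIndependent_iff_card_eq_finrank_span, Set.finrank, hspan, Geometry_finrank_ker hN ht,
      Fintype.card_fin]
  obtain ⟨c, hc⟩ := (eval_diagForm_eq_zero_iff ha x).1 hxa
  have hc0 : c ≠ 0 := by
    rintro rfl
    apply hx
    funext j
    have h1 := hc j
    have h2 : lin (t j) (0 : Fin (n + 1) → ℂ) = 0 := by simp [lin]
    rw [h2] at h1
    exact pow_eq_zero_iff (by omega) |>.1 h1
  -- few coordinates vanish
  classical
  set Z : Finset (Fin (N + 1)) := Finset.univ.filter fun j => x j = 0 with hZ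
  have hZcard : Z.card ≤ n + 1 := by
    by_contra hcon
    obtain ⟨S, hSZ, hS⟩ := Finset.exists_subset_card_eq (s := Z) (n := n + 1) (by omega)
    have h1 := Geometry_span_top ht hS
    let φ : Module.Dual ℂ (Fin (n + 1) → ℂ) := Fintype.linearCombination ℂ c
    have hφ : ∀ v, φ v = lin v c := fun v => by
      simp only [φ, Fintype.linearCombination_apply, lin]
    have h2 : Submodule.span ℂ (Set.range fun j : S => t j) ≤ LinearMap.ker φ := by
      rw [Submodule.span_le]
      rintro _ ⟨j, rfl⟩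
      change t j ∈ LinearMap.ker φ
      rw [LinearMap.mem_ker, hφ, ← hc]
      have h3 := hSZ j.2
      rw [hZ, Finset.mem_filter] at h3
      rw [h3.2, zero_pow (by omega)]
    rw [h1, top_le_iff, LinearMap.ker_eq_top] at h2
    apply hc0
    funext i
    have h3 : φ (Pi.single i 1) = 0 := by rw [h2]; rfl
    have h4 : φ (Pi.single i 1) = c i := by
      change Fintype.linearCombination ℂ c (Pi.single i 1) = c i
      rw [Fintype.linearCombination_apply_single, one_smul]
    rw [← h4, h3]
    rfl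
  rw [Fintype.linearIndependent_iff]
  intro g hg
  set b : Fin (N + 1) → ℂ := ∑ l, g l • a l with hb
  have hbj : ∀ j, x j ≠ 0 → b j = 0 := by
    intro j hj
    have h1 := congrFun hg j
    rw [Finset.sum_apply] at h1
    simp only [Pi.smul_apply, Geometry_pderiv, smul_eq_mul, Pi.zero_apply] at h1
    have h2 : b j * (m * x j ^ (m - 1)) = 0 := by
      rw [← h1, hb, Finset.sum_apply, Finset.sum_mul]
      refine Finset.sum_congr rfl fun l _ => ?_
      rw [Pi.smul_apply, smul_eq_mul]
      ring
    rcases mul_eq_zero.1 h2 with h3 | h3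
    · exact h3
    · exfalso
      rcases mul_eq_zero.1 h3 with h4 | h4
      · have : m = 0 := by exact_mod_cast h4
        omega
      · exact pow_ne_zero _ hj h4
  have hbrel : ∑ j, b j • t j = 0 := by
    rw [ha, hb]
    exact Submodule.sum_mem _ fun l _ => Submodule.smul_mem _ _ (Submodule.subset_span ⟨l, rfl⟩)
  have hb0 : b = 0 := by
    have h1 := Fintype.linearIndependent_iff.1 (ht Z hZcard) (fun j => b j) (by
      rw [← hbrel]
      have h2 : ∑ j : Z, b j • t j = ∑ j ∈ Z, b j • t j := Finset.sum_coe_sort Z fun j => b j • t j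
      rw [h2]
      apply Finset.sum_subset (Finset.subset_univ _)
      intro j _ hj
      rw [hZ, Finset.mem_filter, not_and] at hj
      rw [hbj j (hj (Finset.mem_univ _)), zero_smul])
    funext j
    by_cases hj : x j = 0
    · have h2 : j ∈ Z := by
        rw [hZ, Finset.mem_filter]
        exact ⟨Finset.mem_univ _, hj⟩
      exact h1 ⟨j, h2⟩
    · exact hbj j hj
  exact Fintype.linearIndependent_iff.1 hli g (by rw [← hb, hb0])

/-- The open subset where no coordinate vanishes is not empty. -/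
theorem openLocus_nonempty {n N m c : ℕ} (hm : 1 ≤ m) {t : Fin (N + 1) → Fin (n + 1) → ℂ}
    (ht : ∀ j, t j ≠ 0) {A : Fin c → MvPolynomial (Fin (N + 1)) ℂ}
    (hAm : ∀ l, (A l).IsHomogeneous m)
    (hA : ∀ x : Fin (N + 1) → ℂ, (∀ l, eval x (A l) = 0) ↔
      ∃ c : Fin (n + 1) → ℂ, ∀ j, x j ^ m = lin (t j) c) (O : Finset (Fin (N + 1))) :
    (openLocus A O).Nonempty := by
  have hc : ∃ c : Fin (n + 1) → ℂ, ∀ j, lin (t j) c ≠ 0 := by
    have h1 : ∀ j, (∑ i, C (t j i) * X i : MvPolynomial (Fin (n + 1)) ℂ) ≠ 0 := by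
      intro j h0
      apply ht j
      funext i
      have h2 := congrArg (eval (Pi.single i 1 : Fin (n + 1) → ℂ)) h0
      rw [map_sum, map_zero, Finset.sum_eq_single i] at h2
      · simpa using h2
      · intro k _ hk
        rw [map_mul, eval_X, Pi.single_eq_of_ne hk, mul_zero]
      · intro h
        exact absurd (Finset.mem_univ _) h
    have h2 : (∏ j, ∑ i, C (t j i) * X i : MvPolynomial (Fin (n + 1)) ℂ) ≠ 0 :=
      Finset.prod_ne_zero_iff.2 fun j _ => h1 j
    by_contra hcon
    push Not at hcon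
    apply h2
    apply MvPolynomial.funext
    intro c
    obtain ⟨j, hj⟩ := hcon c
    rw [map_prod, map_zero]
    refine Finset.prod_eq_zero (Finset.mem_univ j) ?_
    rw [← hj, lin, map_sum]
    refine Finset.sum_congr rfl fun i _ => ?_
    rw [map_mul, eval_C, eval_X, smul_eq_mul]
  obtain ⟨c, hc⟩ := hc
  have hroot : ∀ j, ∃ y : ℂ, y ^ m = lin (t j) c := fun j =>
    IsAlgClosed.exists_pow_nat_eq _ (by omega)
  choose x hx using hroot
  have hxj : ∀ j, x j ≠ 0 := by
    intro j h0
    apply hc j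
    rw [← hx, h0, zero_pow (by omega)]
  have hx0 : x ≠ 0 := fun h => hxj 0 (by rw [h]; rfl)
  refine ⟨Projectivization.mk ℂ x hx0, fun l => ?_, fun i _ => ?_⟩
  · rw [Pool.Agent.H17.vanishesAt_mk_iff (hAm l)]
    exact (hA x).2 ⟨c, hx⟩ l
  · obtain ⟨a, ha⟩ := Projectivization.exists_smul_eq_mk_rep ℂ x hx0
    rw [← ha, Pi.smul_apply]
    exact smul_ne_zero a.ne_zero (hxj i)

end Pool.Agent.H39.HC
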