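import Pool.Agent.H39.HC.Covers
import Pool.Agent.H39.HC.GenDiag
import Pool.Agent.H39.HC.Geometry
import Pool.Agent.H5.DG.E4
import Pool.Agent.H5.DG.F1

/-!
# General diagonal complete intersections as covers
-/

open MvPolynomial
open Pool.Agent.H17 (PN HolomorphicInto puncturedDisc VanishesAt zeroLocus BrodyHyperbolic
  PicardHyperbolic)
open Pool.Agent.H17LG.Variety (FunField)
open Pool.Agent.H5.DG (Homog BaseFree RamM comb coverLocus HyperplaneTheorem LogGeneralType dot
  exists_inverse exists_prime mem_of_forall coverLocus_empty)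

noncomputable section

namespace Pool.Agent.H39.HC

/-- The data of a diagonal complete intersection which is given by linear forms in general
position. -/
theorem exists_cover_data {N c r d : ℕ} (hr : 1 ≤ r) (hN : r ≤ N) (hd : 2 ≤ d)
    {a : Fin c → Fin (N + 1) → ℂ} {l : Fin (N + 1) → Fin (r + 1) → ℂ}
    (hl : ∀ s : Fin (r + 1) → Fin (N + 1), Function.Injective s →
      LinearIndependent ℂ fun i => l (s i))
    (hker : ∀ y : Fin (N + 1) → ℂ, (∀ i, ∑ j, a i j * y j = 0) ↔
      ∃ v : Fin (r + 1) → ℂ, ∀ j, y j = ∑ i, l j i * v i) :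
    ∃ (F : Fin (r + 1) → MvPolynomial (Fin (N + 1)) ℂ)
      (I : Ideal (MvPolynomial (Fin (N + 1)) ℂ)) (_ : I.IsPrime),
      Homog I ∧ BaseFree I d F ∧ (∀ j, RamM d I (comb (l j) F)) ∧
      (∀ x : PN N, (∀ Q ∈ I, ∀ k, Q.IsHomogeneous k → VanishesAt Q x) ↔
        x ∈ zeroLocus (Pool.Agent.H5.DG.diagForm a d)) ∧
      ∃ z : Fin r → FunField I, IsTranscendenceBasis ℂ z := by
  classical
  obtain ⟨n, rfl⟩ : ∃ n, r = n + 1 := ⟨r - 1, by omega⟩
  have hd0 : 0 < d := by omega
  have hle : n + 2 ≤ N + 1 := by omega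
  have hl' : Pool.Agent.H5.DG.GenPos l := hl
  obtain ⟨b, hb⟩ := exists_inverse hle hl'
  obtain ⟨hne, hpair⟩ := Pool.Agent.H5.DG.GenPos.pair hle hl'
  obtain ⟨I, hI, hhom, hA, hX, hz⟩ := exists_prime hd0 hne hpair hb hker
  have hAd : ∀ i, Pool.Agent.H5.DG.diagForm a d i ∈ I := hA
  set F : Fin (n + 2) → MvPolynomial (Fin (N + 1)) ℂ := fun i => ∑ j, C (b i j) * X j ^ d with hF
  -- points
  have hpt : ∀ x : Fin (N + 1) → ℂ, (∀ i, eval x (Pool.Agent.H5.DG.diagForm a d i) = 0) ↔
      ∃ v : Fin (n + 2) → ℂ, ∀ j, x j ^ d = dot (l j) v := by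
    intro x
    simp only [Pool.Agent.H5.DG.eval_diagForm]
    exact hker fun j => x j ^ d
  have hcone : ∀ x : Fin (N + 1) → ℂ, (∀ Q ∈ I, eval x Q = 0) ↔
      ∃ v : Fin (n + 2) → ℂ, ∀ j, x j ^ d = dot (l j) v := by
    intro x
    constructor
    · intro h
      exact (hpt x).1 fun i => h _ (hAd i)
    · rintro ⟨v, hv⟩ Q hQ
      rw [← MvPolynomial.sum_homogeneousComponent Q, map_sum]
      exact Finset.sum_eq_zero fun k _ =>
        hX _ (hhom Q hQ k) k (homogeneousComponent_isHomogeneous k Q) x v hv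
  have hFv : ∀ (x : Fin (N + 1) → ℂ) (v : Fin (n + 2) → ℂ), (∀ j, x j ^ d = dot (l j) v) →
      ∀ i, eval x (F i) = v i := by
    intro x v hv i
    rw [hF, map_sum, hb v i]
    refine Finset.sum_congr rfl fun j _ => ?_
    rw [map_mul, map_pow, eval_C, eval_X, hv]
  have hcomb : ∀ j, X j ^ d - comb (l j) F ∈ I := by
    intro j
    refine mem_of_forall I fun x hx => ?_
    obtain ⟨v, hv⟩ := (hcone x).1 hx
    rw [map_sub, map_pow, eval_X, hv j]
    unfold comb dot
    rw [map_sum, sub_eq_zero]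
    refine Finset.sum_congr rfl fun i _ => ?_
    rw [map_mul, eval_C, hFv x v hv]
  have hFhom : ∀ i, (F i).IsHomogeneous d := by
    intro i
    refine MvPolynomial.IsHomogeneous.sum _ _ _ fun j _ => ?_
    exact MvPolynomial.isHomogeneous_C_mul_X_pow _ _ _
  refine ⟨F, I, hI, hhom, ⟨by omega, hFhom, fun j => ⟨d, ?_⟩⟩, fun j i => ⟨0, ?_⟩, ?_, hz⟩
  · have h1 : X j ^ d = comb (l j) F + (X j ^ d - comb (l j) F) := by ring
    rw [h1]
    refine Submodule.add_mem_sup ?_ (hcomb j)
    refine Ideal.sum_mem _ fun i _ => Ideal.mul_mem_left _ _ (Ideal.subset_span ⟨i, rfl⟩)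
  · rw [pow_zero, one_mul]
    have h0 : (X j : MvPolynomial (Fin (N + 1)) ℂ) ∈
        Ideal.radical (Ideal.span {comb (l j) F} ⊔ I) := by
      refine ⟨d, ?_⟩
      have h1 : (X j : MvPolynomial (Fin (N + 1)) ℂ) ^ d =
          comb (l j) F + (X j ^ d - comb (l j) F) := by ring
      rw [h1]
      exact Submodule.add_mem_sup (Ideal.subset_span rfl) (hcomb j)
    have h1 : comb (l j) F = X j ^ d + -(X j ^ d - comb (l j) F) := by ring
    have h2 : (X j : MvPolynomial (Fin (N + 1)) ℂ) ^ d ∈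
        (Ideal.radical (Ideal.span {comb (l j) F} ⊔ I)) ^ d := Ideal.pow_mem_pow h0 d
    have h3 := Submodule.add_mem_sup h2 (I.neg_mem (hcomb j))
    rwa [← h1] at h3
  · intro x
    constructor
    · intro h i
      exact h _ (hAd i) d (Pool.Agent.H5.DG.diagForm_isHomogeneous a d i)
    · intro h Q hQ k hk
      obtain ⟨v, hv⟩ := (hpt x.rep).1 h
      exact hX Q hQ k hk x.rep v hv

/-- The common zero locus of the forms `A` is a smooth complete intersection, irreducible of
dimension `r`, Brody hyperbolic and Picard hyperbolic, and all its closed subvarieties of positive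
dimension are of general type. -/
structure HyperbolicIntersection (r : ℕ) {N c : ℕ}
    (A : Fin c → MvPolynomial (Fin (N + 1)) ℂ) : Prop where
  smooth : Pool.Agent.H5.DG.SmoothIntersection A
  irreducible : ∃ (I : Ideal (MvPolynomial (Fin (N + 1)) ℂ)) (_ : I.IsPrime), Homog I ∧
    {x : PN N | ∀ Q ∈ I, ∀ k, Q.IsHomogeneous k → VanishesAt Q x} = zeroLocus A ∧
    ∃ z : Fin r → FunField I, IsTranscendenceBasis ℂ z
  picard : PicardHyperbolic (zeroLocus A)
  brody : BrodyHyperbolic (zeroLocus A)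
  generalType : ∀ (P : Ideal (MvPolynomial (Fin (N + 1)) ℂ)) [P.IsPrime], Homog P →
    (∀ i, A i ∈ P) → ∀ w, 1 ≤ w → (∃ z : Fin w → FunField P, IsTranscendenceBasis ℂ z) →
      LogGeneralType P ∅ (fun i : Fin 0 => i.elim0) w

/-- The ideal of the variety is contained in the ideals of the closed subvarieties. -/
private theorem GenCover_le {N c d : ℕ} {A : Fin c → MvPolynomial (Fin (N + 1)) ℂ}
    (hA : ∀ i, (A i).IsHomogeneous d) {I : Ideal (MvPolynomial (Fin (N + 1)) ℂ)} [I.IsPrime]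
    (hI : Homog I)
    (hX : ∀ x : PN N, (∀ Q ∈ I, ∀ k, Q.IsHomogeneous k → VanishesAt Q x) ↔ x ∈ zeroLocus A)
    (P : Ideal (MvPolynomial (Fin (N + 1)) ℂ)) [P.IsPrime] (hP : ∀ i, A i ∈ P) : I ≤ P := by
  intro Q hQ
  refine mem_of_forall P fun x hx => ?_
  rw [← MvPolynomial.sum_homogeneousComponent Q, map_sum]
  refine Finset.sum_eq_zero fun k _ => ?_
  have hk := hI Q hQ k
  by_cases hx0 : x = 0
  · subst hx0
    rcases Nat.eq_zero_or_pos k with h0 | h0
    · subst h0
      rw [homogeneousComponent_zero] at hk ⊢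
      rw [eval_C]
      by_contra hcon
      have h1 : (1 : MvPolynomial (Fin (N + 1)) ℂ) ∈ I := by
        have h2 := I.mul_mem_left (C (coeff 0 Q)⁻¹) hk
        rwa [← C_mul, inv_mul_cancel₀ hcon, C_1] at h2
      exact (inferInstance : I.IsPrime).ne_top ((Ideal.eq_top_iff_one I).2 h1)
    · have h2 := Pool.Agent.H17.eval_smul_of_isHomogeneous
        (homogeneousComponent_isHomogeneous k Q) 0 0
      rw [zero_pow (by omega), zero_mul] at h2
      have h3 : (fun i : Fin (N + 1) => (0 : ℂ) * (0 : Fin (N + 1) → ℂ) i) = 0 := by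
        funext i
        simp
      rwa [h3] at h2
  · have h1 : Projectivization.mk ℂ x hx0 ∈ zeroLocus A := by
      intro i
      rw [Pool.Agent.H17.vanishesAt_mk_iff (hA i)]
      exact hx _ (hP i)
    have h2 := (hX _).2 h1 _ hk k (homogeneousComponent_isHomogeneous k Q)
    rwa [Pool.Agent.H17.vanishesAt_mk_iff (homogeneousComponent_isHomogeneous k Q)] at h2

/-- **General diagonal complete intersections are hyperbolic.** -/
theorem exists_general_hyperbolic {q b r N : ℕ} (hr : 1 ≤ r) (hq : 2 ≤ q)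
    (hb : r * (q + 1) < b * (q - 1)) (hN : (r + b).choose r ≤ N + 1) :
    ∃ Δ : MvPolynomial (Fin (N - r) × Fin (N + 1)) ℂ, Δ ≠ 0 ∧
      ∀ a : Fin (N - r) → Fin (N + 1) → ℂ, eval (fun p => a p.1 p.2) Δ ≠ 0 →
        HyperbolicIntersection r (Pool.Agent.H5.DG.diagForm a q) := by
  classical
  have hb1 : 1 ≤ b := by
    rcases Nat.eq_zero_or_pos b with h | h
    · subst h
      omega
    · exact h
  have hrN : r ≤ N := by
    have h1 : (r + 1).choose r ≤ (r + b).choose r := Nat.choose_le_choose r (by omega)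
    rw [Nat.choose_succ_self_right] at h1
    omega
  obtain ⟨Δ, hΔ, h⟩ := exists_general_diag (n := r) (N := N) (d := b) hrN hN
  refine ⟨Δ, hΔ, fun a hΔa => ?_⟩
  obtain ⟨t, ht, hs, hrel⟩ := h a hΔa
  have hl : ∀ s : Fin (r + 1) → Fin (N + 1), Function.Injective s →
      LinearIndependent ℂ fun i => t (s i) := by
    intro s hsi
    have h1 := ht (Finset.univ.map ⟨s, hsi⟩) (by simp)
    exact h1.comp (fun i => (⟨s i, by simp⟩ : {x // x ∈ Finset.univ.map ⟨s, hsi⟩})) fun i j hij => by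
      exact hsi (congrArg Subtype.val hij)
  have hker : ∀ y : Fin (N + 1) → ℂ, (∀ i, ∑ j, a i j * y j = 0) ↔
      ∃ v : Fin (r + 1) → ℂ, ∀ j, y j = ∑ i, t j i * v i := by
    intro y
    have h1 := eval_diagForm_eq_zero_iff (m := 1) hrel y
    simp only [diagForm, pow_one, map_sum, map_mul, eval_C, eval_X] at h1
    exact h1
  obtain ⟨F, I, hI, hhom, hF, hram, hX, hz⟩ := exists_cover_data hr hrN hq hl hker
  have hth := hyperplaneTheorem_of_spans hr hq hb hl hs
  obtain ⟨hcov, -⟩ := hth.covers N q I F ∅ hhom hF (fun j hj => absurd hj (Finset.notMem_empty j))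
    fun j _ => hram j
  have hloc : (coverLocus I ∅ fun j => comb (t j) F) =
      zeroLocus (Pool.Agent.H5.DG.diagForm a q) := by
    ext x
    rw [← hX x]
    exact ⟨fun h => h.1, fun h => ⟨h, fun i hi => absurd hi (Finset.notMem_empty i)⟩⟩
  have hone : ∀ x : PN N, ¬ VanishesAt (aeval F (1 : MvPolynomial (Fin (r + 1)) ℂ)) x := by
    intro x
    rw [map_one]
    simp [VanishesAt]
  have hmem : ∀ z : ℂ, z = 1 / 2 → z ∈ puncturedDisc := by
    rintro z rfl
    exact Pool.Agent.H5.DG.mem_puncturedDisc.mpr ⟨by norm_num, by norm_num⟩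
  refine ⟨smoothIntersection_diagForm (by omega) hrN ht hrel, ⟨I, hI, hhom, Set.ext hX, hz⟩,
    ?_, ?_, ?_⟩
  · intro f hf hfX
    exact hcov.picard f hf (fun z hz => by rw [hloc]; exact hfX z hz) ⟨1 / 2, hmem _ rfl, hone _⟩
  · intro f hf hfX
    exact hcov.brody f hf (fun z => by rw [hloc]; exact hfX z) ⟨0, hone _⟩
  · intro P _ hP hA w hw hzw
    have hIP := GenCover_le (Pool.Agent.H5.DG.diagForm_isHomogeneous a q) hhom hX P hA
    refine Pool.Agent.H5.DG.logGeneralType_empty P (hcov.strongly P hP hIP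
      (fun j hj => absurd hj (Finset.notMem_empty j)) ?_ w hw hzw)
    rw [map_one]
    intro h1
    exact (inferInstance : P.IsPrime).ne_top ((Ideal.eq_top_iff_one P).2 h1)

end Pool.Agent.H39.HC
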