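import Pool.Agent.H39.HC.Defs

/-!
# General linear forms
-/

open MvPolynomial

noncomputable section

namespace Pool.Agent.H39.HC

/-- The first `q` of the indices. -/
def firstIdx (N q : ℕ) : Finset (Fin (N + 1)) := Finset.univ.filter fun j => (j : ℕ) < q

private theorem General_card_firstIdx {N q : ℕ} (hqN : q ≤ N + 1) : (firstIdx N q).card = q := by
  have h : firstIdx N q = Finset.univ.map (Fin.castLEEmb hqN) := by
    ext j
    simp only [firstIdx, Finset.mem_filter, Finset.mem_univ, true_and, Finset.mem_map]
    constructor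
    · intro hj
      exact ⟨⟨j, hj⟩, by ext; simp⟩
    · rintro ⟨a, rfl⟩
      simp
  rw [h, Finset.card_map, Finset.card_univ, Fintype.card_fin]

/-- The exponents of the monomials of degree `d`. -/
private abbrev General_T (n d : ℕ) : Type := {P : Fin (n + 1) → ℕ // ∑ i, P i = d}

private instance General_fin (n d : ℕ) : Fintype (General_T n d) :=
  Fintype.ofEquiv _ (Sym.equivNatSumOfFintype (Fin (n + 1)) d)

private theorem General_card (n d : ℕ) : Fintype.card (General_T n d) = (n + d).choose n := by
  rw [← Fintype.card_congr (Sym.equivNatSumOfFintype (Fin (n + 1)) d), Sym.card_sym_eq_choose, Fintype.card_fin,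
    show n + 1 + d - 1 = n + d by omega, Nat.choose_symm_add]

private theorem General_pts {T X : Type} [Fintype T] [DecidableEq T] (v : X → T → ℂ)
    (h : ∀ c : T → ℂ, (∀ x, ∑ τ, c τ * v x τ = 0) → c = 0) :
    ∃ x : T → X, (Matrix.of fun τ τ' => v (x τ) τ').det ≠ 0 := by
  classical
  have hspan : Submodule.span ℂ (Set.range v) = ⊤ := by
    by_contra hne
    obtain ⟨f, hf0, hf⟩ := Submodule.exists_le_ker_of_lt_top _ (lt_top_iff_ne_top.mpr hne)
    have hfe : ∀ w : T → ℂ, f w = ∑ τ, f (Pi.single τ 1) * w τ := by
      intro w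
      conv_lhs => rw [← Finset.univ_sum_single w]
      rw [map_sum]
      refine Finset.sum_congr rfl fun τ _ => ?_
      have : (Pi.single τ (w τ) : T → ℂ) = w τ • Pi.single τ 1 := by
        rw [← Pi.single_smul, smul_eq_mul, mul_one]
      rw [this, map_smul, smul_eq_mul, mul_comm]
    have hc := h (fun τ => f (Pi.single τ 1)) (fun x => by
      rw [← hfe]
      exact LinearMap.mem_ker.mp (hf (Submodule.subset_span ⟨x, rfl⟩)))
    apply hf0
    ext w
    have := congrFun hc w
    simpa using this
  obtain ⟨b, hb, hbs, hbl⟩ := exists_linearIndependent ℂ (Set.range v)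
  rw [hspan] at hbs
  let B : Module.Basis b ℂ (T → ℂ) := Module.Basis.mk hbl (by rw [Subtype.range_coe_subtype, Set.ofPred_mem_eq, hbs])
  have hfin : Finite b := Module.Finite.finite_basis B
  let _ : Fintype b := Fintype.ofFinite b
  have hcard : Fintype.card T = Fintype.card b := by
    rw [← Module.finrank_eq_card_basis B, Module.finrank_fintype_fun_eq_card]
  let e : T ≃ b := Fintype.equivOfCardEq hcard
  have hx : ∀ τ : T, ∃ x : X, v x = (e τ : T → ℂ) := fun τ => hb (e τ).2
  choose x hx using hx
  refine ⟨x, ?_⟩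
  have hli : LinearIndependent ℂ (Matrix.of fun τ τ' => v (x τ) τ').row := by
    have : (Matrix.of fun τ τ' => v (x τ) τ').row = fun τ => (e τ : T → ℂ) := by
      funext τ
      exact hx τ
    rw [this]
    exact hbl.comp e e.injective
  rw [Matrix.linearIndependent_rows_iff_isUnit, Matrix.isUnit_iff_isUnit_det] at hli
  exact hli.ne_zero

/-- The matrix of the values of the monomials. -/
private def General_M {ι : Type} {n : ℕ} (d : ℕ) (u : ι → Fin (n + 1) → ℂ) : Matrix ι (General_T n d) ℂ :=
  Matrix.of fun j P => ∏ i, u j i ^ P.1 i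

private theorem General_eval {ι : Type} {n : ℕ} (d : ℕ) (u : ι → Fin (n + 1) → ℂ) (g : MvPolynomial (Fin (n + 1)) ℂ)
    (hg : g.IsHomogeneous d) (j : ι) :
    eval (u j) g = (General_M d u).mulVec (fun P => g.coeff (Finsupp.equivFunOnFinite.symm P.1)) j := by
  classical
  rw [eval_eq', Matrix.mulVec, dotProduct]
  have hmem : ∀ μ ∈ g.support, ∑ i, μ i = d := by
    intro μ hμ
    have h1 : μ.degree = d := by
      rw [Finsupp.degree_eq_weight_one]
      exact hg (mem_support_iff.mp hμ)
    rw [Finsupp.degree_eq_sum] at h1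
    exact h1
  symm
  rw [← Finset.sum_filter_add_sum_filter_not Finset.univ
    (fun P : General_T n d => Finsupp.equivFunOnFinite.symm P.1 ∈ g.support)]
  rw [add_eq_left.mpr]
  · refine Finset.sum_bij' (fun P _ => Finsupp.equivFunOnFinite.symm P.1)
      (fun μ hμ => ⟨μ, hmem μ hμ⟩) ?_ ?_ ?_ ?_ ?_
    · intro P hP
      exact (Finset.mem_filter.mp hP).2
    · intro μ hμ
      simp only [Finset.mem_filter, Finset.mem_univ, true_and]
      have : Finsupp.equivFunOnFinite.symm (μ : Fin (n + 1) → ℕ) = μ := by ext; simp
      rw [this]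
      exact hμ
    · intro P _
      ext; simp
    · intro μ _
      ext; simp
    · intro P _
      rw [General_M, Matrix.of_apply, mul_comm]
      rfl
  · refine Finset.sum_eq_zero fun P hP => ?_
    have := (Finset.mem_filter.mp hP).2
    rw [notMem_support_iff] at this
    rw [this, mul_zero]

private theorem General_spans {ι : Type} [Fintype ι] [DecidableEq ι] {n d : ℕ}
    (e : ι ≃ General_T n d) (u : ι → Fin (n + 1) → ℂ) :
    ((General_M d u).submatrix id e).det ≠ 0 ↔ Spans d u := by
  classical
  rw [← isUnit_iff_ne_zero, ← Matrix.isUnit_iff_isUnit_det, ← Matrix.mulVec_injective_iff_isUnit]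
  have hsub : ∀ c : General_T n d → ℂ, ((General_M d u).submatrix id e).mulVec (c ∘ e) = (General_M d u).mulVec c := by
    intro c
    funext j
    simp only [Matrix.mulVec, dotProduct, Matrix.submatrix_apply, id, Function.comp]
    exact e.sum_comp (fun P => General_M d u j P * c P)
  constructor
  · intro hs g hgh hg
    have h1 : ((General_M d u).submatrix id e).mulVec
        ((fun P : General_T n d => g.coeff (Finsupp.equivFunOnFinite.symm P.1)) ∘ e) =
        ((General_M d u).submatrix id e).mulVec 0 := by
      rw [hsub, Matrix.mulVec_zero]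
      funext j
      rw [← General_eval d u g hgh j, hg, Pi.zero_apply]
    have h2 := hs h1
    ext μ
    rw [coeff_zero]
    by_contra hμ
    have h3 : ∑ i, μ i = d := by
      have h4 : μ.degree = d := by
        rw [Finsupp.degree_eq_weight_one]
        exact hgh hμ
      rw [Finsupp.degree_eq_sum] at h4
      exact h4
    have h5 := congrFun h2 (e.symm ⟨μ, h3⟩)
    simp only [Function.comp, Equiv.apply_symm_apply, Pi.zero_apply] at h5
    have h6 : Finsupp.equivFunOnFinite.symm (μ : Fin (n + 1) → ℕ) = μ := by ext; simp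
    rw [h6] at h5
    exact hμ h5
  · intro hI c c' hcc
    have hcc0 : ((General_M d u).submatrix id e).mulVec (c - c') = 0 := by
      rw [Matrix.mulVec_sub]
      exact sub_eq_zero.mpr hcc
    set g : MvPolynomial (Fin (n + 1)) ℂ := ∑ P : General_T n d,
      monomial (Finsupp.equivFunOnFinite.symm P.1) ((c - c') (e.symm P)) with hg
    have hgh : g.IsHomogeneous d := by
      refine IsHomogeneous.sum _ _ _ fun P _ => ?_
      refine isHomogeneous_monomial _ ?_
      rw [Finsupp.degree_eq_sum]
      exact P.2
    have hcg : (fun P : General_T n d => g.coeff (Finsupp.equivFunOnFinite.symm P.1)) ∘ e =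
        c - c' := by
      funext k
      simp only [Function.comp]
      rw [hg, coeff_sum, Finset.sum_eq_single (e k)]
      · rw [coeff_monomial, if_pos rfl, Equiv.symm_apply_apply]
      · intro P _ hP
        rw [coeff_monomial, if_neg]
        intro h
        apply hP
        exact Subtype.ext (Finsupp.equivFunOnFinite.symm.injective h)
      · intro h
        exact absurd (Finset.mem_univ _) h
    have hg0 : g = 0 := by
      refine hI g hgh fun j => ?_
      rw [General_eval d u g hgh j, ← hsub, hcg, hcc0, Pi.zero_apply]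
    have h1 : c - c' = 0 := by
      rw [← hcg, hg0]
      funext k
      simp
    exact sub_eq_zero.mp h1

private theorem General_genPos {n N : ℕ} (hN : n ≤ N) (t : Fin (N + 1) → Fin (n + 1) → ℂ) :
    GenPos t ↔ ∀ e : Fin (n + 1) ↪ Fin (N + 1), (Matrix.of fun a i => t (e a) i).det ≠ 0 := by
  classical
  have key : ∀ e : Fin (n + 1) → Fin (N + 1), (Matrix.of fun a i => t (e a) i).det ≠ 0 ↔
      LinearIndependent ℂ (fun a => t (e a)) := by
    intro e
    rw [← isUnit_iff_ne_zero, ← Matrix.isUnit_iff_isUnit_det, ← Matrix.linearIndependent_rows_iff_isUnit]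
    rfl
  constructor
  · intro h e
    rw [key]
    have h1 := h (Finset.univ.map e) (by rw [Finset.card_map, Finset.card_univ, Fintype.card_fin])
    exact h1.comp (fun a => ⟨e a, Finset.mem_map_of_mem e (Finset.mem_univ a)⟩)
      (fun a b hab => e.injective (congrArg Subtype.val hab))
  · intro h S hS
    obtain ⟨S', hSS, hS'⟩ := Finset.exists_superset_card_eq hS (by rw [Fintype.card_fin]; omega)
    let φ : Fin (n + 1) ≃ S' := Fintype.equivOfCardEq (by rw [Fintype.card_fin, Fintype.card_coe, hS'])
    have h1 := (key (fun a => (φ a : Fin (N + 1)))).mp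
      (h ⟨fun a => (φ a : Fin (N + 1)), fun a b hab => φ.injective (Subtype.ext hab)⟩)
    have h2 := h1.comp (fun j : S => φ.symm ⟨j, hSS j.2⟩) (fun a b hab => by
      have := φ.symm.injective hab
      exact Subtype.ext (by simpa using this))
    have h3 : (fun j : S => t j) = (fun a => t (φ a)) ∘ fun j : S => φ.symm ⟨j, hSS j.2⟩ := by
      funext j
      simp
    rw [h3]
    exact h2

/-- General vectors are in general position, and the first `(n + d).choose n` of them lie on no
hypersurface of degree `d`. -/
theorem exists_general {n N d q : ℕ} (hN : n ≤ N) (hq : q = (n + d).choose n)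
    (hqN : q ≤ N + 1) :
    ∃ Δ : MvPolynomial (Fin (N + 1) × Fin (n + 1)) ℂ, Δ ≠ 0 ∧
      ∀ t : Fin (N + 1) → Fin (n + 1) → ℂ, eval (fun p => t p.1 p.2) Δ ≠ 0 ↔
        GenPos t ∧ Spans d fun j : firstIdx N q => t j := by
  classical
  have hcard : Fintype.card (firstIdx N q) = Fintype.card (General_T n d) := by
    rw [Fintype.card_coe, General_card_firstIdx hqN, General_card, hq]
  let e : firstIdx N q ≃ General_T n d := Fintype.equivOfCardEq hcard
  let Δ₁ : (Fin (n + 1) ↪ Fin (N + 1)) → MvPolynomial (Fin (N + 1) × Fin (n + 1)) ℂ := fun φ =>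
    (Matrix.of fun a i => (X (φ a, i) : MvPolynomial (Fin (N + 1) × Fin (n + 1)) ℂ)).det
  let Δ₂ : MvPolynomial (Fin (N + 1) × Fin (n + 1)) ℂ :=
    (Matrix.of fun (j j' : firstIdx N q) => ∏ i, (X ((j : Fin (N + 1)), i) :
      MvPolynomial (Fin (N + 1) × Fin (n + 1)) ℂ) ^ (e j').1 i).det
  have hev₁ : ∀ (φ : Fin (n + 1) ↪ Fin (N + 1)) (t : Fin (N + 1) → Fin (n + 1) → ℂ),
      eval (fun p => t p.1 p.2) (Δ₁ φ) = (Matrix.of fun a i => t (φ a) i).det := by
    intro φ t
    rw [RingHom.map_det]
    congr 1
    ext a i
    simp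
  have hev₂ : ∀ t : Fin (N + 1) → Fin (n + 1) → ℂ,
      eval (fun p => t p.1 p.2) Δ₂ = ((General_M d fun j : firstIdx N q => t j).submatrix id e).det := by
    intro t
    rw [RingHom.map_det]
    congr 1
    ext j j'
    simp [General_M]
  have hΔ : ∀ t : Fin (N + 1) → Fin (n + 1) → ℂ, eval (fun p => t p.1 p.2) ((∏ φ, Δ₁ φ) * Δ₂) ≠ 0 ↔
      GenPos t ∧ Spans d fun j : firstIdx N q => t j := by
    intro t
    rw [map_mul, mul_ne_zero_iff, map_prod, Finset.prod_ne_zero_iff, hev₂, General_spans, General_genPos hN]
    refine and_congr_left fun _ => ?_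
    constructor
    · intro h φ
      rw [← hev₁]
      exact h φ (Finset.mem_univ φ)
    · intro h φ _
      rw [hev₁]
      exact h φ
  refine ⟨(∏ φ, Δ₁ φ) * Δ₂, ?_, hΔ⟩
  refine mul_ne_zero (Finset.prod_ne_zero_iff.mpr fun φ _ => ?_) ?_
  · intro h0
    have h1 := hev₁ φ (fun j i => if j = φ i then 1 else 0)
    rw [h0, map_zero] at h1
    have h2 : (Matrix.of fun a i => if φ a = φ i then (1 : ℂ) else 0) = 1 := by
      ext a i
      rw [Matrix.of_apply, Matrix.one_apply]
      simp [φ.injective.eq_iff]
    rw [h2, Matrix.det_one] at h1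
    exact zero_ne_one h1
  · obtain ⟨x, hx⟩ := General_pts (T := General_T n d) (X := Fin (n + 1) → ℂ)
      (fun u P => ∏ i, u i ^ P.1 i) (by
        intro c hc
        set g : MvPolynomial (Fin (n + 1)) ℂ := ∑ P : General_T n d,
          monomial (Finsupp.equivFunOnFinite.symm P.1) (c P) with hg
        have hg0 : g = 0 := by
          refine MvPolynomial.funext fun u => ?_
          rw [hg, map_sum, map_zero, ← hc u]
          refine Finset.sum_congr rfl fun P _ => ?_
          rw [eval_monomial, Finsupp.prod_fintype _ _ (fun i => pow_zero _)]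
          rfl
        funext P
        have h1 : g.coeff (Finsupp.equivFunOnFinite.symm P.1) = c P := by
          rw [hg, coeff_sum, Finset.sum_eq_single P]
          · rw [coeff_monomial, if_pos rfl]
          · intro Q _ hQ
            rw [coeff_monomial, if_neg]
            intro h
            exact hQ (Subtype.ext (Finsupp.equivFunOnFinite.symm.injective h))
          · intro h
            exact absurd (Finset.mem_univ _) h
        rw [← h1, hg0, coeff_zero]
        rfl)
    intro h0
    have h1 := hev₂ (fun j => if h : j ∈ firstIdx N q then x (e ⟨j, h⟩) else 0)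
    rw [h0, map_zero] at h1
    apply hx
    rw [← Matrix.det_submatrix_equiv_self e, h1]
    congr 1
    ext j j'
    simp [General_M]

end Pool.Agent.H39.HC
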