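import Pool.Agent.H39.HC.Bounds
import Pool.Agent.H92.GGL.LocalRes

/-!
# The pointwise estimate for good polynomials in two vectors
-/

open MvPolynomial
open Pool.Agent.H17 (wVar)
open Pool.Agent.H92.GGL (wt powVar powSum)

noncomputable section

namespace Pool.Agent.H39.HC

variable {ι J : Type} [Fintype ι] [Fintype J] {n K : ℕ} {t : ι → Fin (n + 1) → ℂ}
  {s : J → Fin (n + 1) → ℂ} {Q : MvPolynomial (Fin 2 × Fin (n + 1)) ℂ}

theorem GoodBound_lin (v p : Fin (n + 1) → ℂ) : lin v p = ∑ i, v i * p i := by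
  simp [lin, smul_eq_mul]

/-- A left inverse of the values of sufficiently many linear forms. -/
theorem GoodBound_leftInv (hgp : GenPos (Sum.elim t s)) (I : Finset ι)
    (hI : n + 1 ≤ I.card + Fintype.card J) :
    ∃ b : Fin (n + 1) → ι → ℂ, (∀ l i, i ∉ I → b l i = 0) ∧
      ∀ p : Fin (n + 1) → ℂ, (∀ j, lin (s j) p = 0) →
        ∀ l, p l = ∑ i, b l i * lin (t i) p := by
  classical
  have hScard : (I.disjSum (Finset.univ : Finset J)).card = I.card + Fintype.card J := by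
    rw [Finset.card_disjSum, Finset.card_univ]
  obtain ⟨T, hTS, hTc⟩ := Finset.exists_subset_card_eq (n := n + 1)
    (s := I.disjSum (Finset.univ : Finset J)) (by rw [hScard]; exact hI)
  have hli := hgp T hTc.le
  have hspan : Submodule.span ℂ (Set.range fun j : T => Sum.elim t s j) = ⊤ :=
    hli.span_eq_top_of_card_eq_finrank' (by simp [hTc])
  have hc : ∀ l : Fin (n + 1), ∃ c : T → ℂ, ∑ j, c j • Sum.elim t s (j : ι ⊕ J) = Pi.single l 1 := by
    intro l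
    have h1 : (Pi.single l 1 : Fin (n + 1) → ℂ) ∈
        Submodule.span ℂ (Set.range fun j : T => Sum.elim t s j) := by
      rw [hspan]
      exact Submodule.mem_top
    exact (Submodule.mem_span_range_iff_exists_fun ℂ).mp h1
  choose c hc using hc
  set c' : Fin (n + 1) → ι ⊕ J → ℂ := fun l x => if h : x ∈ T then c l ⟨x, h⟩ else 0 with hc'
  refine ⟨fun l i => c' l (Sum.inl i), ?_, ?_⟩
  · intro l i hi
    have h1 : (Sum.inl i : ι ⊕ J) ∉ T := by
      intro h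
      have h2 := hTS h
      rw [Finset.inl_mem_disjSum] at h2
      exact hi h2
    simp only [hc']
    rw [dif_neg h1]
  · intro p hp l
    have h1 : p l = ∑ j : T, c l j * lin (Sum.elim t s (j : ι ⊕ J)) p := by
      have h2 : p l = ∑ i, (Pi.single l 1 : Fin (n + 1) → ℂ) i * p i := by
        rw [Finset.sum_eq_single l]
        · simp
        · intro i _ hi
          rw [Pi.single_eq_of_ne hi, zero_mul]
        · intro h
          exact absurd (Finset.mem_univ l) h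
      rw [h2, ← hc l]
      simp only [Finset.sum_apply, Pi.smul_apply, smul_eq_mul, Finset.sum_mul]
      rw [Finset.sum_comm]
      refine Finset.sum_congr rfl fun j _ => ?_
      rw [GoodBound_lin, Finset.mul_sum]
      refine Finset.sum_congr rfl fun i _ => ?_
      ring
    have h3 : ∑ j : T, c l j * lin (Sum.elim t s (j : ι ⊕ J)) p =
        ∑ j : T, c' l (j : ι ⊕ J) * lin (Sum.elim t s (j : ι ⊕ J)) p := by
      refine Finset.sum_congr rfl fun j _ => ?_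
      simp only [hc']
      rw [dif_pos j.2]
    have h4 : ∑ j : T, c' l (j : ι ⊕ J) * lin (Sum.elim t s (j : ι ⊕ J)) p =
        ∑ x ∈ T, c' l x * lin (Sum.elim t s x) p :=
      Finset.sum_coe_sort T (fun x => c' l x * lin (Sum.elim t s x) p)
    have h5 : ∑ x ∈ T, c' l x * lin (Sum.elim t s x) p =
        ∑ x, c' l x * lin (Sum.elim t s x) p := by
      refine Finset.sum_subset (Finset.subset_univ _) fun x _ hx => ?_
      simp only [hc']
      rw [dif_neg hx, zero_mul]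
    rw [h1, h3, h4, h5, Fintype.sum_sum_type]
    simp only [Sum.elim_inl, Sum.elim_inr, hp, mul_zero, Finset.sum_const_zero, add_zero]

/-- Few of the values are small. -/
theorem GoodBound_small [DecidableEq ι] [Nonempty ι] (hgp : GenPos (Sum.elim t s)) :
    ∃ c : ℝ, 0 < c ∧ c ≤ 1 ∧ ∀ p : Fin (n + 1) → ℂ, (∀ j, lin (s j) p = 0) →
      0 < ∑ k, ‖lin (t k) p‖ →
      (Finset.univ.filter fun i => ‖lin (t i) p‖ < c * ∑ k, ‖lin (t k) p‖).card +
        Fintype.card J ≤ n := by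
  classical
  have h1 : ∀ I : Finset ι, ∃ B : ℝ, 0 ≤ B ∧ (n + 1 ≤ I.card + Fintype.card J →
      ∀ p : Fin (n + 1) → ℂ, (∀ j, lin (s j) p = 0) →
        ∑ k, ‖lin (t k) p‖ ≤ B * ∑ i ∈ I, ‖lin (t i) p‖) := by
    intro I
    by_cases hI : n + 1 ≤ I.card + Fintype.card J
    · obtain ⟨b, hb0, hb⟩ := GoodBound_leftInv hgp I hI
      refine ⟨∑ k, ∑ l, ∑ i, ‖t k l‖ * ‖b l i‖, by positivity, fun _ p hp => ?_⟩
      rw [Finset.sum_mul]
      refine Finset.sum_le_sum fun k _ => ?_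
      rw [GoodBound_lin, Finset.sum_mul]
      refine (norm_sum_le _ _).trans (Finset.sum_le_sum fun l _ => ?_)
      rw [norm_mul, hb p hp l, Finset.sum_mul]
      calc ‖t k l‖ * ‖∑ i, b l i * lin (t i) p‖
          ≤ ‖t k l‖ * ∑ i, ‖b l i * lin (t i) p‖ := by
            gcongr
            exact norm_sum_le _ _
        _ = ∑ i, ‖t k l‖ * ‖b l i‖ * ‖lin (t i) p‖ := by
            rw [Finset.mul_sum]
            refine Finset.sum_congr rfl fun i _ => ?_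
            rw [norm_mul]
            ring
        _ ≤ ∑ i, ‖t k l‖ * ‖b l i‖ * ∑ i ∈ I, ‖lin (t i) p‖ := by
            refine Finset.sum_le_sum fun i _ => ?_
            by_cases hi : i ∈ I
            · gcongr
              exact Finset.single_le_sum (f := fun i => ‖lin (t i) p‖)
                (fun i _ => norm_nonneg _) hi
            · rw [hb0 l i hi]
              simp
    · exact ⟨0, le_rfl, fun h => absurd h hI⟩
  choose B hB0 hB using h1
  obtain ⟨D, hD⟩ := (Set.finite_range B).bddAbove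
  set D' : ℝ := max D 1 with hD'
  have hD'1 : 1 ≤ D' := le_max_right _ _
  have hBD : ∀ I, B I ≤ D' := fun I => (hD ⟨I, rfl⟩).trans (le_max_left _ _)
  have hN : (1 : ℝ) ≤ Fintype.card ι := by exact_mod_cast Fintype.card_pos
  refine ⟨1 / (2 * D' * Fintype.card ι), by positivity, ?_, fun p hp hM => ?_⟩
  · rw [div_le_one (by positivity)]
    nlinarith
  · by_contra hcon
    push Not at hcon
    set M : ℝ := ∑ k, ‖lin (t k) p‖ with hMdef
    set I : Finset ι := Finset.univ.filter fun i =>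
      ‖lin (t i) p‖ < 1 / (2 * D' * Fintype.card ι) * M with hI
    have h2 := hB I hcon p hp
    have h3 : ∑ i ∈ I, ‖lin (t i) p‖ ≤ Fintype.card ι * (1 / (2 * D' * Fintype.card ι) * M) := by
      calc ∑ i ∈ I, ‖lin (t i) p‖ ≤ ∑ i ∈ I, (1 / (2 * D' * Fintype.card ι) * M) :=
            Finset.sum_le_sum fun i hi => (Finset.mem_filter.mp hi).2.le
        _ = I.card * (1 / (2 * D' * Fintype.card ι) * M) := by
            rw [Finset.sum_const, nsmul_eq_mul]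
        _ ≤ _ := by
            gcongr
            exact Finset.card_le_univ I
    have h4 : M ≤ D' * (Fintype.card ι * (1 / (2 * D' * Fintype.card ι) * M)) := by
      refine h2.trans ?_
      have h5 : 0 ≤ ∑ i ∈ I, ‖lin (t i) p‖ := by positivity
      calc B I * ∑ i ∈ I, ‖lin (t i) p‖ ≤ D' * ∑ i ∈ I, ‖lin (t i) p‖ :=
            mul_le_mul_of_nonneg_right (hBD I) h5
        _ ≤ _ := by gcongr
    have h6 : D' * (Fintype.card ι * (1 / (2 * D' * Fintype.card ι) * M)) = M / 2 := by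
      field_simp
    rw [h6] at h4
    linarith

/-- Subtracting a multiple of the first vector does not change a good polynomial. -/
theorem GoodBound_sub (hQ : Good t K Q) (p p' : Fin (n + 1) → ℂ) (a : ℂ) :
    ev ![p, fun l => p' l - a * p l] Q = ev ![p, p'] Q := by
  have h := hQ.det !![1, 0; -a, 1] ![p, p']
  have e1 : (fun (a' : Fin 2) i => ∑ b, (!![1, 0; -a, 1] : Matrix (Fin 2) (Fin 2) ℂ) a' b *
      (![p, p'] : Fin 2 → Fin (n + 1) → ℂ) b i) = ![p, fun l => p' l - a * p l] := by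
    funext a' i
    fin_cases a'
    · simp [Fin.sum_univ_two]
    · simp [Fin.sum_univ_two]
      ring
  rw [e1, Matrix.det_fin_two_of] at h
  rw [h]
  simp

/-- Scaling of the two vectors. -/
theorem GoodBound_scale (hQ : Good t K Q) (p p' : Fin (n + 1) → ℂ) (a a' : ℂ) :
    ev ![fun l => a * p l, fun l => a' * p' l] Q = (a * a') ^ K * ev ![p, p'] Q := by
  have h := hQ.det !![a, 0; 0, a'] ![p, p']
  have e1 : (fun (x : Fin 2) i => ∑ b, (!![a, 0; 0, a'] : Matrix (Fin 2) (Fin 2) ℂ) x b *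
      (![p, p'] : Fin 2 → Fin (n + 1) → ℂ) b i) = ![fun l => a * p l, fun l => a' * p' l] := by
    funext x i
    fin_cases x
    · simp [Fin.sum_univ_two]
    · simp [Fin.sum_univ_two]
  rw [e1, Matrix.det_fin_two_of] at h
  rw [h]
  simp

/-- **The bound for good polynomials** (compare `H92.GGL.resultant_bound_rpow`). -/
theorem good_bound_rpow [DecidableEq ι] [Nonempty ι] (hgp : GenPos (Sum.elim t s))
    (hcs : n + 1 ≤ Fintype.card ι + Fintype.card J) (hQ : Good t K Q) (hK : 1 ≤ K) {κ : ℝ}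
    (hκ0 : 0 < κ) (hκ2 : κ < 2) (hcard : 2 * K ≤ Fintype.card ι) :
    ∃ C : ℝ, 0 ≤ C ∧ ∀ p p' : Fin (n + 1) → ℂ, (∀ j, lin (s j) p = 0) →
      (∀ j, lin (s j) p' = 0) → (∀ i, lin (t i) p ≠ 0) →
      ‖ev ![p, p'] Q‖ ^ 2 * (∑ i, ‖lin (t i) p‖ ^ κ) ^
          (((2 - κ) * Fintype.card ι - 4 * K) / κ) ≤
        C * (∏ i, ‖lin (t i) p‖ ^ (2 - κ)) *
          wVar (fun i => ‖lin (t i) p‖ ^ κ) (fun i => lin (t i) p' / lin (t i) p) ^ K := by
  classical
  obtain ⟨c, hc0, hc1, hc⟩ := GoodBound_small (t := t) (s := s) hgp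
  obtain ⟨b, -, hb⟩ := GoodBound_leftInv hgp Finset.univ (by rw [Finset.card_univ]; exact hcs)
  set N : ℕ := Fintype.card ι with hN
  have hNpos : 0 < N := Fintype.card_pos
  have hNr : (1 : ℝ) ≤ N := by exact_mod_cast hNpos
  -- constants
  set Λ : ℝ := 1 + ∑ l, ∑ i, ‖b l i‖ with hΛ
  have hΛ1 : 1 ≤ Λ := by
    have : 0 ≤ ∑ l, ∑ i, ‖b l i‖ := by positivity
    linarith
  have hcomp : ∀ (v : Fin (n + 1) → ℂ) (R : ℝ), (∀ j, lin (s j) v = 0) →
      (∀ i, ‖lin (t i) v‖ ≤ R) → ∀ l, ‖v l‖ ≤ Λ * R := by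
    intro v R hv hR l
    have hR0 : 0 ≤ R := (norm_nonneg _).trans (hR (Classical.arbitrary ι))
    rw [hb v hv l]
    calc ‖∑ i, b l i * lin (t i) v‖ ≤ ∑ i, ‖b l i‖ * R := by
          refine (norm_sum_le _ _).trans (Finset.sum_le_sum fun i _ => ?_)
          rw [norm_mul]
          gcongr
          exact hR i
      _ = (∑ i, ‖b l i‖) * R := by rw [Finset.sum_mul]
      _ ≤ Λ * R := by
          gcongr
          have h1 : ∑ i, ‖b l i‖ ≤ ∑ l, ∑ i, ‖b l i‖ :=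
            Finset.single_le_sum (f := fun l => ∑ i, ‖b l i‖) (fun l _ => by positivity)
              (Finset.mem_univ l)
          linarith
  have hCI : ∀ I : Finset ι, ∃ C : ℝ, 0 ≤ C ∧ (LinearIndependent ℂ (fun j : I => t j) →
      ∀ (u : Fin 2 → Fin (n + 1) → ℂ) (δ : ι → ℝ), (∀ a i, ‖u a i‖ ≤ 1) →
      (∀ j ∈ I, ∀ a, ‖lin (t j) (u a)‖ ≤ δ j) → (∀ j ∈ I, 0 ≤ δ j) →
        ‖ev u Q‖ ≤ C * ∏ j ∈ I, δ j) := by
    intro I
    by_cases hI : LinearIndependent ℂ (fun j : I => t j)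
    · obtain ⟨C, h1, h2⟩ := hQ.norm_bound hI
      exact ⟨C, h1, fun _ => h2⟩
    · exact ⟨0, le_rfl, fun h => absurd h hI⟩
  choose CI hCI0 hCI using hCI
  obtain ⟨D0, hD0⟩ := (Set.finite_range CI).bddAbove
  set D : ℝ := max D0 0 with hD
  have hD00 : 0 ≤ D := le_max_right _ _
  have hCD : ∀ I, CI I ≤ D := fun I => (hD0 ⟨I, rfl⟩).trans (le_max_left _ _)
  have h2κ : 0 < 2 - κ := by linarith
  set E : ℝ := (2 - κ) * ((N : ℝ) - 2 * K) with hE
  have hEnn : 0 ≤ E := by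
    have h1 : (2 * K : ℝ) ≤ N := by exact_mod_cast hcard
    have h2 : 0 ≤ (N : ℝ) - 2 * K := by linarith
    positivity
  refine ⟨D ^ 2 * Λ ^ (4 * K) * ((c ^ ((2 - κ) * N))⁻¹ * (N : ℝ) ^ (E / κ)), by positivity, ?_⟩
  intro p p' hsp hsp' hne
  obtain ⟨i₀⟩ := ‹Nonempty ι›
  set P : ι → ℝ := fun i => ‖lin (t i) p‖ with hP
  set w : ι → ℝ := fun i => P i ^ κ with hw
  set x : ι → ℂ := fun i => lin (t i) p' / lin (t i) p with hx
  set U : ℝ := ∑ i, w i with hU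
  have hPpos : ∀ i, 0 < P i := fun i => norm_pos_iff.mpr (hne i)
  have hwpos : ∀ i, 0 < w i := fun i => Real.rpow_pos_of_pos (hPpos i) _
  have hUpos : 0 < U := Finset.sum_pos (fun i _ => hwpos i) ⟨i₀, Finset.mem_univ _⟩
  obtain ⟨ℓ, hℓ⟩ := Pool.Agent.H17.exists_center w x (fun i => (hwpos i).le) hUpos
  set V : ℝ := wVar w x with hV
  have hVnn : 0 ≤ V := Pool.Agent.H17.wVar_nonneg x (fun i => (hwpos i).le) hUpos
  set M : ℝ := ∑ i, P i with hM
  have hMpos : 0 < M := Finset.sum_pos (fun i _ => hPpos i) ⟨i₀, Finset.mem_univ _⟩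
  have hPM : ∀ i, P i ≤ M := fun i =>
    Finset.single_le_sum (f := P) (fun i _ => (hPpos i).le) (Finset.mem_univ i)
  have hUM : U ≤ N * M ^ κ := by
    calc U ≤ ∑ _i : ι, M ^ κ := Finset.sum_le_sum fun i _ =>
          Real.rpow_le_rpow (hPpos i).le (hPM i) hκ0.le
      _ = N * M ^ κ := by rw [Finset.sum_const, Finset.card_univ, nsmul_eq_mul]
  -- the new second vector
  set p2 : Fin (n + 1) → ℂ := fun l => p' l - ℓ * p l with hp2
  have hev : ev ![p, p2] Q = ev ![p, p'] Q := GoodBound_sub hQ p p' ℓ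
  have hlin2 : ∀ v : Fin (n + 1) → ℂ, lin v p2 = lin v p' - ℓ * lin v p := by
    intro v
    rw [GoodBound_lin, GoodBound_lin, GoodBound_lin, Finset.mul_sum, ← Finset.sum_sub_distrib]
    refine Finset.sum_congr rfl fun i _ => ?_
    simp only [hp2]
    ring
  have hsp2 : ∀ j, lin (s j) p2 = 0 := by
    intro j
    rw [hlin2, hsp, hsp', mul_zero, sub_zero]
  have hp2eval : ∀ i, lin (t i) p2 = lin (t i) p * (x i - ℓ) := by
    intro i
    have : lin (t i) p * x i = lin (t i) p' := by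
      simp only [hx]
      rw [mul_div_cancel₀ _ (hne i)]
    rw [hlin2, mul_sub, this]
    ring
  have hsqw : ∀ i, Real.sqrt (w i) = P i ^ (κ / 2) := fun i => by
    rw [Real.sqrt_eq_rpow, hw, ← Real.rpow_mul (hPpos i).le]
    congr 1
    ring
  have hsplit : ∀ i, P i = P i ^ (1 - κ / 2) * Real.sqrt (w i) := fun i => by
    rw [hsqw, ← Real.rpow_add (hPpos i)]
    simp
  have hw2 : ∀ i, P i ≤ P i ^ (1 - κ / 2) * Real.sqrt U := by
    intro i
    have h1 : w i ≤ U := Finset.single_le_sum (f := w) (fun i _ => (hwpos i).le) (Finset.mem_univ i)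
    calc P i = P i ^ (1 - κ / 2) * Real.sqrt (w i) := hsplit i
      _ ≤ _ := by
        have := Real.rpow_nonneg (hPpos i).le (1 - κ / 2)
        gcongr
  have hq2 : ∀ i, ‖lin (t i) p2‖ ≤ P i ^ (1 - κ / 2) * Real.sqrt (U * V) := by
    intro i
    rw [hp2eval, norm_mul]
    have h1 : Real.sqrt (w i) * ‖x i - ℓ‖ ≤ Real.sqrt (U * V) := by
      apply Real.le_sqrt_of_sq_le
      rw [mul_pow, Real.sq_sqrt (hwpos i).le]
      exact hℓ i
    calc ‖lin (t i) p‖ * ‖x i - ℓ‖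
        = P i ^ (1 - κ / 2) * (Real.sqrt (w i) * ‖x i - ℓ‖) := by
          rw [← mul_assoc, ← hsplit i]
      _ ≤ _ := by
        have := Real.rpow_nonneg (hPpos i).le (1 - κ / 2)
        gcongr
  have hprodnn : 0 ≤ ∏ i, P i ^ (2 - κ) :=
    Finset.prod_nonneg fun i _ => Real.rpow_nonneg (hPpos i).le _
  have hcpos : 0 < c ^ ((2 - κ) * N) := Real.rpow_pos_of_pos hc0 _
  rcases hVnn.lt_or_eq with hVpos | hV0
  swap
  · -- V = 0
    have h1 : ∀ i, lin (t i) p2 = 0 := by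
      intro i
      have h2 := hq2 i
      rw [← hV0, mul_zero, Real.sqrt_zero, mul_zero] at h2
      exact norm_le_zero_iff.mp h2
    have h2 : p2 = fun l => 0 * p' l := by
      funext l
      rw [hb p2 hsp2 l, zero_mul]
      refine Finset.sum_eq_zero fun i _ => ?_
      rw [h1 i, mul_zero]
    have h3 : ev ![p, p2] Q = 0 := by
      have h4 : (![p, p2] : Fin 2 → Fin (n + 1) → ℂ) =
          ![fun l => 1 * p l, fun l => 0 * p' l] := by
        rw [h2]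
        simp
      rw [h4, GoodBound_scale hQ, mul_zero, zero_pow (by omega), zero_mul]
    rw [← hev, h3, norm_zero]
    have h5 : 0 ≤ V ^ K := pow_nonneg hVnn _
    rw [zero_pow two_ne_zero, zero_mul]
    positivity
  -- V > 0
  set μ : ℝ := M ^ (1 - κ / 2) with hμ
  have hμpos : 0 < μ := Real.rpow_pos_of_pos hMpos _
  have hPμ : ∀ i, P i ^ (1 - κ / 2) ≤ μ := fun i =>
    Real.rpow_le_rpow (hPpos i).le (hPM i) (by linarith)
  have hsU : 0 < Real.sqrt U := Real.sqrt_pos.mpr hUpos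
  have hUV : 0 < U * V := mul_pos hUpos hVpos
  have hsUV : 0 < Real.sqrt (U * V) := Real.sqrt_pos.mpr hUV
  set ρ₀ : ℝ := Λ * (μ * Real.sqrt U) with hρ₀
  set ρ₁ : ℝ := Λ * (μ * Real.sqrt (U * V)) with hρ₁
  have hΛ0 : 0 < Λ := by linarith
  have hρ₀pos : 0 < ρ₀ := by positivity
  have hρ₁pos : 0 < ρ₁ := by positivity
  have hpl : ∀ l, ‖p l‖ ≤ ρ₀ := by
    refine hcomp p _ hsp fun i => ?_
    refine (hw2 i).trans ?_
    have := hPμ i
    gcongr
  have hp2l : ∀ l, ‖p2 l‖ ≤ ρ₁ := by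
    refine hcomp p2 _ hsp2 fun i => ?_
    refine (hq2 i).trans ?_
    have := hPμ i
    gcongr
  -- the small indices
  set I : Finset ι := Finset.univ.filter fun i => ‖lin (t i) p‖ < c * ∑ k, ‖lin (t k) p‖ with hI
  have hIcard : I.card + Fintype.card J ≤ n := hc p hsp hMpos
  have hIli : LinearIndependent ℂ (fun j : I => t j) := by
    have h1 := hgp (I.map ⟨Sum.inl, Sum.inl_injective⟩) (by rw [Finset.card_map]; omega)
    let f : I → (I.map (⟨Sum.inl, Sum.inl_injective⟩ : ι ↪ ι ⊕ J) : Finset (ι ⊕ J)) :=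
      fun j => ⟨Sum.inl (j : ι), Finset.mem_map_of_mem _ j.2⟩
    have hf : Function.Injective f := by
      intro j k hjk
      have h2 : (Sum.inl (j : ι) : ι ⊕ J) = Sum.inl (k : ι) := congrArg Subtype.val hjk
      exact Subtype.ext (Sum.inl_injective h2)
    exact h1.comp f hf
  set δ : ι → ℝ := fun i => P i ^ (1 - κ / 2) / (Λ * μ) with hδ
  have hδnn : ∀ i, 0 ≤ δ i := fun i =>
    div_nonneg (Real.rpow_nonneg (hPpos i).le _) (by positivity)
  have hlinscale : ∀ (v : Fin (n + 1) → ℂ) (q : Fin (n + 1) → ℂ) (a : ℂ),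
      lin v (fun l => a * q l) = a * lin v q := by
    intro v q a
    rw [GoodBound_lin, GoodBound_lin, Finset.mul_sum]
    refine Finset.sum_congr rfl fun i _ => ?_
    ring
  set u : Fin 2 → Fin (n + 1) → ℂ :=
    ![fun l => ((ρ₀⁻¹ : ℝ) : ℂ) * p l, fun l => ((ρ₁⁻¹ : ℝ) : ℂ) * p2 l] with hu
  have hnb := hCI I hIli u δ (by
      intro a l
      fin_cases a
      · show ‖((ρ₀⁻¹ : ℝ) : ℂ) * p l‖ ≤ 1
        rw [norm_mul, Complex.norm_real, Real.norm_of_nonneg (by positivity),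
          inv_mul_le_iff₀ hρ₀pos, mul_one]
        exact hpl l
      · show ‖((ρ₁⁻¹ : ℝ) : ℂ) * p2 l‖ ≤ 1
        rw [norm_mul, Complex.norm_real, Real.norm_of_nonneg (by positivity),
          inv_mul_le_iff₀ hρ₁pos, mul_one]
        exact hp2l l) (by
      intro j _ a
      fin_cases a
      · show ‖lin (t j) (fun l => ((ρ₀⁻¹ : ℝ) : ℂ) * p l)‖ ≤ δ j
        rw [hlinscale, norm_mul, Complex.norm_real, Real.norm_of_nonneg (by positivity),
          inv_mul_le_iff₀ hρ₀pos]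
        refine (hw2 j).trans (le_of_eq ?_)
        simp only [hδ, hρ₀]
        field_simp
      · show ‖lin (t j) (fun l => ((ρ₁⁻¹ : ℝ) : ℂ) * p2 l)‖ ≤ δ j
        rw [hlinscale, norm_mul, Complex.norm_real, Real.norm_of_nonneg (by positivity),
          inv_mul_le_iff₀ hρ₁pos]
        refine (hq2 j).trans (le_of_eq ?_)
        simp only [hδ, hρ₁]
        field_simp) (fun j _ => hδnn j)
  -- undo the scaling
  have hscale : ev ![p, p'] Q = (((ρ₀ * ρ₁ : ℝ)) : ℂ) ^ K * ev u Q := by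
    rw [← hev]
    have h1 := GoodBound_scale hQ (fun l => ((ρ₀⁻¹ : ℝ) : ℂ) * p l)
      (fun l => ((ρ₁⁻¹ : ℝ) : ℂ) * p2 l) (ρ₀ : ℂ) (ρ₁ : ℂ)
    have h2 : (![fun l => (ρ₀ : ℂ) * (((ρ₀⁻¹ : ℝ) : ℂ) * p l),
        fun l => (ρ₁ : ℂ) * (((ρ₁⁻¹ : ℝ) : ℂ) * p2 l)] : Fin 2 → Fin (n + 1) → ℂ) = ![p, p2] := by
      have h3 : ∀ (r : ℝ), r ≠ 0 → ∀ z : ℂ, (r : ℂ) * (((r⁻¹ : ℝ) : ℂ) * z) = z := by
        intro r hr z
        rw [← mul_assoc, ← Complex.ofReal_mul, mul_inv_cancel₀ hr, Complex.ofReal_one, one_mul]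
      congr 1
      · funext l
        exact h3 ρ₀ hρ₀pos.ne' _
      · congr 1
        funext l
        exact h3 ρ₁ hρ₁pos.ne' _
    rw [h2] at h1
    rw [h1, ← Complex.ofReal_mul]
  have hprodI : ∏ i ∈ I, (P i ^ (1 - κ / 2)) ^ 2 = ∏ i ∈ I, P i ^ (2 - κ) := by
    refine Finset.prod_congr rfl fun i _ => ?_
    rw [← Real.rpow_natCast, ← Real.rpow_mul (hPpos _).le]
    congr 1
    push_cast
    ring
  have hprodInn : 0 ≤ ∏ i ∈ I, P i ^ (2 - κ) :=
    Finset.prod_nonneg fun i _ => Real.rpow_nonneg (hPpos i).le _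
  have hsq : ‖ev ![p, p'] Q‖ ^ 2 ≤ D ^ 2 * Λ ^ (4 * K) * μ ^ (4 * K) * (U ^ (2 * K) * V ^ K) *
      ((∏ i ∈ I, P i ^ (2 - κ)) * (μ ^ (2 * I.card))⁻¹) := by
    have hδprod : (∏ j ∈ I, δ j) ^ 2 ≤
        (∏ i ∈ I, P i ^ (2 - κ)) * (μ ^ (2 * I.card))⁻¹ := by
      have h1 : ∏ j ∈ I, δ j = (∏ j ∈ I, P j ^ (1 - κ / 2)) * ((Λ * μ) ^ I.card)⁻¹ := by
        simp only [hδ, div_eq_mul_inv]
        rw [Finset.prod_mul_distrib, Finset.prod_const, inv_pow]
      rw [h1, mul_pow, ← Finset.prod_pow, hprodI]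
      refine mul_le_mul_of_nonneg_left ?_ hprodInn
      rw [inv_pow, ← pow_mul]
      refine inv_anti₀ (by positivity) ?_
      rw [mul_comm I.card 2]
      refine pow_le_pow_left₀ hμpos.le ?_ _
      nlinarith
    have h2 : ‖ev ![p, p'] Q‖ ≤ (ρ₀ * ρ₁) ^ K * (D * ∏ j ∈ I, δ j) := by
      rw [hscale, norm_mul, norm_pow, Complex.norm_real, Real.norm_of_nonneg (by positivity)]
      refine mul_le_mul_of_nonneg_left (hnb.trans ?_) (by positivity)
      exact mul_le_mul_of_nonneg_right (hCD I) (Finset.prod_nonneg fun j _ => hδnn j)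
    have h3 : (ρ₀ * ρ₁) ^ 2 = Λ ^ 4 * μ ^ 4 * (U ^ 2 * V) := by
      have h4 : Real.sqrt U ^ 2 = U := Real.sq_sqrt hUpos.le
      have h5 : Real.sqrt (U * V) ^ 2 = U * V := Real.sq_sqrt hUV.le
      calc (ρ₀ * ρ₁) ^ 2 = Λ ^ 4 * μ ^ 4 * (Real.sqrt U ^ 2 * Real.sqrt (U * V) ^ 2) := by
            rw [hρ₀, hρ₁]
            ring
        _ = _ := by
            rw [h4, h5]
            ring
    calc ‖ev ![p, p'] Q‖ ^ 2 ≤ ((ρ₀ * ρ₁) ^ K * (D * ∏ j ∈ I, δ j)) ^ 2 := by gcongr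
      _ = ((ρ₀ * ρ₁) ^ 2) ^ K * D ^ 2 * (∏ j ∈ I, δ j) ^ 2 := by ring_nf
      _ ≤ ((ρ₀ * ρ₁) ^ 2) ^ K * D ^ 2 *
          ((∏ i ∈ I, P i ^ (2 - κ)) * (μ ^ (2 * I.card))⁻¹) := by gcongr
      _ = _ := by
          rw [h3]
          ring_nf
  -- the remaining indices
  have hμ2 : μ ^ 2 = M ^ (2 - κ) := by
    rw [hμ, ← Real.rpow_natCast, ← Real.rpow_mul hMpos.le]
    congr 1
    push_cast
    ring
  have hIN : I.card ≤ N := Finset.card_le_univ I
  have hrest : (c * M) ^ ((2 - κ) * ((N : ℝ) - I.card)) ≤ ∏ i ∈ Iᶜ, P i ^ (2 - κ) := by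
    have h1 : Iᶜ.card = N - I.card := Finset.card_compl I
    have h2 : (c * M) ^ ((2 - κ) * ((N : ℝ) - I.card)) = ∏ _i ∈ Iᶜ, (c * M) ^ (2 - κ) := by
      rw [Finset.prod_const, h1, ← Real.rpow_natCast, ← Real.rpow_mul (by positivity),
        Nat.cast_sub hIN]
    rw [h2]
    refine Finset.prod_le_prod (fun i _ => by positivity) fun i hi => ?_
    refine Real.rpow_le_rpow (by positivity) ?_ h2κ.le
    by_contra h
    push Not at h
    exact (Finset.mem_compl.mp hi) (Finset.mem_filter.mpr ⟨Finset.mem_univ i, h⟩)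
  have hall : (∏ i ∈ I, P i ^ (2 - κ)) * ∏ i ∈ Iᶜ, P i ^ (2 - κ) = ∏ i, P i ^ (2 - κ) :=
    Finset.prod_mul_prod_compl I _
  have hexp : ((2 - κ) * N - 4 * K) / κ = E / κ - 2 * K := by
    rw [hE]
    field_simp
    ring
  have hUE : U ^ (E / κ) ≤ (N : ℝ) ^ (E / κ) * M ^ E := by
    calc U ^ (E / κ) ≤ (N * M ^ κ) ^ (E / κ) :=
          Real.rpow_le_rpow hUpos.le hUM (by positivity)
      _ = (N : ℝ) ^ (E / κ) * M ^ E := by
          rw [Real.mul_rpow (by positivity) (by positivity), ← Real.rpow_mul hMpos.le]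
          congr 2
          field_simp
  have hU2 : U ^ (E / κ - 2 * K) * U ^ (2 * K) = U ^ (E / κ) := by
    rw [← Real.rpow_natCast U (2 * K), ← Real.rpow_add hUpos]
    congr 1
    push_cast
    ring
  -- the powers of M
  have hMpow : μ ^ (4 * K) * (μ ^ (2 * I.card))⁻¹ * M ^ E = M ^ ((2 - κ) * ((N : ℝ) - I.card)) := by
    have h1 : μ ^ (4 * K) = M ^ ((2 - κ) * (2 * K)) := by
      rw [show 4 * K = 2 * (2 * K) by ring, pow_mul, hμ2, ← Real.rpow_natCast,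
        ← Real.rpow_mul hMpos.le]
      congr 1
      push_cast
      ring
    have h2 : (μ ^ (2 * I.card))⁻¹ = M ^ (-((2 - κ) * I.card)) := by
      rw [pow_mul, hμ2, ← Real.rpow_natCast, ← Real.rpow_mul hMpos.le, Real.rpow_neg hMpos.le]
    rw [h1, h2, ← Real.rpow_add hMpos, ← Real.rpow_add hMpos, hE]
    congr 1
    ring
  have hcM : M ^ ((2 - κ) * ((N : ℝ) - I.card)) ≤
      (c ^ ((2 - κ) * N))⁻¹ * (c * M) ^ ((2 - κ) * ((N : ℝ) - I.card)) := by
    have h1 : (0 : ℝ) ≤ (N : ℝ) - I.card := by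
      have : (I.card : ℝ) ≤ N := by exact_mod_cast hIN
      linarith
    have h2 : c ^ ((2 - κ) * (N : ℝ)) ≤ c ^ ((2 - κ) * ((N : ℝ) - I.card)) := by
      apply Real.rpow_le_rpow_of_exponent_ge hc0 hc1
      have : (0 : ℝ) ≤ I.card := Nat.cast_nonneg _
      nlinarith
    have h3 : 0 < M ^ ((2 - κ) * ((N : ℝ) - I.card)) := Real.rpow_pos_of_pos hMpos _
    rw [Real.mul_rpow hc0.le hMpos.le, ← mul_assoc]
    have h4 : 1 ≤ (c ^ ((2 - κ) * N))⁻¹ * c ^ ((2 - κ) * ((N : ℝ) - I.card)) := by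
      rw [inv_mul_eq_div, one_le_div hcpos]
      exact h2
    calc M ^ ((2 - κ) * ((N : ℝ) - I.card)) = 1 * M ^ ((2 - κ) * ((N : ℝ) - I.card)) :=
          (one_mul _).symm
      _ ≤ _ := mul_le_mul_of_nonneg_right h4 h3.le
  have hVK : 0 ≤ V ^ K := pow_nonneg hVnn _
  have hUEnn : 0 ≤ U ^ (E / κ) := Real.rpow_nonneg hUpos.le _
  have hfin : μ ^ (4 * K) * (μ ^ (2 * I.card))⁻¹ * ((∏ i ∈ I, P i ^ (2 - κ)) * U ^ (E / κ)) ≤
      (c ^ ((2 - κ) * N))⁻¹ * (N : ℝ) ^ (E / κ) * ∏ i, P i ^ (2 - κ) := by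
    rw [← hall]
    calc μ ^ (4 * K) * (μ ^ (2 * I.card))⁻¹ * ((∏ i ∈ I, P i ^ (2 - κ)) * U ^ (E / κ))
        ≤ μ ^ (4 * K) * (μ ^ (2 * I.card))⁻¹ *
          ((∏ i ∈ I, P i ^ (2 - κ)) * ((N : ℝ) ^ (E / κ) * M ^ E)) := by gcongr
      _ = (N : ℝ) ^ (E / κ) * (∏ i ∈ I, P i ^ (2 - κ)) *
          (μ ^ (4 * K) * (μ ^ (2 * I.card))⁻¹ * M ^ E) := by ring
      _ ≤ (N : ℝ) ^ (E / κ) * (∏ i ∈ I, P i ^ (2 - κ)) *
          ((c ^ ((2 - κ) * N))⁻¹ * ∏ i ∈ Iᶜ, P i ^ (2 - κ)) := by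
          rw [hMpow]
          refine mul_le_mul_of_nonneg_left (hcM.trans ?_) (by positivity)
          gcongr
      _ = _ := by ring
  rw [hexp]
  have hUexp : 0 ≤ U ^ (E / κ - 2 * K) := Real.rpow_nonneg hUpos.le _
  calc ‖ev ![p, p'] Q‖ ^ 2 * U ^ (E / κ - 2 * K)
      ≤ (D ^ 2 * Λ ^ (4 * K) * μ ^ (4 * K) * (U ^ (2 * K) * V ^ K) *
        ((∏ i ∈ I, P i ^ (2 - κ)) * (μ ^ (2 * I.card))⁻¹)) * U ^ (E / κ - 2 * K) := by gcongr
    _ = D ^ 2 * Λ ^ (4 * K) * (μ ^ (4 * K) * (μ ^ (2 * I.card))⁻¹ *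
        ((∏ i ∈ I, P i ^ (2 - κ)) * (U ^ (E / κ - 2 * K) * U ^ (2 * K)))) * V ^ K := by ring
    _ = D ^ 2 * Λ ^ (4 * K) * (μ ^ (4 * K) * (μ ^ (2 * I.card))⁻¹ *
        ((∏ i ∈ I, P i ^ (2 - κ)) * U ^ (E / κ))) * V ^ K := by rw [hU2]
    _ ≤ D ^ 2 * Λ ^ (4 * K) * ((c ^ ((2 - κ) * N))⁻¹ * (N : ℝ) ^ (E / κ) *
        ∏ i, P i ^ (2 - κ)) * V ^ K := by gcongr
    _ = _ := by ring

/-- **The pointwise estimate** (compare `H92.GGL.weight_bound`). -/
theorem good_weight_bound [DecidableEq ι] [Nonempty ι] (hgp : GenPos (Sum.elim t s))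
    (hcs : n + 1 ≤ Fintype.card ι + Fintype.card J) (hQ : Good t K Q) (hK : 1 ≤ K) {κ α : ℝ}
    {θ : ι → ℝ} (hκ0 : 0 < κ) (hκ2 : κ < 2) (hθ0 : ∀ i, 0 ≤ θ i)
    (hhom : 4 * K + κ * α = (2 - κ) * (Fintype.card ι - ∑ i, θ i))
    (hcard : 2 * K ≤ Fintype.card ι) :
    ∃ C : ℝ, 0 ≤ C ∧ ∀ (p p' : Fin (n + 1) → ℂ) (u : ι → ℂ → ℂ) (g : ℂ → ℂ) (z : ℂ),
      (∀ j, lin (s j) p = 0) → (∀ j, lin (s j) p' = 0) → (∀ i, lin (t i) p = u i z) →
      (∀ i, lin (t i) p' = deriv (u i) z) → g z = ev ![p, p'] Q → (∀ i, u i z ≠ 0) →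
      wt κ α (fun i => (2 - κ) * (1 - θ i)) u g z ≤ C * powVar κ u z ^ K := by
  classical
  obtain ⟨C₀, hC0, hC⟩ := good_bound_rpow (t := t) (s := s) hgp hcs hQ hK hκ0 hκ2 hcard
  refine ⟨C₀, hC0, ?_⟩
  intro P P' r g z hP hP' hPr hQr hg hz
  have h1 := hC P P' hP hP' (fun i => by rw [hPr]; exact hz i)
  rw [← hg] at h1
  simp only [hPr, hQr] at h1
  have hzpos : ∀ i, 0 < ‖r i z‖ := fun i => norm_pos_iff.mpr (hz i)
  have hUpos : 0 < powSum κ r z := Pool.Agent.H92.GGL.powSum_pos hz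
  have hU : ∑ i, ‖r i z‖ ^ κ = powSum κ r z := rfl
  have hV : wVar (fun i => ‖r i z‖ ^ κ) (fun i => deriv (r i) z / r i z) = powVar κ r z := rfl
  rw [hU, hV] at h1
  have hVnn : 0 ≤ powVar κ r z := Pool.Agent.H92.GGL.powVar_nonneg hz
  set U := powSum κ r z with hUdef
  -- the exponent
  have hexp : ((2 - κ) * Fintype.card ι - 4 * K) / κ = α + (2 - κ) * (∑ i, θ i) / κ := by
    rw [div_eq_iff hκ0.ne', add_mul, div_mul_cancel₀ _ hκ0.ne', mul_comm α κ]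
    linear_combination -hhom
  rw [hexp, Real.rpow_add hUpos] at h1
  -- comparing
  have h2 : ∏ i, ‖r i z‖ ^ ((2 - κ) * θ i) ≤ U ^ ((2 - κ) * (∑ i, θ i) / κ) := by
    have h3 : U ^ ((2 - κ) * (∑ i, θ i) / κ) = ∏ i, U ^ ((2 - κ) * θ i / κ) := by
      rw [← Real.rpow_sum_of_pos hUpos]
      congr 1
      rw [Finset.mul_sum, Finset.sum_div]
    rw [h3]
    refine Finset.prod_le_prod (fun i _ => (Real.rpow_pos_of_pos (hzpos i) _).le) fun i _ => ?_
    have h4 : ‖r i z‖ ^ κ ≤ U := by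
      rw [hUdef]
      unfold powSum
      exact Finset.single_le_sum (f := fun i => ‖r i z‖ ^ κ)
        (fun i _ => (Real.rpow_pos_of_pos (hzpos i) _).le) (Finset.mem_univ i)
    have h5 : ‖r i z‖ ^ ((2 - κ) * θ i) = (‖r i z‖ ^ κ) ^ ((2 - κ) * θ i / κ) := by
      rw [← Real.rpow_mul (hzpos i).le]
      congr 1
      field_simp
    rw [h5]
    refine Real.rpow_le_rpow (Real.rpow_pos_of_pos (hzpos i) _).le h4 ?_
    have := hθ0 i
    have h6 : 0 < 2 - κ := by linarith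
    positivity
  have h6 : ∏ i, ‖r i z‖ ^ (-((2 - κ) * (1 - θ i))) =
      (∏ i, ‖r i z‖ ^ (2 - κ))⁻¹ * ∏ i, ‖r i z‖ ^ ((2 - κ) * θ i) := by
    rw [← Finset.prod_inv_distrib, ← Finset.prod_mul_distrib]
    refine Finset.prod_congr rfl fun i _ => ?_
    rw [← Real.rpow_neg (hzpos i).le, ← Real.rpow_add (hzpos i)]
    congr 1
    ring
  have hP2 : 0 < ∏ i, ‖r i z‖ ^ (2 - κ) := Finset.prod_pos fun i _ =>
    Real.rpow_pos_of_pos (hzpos i) _
  have hPθ : 0 ≤ ∏ i, ‖r i z‖ ^ ((2 - κ) * θ i) := Finset.prod_nonneg fun i _ =>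
    (Real.rpow_pos_of_pos (hzpos i) _).le
  have hUα : 0 < U ^ α := Real.rpow_pos_of_pos hUpos _
  unfold wt
  rw [h6]
  calc ‖g z‖ ^ 2 * U ^ α * ((∏ i, ‖r i z‖ ^ (2 - κ))⁻¹ * ∏ i, ‖r i z‖ ^ ((2 - κ) * θ i))
      ≤ ‖g z‖ ^ 2 * U ^ α * ((∏ i, ‖r i z‖ ^ (2 - κ))⁻¹ * U ^ ((2 - κ) * (∑ i, θ i) / κ)) := by
        gcongr
    _ = (∏ i, ‖r i z‖ ^ (2 - κ))⁻¹ *
        (‖g z‖ ^ 2 * (U ^ α * U ^ ((2 - κ) * (∑ i, θ i) / κ))) := by ring
    _ ≤ (∏ i, ‖r i z‖ ^ (2 - κ))⁻¹ *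
        (C₀ * (∏ i, ‖r i z‖ ^ (2 - κ)) * powVar κ r z ^ K) := by gcongr
    _ = _ := by field_simp

end Pool.Agent.H39.HC
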