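import Pool.Agent.H39.HC.Defs

/-!
# The apolar pairing of polynomials
-/

open MvPolynomial

noncomputable section

namespace Pool.Agent.H39.HC

/-- The apolar pairing `∑ α! * g_α * f_α` of two polynomials. -/
def pair {σ R : Type*} [CommRing R] [Algebra ℂ R] (g : MvPolynomial σ R)
    (f : MvPolynomial σ ℂ) : R :=
  ∑ α ∈ f.support, ((α.prod fun _ k => (k.factorial : ℂ)) * coeff α f) • coeff α g

section

variable {σ τ : Type*} [Fintype σ] [DecidableEq σ] [Fintype τ] [DecidableEq τ]

omit [Fintype σ] [DecidableEq σ] in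
private theorem Pairing_eq (g f : MvPolynomial σ ℂ) {S : Finset (σ →₀ ℕ)} (h : f.support ⊆ S) :
    pair g f = ∑ α ∈ S, ((α.prod fun _ k => (k.factorial : ℂ)) * coeff α f) * coeff α g := by
  rw [pair]
  simp only [smul_eq_mul]
  apply Finset.sum_subset h
  intro α _ hα
  rw [notMem_support_iff.1 hα, mul_zero, zero_mul]

omit [Fintype σ] [DecidableEq σ] in
private theorem Pairing_add_left (g g' f : MvPolynomial σ ℂ) :
    pair (g + g') f = pair g f + pair g' f := by
  rw [Pairing_eq _ f (Finset.Subset.refl _), Pairing_eq g f (Finset.Subset.refl _),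
    Pairing_eq g' f (Finset.Subset.refl _), ← Finset.sum_add_distrib]
  refine Finset.sum_congr rfl fun α _ => ?_
  rw [coeff_add, mul_add]

omit [Fintype σ] [DecidableEq σ] in
private theorem Pairing_C_left (a : ℂ) (g f : MvPolynomial σ ℂ) :
    pair (C a * g) f = a * pair g f := by
  rw [Pairing_eq _ f (Finset.Subset.refl _), Pairing_eq g f (Finset.Subset.refl _), Finset.mul_sum]
  refine Finset.sum_congr rfl fun α _ => ?_
  rw [coeff_C_mul]
  ring

omit [Fintype σ] [DecidableEq σ] in
private theorem Pairing_zero_left (f : MvPolynomial σ ℂ) :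
    pair (0 : MvPolynomial σ ℂ) f = 0 := by
  have h := Pairing_C_left 0 (0 : MvPolynomial σ ℂ) f
  rwa [C_0, zero_mul, zero_mul] at h

omit [Fintype σ] [DecidableEq σ] in
private theorem Pairing_sum_left {ι : Type*} (s : Finset ι) (g : ι → MvPolynomial σ ℂ)
    (f : MvPolynomial σ ℂ) : pair (∑ i ∈ s, g i) f = ∑ i ∈ s, pair (g i) f := by
  classical
  induction s using Finset.induction_on with
  | empty => rw [Finset.sum_empty, Finset.sum_empty, Pairing_zero_left]
  | insert i s hi ih => rw [Finset.sum_insert hi, Finset.sum_insert hi, Pairing_add_left, ih]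

omit [Fintype σ] in
private theorem Pairing_add_right (g f f' : MvPolynomial σ ℂ) :
    pair g (f + f') = pair g f + pair g f' := by
  have h1 : f.support ⊆ f.support ∪ f'.support := Finset.subset_union_left
  have h2 : f'.support ⊆ f.support ∪ f'.support := Finset.subset_union_right
  rw [Pairing_eq g (f + f') (support_add (p := f) (q := f')), Pairing_eq g f h1,
    Pairing_eq g f' h2, ← Finset.sum_add_distrib]
  refine Finset.sum_congr rfl fun α _ => ?_
  rw [coeff_add]
  ring

omit [Fintype σ] [DecidableEq σ] in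
private theorem Pairing_C_right (a : ℂ) (g f : MvPolynomial σ ℂ) :
    pair g (C a * f) = a * pair g f := by
  have h1 : (C a * f).support ⊆ f.support := by
    intro α hα
    rw [mem_support_iff] at hα ⊢
    intro h
    apply hα
    rw [coeff_C_mul, h, mul_zero]
  rw [Pairing_eq g _ h1, Pairing_eq g f (Finset.Subset.refl _), Finset.mul_sum]
  refine Finset.sum_congr rfl fun α _ => ?_
  rw [coeff_C_mul]
  ring

omit [Fintype σ] in
private theorem Pairing_sum_right {ι : Type*} (s : Finset ι) (g : MvPolynomial σ ℂ)
    (f : ι → MvPolynomial σ ℂ) : pair g (∑ i ∈ s, f i) = ∑ i ∈ s, pair g (f i) := by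
  classical
  induction s using Finset.induction_on with
  | empty =>
    rw [Finset.sum_empty, Finset.sum_empty]
    have h := Pairing_C_right 0 g (0 : MvPolynomial σ ℂ)
    rwa [C_0, zero_mul, zero_mul] at h
  | insert i s hi ih => rw [Finset.sum_insert hi, Finset.sum_insert hi, Pairing_add_right, ih]

omit [Fintype σ] [DecidableEq σ] in
private theorem Pairing_monomial (g : MvPolynomial σ ℂ) (α : σ →₀ ℕ) (a : ℂ) :
    pair g (monomial α a) = ((α.prod fun _ k => (k.factorial : ℂ)) * a) * coeff α g := by
  classical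
  rw [Pairing_eq g _ support_monomial_subset, Finset.sum_singleton, coeff_monomial, if_pos rfl]

omit [Fintype τ] [DecidableEq τ] in
private theorem Pairing_X (j : σ) (g f : MvPolynomial σ ℂ) :
    pair (X j * g) f = pair g (pderiv j f) := by
  induction f using MvPolynomial.induction_on' with
  | add f f' hf hf' => rw [Pairing_add_right, hf, hf', map_add, Pairing_add_right]
  | monomial α a =>
    rw [pderiv_monomial, Pairing_monomial, Pairing_monomial, coeff_X_mul']
    by_cases hj : α j = 0
    · rw [if_neg (by rwa [Finsupp.mem_support_iff, not_not]), hj]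
      simp
    · rw [if_pos (Finsupp.mem_support_iff.2 hj)]
      have h1 : (α.prod fun _ k => (k.factorial : ℂ)) =
          ((α - Finsupp.single j 1).prod fun _ k => (k.factorial : ℂ)) * (α j : ℂ) := by
        rw [Finsupp.prod_fintype _ _ (fun _ => by simp), Finsupp.prod_fintype _ _ (fun _ => by simp),
          ← Finset.mul_prod_erase _ _ (Finset.mem_univ j), ← Finset.mul_prod_erase _ _ (Finset.mem_univ j)]
        have h2 : ∏ x ∈ Finset.univ.erase j, (((α - Finsupp.single j 1 : σ →₀ ℕ) x).factorial : ℂ) =
            ∏ x ∈ Finset.univ.erase j, ((α x).factorial : ℂ) := by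
          refine Finset.prod_congr rfl fun x hx => ?_
          rw [Finsupp.tsub_apply, Finsupp.single_eq_of_ne (Finset.ne_of_mem_erase hx), Nat.sub_zero]
        rw [h2, Finsupp.tsub_apply, Finsupp.single_eq_same]
        have h3 : ((α j).factorial : ℂ) = ((α j - 1).factorial : ℂ) * (α j : ℂ) := by
          rw [← Nat.mul_factorial_pred hj]
          push_cast
          ring
        rw [h3]
        ring
      rw [h1]
      ring

omit [Fintype σ] [DecidableEq σ] in
private theorem Pairing_const (a : ℂ) (f : MvPolynomial σ ℂ) :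
    pair (C a : MvPolynomial σ ℂ) f = coeff 0 f * a := by
  classical
  rw [Pairing_eq (C a) f (S := insert 0 f.support) (Finset.subset_insert _ _),
    Finset.sum_eq_single 0]
  · rw [coeff_C, if_pos rfl]
    simp
  · intro α _ hα
    rw [coeff_C, if_neg (Ne.symm hα), mul_zero]
  · intro h
    exact absurd (Finset.mem_insert_self _ _) h

omit [DecidableEq σ] [Fintype τ] [DecidableEq τ] in
private theorem Pairing_coeff_zero (L : σ → τ → ℂ) (f : MvPolynomial τ ℂ) :
    coeff 0 (aeval (fun k => ∑ j, C (L j k) * X j : τ → MvPolynomial σ ℂ) f) = coeff 0 f := by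
  rw [← constantCoeff_eq, ← constantCoeff_eq]
  induction f using MvPolynomial.induction_on with
  | C a => rw [aeval_C, algebraMap_eq, constantCoeff_C, constantCoeff_C]
  | add f g hf hg => rw [map_add, map_add, map_add, hf, hg]
  | mul_X f k hf =>
    rw [map_mul, map_mul, map_mul, aeval_X, map_sum, constantCoeff_X, mul_zero,
      Finset.sum_eq_zero, mul_zero]
    intro j _
    rw [map_mul, constantCoeff_X, mul_zero]

omit [DecidableEq σ] in
private theorem Pairing_chain (L : σ → τ → ℂ) (j : σ) (f : MvPolynomial τ ℂ) :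
    pderiv j (aeval (fun k => ∑ j, C (L j k) * X j : τ → MvPolynomial σ ℂ) f) =
      ∑ k, C (L j k) * aeval (fun k => ∑ j, C (L j k) * X j : τ → MvPolynomial σ ℂ)
        (pderiv k f) := by
  set φ : τ → MvPolynomial σ ℂ := fun k => ∑ j, C (L j k) * X j with hφ
  have h1 : ∀ i, pderiv j (φ i) = C (L j i) := by
    intro i
    rw [hφ]
    dsimp only
    rw [map_sum, Finset.sum_eq_single j]
    · rw [pderiv_C_mul, pderiv_X_self, mul_one]
    · intro b _ hb
      rw [pderiv_C_mul, pderiv_X_of_ne hb, mul_zero]
    · intro h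
      exact absurd (Finset.mem_univ _) h
  induction f using MvPolynomial.induction_on with
  | C a =>
    rw [aeval_C, algebraMap_eq, pderiv_C]
    simp only [pderiv_C, map_zero, mul_zero, Finset.sum_const_zero]
  | add f g hf hg =>
    rw [map_add, map_add, hf, hg, ← Finset.sum_add_distrib]
    refine Finset.sum_congr rfl fun k _ => ?_
    rw [map_add, map_add, mul_add]
  | mul_X f i hf =>
    rw [map_mul, aeval_X, pderiv_mul, hf, h1]
    have h2 : ∀ k, C (L j k) * aeval φ (pderiv k (f * X i)) =
        C (L j k) * aeval φ (pderiv k f) * φ i +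
          (if k = i then aeval φ f * C (L j i) else 0) := by
      intro k
      rw [pderiv_mul, map_add, map_mul, map_mul, aeval_X]
      by_cases hk : k = i
      · subst hk
        rw [pderiv_X_self, map_one, if_pos rfl]
        ring
      · rw [pderiv_X_of_ne (Ne.symm hk), map_zero, if_neg hk]
        ring
    rw [Finset.sum_congr rfl fun k _ => h2 k, Finset.sum_add_distrib, Finset.sum_ite_eq',
      if_pos (Finset.mem_univ _), Finset.sum_mul]

private theorem Pairing_adj (L : σ → τ → ℂ) (g : MvPolynomial σ ℂ) (f : MvPolynomial τ ℂ) :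
    pair (aeval (fun j => ∑ k, C (L j k) * X k : σ → MvPolynomial τ ℂ) g) f =
      pair g (aeval (fun k => ∑ j, C (L j k) * X j : τ → MvPolynomial σ ℂ) f) := by
  induction g using MvPolynomial.induction_on generalizing f with
  | C a => rw [aeval_C, algebraMap_eq, Pairing_const, Pairing_const, Pairing_coeff_zero]
  | add g g' hg hg' => rw [map_add, Pairing_add_left, hg, hg', ← Pairing_add_left]
  | mul_X g j hg =>
    rw [mul_comm g (X j), Pairing_X, Pairing_chain, map_mul, aeval_X, Finset.sum_mul,
      Pairing_sum_left, Pairing_sum_right]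
    refine Finset.sum_congr rfl fun k _ => ?_
    rw [mul_assoc, Pairing_C_left, Pairing_X, hg, Pairing_C_right]

end

private theorem Pairing_pos {σ : Type*} [Fintype σ] [DecidableEq σ] {G : MvPolynomial σ ℤ}
    (hG : G ≠ 0) : pair (map (Int.castRingHom ℂ) G) (map (Int.castRingHom ℂ) G) ≠ 0 := by
  rw [Pairing_eq _ _ (support_map_subset (Int.castRingHom ℂ) G)]
  have h1 : ∑ α ∈ G.support, ((α.prod fun _ k => (k.factorial : ℂ)) *
      coeff α (map (Int.castRingHom ℂ) G)) * coeff α (map (Int.castRingHom ℂ) G) =
      ((∑ α ∈ G.support, ((α.prod fun _ k => (k.factorial : ℤ)) * coeff α G) * coeff α G : ℤ) :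
        ℂ) := by
    rw [Int.cast_sum]
    refine Finset.sum_congr rfl fun α _ => ?_
    rw [coeff_map, eq_intCast]
    push_cast
    congr 2
  rw [h1, Int.cast_ne_zero]
  apply ne_of_gt
  apply Finset.sum_pos
  · intro α hα
    have h2 : 0 < coeff α G * coeff α G := mul_self_pos.2 (mem_support_iff.1 hα)
    have h3 : 0 < (α.prod fun _ k => (k.factorial : ℤ)) :=
      Finset.prod_pos fun x _ => Int.natCast_pos.2 (Nat.factorial_pos _)
    rw [mul_assoc]
    exact mul_pos h3 h2
  · rwa [support_nonempty]

/-- A polynomial `f` in the coordinates of `p` vectors that is multiplied by `det A ^ K` under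
transformations by `A` is, up to a constant, the pairing of `f` with a power of a determinant. -/
theorem exists_pairing {p q : ℕ} (K : ℕ) :
    ∃ c : ℂ, c ≠ 0 ∧ ∀ f : MvPolynomial (Fin p × Fin q) ℂ,
      (∀ (A : Matrix (Fin p) (Fin p) ℂ) (s : Fin p → Fin q → ℂ),
        aeval (fun x : Fin p × Fin q => ∑ b, A x.1 b * s b x.2) f =
          A.det ^ K * aeval (fun x : Fin p × Fin q => s x.1 x.2) f) →
      ∀ s : Fin p → Fin q → ℂ,
        pair ((Matrix.det fun a b => (∑ i, C (s b i) * X (a, i) :
          MvPolynomial (Fin p × Fin q) ℂ)) ^ K) f =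
          c * aeval (fun x : Fin p × Fin q => s x.1 x.2) f := by
  classical
  set Gz : MvPolynomial (Fin p × Fin p) ℤ := (Matrix.det (Matrix.mvPolynomialX (Fin p) (Fin p) ℤ)) ^ K
    with hGz
  have hGz0 : Gz ≠ 0 := pow_ne_zero _ (Matrix.det_mvPolynomialX_ne_zero (Fin p) ℤ)
  set G : MvPolynomial (Fin p × Fin p) ℂ := map (Int.castRingHom ℂ) Gz with hG
  have hG' : G = (Matrix.det (Matrix.mvPolynomialX (Fin p) (Fin p) ℂ)) ^ K := by
    rw [hG, hGz, map_pow, RingHom.map_det]
    congr 2
    refine Matrix.ext fun a b => ?_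
    rw [RingHom.mapMatrix_apply, Matrix.map_apply, Matrix.mvPolynomialX_apply,
      Matrix.mvPolynomialX_apply, map_X]
  refine ⟨pair G G, Pairing_pos hGz0, fun f hf s => ?_⟩
  set L : Fin p × Fin p → Fin p × Fin q → ℂ := fun j k => if k.1 = j.1 then s j.2 k.2 else 0 with hL
  have h1 := Pairing_adj L G f
  have h2 : aeval (fun j => ∑ k, C (L j k) * X k : Fin p × Fin p → MvPolynomial (Fin p × Fin q) ℂ) G =
      (Matrix.det fun a b => (∑ i, C (s b i) * X (a, i) : MvPolynomial (Fin p × Fin q) ℂ)) ^ K := by
    rw [hG', map_pow, AlgHom.map_det]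
    congr 2
    refine Matrix.ext fun a b => ?_
    rw [AlgHom.mapMatrix_apply, Matrix.map_apply, Matrix.mvPolynomialX_apply, aeval_X, Fintype.sum_prod_type, Finset.sum_eq_single a]
    · refine Finset.sum_congr rfl fun i _ => ?_
      rw [hL]
      dsimp only
      rw [if_pos rfl]
    · intro a' _ ha'
      refine Finset.sum_eq_zero fun i _ => ?_
      rw [hL]
      dsimp only
      rw [if_neg ha', C_0, zero_mul]
    · intro h
      exact absurd (Finset.mem_univ _) h
  have h3 : aeval (fun k => ∑ j, C (L j k) * X j : Fin p × Fin q → MvPolynomial (Fin p × Fin p) ℂ) f =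
      C (aeval (fun x : Fin p × Fin q => s x.1 x.2) f) * G := by
    apply MvPolynomial.funext
    intro A
    have h4 := hf (fun a b => A (a, b)) s
    have h5 : eval A (aeval (fun k => ∑ j, C (L j k) * X j :
        Fin p × Fin q → MvPolynomial (Fin p × Fin p) ℂ) f) =
        aeval (fun x : Fin p × Fin q => ∑ b, A (x.1, b) * s b x.2) f := by
      have h6 : eval A (aeval (fun k => ∑ j, C (L j k) * X j :
        Fin p × Fin q → MvPolynomial (Fin p × Fin p) ℂ) f) = aeval A (aeval (fun k => ∑ j, C (L j k) * X j :
        Fin p × Fin q → MvPolynomial (Fin p × Fin p) ℂ) f) := by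
        rw [aeval_eq_eval]
      rw [h6, ← AlgHom.comp_apply, comp_aeval]
      congr 2
      funext x
      rw [map_sum, Fintype.sum_prod_type, Finset.sum_eq_single x.1]
      · refine Finset.sum_congr rfl fun b _ => ?_
        rw [map_mul, aeval_C, aeval_X, hL]
        dsimp only
        rw [if_pos rfl, mul_comm]
        rfl
      · intro a' _ ha'
        refine Finset.sum_eq_zero fun i _ => ?_
        rw [hL]
        dsimp only
        rw [if_neg (Ne.symm ha'), C_0, zero_mul, map_zero]
      · intro h
        exact absurd (Finset.mem_univ _) h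
    have h7 : eval A G = (Matrix.det fun a b => A (a, b)) ^ K := by
      rw [hG', map_pow, RingHom.map_det]
      congr 2
      refine Matrix.ext fun a b => ?_
      rw [RingHom.mapMatrix_apply, Matrix.map_apply, Matrix.mvPolynomialX_apply, eval_X]
    rw [h5, h4, map_mul, eval_C, h7, mul_comm]
  rw [h2, h3, Pairing_C_right, mul_comm] at h1
  exact h1

end Pool.Agent.H39.HC
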