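import Pool.Agent.H39.HC.FormMat
import Pool.Agent.H39.HC.Pairing

/-!
# Existence of good polynomials
-/

open MvPolynomial

noncomputable section

namespace Pool.Agent.H39.HC

variable {ι : Type} {n : ℕ}

section
variable {R : Type*} [CommRing R] {r p : ℕ}

/-- the determinant of the vectors `v b` and the variable vectors -/
private def GoodSharp_d (E : Fin r ⊕ Fin p ≃ Fin (n + 1)) (v : Fin r → Fin (n + 1) → R) :
    MvPolynomial (Fin p × Fin (n + 1)) R :=
  (Matrix.of (Sum.elim (fun b j => C (v b (E j))) (fun l j => X (l, E j))) :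
    Matrix (Fin r ⊕ Fin p) (Fin r ⊕ Fin p) (MvPolynomial (Fin p × Fin (n + 1)) R)).det

private theorem GoodSharp_d_map {S : Type*} [CommRing S] (φ : R →+* S)
    (E : Fin r ⊕ Fin p ≃ Fin (n + 1)) (v : Fin r → Fin (n + 1) → R) :
    MvPolynomial.map φ (GoodSharp_d E v) = GoodSharp_d E (fun b j => φ (v b j)) := by
  unfold GoodSharp_d
  rw [RingHom.map_det]
  congr 1
  ext x y
  rcases x with x | x <;> simp

private theorem GoodSharp_pair_map [Algebra ℂ R] {S σ : Type*} [CommRing S] [Algebra ℂ S]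
    (φ : R →ₐ[ℂ] S) (G : MvPolynomial σ R) (f : MvPolynomial σ ℂ) :
    φ (pair G f) = pair (MvPolynomial.map (φ : R →+* S) G) f := by
  unfold pair
  rw [map_sum]
  refine Finset.sum_congr rfl fun α _ => ?_
  rw [map_smul, coeff_map]
  rfl

private theorem GoodSharp_pair_C [Algebra ℂ R] {σ : Type*} (d : R) (G : MvPolynomial σ R)
    (f : MvPolynomial σ ℂ) : pair (C d * G) f = d * pair G f := by
  unfold pair
  rw [Finset.mul_sum]
  refine Finset.sum_congr rfl fun α _ => ?_
  rw [coeff_C_mul, mul_smul_comm]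

private theorem GoodSharp_pair_zero [Algebra ℂ R] {σ : Type*} (f : MvPolynomial σ ℂ) :
    pair (0 : MvPolynomial σ R) f = 0 := by
  unfold pair
  simp

private theorem GoodSharp_d_det (E : Fin r ⊕ Fin p ≃ Fin (n + 1))
    (A : Matrix (Fin r) (Fin r) R) (v : Fin r → Fin (n + 1) → R) :
    GoodSharp_d E (fun b j => ∑ c, A b c * v c j) = C A.det * GoodSharp_d E v := by
  unfold GoodSharp_d
  have h1 : (Matrix.of (Sum.elim (fun b j => C ((fun b j => ∑ c, A b c * v c j) b (E j)))
      (fun l j => X (l, E j))) :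
      Matrix (Fin r ⊕ Fin p) (Fin r ⊕ Fin p) (MvPolynomial (Fin p × Fin (n + 1)) R)) =
      Matrix.fromBlocks (A.map C) 0 0 1 *
        Matrix.of (Sum.elim (fun b j => C (v b (E j))) (fun l j => X (l, E j))) := by
    ext1 x j
    rw [Matrix.mul_apply, Fintype.sum_sum_type]
    rcases x with x | x
    · simp
    · simp [Matrix.one_apply]
  rw [h1, Matrix.det_mul, Matrix.det_fromBlocks_zero₂₁, Matrix.det_one, mul_one]
  congr 1
  rw [RingHom.map_det]
  rfl

end

/-- a basis of the orthogonal space -/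
private theorem GoodSharp_frame {r p : ℕ} (E : Fin r ⊕ Fin p ≃ Fin (n + 1))
    {u : Fin r → Fin (n + 1) → ℂ} (hu : LinearIndependent ℂ u) :
    ∃ (s : Fin p → Fin (n + 1) → ℂ) (d : ℂ), d ≠ 0 ∧ LinearIndependent ℂ s ∧
      (∀ b l, ∑ k, u b k * s l k = 0) ∧
      (∀ t : Fin (n + 1) → ℂ, (∀ b, ∑ k, u b k * t k = 0) → t ∈ Submodule.span ℂ (Set.range s)) ∧
      C d * GoodSharp_d E u = Matrix.det fun a b => (∑ i, C (s b i) * X (a, i) :
          MvPolynomial (Fin p × Fin (n + 1)) ℂ) := by
  classical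
  set b := Module.Basis.sumExtend hu with hb
  have hbl : ∀ i, b (Sum.inl i) = u i := by
    intro i
    rw [hb]
    unfold Module.Basis.sumExtend
    simp only [Module.Basis.reindex_apply, Module.Basis.extend_apply_self]
    rfl
  have : Finite (Fin r ⊕ Module.Basis.sumExtendIndex hu) := Module.Finite.finite_basis b
  have : Finite (Module.Basis.sumExtendIndex hu) := Finite.of_injective _ (Sum.inr_injective (α := Fin r))
  have := Fintype.ofFinite (Module.Basis.sumExtendIndex hu)
  have hcard : Fintype.card (Module.Basis.sumExtendIndex hu) = p := by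
    have h1 := Module.finrank_eq_card_basis b
    have h2 := Fintype.card_congr E
    simp only [Fintype.card_sum, Fintype.card_fin, Module.finrank_fintype_fun_eq_card] at h1 h2
    omega
  let f : Fin p ≃ Module.Basis.sumExtendIndex hu := (Fintype.equivFinOfCardEq hcard).symm
  let b2 := b.reindex (Equiv.sumCongr (Equiv.refl _) f).symm
  obtain ⟨M, hM⟩ : ∃ M : Matrix (Fin r ⊕ Fin p) (Fin r ⊕ Fin p) ℂ,
      M = Matrix.of fun x j => b2 x (E j) := ⟨_, rfl⟩
  have hMl : ∀ x j, M (Sum.inl x) j = u x (E j) := by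
    intro x j
    rw [hM]
    simp [b2, hbl]
  have hdet : M.det ≠ 0 := by
    have h3 : LinearIndependent ℂ (Matrix.of fun x j => b2 x (E j)).row := by
      have h4 := b2.linearIndependent.map' (LinearEquiv.funCongrLeft ℂ ℂ E).toLinearMap
        (LinearEquiv.ker _)
      exact h4
    have h5 := Matrix.linearIndependent_rows_iff_isUnit.1 h3
    rw [hM]
    exact ((Matrix.isUnit_iff_isUnit_det _).1 h5).ne_zero
  obtain ⟨N, hN⟩ : ∃ N, N = M⁻¹ := ⟨_, rfl⟩
  have hMN : M * N = 1 := by
    rw [hN]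
    exact Matrix.mul_nonsing_inv _ (isUnit_iff_ne_zero.2 hdet)
  have hNM : N * M = 1 := by
    rw [hN]
    exact Matrix.nonsing_inv_mul _ (isUnit_iff_ne_zero.2 hdet)
  have hNdet : N.det ≠ 0 := by
    intro h0
    have := congrArg Matrix.det hMN
    rw [Matrix.det_mul, h0, mul_zero, Matrix.det_one] at this
    exact zero_ne_one this
  have hsum : ∀ (g : Fin (n + 1) → ℂ), ∑ k, g k = ∑ j, g (E j) := fun g =>
    (Equiv.sum_comp E g).symm
  refine ⟨fun l k => N (E.symm k) (Sum.inr l), N.det, hNdet, ?_, ?_, ?_, ?_⟩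
  · rw [Fintype.linearIndependent_iff]
    intro c hc l
    have h1 : N.mulVec (Sum.elim 0 c) = 0 := by
      funext x
      have h2 := congrFun hc (E x)
      rw [Finset.sum_apply] at h2
      simp only [Pi.smul_apply, smul_eq_mul, Equiv.symm_apply_apply, Pi.zero_apply] at h2
      simp only [Matrix.mulVec, dotProduct, Fintype.sum_sum_type, Sum.elim_inl, Sum.elim_inr,
        Pi.zero_apply, mul_zero, Finset.sum_const_zero, zero_add]
      rw [← h2]
      exact Finset.sum_congr rfl fun i _ => mul_comm _ _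
    have h2 : M.mulVec (N.mulVec (Sum.elim 0 c)) = Sum.elim (0 : Fin r → ℂ) c := by
      rw [Matrix.mulVec_mulVec, hMN, Matrix.one_mulVec]
    rw [h1, Matrix.mulVec_zero] at h2
    have := congrFun h2 (Sum.inr l)
    simpa using this.symm
  · intro x l
    have h1 := congrFun (congrFun hMN (Sum.inl x)) (Sum.inr l)
    rw [Matrix.mul_apply] at h1
    rw [hsum]
    simp only [Equiv.symm_apply_apply, ← hMl]
    rw [h1]
    simp
  · intro t ht
    rw [Submodule.mem_span_range_iff_exists_fun]
    refine ⟨fun l => M.mulVec (fun j => t (E j)) (Sum.inr l), ?_⟩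
    funext k
    have h1 : N.mulVec (M.mulVec (fun j => t (E j))) = fun j => t (E j) := by
      rw [Matrix.mulVec_mulVec, hNM, Matrix.one_mulVec]
    have h2 := congrFun h1 (E.symm k)
    simp only [Equiv.apply_symm_apply] at h2
    rw [← h2, Finset.sum_apply]
    conv_rhs => rw [Matrix.mulVec, dotProduct, Fintype.sum_sum_type]
    have h3 : ∀ x, M.mulVec (fun j => t (E j)) (Sum.inl x) = 0 := by
      intro x
      rw [← ht x, hsum]
      simp only [Matrix.mulVec, dotProduct, hMl]
    simp only [h3, mul_zero, Finset.sum_const_zero, zero_add, Pi.smul_apply, smul_eq_mul]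
    exact Finset.sum_congr rfl fun i _ => mul_comm _ _
  · unfold GoodSharp_d
    have h1 : (Matrix.of (Sum.elim (fun b j => C (u b (E j))) (fun l j => X (l, E j))) :
        Matrix (Fin r ⊕ Fin p) (Fin r ⊕ Fin p) (MvPolynomial (Fin p × Fin (n + 1)) ℂ)) *
        N.map C = Matrix.fromBlocks 1 0
          (fun l b => ∑ j, X (l, E j) * C (N j (Sum.inl b)))
          (fun a b => ∑ i, C (N (E.symm i) (Sum.inr b)) * X (a, i)) := by
      ext1 x y
      rw [Matrix.mul_apply]
      rcases x with x | x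
      · have h2 : ∀ j, (Matrix.of (Sum.elim (fun b j => C (u b (E j))) (fun l j => X (l, E j))) :
            Matrix (Fin r ⊕ Fin p) (Fin r ⊕ Fin p) (MvPolynomial (Fin p × Fin (n + 1)) ℂ))
            (Sum.inl x) j * N.map C j y = C (M (Sum.inl x) j * N j y) := by
          intro j
          simp [hMl]
        rw [Finset.sum_congr rfl fun j _ => h2 j, ← map_sum, ← Matrix.mul_apply, hMN]
        rcases y with y | y
        · simp only [Matrix.fromBlocks_apply₁₁, Matrix.one_apply, Sum.inl.injEq]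
          split_ifs <;> simp
        · simp
      · rcases y with y | y
        · simp
        · simp only [Matrix.fromBlocks_apply₂₂, Matrix.of_apply, Sum.elim_inr, Matrix.map_apply]
          rw [← Equiv.sum_comp E (fun i => C (N (E.symm i) (Sum.inr y)) *
            (X (x, i) : MvPolynomial (Fin p × Fin (n + 1)) ℂ))]
          refine Finset.sum_congr rfl fun j _ => ?_
          rw [Equiv.symm_apply_apply, mul_comm]
    have h2 := congrArg Matrix.det h1
    rw [Matrix.det_mul, Matrix.det_fromBlocks_zero₁₂, Matrix.det_one, one_mul] at h2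
    rw [← h2, mul_comm]
    congr 1
    rw [RingHom.map_det]
    rfl

/-- dependent vectors -/
private theorem GoodSharp_dep {r p : ℕ} (E : Fin r ⊕ Fin p ≃ Fin (n + 1))
    {v : Fin r → Fin (n + 1) → ℂ} (hv : ¬ LinearIndependent ℂ v) : GoodSharp_d E v = 0 := by
  classical
  obtain ⟨c, hc, i, hi⟩ := Fintype.not_linearIndependent_iff.1 hv
  unfold GoodSharp_d
  rw [← Matrix.exists_vecMul_eq_zero_iff]
  refine ⟨Sum.elim (fun b => C (c b)) 0, ?_, ?_⟩
  · intro h0
    have := congrFun h0 (Sum.inl i)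
    simp only [Sum.elim_inl, Pi.zero_apply, C_eq_zero] at this
    exact hi this
  · funext j
    have h1 := congrFun hc (E j)
    rw [Finset.sum_apply] at h1
    simp only [Pi.smul_apply, smul_eq_mul, Pi.zero_apply] at h1
    simp only [Matrix.vecMul, dotProduct, Fintype.sum_sum_type, Sum.elim_inl, Sum.elim_inr,
      Pi.zero_apply, zero_mul, Finset.sum_const_zero, add_zero, Matrix.of_apply]
    rw [← C_0, ← h1, map_sum]
    exact Finset.sum_congr rfl fun b _ => by rw [C_mul]

/-- The determinant is a good polynomial in `n + 1` vectors. -/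
private theorem GoodSharp_top {t : ι → Fin (n + 1) → ℂ} (ht : ∀ j, t j ≠ 0)
    {u : Fin (n + 1) → Fin (n + 1) → ℂ} (hu : LinearIndependent ℂ u) :
    ∃ Q : MvPolynomial (Fin (n + 1) × Fin (n + 1)) ℂ, Good t 1 Q ∧ ev u Q ≠ 0 := by
  classical
  have hev : ∀ v : Fin (n + 1) → Fin (n + 1) → ℂ,
      ev v (Matrix.of fun a i => (X (a, i) : MvPolynomial (Fin (n + 1) × Fin (n + 1)) ℂ)).det =
        (Matrix.of v).det := by
    intro v
    rw [AlgHom.map_det]
    congr 1
    ext a i
    simp [ev]
  refine ⟨(Matrix.of fun a i => X (a, i)).det, ⟨?_, ?_⟩, ?_⟩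
  · intro A v
    rw [hev, hev, pow_one, ← Matrix.det_mul]
    congr 1
  · intro j v hv
    rw [hev, ← Matrix.exists_mulVec_eq_zero_iff]
    refine ⟨t j, ht j, ?_⟩
    ext a
    have := hv a
    unfold lin at this
    simp only [Matrix.mulVec, dotProduct, Matrix.of_apply, Pi.zero_apply]
    rw [← this]
    exact Finset.sum_congr rfl fun k _ => by rw [smul_eq_mul, mul_comm]
  · rw [hev]
    have h5 := Matrix.linearIndependent_rows_iff_isUnit.1 (show LinearIndependent ℂ (Matrix.of u).row from hu)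
    exact ((Matrix.isUnit_iff_isUnit_det _).1 h5).ne_zero

/-- Good polynomials in `r` vectors, of the sharp weight, that do not vanish at given vectors. -/
theorem exists_good_sharp [Finite ι] {r e : ℕ} (hr1 : 1 ≤ r) (hr : r ≤ n + 1) (he : 1 ≤ e)
    {t : ι → Fin (n + 1) → ℂ} (ht : ∀ j, t j ≠ 0) (hT : Indep (e - 1) t)
    {u : Fin r → Fin (n + 1) → ℂ} (hu : LinearIndependent ℂ u)
    (hH : ∀ j, ∃ a, lin (t j) (u a) ≠ 0) :
    ∃ Q : MvPolynomial (Fin r × Fin (n + 1)) ℂ, Good t (wtK n e r) Q ∧ ev u Q ≠ 0 := by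
  classical
  rcases Nat.lt_or_ge r (n + 1) with hrn | hrn
  swap
  · obtain rfl : r = n + 1 := le_antisymm hr hrn
    have hw : wtK n e (n + 1) = 1 := by
      unfold wtK
      simp
    rw [hw]
    exact GoodSharp_top ht hu
  obtain ⟨p, hp⟩ : ∃ p, p = n + 1 - r := ⟨_, rfl⟩
  have hp1 : 1 ≤ p := by omega
  obtain ⟨K, hK⟩ : ∃ K, K = (e + p - 1).choose p := ⟨_, rfl⟩
  have hK1 : 1 ≤ K := by
    rw [hK]
    exact Nat.choose_pos (by omega)
  have hw : wtK n e r = K := by
    unfold wtK
    rw [hK, hp]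
    congr 1
    omega
  rw [hw]
  let E : Fin r ⊕ Fin p ≃ Fin (n + 1) := finSumFinEquiv.trans (finCongr (by omega))
  have hlin : ∀ (v x : Fin (n + 1) → ℂ), lin v x = ∑ k, x k * v k := by
    intro v x
    unfold lin
    exact Finset.sum_congr rfl fun k _ => by rw [smul_eq_mul, mul_comm]
  obtain ⟨s, d, hd, hs, hus, -, hds⟩ := GoodSharp_frame E hu
  have hts : ∀ j, t j ∉ Submodule.span ℂ (Set.range s) := by
    intro j hj
    obtain ⟨b, hb⟩ := hH j
    apply hb
    obtain ⟨c, hc⟩ := (Submodule.mem_span_range_iff_exists_fun ℂ).1 hj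
    rw [hlin, ← hc]
    have h1 : ∑ k, u b k * (∑ l, c l • s l) k = ∑ l, c l * ∑ k, u b k * s l k := by
      simp only [Finset.sum_apply, Pi.smul_apply, smul_eq_mul, Finset.mul_sum]
      rw [Finset.sum_comm]
      refine Finset.sum_congr rfl fun l _ => Finset.sum_congr rfl fun k _ => ?_
      ring
    rw [h1]
    exact Finset.sum_eq_zero fun l _ => by rw [hus, mul_zero]
  obtain ⟨g, hg1, hg2, hg3⟩ := exists_det_formMat_ne_zero hp1 he hT hs hts
  obtain ⟨c, hc0, hc⟩ := exists_pairing (p := p) (q := n + 1) K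
  have hcf := hc (formMat g).det (fun A s' => by
    rw [hK]
    exact det_formMat_mul hp1 hg1 A s')
  -- the pairing with the determinant of a frame
  have key : ∀ (v : Fin r → Fin (n + 1) → ℂ) (s' : Fin p → Fin (n + 1) → ℂ) (d' : ℂ),
      C d' * GoodSharp_d E v = (Matrix.det fun a b => (∑ i, C (s' b i) * X (a, i) :
          MvPolynomial (Fin p × Fin (n + 1)) ℂ)) →
      d' ^ K * pair (GoodSharp_d E v ^ K) (formMat g).det =
        c * ev s' (formMat g).det := by
    intro v s' d' h
    rw [← GoodSharp_pair_C, C_pow, ← mul_pow, h]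
    exact hcf s'
  have hev : ∀ v : Fin r → Fin (n + 1) → ℂ,
      ev v (pair (GoodSharp_d E (fun b j => (X (b, j) : MvPolynomial (Fin r × Fin (n + 1)) ℂ)) ^ K)
        (formMat g).det) = pair (GoodSharp_d E v ^ K) (formMat g).det := by
    intro v
    rw [GoodSharp_pair_map, map_pow, GoodSharp_d_map]
    congr 3
    funext b j
    simp [ev]
  refine ⟨pair (GoodSharp_d E (fun b j => X (b, j)) ^ K) (formMat g).det, ⟨?_, ?_⟩, ?_⟩
  · intro A v
    rw [hev, hev, GoodSharp_d_det, mul_pow, ← C_pow, GoodSharp_pair_C]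
  · intro j v hv
    rw [hev]
    by_cases hvi : LinearIndependent ℂ v
    · obtain ⟨s', d', hd', hs', -, hsp, hds'⟩ := GoodSharp_frame E hvi
      have h1 := key v s' d' hds'
      rw [det_formMat_eq_zero he hg1 (ht j) (fun β => hg2 β j)
        (hsp (t j) fun b => by rw [← hlin]; exact hv b), mul_zero] at h1
      exact (mul_eq_zero.1 h1).resolve_left (pow_ne_zero _ hd')
    · rw [GoodSharp_dep E hvi, zero_pow (by omega), GoodSharp_pair_zero]
  · rw [hev]
    intro h0
    have h1 := key u s d hds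
    rw [h0, mul_zero] at h1
    exact mul_ne_zero hc0 hg3 h1.symm

end Pool.Agent.H39.HC
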