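import Pool.Agent.H39.HC.Lift
import Pool.Agent.H92.GGL.NevIneq

/-!
# Growth of the ratios of linear forms at a puncture
-/

open MvPolynomial Topology Filter

noncomputable section

namespace Pool.Agent.H39.HC

open Pool.Agent.H92.GGL (ordZ indN indN_zero indN_of_ne exists_params growth_of_weights ordZ_div
  isPreconnected_punctured)

theorem Growth_mero {σ : Type*} {c : σ → ℂ → ℂ} {z : ℂ} (hc : ∀ p, MeromorphicAt (c p) z)
    (Q : MvPolynomial σ ℂ) : MeromorphicAt (fun w => aeval (fun p => c p w) Q) z := by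
  induction Q using MvPolynomial.induction_on with
  | C a =>
    simp only [aeval_C]
    exact MeromorphicAt.const _ z
  | add p q hp hq =>
    simp only [map_add]
    exact hp.fun_add hq
  | mul_X p i hp =>
    simp only [map_mul, aeval_X]
    exact hp.fun_mul (hc i)

theorem Growth_an {σ : Type*} {c : σ → ℂ → ℂ} {z : ℂ} (hc : ∀ p, AnalyticAt ℂ (c p) z)
    (Q : MvPolynomial σ ℂ) : AnalyticAt ℂ (fun w => aeval (fun p => c p w) Q) z := by
  induction Q using MvPolynomial.induction_on with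
  | C a =>
    simp only [aeval_C]
    exact analyticAt_const
  | add p q hp hq =>
    simp only [map_add]
    exact hp.fun_add hq
  | mul_X p i hp =>
    simp only [map_mul, aeval_X]
    exact hp.fun_mul (hc i)

section

variable {ι J : Type} [Fintype ι] {n : ℕ}
  {t : ι → Fin (n + 1) → ℂ} {s : J → Fin (n + 1) → ℂ} {θ : ι → ℝ} {u : ι → ℂ → ℂ} {i₀ : ι}
  {z : ℂ} {ψ : ℂ → Fin (n + 1) → ℂ}

theorem LocalLift.lin_an (h : LocalLift t s θ u i₀ z ψ) (i : ι) :
    AnalyticAt ℂ (fun w => lin (t i) (ψ w)) z :=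
  Lift_lin_an (fun l => Lift_comp_an h.an l) (t i)

theorem LocalLift.meromorphicAt (h : LocalLift t s θ u i₀ z ψ) (i : ι) :
    MeromorphicAt (u i) z := by
  refine ((h.lin_an i).meromorphicAt.div (h.lin_an i₀).meromorphicAt).congr ?_
  filter_upwards [mem_nhdsWithin_of_mem_nhds h.quot] with w hw
  exact (hw i).symm

theorem LocalLift.order_ne_top (h : LocalLift t s θ u i₀ z ψ) (i : ι) :
    meromorphicOrderAt (u i) z ≠ ⊤ := by
  rw [meromorphicOrderAt_ne_top_iff_eventually_ne_zero (h.meromorphicAt i)]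
  filter_upwards [mem_nhdsWithin_of_mem_nhds h.quot, h.ne i, h.ne i₀] with w hw h1 h2
  rw [hw i]
  exact div_ne_zero h1 h2

theorem LocalLift.ordZ_eq (h : LocalLift t s θ u i₀ z ψ) (i : ι) :
    ordZ (u i) z = (analyticOrderNatAt (fun w => lin (t i) (ψ w)) z : ℤ) -
      analyticOrderNatAt (fun w => lin (t i₀) (ψ w)) z := by
  refine ordZ_div (h.lin_an i) (h.lin_an i₀) (h.ne i) (h.ne i₀) ?_
  filter_upwards [mem_nhdsWithin_of_mem_nhds h.quot] with w hw
  exact hw i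

end

variable {ι J : Type} [Fintype ι] [Fintype J] [DecidableEq ι] {n K : ℕ}
  {t : ι → Fin (n + 1) → ℂ} {s : J → Fin (n + 1) → ℂ} {θ : ι → ℝ} {u : ι → ℂ → ℂ} {i₀ : ι}
  {Q : MvPolynomial (Fin 2 × Fin (n + 1)) ℂ}

/-- **The core theorem** (compare `H92.GGL.growth_core`). -/
theorem growth_core (hgp : GenPos (Sum.elim t s))
    (hcs : n + 1 ≤ Fintype.card ι + Fintype.card J) (hQ : Good t K Q) (hK : 1 ≤ K)
    (hθ0 : ∀ i, 0 ≤ θ i) (hnum : ∑ i, θ i + 2 * K < Fintype.card ι) {R₀ : ℝ} (hR₀ : 0 < R₀)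
    (hone : ∀ z, u i₀ z ≠ 0 → u i₀ z = 1)
    (hloc : ∀ z, 0 < ‖z‖ → ‖z‖ < R₀ → ∃ ψ, LocalLift t s θ u i₀ z ψ)
    {z₀ : ℂ} (hz₀ : 0 < ‖z₀‖) (hz₀' : ‖z₀‖ < R₀) {ψ₀ : ℂ → Fin (n + 1) → ℂ}
    (hψ₀ : LocalLift t s θ u i₀ z₀ ψ₀) (hi₀ : lin (t i₀) (ψ₀ z₀) ≠ 0)
    (hQ₀ : ev ![ψ₀ z₀, fun l => deriv (fun z => ψ₀ z l) z₀] Q ≠ 0) (j : ι) :
    ∃ (ε M : ℝ) (m : ℕ), 0 < ε ∧ 0 ≤ M ∧ ∀ z, 0 < ‖z‖ → ‖z‖ < ε →
      0 ≤ meromorphicOrderAt (u j) z ∧ (AnalyticAt ℂ (u j) z → ‖u j z‖ * ‖z‖ ^ m ≤ M) := by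
  classical
  have hne : Nonempty ι := ⟨i₀⟩
  have hsumθ : 0 ≤ ∑ i, θ i := Finset.sum_nonneg fun i _ => hθ0 i
  have h2K : 2 * K < Fintype.card ι := by
    have : (2 * K : ℝ) < Fintype.card ι := by linarith
    exact_mod_cast this
  obtain ⟨b, hb⟩ := exists_leftInverse hgp hcs
  obtain ⟨κ, α, hκ0, hκ2, hα, hhom⟩ := exists_params (Nat.cast_nonneg K) hnum
  obtain ⟨C₀, hC₀, hbd⟩ := good_weight_bound (t := t) (s := s) hgp hcs hQ hK hκ0 hκ2 hθ0 hhom
    h2K.le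
  set F : ℂ → Fin (n + 1) → ℂ := fun z l => ∑ i, b l i * u i z with hF
  set g : ℂ → ℂ := fun z => ev ![F z, fun l => deriv (fun w => F w l) z] Q with hg
  -- the normalised coordinates near a point with a lift
  have hFψ : ∀ (z : ℂ) (ψ : ℂ → Fin (n + 1) → ℂ), LocalLift t s θ u i₀ z ψ →
      ∀ᶠ w in 𝓝 z, ∀ l, F w l = ψ w l / lin (t i₀) (ψ w) := by
    intro z ψ hψ
    filter_upwards [hψ.quot, hψ.van] with w h1 h2 l
    rw [hb (ψ w) h2 l, Finset.sum_div]
    simp only [hF]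
    refine Finset.sum_congr rfl fun i _ => ?_
    rw [h1 i]
    ring
  have hFψ' : ∀ (z : ℂ) (ψ : ℂ → Fin (n + 1) → ℂ), LocalLift t s θ u i₀ z ψ →
      ∀ᶠ w in 𝓝[≠] z, ∀ l, F w l = ψ w l / lin (t i₀) (ψ w) := fun z ψ hψ =>
    mem_nhdsWithin_of_mem_nhds (hFψ z ψ hψ)
  -- meromorphy
  have hum : ∀ i z, 0 < ‖z‖ → ‖z‖ < R₀ → MeromorphicAt (u i) z := by
    intro i z h1 h2
    obtain ⟨ψ, hψ⟩ := hloc z h1 h2
    exact hψ.meromorphicAt i
  have huo : ∀ i z, 0 < ‖z‖ → ‖z‖ < R₀ → meromorphicOrderAt (u i) z ≠ ⊤ := by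
    intro i z h1 h2
    obtain ⟨ψ, hψ⟩ := hloc z h1 h2
    exact hψ.order_ne_top i
  have hgm : ∀ z, 0 < ‖z‖ → ‖z‖ < R₀ → MeromorphicAt g z := by
    intro z h1 h2
    have hFm : ∀ l, MeromorphicAt (fun w => F w l) z := fun l =>
      MeromorphicAt.fun_sum fun i _ => (MeromorphicAt.const _ z).mul (hum i z h1 h2)
    refine Growth_mero (c := fun (p : Fin 2 × Fin (n + 1)) w =>
      (![F w, fun l => deriv (fun w => F w l) w] : Fin 2 → Fin (n + 1) → ℂ) p.1 p.2) ?_ Q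
    rintro ⟨a, l⟩
    fin_cases a
    · exact hFm l
    · exact (hFm l).deriv
  -- `g` does not vanish identically
  have hgo : ∀ z, 0 < ‖z‖ → ‖z‖ < R₀ → meromorphicOrderAt g z ≠ ⊤ := by
    intro z h1 h2
    have hm : MeromorphicOn g {z : ℂ | 0 < ‖z‖ ∧ ‖z‖ < R₀} := fun w hw => hgm w hw.1 hw.2
    refine hm.meromorphicOrderAt_ne_top_of_isPreconnected (isPreconnected_punctured R₀)
      (x := z₀) ⟨hz₀, hz₀'⟩ ⟨h1, h2⟩ ?_
    intro htop
    rw [meromorphicOrderAt_eq_top_iff] at htop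
    have hRan : AnalyticAt ℂ (fun z => ev ![ψ₀ z, fun l => deriv (fun w => ψ₀ w l) z] Q) z₀ := by
      refine Growth_an (c := fun (p : Fin 2 × Fin (n + 1)) w =>
        (![ψ₀ w, fun l => deriv (fun w => ψ₀ w l) w] : Fin 2 → Fin (n + 1) → ℂ) p.1 p.2) ?_ Q
      rintro ⟨a, l⟩
      fin_cases a
      · exact Lift_comp_an hψ₀.an l
      · exact (Lift_comp_an hψ₀.an l).deriv
    have hres' : ∀ᶠ z in 𝓝[≠] z₀, ev ![ψ₀ z, fun l => deriv (fun w => ψ₀ w l) z] Q = 0 := by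
      filter_upwards [htop, hψ₀.ev_eq hQ (hFψ' z₀ ψ₀ hψ₀)] with w hw1 hw2
      have h3 : ev ![F w, fun l => deriv (fun w => F w l) w] Q = 0 := hw1
      rw [h3, zero_mul] at hw2
      exact hw2.symm
    rcases hRan.eventually_eq_zero_or_eventually_ne_zero with h | h
    · exact hQ₀ h.self_of_nhds
    · obtain ⟨w, hw1, hw2⟩ := (hres'.and h).exists
      exact hw2 hw1
  refine growth_of_weights (β := fun i => (2 - κ) * (1 - θ i)) (ρ := K) (g := g) (u := u)
    (i₀ := i₀) hκ0 hα hK hR₀ hum huo hgm hgo hone hC₀ ?_ ?_ j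
  · -- the pointwise bound
    intro z h1 h2 hz
    have hFan : ∀ l, AnalyticAt ℂ (fun w => F w l) z := fun l =>
      Finset.analyticAt_fun_sum _ fun i _ => analyticAt_const.mul (hz i).1
    have hgan : AnalyticAt ℂ g z := by
      refine Growth_an (c := fun (p : Fin 2 × Fin (n + 1)) w =>
        (![F w, fun l => deriv (fun w => F w l) w] : Fin 2 → Fin (n + 1) → ℂ) p.1 p.2) ?_ Q
      rintro ⟨a, l⟩
      fin_cases a
      · exact hFan l
      · exact (hFan l).deriv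
    refine ⟨hgan, ?_⟩
    obtain ⟨ψ, hψ⟩ := hloc z h1 h2
    have hlinF : ∀ᶠ w in 𝓝 z, ∀ v : Fin (n + 1) → ℂ,
        lin v (F w) = lin v (ψ w) / lin (t i₀) (ψ w) := by
      filter_upwards [hFψ z ψ hψ] with w hw v
      have h3 : F w = fun l => ψ w l / lin (t i₀) (ψ w) := funext hw
      rw [h3, Lift_lin_div]
    have hsF : ∀ᶠ w in 𝓝 z, ∀ j, lin (s j) (F w) = 0 := by
      filter_upwards [hlinF, hψ.van] with w h3 h4 j
      rw [h3, h4, zero_div]
    have htF : ∀ᶠ w in 𝓝 z, ∀ i, lin (t i) (F w) = u i w := by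
      filter_upwards [hlinF, hψ.quot] with w h3 h4 i
      rw [h3, h4]
    refine hbd (F z) (fun l => deriv (fun w => F w l) z) u g z hsF.self_of_nhds ?_
      htF.self_of_nhds ?_ rfl (fun i => (hz i).2)
    · intro j
      rw [← Lift_lin_deriv hFan (s j)]
      have h3 : (fun w => lin (s j) (F w)) =ᶠ[𝓝 z] fun _ => (0 : ℂ) := by
        filter_upwards [hsF] with w hw
        exact hw j
      rw [h3.deriv_eq, deriv_const]
    · intro i
      rw [← Lift_lin_deriv hFan (t i)]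
      have h3 : (fun w => lin (t i) (F w)) =ᶠ[𝓝 z] u i := by
        filter_upwards [htF] with w hw
        exact hw i
      rw [h3.deriv_eq]
  · -- the local condition
    intro z h1 h2 j'
    obtain ⟨ψ, hψ⟩ := hloc z h1 h2
    set o : ι → ℕ := fun i => analyticOrderNatAt (fun w => lin (t i) (ψ w)) z with ho
    have h3 := hψ.ordZ_good hgp hQ (hFψ' z ψ hψ) (g := g) (Eventually.of_forall fun _ => rfl)
      (hgm z h1 h2) (hgo z h1 h2)
    have h4 : ((∑ i, (o i - 1) : ℕ) : ℝ) - 2 * K * o i₀ ≤ ordZ g z := by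
      have : (((∑ i, (o i - 1) : ℕ) : ℤ) - ((2 * K * o i₀ : ℕ) : ℤ) : ℝ) ≤ ordZ g z := by
        exact_mod_cast h3
      push_cast at this ⊢
      exact this
    have hu : ∀ i, (ordZ (u i) z : ℝ) = o i - o i₀ := by
      intro i
      rw [hψ.ordZ_eq i]
      push_cast
      rfl
    have e1 : ((∑ i, (o i - 1) : ℕ) : ℝ) = ∑ i, (o i : ℝ) - ∑ i, indN (o i) := by
      rw [Nat.cast_sum, ← Finset.sum_sub_distrib]
      refine Finset.sum_congr rfl fun i _ => ?_
      rcases Nat.eq_zero_or_pos (o i) with h | h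
      · rw [h, indN_zero]
        simp
      · rw [indN_of_ne h.ne', Nat.cast_sub h]
        simp
    have e2 : ∑ i, indN (o i) ≤ ∑ i, (o i : ℝ) := by
      refine Finset.sum_le_sum fun i _ => ?_
      rcases Nat.eq_zero_or_pos (o i) with h | h
      · rw [h, indN_zero]
        simp
      · rw [indN_of_ne h.ne']
        exact_mod_cast h
    have e3 : ∑ i, (2 - κ) * (1 - θ i) * (ordZ (u i) z : ℝ) =
        (2 - κ) * (∑ i, (o i : ℝ) - ∑ i, θ i * o i) -
          (2 - κ) * (Fintype.card ι - ∑ i, θ i) * o i₀ := by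
      have h5 : ∀ i, (2 - κ) * (1 - θ i) * (ordZ (u i) z : ℝ) =
          (2 - κ) * o i - (2 - κ) * (θ i * o i) - ((2 - κ) * o i₀ * 1 - (2 - κ) * o i₀ * θ i) := by
        intro i
        rw [hu i]
        ring
      rw [Finset.sum_congr rfl fun i _ => h5 i, Finset.sum_sub_distrib, Finset.sum_sub_distrib,
        Finset.sum_sub_distrib, ← Finset.mul_sum, ← Finset.mul_sum, ← Finset.mul_sum,
        ← Finset.mul_sum, Finset.sum_const, Finset.card_univ, nsmul_eq_mul]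
      ring
    have h6 : ∑ i, indN (o i) ≤ ∑ i, θ i * o i := hψ.orb
    rw [e3, hu j', ← hhom]
    rw [e1] at h4
    have h7 : 0 ≤ κ * α * (o j' : ℝ) := by positivity
    have h8 : 0 < 2 - κ := by linarith
    have h9 := mul_le_mul_of_nonneg_left h6 h8.le
    have h10 := mul_le_mul_of_nonneg_left e2 hκ0.le
    nlinarith

end Pool.Agent.H39.HC
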