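import Pool.Agent.H39.HC.Defs

/-!
# Good polynomials over algebras, and the ideals generated by linear forms
-/

open MvPolynomial

noncomputable section

namespace Pool.Agent.H39.HC

variable {ι : Type} {n r K : ℕ} {t : ι → Fin (n + 1) → ℂ}
  {Q : MvPolynomial (Fin r × Fin (n + 1)) ℂ}

private theorem Ideal_map_ev {R S : Type*} [CommRing R] [Algebra ℂ R] [CommRing S] [Algebra ℂ S]
    (φ : R →ₐ[ℂ] S) (u : Fin r → Fin (n + 1) → R) (Q : MvPolynomial (Fin r × Fin (n + 1)) ℂ) :
    φ (ev u Q) = ev (fun a i => φ (u a i)) Q :=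
  MvPolynomial.comp_aeval_apply _ φ Q

private theorem Ideal_eval {σ : Type*} (p : σ → ℂ) (q : MvPolynomial σ ℂ) :
    eval p q = (aeval p : MvPolynomial σ ℂ →ₐ[ℂ] ℂ) q :=
  (DFunLike.congr_fun (MvPolynomial.coe_aeval_eq_eval p) q).symm

private theorem Ideal_det_map {R S : Type*} [CommRing R] [Algebra ℂ R] [CommRing S] [Algebra ℂ S]
    (φ : R →ₐ[ℂ] S) (A : Matrix (Fin r) (Fin r) R) (u : Fin r → Fin (n + 1) → R) :
    φ (ev (fun a i => ∑ b, A a b * u b i) Q) =
        ev (fun a i => ∑ b, φ (A a b) * φ (u b i)) Q ∧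
      φ (A.det ^ K * ev u Q) =
        (Matrix.of fun a b => φ (A a b)).det ^ K * ev (fun a i => φ (u a i)) Q := by
  constructor
  · rw [Ideal_map_ev]
    congr 2
    funext a i
    rw [map_sum]
    exact Finset.sum_congr rfl fun b _ => map_mul _ _ _
  · rw [map_mul, map_pow, Ideal_map_ev, AlgHom.map_det]
    rfl

private theorem Ideal_generic (hQ : Good t K Q) :
    ev (fun a i => ∑ b, (X (Sum.inl (a, b)) : MvPolynomial ((Fin r × Fin r) ⊕
      (Fin r × Fin (n + 1))) ℂ) * X (Sum.inr (b, i))) Q =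
      (Matrix.of fun a b => (X (Sum.inl (a, b)) : MvPolynomial ((Fin r × Fin r) ⊕
      (Fin r × Fin (n + 1))) ℂ)).det ^ K * ev (fun b i => X (Sum.inr (b, i))) Q := by
  refine MvPolynomial.funext fun p => ?_
  have h := hQ.det (Matrix.of fun a b => p (Sum.inl (a, b))) fun b i => p (Sum.inr (b, i))
  obtain ⟨h1, h2⟩ := Ideal_det_map (Q := Q) (K := K) (aeval p : MvPolynomial ((Fin r × Fin r) ⊕
      (Fin r × Fin (n + 1))) ℂ →ₐ[ℂ] ℂ) (Matrix.of fun a b => X (Sum.inl (a, b)))
      (fun b i => X (Sum.inr (b, i)))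
  simp only [Matrix.of_apply, aeval_X] at h h1 h2
  rw [Ideal_eval, Ideal_eval, h1, h2]
  exact h

/-- The transformation rule over any algebra. -/
theorem Good.det_ring (hQ : Good t K Q) {R : Type*} [CommRing R] [Algebra ℂ R]
    (A : Matrix (Fin r) (Fin r) R) (u : Fin r → Fin (n + 1) → R) :
    ev (fun a i => ∑ b, A a b * u b i) Q = A.det ^ K * ev u Q := by
  have h := congrArg (aeval (Sum.elim (fun p => A p.1 p.2) fun p => u p.1 p.2) :
    MvPolynomial ((Fin r × Fin r) ⊕ (Fin r × Fin (n + 1))) ℂ →ₐ[ℂ] R) (Ideal_generic hQ)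
  obtain ⟨h1, h2⟩ := Ideal_det_map (Q := Q) (K := K)
    (aeval (Sum.elim (fun p => A p.1 p.2) fun p => u p.1 p.2) : MvPolynomial ((Fin r × Fin r) ⊕
      (Fin r × Fin (n + 1))) ℂ →ₐ[ℂ] R) (Matrix.of fun a b => X (Sum.inl (a, b)))
      (fun b i => X (Sum.inr (b, i)))
  simp only [Matrix.of_apply, aeval_X, Sum.elim_inl, Sum.elim_inr] at h1 h2
  rw [h1, h2] at h
  exact h

private theorem Ideal_exists_coords {B : Type} [Finite B] {s : B → Fin (n + 1) → ℂ}
    (hs : LinearIndependent ℂ s) :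
    ∃ (G H : Matrix (Fin (n + 1)) (Fin (n + 1)) ℂ) (f : B → Fin (n + 1)), G * H = 1 ∧ H * G = 1 ∧
      Function.Injective f ∧ ∀ j, G (f j) = s j := by
  classical
  have hs' := hs.linearIndepOn_id
  set bs := Module.Basis.extend hs' with hbs
  set e := bs.indexEquiv (Pi.basisFun ℂ (Fin (n + 1))) with he
  set bs' := bs.reindex e with hbs'
  set Mm := (Pi.basisFun ℂ (Fin (n + 1))).toMatrix bs' with hMm
  set Nn := bs'.toMatrix (Pi.basisFun ℂ (Fin (n + 1))) with hNn
  have h1 : Mm * Nn = 1 := Module.Basis.toMatrix_mul_toMatrix_flip _ _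
  have h2 : Nn * Mm = 1 := Module.Basis.toMatrix_mul_toMatrix_flip _ _
  have hmem : ∀ j, s j ∈ hs'.extend (Set.subset_univ _) := fun j =>
    hs'.subset_extend _ ⟨j, rfl⟩
  refine ⟨Mm.transpose, Nn.transpose, fun j => e ⟨s j, hmem j⟩, ?_, ?_, ?_, ?_⟩
  · rw [← Matrix.transpose_mul, h2, Matrix.transpose_one]
  · rw [← Matrix.transpose_mul, h1, Matrix.transpose_one]
  · intro j j' hj
    exact hs.injective (congrArg Subtype.val (e.injective hj))
  · intro j
    funext l
    rw [Matrix.transpose_apply, hMm, Module.Basis.toMatrix_apply, Pi.basisFun_repr, hbs',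
      Module.Basis.reindex_apply, Equiv.symm_apply_apply, hbs, Module.Basis.coe_extend]

/-- Substitution of the coordinates. -/
private def Ideal_sub (G : Matrix (Fin (n + 1)) (Fin (n + 1)) ℂ) :
    MvPolynomial (Fin r × Fin (n + 1)) ℂ →ₐ[ℂ] MvPolynomial (Fin r × Fin (n + 1)) ℂ :=
  aeval fun p => linX (G p.2) p.1

private theorem Ideal_ev_sub {R : Type*} [CommRing R] [Algebra ℂ R]
    (G : Matrix (Fin (n + 1)) (Fin (n + 1)) ℂ) (u : Fin r → Fin (n + 1) → R)
    (Q : MvPolynomial (Fin r × Fin (n + 1)) ℂ) :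
    ev u (Ideal_sub G Q) = ev (fun a i => lin (G i) (u a)) Q := by
  have h : (ev u).comp (Ideal_sub G) = ev (fun a i => lin (G i) (u a)) := by
    refine MvPolynomial.algHom_ext fun p => ?_
    rw [AlgHom.comp_apply, Ideal_sub, aeval_X, ev, ev, aeval_X]
    unfold linX lin
    rw [map_sum]
    refine Finset.sum_congr rfl fun i _ => ?_
    rw [map_mul, aeval_X, algHom_C, Algebra.smul_def]
  exact congrArg (fun φ => φ Q) h

private theorem Ideal_lin_lin {R : Type*} [CommRing R] [Algebra ℂ R]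
    {G H : Matrix (Fin (n + 1)) (Fin (n + 1)) ℂ} (h : H * G = 1) (x : Fin (n + 1) → R)
    (i : Fin (n + 1)) : lin (H i) (fun l => lin (G l) x) = x i := by
  unfold lin
  have e1 : ∀ l, H i l • ∑ m, G l m • x m = ∑ m, (H i l * G l m) • x m := by
    intro l
    rw [Finset.smul_sum]
    exact Finset.sum_congr rfl fun m _ => smul_smul _ _ _
  have e2 : ∀ m, ∑ l, (H i l * G l m) • x m = (H * G) i m • x m := by
    intro m
    rw [← Finset.sum_smul, Matrix.mul_apply]
  rw [Finset.sum_congr rfl fun l _ => e1 l, Finset.sum_comm,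
    Finset.sum_congr rfl fun m _ => e2 m, h, Finset.sum_eq_single i]
  · rw [Matrix.one_apply_eq, one_smul]
  · intro b _ hb
    rw [Matrix.one_apply_ne (Ne.symm hb), zero_smul]
  · intro hb
    exact absurd (Finset.mem_univ _) hb

private theorem Ideal_ev_X (Q : MvPolynomial (Fin r × Fin (n + 1)) ℂ) :
    ev (fun a i => X (a, i)) Q = Q := by
  have : (ev fun a i => X (a, i)) = AlgHom.id ℂ (MvPolynomial (Fin r × Fin (n + 1)) ℂ) := by
    refine MvPolynomial.algHom_ext fun p => ?_
    rw [AlgHom.id_apply, ev, aeval_X]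
  exact congrArg (fun φ => φ Q) this

private theorem Ideal_lin_X (v : Fin (n + 1) → ℂ) (a : Fin r) :
    lin v (fun i => (X (a, i) : MvPolynomial (Fin r × Fin (n + 1)) ℂ)) = linX v a := by
  unfold lin linX
  exact Finset.sum_congr rfl fun i _ => by rw [MvPolynomial.smul_eq_C_mul]

private theorem Ideal_sub_sub {G H : Matrix (Fin (n + 1)) (Fin (n + 1)) ℂ} (h : H * G = 1)
    (Q : MvPolynomial (Fin r × Fin (n + 1)) ℂ) : Ideal_sub G (Ideal_sub H Q) = Q := by
  rw [← Ideal_ev_X (Ideal_sub G (Ideal_sub H Q)), Ideal_ev_sub, Ideal_ev_sub]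
  conv_rhs => rw [← Ideal_ev_X Q]
  congr 2
  funext a i
  exact Ideal_lin_lin h _ i

/-- A polynomial vanishing where some variables vanish lies in the ideal of these variables. -/
private theorem Ideal_mem_span {σ : Type} {s : Set σ} {q : MvPolynomial σ ℂ}
    (h : ∀ p : σ → ℂ, (∀ i ∈ s, p i = 0) → eval p q = 0) :
    ∀ m ∈ q.support, ∃ i ∈ s, (m : σ →₀ ℕ) i ≠ 0 := by
  classical
  rw [← MvPolynomial.mem_ideal_span_X_image]
  set ψ : MvPolynomial σ ℂ →ₐ[ℂ] MvPolynomial σ ℂ := aeval fun i => if i ∈ s then 0 else X i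
    with hψ
  set I := Ideal.span (MvPolynomial.X '' s : Set (MvPolynomial σ ℂ)) with hI
  have h1 : (Ideal.Quotient.mkₐ ℂ I).comp ψ = Ideal.Quotient.mkₐ ℂ I := by
    refine MvPolynomial.algHom_ext fun i => ?_
    rw [AlgHom.comp_apply, hψ, aeval_X]
    split_ifs with hi
    · rw [map_zero]
      symm
      rw [Ideal.Quotient.mkₐ_eq_mk, Ideal.Quotient.eq_zero_iff_mem]
      exact Ideal.subset_span ⟨i, hi, rfl⟩
    · rfl
  have h2 : ψ q = 0 := by
    refine MvPolynomial.funext fun p => ?_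
    rw [map_zero, ← h (fun i => if i ∈ s then 0 else p i) fun i hi => if_pos hi, Ideal_eval,
      Ideal_eval, hψ, MvPolynomial.comp_aeval_apply]
    have e2 : (fun i => (aeval p : MvPolynomial σ ℂ →ₐ[ℂ] ℂ) (if i ∈ s then 0 else X i)) =
        fun i => if i ∈ s then 0 else p i := by
      funext i
      split_ifs with hi
      · rw [map_zero]
      · rw [aeval_X]
    rw [e2]
  have h3 := congrArg (fun φ => φ q) h1
  simp only [AlgHom.comp_apply] at h3
  rw [h2, map_zero] at h3
  have h4 : Ideal.Quotient.mkₐ ℂ I q = 0 := h3.symm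
  rw [Ideal.Quotient.mkₐ_eq_mk, Ideal.Quotient.eq_zero_iff_mem] at h4
  exact h4

private theorem Ideal_decomp {B : Type} [Fintype B] [DecidableEq B]
    {f : B → Fin (n + 1)} (hf : Function.Injective f) {q : MvPolynomial (Fin r × Fin (n + 1)) ℂ}
    (h : ∀ m ∈ q.support, ∀ j : B, ∃ a : Fin r, (m : Fin r × Fin (n + 1) →₀ ℕ) (a, f j) ≠ 0) :
    ∃ R : (B → Fin r) → MvPolynomial (Fin r × Fin (n + 1)) ℂ,
      q = ∑ σ, (∏ j : B, X (σ j, f j)) * R σ := by
  classical
  have h' : ∀ m ∈ q.support, ∃ σ : B → Fin r, ∀ j,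
      (m : Fin r × Fin (n + 1) →₀ ℕ) (σ j, f j) ≠ 0 := fun m hm =>
    ⟨fun j => (h m hm j).choose, fun j => (h m hm j).choose_spec⟩
  rcases Finset.eq_empty_or_nonempty q.support with hq | ⟨m₀, hm₀⟩
  · refine ⟨fun _ => 0, ?_⟩
    rw [MvPolynomial.support_eq_empty] at hq
    rw [hq]
    simp
  have : Nonempty (B → Fin r) := ⟨(h' m₀ hm₀).choose⟩
  choose! τ hτ using h'
  refine ⟨fun σ => ∑ m ∈ q.support with τ m = σ,
    monomial (m - ∑ j : B, Finsupp.single (σ j, f j) 1) (coeff m q), ?_⟩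
  have e1 : ∀ σ : B → Fin r, (∏ j : B, X (σ j, f j)) *
      (∑ m ∈ q.support with τ m = σ,
        monomial (m - ∑ j : B, Finsupp.single (σ j, f j) 1) (coeff m q)) =
      ∑ m ∈ q.support with τ m = σ, monomial m (coeff m q) := by
    intro σ
    rw [Finset.mul_sum]
    refine Finset.sum_congr rfl fun m hm => ?_
    obtain ⟨hm1, hm2⟩ := Finset.mem_filter.1 hm
    have e2 : (∏ j : B, X (σ j, f j) : MvPolynomial (Fin r × Fin (n + 1)) ℂ) =
        monomial (∑ j : B, Finsupp.single (σ j, f j) 1) 1 := by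
      rw [MvPolynomial.monomial_sum_one]
      rfl
    have e3 : ∑ j : B, Finsupp.single (σ j, f j) 1 ≤ m := by
      intro p
      rw [Finsupp.finsetSum_apply]
      by_cases hp : ∃ j, (σ j, f j) = p
      · obtain ⟨j, hj⟩ := hp
        rw [Finset.sum_eq_single j]
        · rw [hj, Finsupp.single_eq_same]
          have := hτ m hm1 j
          rw [hm2, hj] at this
          omega
        · intro j' _ hj'
          refine Finsupp.single_eq_of_ne ?_
          intro h0
          have : f j' = f j := by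
            rw [← hj] at h0
            exact (congrArg Prod.snd h0).symm
          exact hj' (hf this)
        · intro hb
          exact absurd (Finset.mem_univ _) hb
      · push Not at hp
        rw [Finset.sum_eq_zero fun j _ => Finsupp.single_eq_of_ne (hp j).symm]
        exact Nat.zero_le _
    rw [e2, MvPolynomial.monomial_mul, one_mul, add_tsub_cancel_of_le e3]
  simp only [e1]
  rw [Finset.sum_fiberwise, MvPolynomial.support_sum_monomial_coeff]

/-- A good polynomial lies in the product of the ideals generated by the values of independent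
linear forms. -/
theorem Good.exists_decomp [DecidableEq ι] (hQ : Good t K Q) {B : Finset ι}
    (hB : LinearIndependent ℂ fun j : B => t j) :
    ∃ R : (B → Fin r) → MvPolynomial (Fin r × Fin (n + 1)) ℂ,
      Q = ∑ σ, (∏ j : B, linX (t j) (σ j)) * R σ := by
  classical
  obtain ⟨G, H, f, hGH, hHG, hf, hGf⟩ := Ideal_exists_coords hB
  have hvan : ∀ m ∈ (Ideal_sub H Q).support, ∀ j : B, ∃ a : Fin r,
      (m : Fin r × Fin (n + 1) →₀ ℕ) (a, f j) ≠ 0 := by
    intro m hm j
    have h := Ideal_mem_span (s := Set.range fun a : Fin r => (a, f j))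
      (q := Ideal_sub H Q) (fun p hp => ?_) m hm
    · obtain ⟨_, ⟨a, rfl⟩, ha⟩ := h
      exact ⟨a, ha⟩
    · have e1 : eval p (Ideal_sub H Q) = ev (fun a i => p (a, i)) (Ideal_sub H Q) :=
        Ideal_eval p _
      rw [e1, Ideal_ev_sub]
      refine hQ.van j _ fun a => ?_
      rw [← hGf j, Ideal_lin_lin hGH]
      exact hp (a, f j) ⟨a, rfl⟩
  obtain ⟨R, hR⟩ := Ideal_decomp hf hvan
  refine ⟨fun σ => Ideal_sub G (R σ), ?_⟩
  have h := congrArg (Ideal_sub G) hR
  rw [Ideal_sub_sub hHG, map_sum] at h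
  rw [h]
  refine Finset.sum_congr rfl fun σ _ => ?_
  rw [map_mul, map_prod]
  congr 1
  refine Finset.prod_congr rfl fun j _ => ?_
  rw [Ideal_sub, aeval_X, hGf]

end Pool.Agent.H39.HC
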