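import Pool.Agent.H39.HC.GoodBound
import Pool.Agent.H92.GGL.PicardPrep
import Pool.Agent.H92.GGL.CoverRigid

/-!
# Local lifts of holomorphic maps, and the order of a good polynomial
-/

open MvPolynomial Topology Filter
open Pool.Agent.H92.GGL (ordZ indN)

noncomputable section

namespace Pool.Agent.H39.HC

/-- Local holomorphic homogeneous coordinates `ψ` with the ratios `u i` of the values of the linear
forms `t i`; the linear forms `s j` vanish identically. -/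
structure LocalLift {ι J : Type} [Fintype ι] {n : ℕ} (t : ι → Fin (n + 1) → ℂ)
    (s : J → Fin (n + 1) → ℂ) (θ : ι → ℝ) (u : ι → ℂ → ℂ) (i₀ : ι) (z₀ : ℂ)
    (ψ : ℂ → Fin (n + 1) → ℂ) : Prop where
  an : AnalyticAt ℂ ψ z₀
  ne : ∀ i, ∀ᶠ z in 𝓝[≠] z₀, lin (t i) (ψ z) ≠ 0
  quot : ∀ᶠ z in 𝓝 z₀, ∀ i, u i z = lin (t i) (ψ z) / lin (t i₀) (ψ z)
  van : ∀ᶠ z in 𝓝 z₀, ∀ j, lin (s j) (ψ z) = 0
  ne0 : ψ z₀ ≠ 0
  orb : ∑ i, indN (analyticOrderNatAt (fun z => lin (t i) (ψ z)) z₀) ≤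
    ∑ i, θ i * analyticOrderNatAt (fun z => lin (t i) (ψ z)) z₀

variable {ι J : Type} [Fintype ι] [Fintype J] {n K : ℕ} {t : ι → Fin (n + 1) → ℂ}
  {s : J → Fin (n + 1) → ℂ} {θ : ι → ℝ} {u : ι → ℂ → ℂ} {i₀ : ι} {z₀ : ℂ}
  {ψ : ℂ → Fin (n + 1) → ℂ} {Q : MvPolynomial (Fin 2 × Fin (n + 1)) ℂ}

/-- A left inverse of the values of the linear forms. -/
theorem exists_leftInverse (hgp : GenPos (Sum.elim t s))
    (hcs : n + 1 ≤ Fintype.card ι + Fintype.card J) :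
    ∃ b : Fin (n + 1) → ι → ℂ, ∀ p : Fin (n + 1) → ℂ, (∀ j, lin (s j) p = 0) →
      ∀ l, p l = ∑ i, b l i * lin (t i) p := by
  obtain ⟨b, -, hb⟩ := GoodBound_leftInv hgp Finset.univ (by rw [Finset.card_univ]; exact hcs)
  exact ⟨b, hb⟩

theorem Lift_comp_an {φ : ℂ → Fin (n + 1) → ℂ} {z : ℂ} (h : AnalyticAt ℂ φ z) (l : Fin (n + 1)) :
    AnalyticAt ℂ (fun w => φ w l) z :=
  analyticAt_pi_iff.mp h l

theorem Lift_lin_an {φ : ℂ → Fin (n + 1) → ℂ} {z : ℂ} (h : ∀ l, AnalyticAt ℂ (fun w => φ w l) z)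
    (v : Fin (n + 1) → ℂ) : AnalyticAt ℂ (fun w => lin v (φ w)) z := by
  simp only [GoodBound_lin]
  exact Finset.analyticAt_fun_sum _ fun l _ => analyticAt_const.mul (h l)

theorem Lift_lin_deriv {φ : ℂ → Fin (n + 1) → ℂ} {z : ℂ}
    (h : ∀ l, AnalyticAt ℂ (fun w => φ w l) z) (v : Fin (n + 1) → ℂ) :
    deriv (fun w => lin v (φ w)) z = lin v (fun l => deriv (fun w => φ w l) z) := by
  simp only [GoodBound_lin]
  have h1 : HasDerivAt (fun w => ∑ l, v l * φ w l)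
      (∑ l, v l * deriv (fun w => φ w l) z) z := by
    refine HasDerivAt.fun_sum fun l _ => ?_
    exact (h l).differentiableAt.hasDerivAt.const_mul _
  exact h1.deriv

theorem Lift_lin_div (v p : Fin (n + 1) → ℂ) (d : ℂ) :
    lin v (fun l => p l / d) = lin v p / d := by
  rw [GoodBound_lin, GoodBound_lin, Finset.sum_div]
  refine Finset.sum_congr rfl fun l _ => ?_
  ring

theorem Lift_indep (hgp : GenPos (Sum.elim t s)) (I : Finset ι) (hI : I.card ≤ n + 1) :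
    LinearIndependent ℂ (fun j : I => t j) := by
  classical
  have h1 := hgp (I.map ⟨Sum.inl, Sum.inl_injective⟩) (by rw [Finset.card_map]; omega)
  let f : I → (I.map (⟨Sum.inl, Sum.inl_injective⟩ : ι ↪ ι ⊕ J) : Finset (ι ⊕ J)) :=
    fun j => ⟨Sum.inl (j : ι), Finset.mem_map_of_mem _ j.2⟩
  have hf : Function.Injective f := by
    intro j k hjk
    have h2 : (Sum.inl (j : ι) : ι ⊕ J) = Sum.inl (k : ι) := congrArg Subtype.val hjk
    exact Subtype.ext (Sum.inl_injective h2)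
  exact h1.comp f hf

/-- An eventual property in a punctured neighbourhood holds in neighbourhoods of nearby points. -/
theorem Lift_ev {p : ℂ → Prop} (h : ∀ᶠ z in 𝓝[≠] z₀, p z) :
    ∀ᶠ z in 𝓝[≠] z₀, ∀ᶠ w in 𝓝 z, p w := by
  have h1 := eventually_eventually_nhdsWithin.mpr h
  filter_upwards [h1, self_mem_nhdsWithin] with z h2 h3
  rwa [isOpen_compl_singleton.nhdsWithin_eq h3] at h2

/-- The values of a good polynomial for the normalised coordinates and for the lift. -/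
theorem LocalLift.ev_eq (h : LocalLift t s θ u i₀ z₀ ψ) (hQ : Good t K Q)
    {F : ℂ → Fin (n + 1) → ℂ}
    (hF : ∀ᶠ z in 𝓝[≠] z₀, ∀ l, F z l = ψ z l / lin (t i₀) (ψ z)) :
    ∀ᶠ z in 𝓝[≠] z₀, ev ![F z, fun l => deriv (fun w => F w l) z] Q *
      lin (t i₀) (ψ z) ^ (2 * K) = ev ![ψ z, fun l => deriv (fun w => ψ w l) z] Q := by
  filter_upwards [h.ne i₀, Lift_ev hF, mem_nhdsWithin_of_mem_nhds h.an.eventually_analyticAt]
    with z hz hFz han
  have hc : ∀ l, AnalyticAt ℂ (fun w => ψ w l) z := fun l => Lift_comp_an han l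
  have hd : AnalyticAt ℂ (fun w => lin (t i₀) (ψ w)) z := Lift_lin_an hc _
  set d : ℂ := lin (t i₀) (ψ z) with hdd
  set d' : ℂ := deriv (fun w => lin (t i₀) (ψ w)) z with hdd'
  have h1 := hQ.det !![d⁻¹, 0; -(d' / d ^ 2), d⁻¹] ![ψ z, fun l => deriv (fun w => ψ w l) z]
  have e1 : (fun (a : Fin 2) i => ∑ b, (!![d⁻¹, 0; -(d' / d ^ 2), d⁻¹] :
      Matrix (Fin 2) (Fin 2) ℂ) a b * (![ψ z, fun l => deriv (fun w => ψ w l) z] :
        Fin 2 → Fin (n + 1) → ℂ) b i) = ![F z, fun l => deriv (fun w => F w l) z] := by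
    funext a l
    fin_cases a
    · show ∑ b, (!![d⁻¹, 0; -(d' / d ^ 2), d⁻¹] : Matrix (Fin 2) (Fin 2) ℂ) 0 b *
        (![ψ z, fun l => deriv (fun w => ψ w l) z] : Fin 2 → Fin (n + 1) → ℂ) b l = F z l
      rw [Fin.sum_univ_two, hFz.self_of_nhds l]
      simp
      rw [← hdd]
      field_simp
    · show ∑ b, (!![d⁻¹, 0; -(d' / d ^ 2), d⁻¹] : Matrix (Fin 2) (Fin 2) ℂ) 1 b *
        (![ψ z, fun l => deriv (fun w => ψ w l) z] : Fin 2 → Fin (n + 1) → ℂ) b l =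
          deriv (fun w => F w l) z
      have h2 : (fun w => F w l) =ᶠ[𝓝 z] fun w => ψ w l / lin (t i₀) (ψ w) := by
        filter_upwards [hFz] with w hw
        exact hw l
      rw [h2.deriv_eq, ((hc l).differentiableAt.hasDerivAt.fun_div
        hd.differentiableAt.hasDerivAt hz).deriv, Fin.sum_univ_two]
      simp
      rw [← hdd, ← hdd']
      field_simp
      ring
  rw [e1, Matrix.det_fin_two_of] at h1
  rw [h1]
  have h3 : (d⁻¹ * d⁻¹ - 0 * -(d' / d ^ 2)) ^ K * d ^ (2 * K) = 1 := by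
    rw [zero_mul, sub_zero, ← sq, ← pow_mul, ← mul_pow, inv_mul_cancel₀ hz, one_pow]
  calc (d⁻¹ * d⁻¹ - 0 * -(d' / d ^ 2)) ^ K *
        ev ![ψ z, fun l => deriv (fun w => ψ w l) z] Q * d ^ (2 * K)
      = ((d⁻¹ * d⁻¹ - 0 * -(d' / d ^ 2)) ^ K * d ^ (2 * K)) *
        ev ![ψ z, fun l => deriv (fun w => ψ w l) z] Q := by ring
    _ = _ := by rw [h3, one_mul]

/-- A function with a zero of order `o` and its derivative. -/
theorem Lift_bound {f v : ℂ → ℂ} {o : ℕ} (hf : AnalyticAt ℂ f z₀) (hv : AnalyticAt ℂ v z₀)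
    (hfv : ∀ᶠ z in 𝓝 z₀, f z = (z - z₀) ^ o * v z) :
    ∃ A : ℝ, 1 ≤ A ∧ ∀ᶠ z in 𝓝 z₀, ‖f z‖ ≤ A * ‖z - z₀‖ ^ (o - 1) ∧
      ‖deriv f z‖ ≤ A * ‖z - z₀‖ ^ (o - 1) := by
  obtain ⟨B₁, hB₁, hB₁'⟩ := Pool.Agent.H92.GGL.exists_bound_near hv.continuousAt
  obtain ⟨B₂, hB₂, hB₂'⟩ := Pool.Agent.H92.GGL.exists_bound_near hv.deriv.continuousAt
  obtain ⟨B₃, hB₃, hB₃'⟩ := Pool.Agent.H92.GGL.exists_bound_near hf.deriv.continuousAt
  refine ⟨B₃ + o * B₁ + B₂ + B₁, by nlinarith [Nat.cast_nonneg (α := ℝ) o], ?_⟩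
  have hball : ∀ᶠ z in 𝓝 z₀, ‖z - z₀‖ ≤ 1 := by
    have : ∀ᶠ z in 𝓝 z₀, z ∈ Metric.closedBall z₀ 1 := Metric.closedBall_mem_nhds z₀ one_pos
    filter_upwards [this] with z hz
    rwa [mem_closedBall_iff_norm] at hz
  have hev : f =ᶠ[𝓝 z₀] fun z => (z - z₀) ^ o * v z := hfv
  filter_upwards [hev, hev.deriv, hB₁', hB₂', hB₃', hball, hv.eventually_analyticAt]
    with z h1 h2 h3 h4 h5 h6 h7
  have hnn := norm_nonneg (z - z₀)
  have hoi : (0 : ℝ) ≤ o := Nat.cast_nonneg _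
  have hpw : 0 ≤ ‖z - z₀‖ ^ (o - 1) := by positivity
  constructor
  · rw [h1, norm_mul, norm_pow]
    have h8 : ‖z - z₀‖ ^ o ≤ ‖z - z₀‖ ^ (o - 1) :=
      pow_le_pow_of_le_one hnn h6 (by omega)
    calc ‖z - z₀‖ ^ o * ‖v z‖ ≤ ‖z - z₀‖ ^ (o - 1) * B₁ := by gcongr
      _ = B₁ * ‖z - z₀‖ ^ (o - 1) := by ring
      _ ≤ _ := by
        gcongr
        nlinarith
  · rcases Nat.eq_zero_or_pos o with h0 | hpos
    · rw [h0]
      simp only [zero_le, Nat.sub_eq_zero_of_le, pow_zero, mul_one, Nat.cast_zero, zero_mul,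
        add_zero]
      linarith
    · obtain ⟨m, hm⟩ : ∃ m, o = m + 1 := ⟨o - 1, by omega⟩
      rw [h2]
      have h9 : HasDerivAt (fun z => (z - z₀) ^ o) (((m + 1 : ℕ) : ℂ) * (z - z₀) ^ m) z := by
        rw [hm]
        have := ((hasDerivAt_id z).sub_const z₀).fun_pow (m + 1)
        simpa using this
      have h10 := (h9.fun_mul h7.differentiableAt.hasDerivAt).deriv
      rw [h10, hm]
      simp only [Nat.add_sub_cancel]
      have h11 : ‖((m + 1 : ℕ) : ℂ) * (z - z₀) ^ m * v z‖ ≤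
          ((m + 1 : ℕ) : ℝ) * B₁ * ‖z - z₀‖ ^ m := by
        rw [norm_mul, norm_mul, norm_pow, Complex.norm_natCast]
        calc ((m + 1 : ℕ) : ℝ) * ‖z - z₀‖ ^ m * ‖v z‖ ≤
            ((m + 1 : ℕ) : ℝ) * ‖z - z₀‖ ^ m * B₁ := by gcongr
          _ = _ := by ring
      have h12 : ‖(z - z₀) ^ (m + 1) * deriv v z‖ ≤ B₂ * ‖z - z₀‖ ^ m := by
        rw [norm_mul, norm_pow]
        calc ‖z - z₀‖ ^ (m + 1) * ‖deriv v z‖ ≤ ‖z - z₀‖ ^ m * B₂ := by
              gcongr ?_ * ?_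
              exact pow_le_pow_of_le_one hnn h6 (by omega)
          _ = _ := by ring
      refine (norm_add_le _ _).trans ((add_le_add h11 h12).trans ?_)
      have hpm : 0 ≤ ‖z - z₀‖ ^ m := by positivity
      nlinarith

/-- The orders of the values of the linear forms are finite. -/
theorem LocalLift.order_eq (h : LocalLift t s θ u i₀ z₀ ψ) (i : ι) :
    (analyticOrderNatAt (fun z => lin (t i) (ψ z)) z₀ : ℕ∞) =
      analyticOrderAt (fun z => lin (t i) (ψ z)) z₀ := by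
  apply Nat.cast_analyticOrderNatAt
  rw [Ne, analyticOrderAt_eq_top]
  intro hcon
  obtain ⟨z, h1, h2⟩ := ((h.ne i).and (mem_nhdsWithin_of_mem_nhds hcon)).exists
  exact h1 h2

/-- At most `n` of the values vanish. -/
theorem LocalLift.card_le [DecidableEq ι] (h : LocalLift t s θ u i₀ z₀ ψ)
    (hgp : GenPos (Sum.elim t s)) :
    (Finset.univ.filter fun i => analyticOrderNatAt (fun z => lin (t i) (ψ z)) z₀ ≠ 0).card
      ≤ n := by
  by_contra hcon
  push Not at hcon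
  obtain ⟨b, hb0, hb⟩ := GoodBound_leftInv hgp
    (Finset.univ.filter fun i => analyticOrderNatAt (fun z => lin (t i) (ψ z)) z₀ ≠ 0) (by omega)
  apply h.ne0
  funext l
  rw [hb (ψ z₀) h.van.self_of_nhds l, Pi.zero_apply]
  refine Finset.sum_eq_zero fun i _ => ?_
  by_cases hi : analyticOrderNatAt (fun z => lin (t i) (ψ z)) z₀ ≠ 0
  · have h1 : lin (t i) (ψ z₀) = 0 := by
      by_contra h2
      apply hi
      have h3 := (Lift_lin_an (fun l => Lift_comp_an h.an l) (t i)).analyticOrderAt_eq_zero.mpr h2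
      unfold analyticOrderNatAt
      rw [h3]
      rfl
    rw [h1, mul_zero]
  · rw [hb0 l i (fun h1 => hi (Finset.mem_filter.mp h1).2), zero_mul]

/-- **The order of a good polynomial** (compare `H92.GGL.LocalLift.ordZ_resultant`).  Here
`F = ψ / lin (t i₀) ψ` are the normalised coordinates. -/
theorem LocalLift.ordZ_good [DecidableEq ι] (h : LocalLift t s θ u i₀ z₀ ψ)
    (hgp : GenPos (Sum.elim t s)) (hQ : Good t K Q) {F : ℂ → Fin (n + 1) → ℂ}
    (hF : ∀ᶠ z in 𝓝[≠] z₀, ∀ l, F z l = ψ z l / lin (t i₀) (ψ z)) {g : ℂ → ℂ}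
    (hg : ∀ᶠ z in 𝓝[≠] z₀, g z = ev ![F z, fun l => deriv (fun w => F w l) z] Q)
    (hgm : MeromorphicAt g z₀) (hgo : meromorphicOrderAt g z₀ ≠ ⊤) :
    ((∑ i, (analyticOrderNatAt (fun z => lin (t i) (ψ z)) z₀ - 1) : ℕ) : ℤ) -
      ((2 * K * analyticOrderNatAt (fun z => lin (t i₀) (ψ z)) z₀ : ℕ) : ℤ) ≤ ordZ g z₀ := by
  classical
  set o : ι → ℕ := fun i => analyticOrderNatAt (fun z => lin (t i) (ψ z)) z₀ with ho
  have hcomp : ∀ l, AnalyticAt ℂ (fun w => ψ w l) z₀ := fun l => Lift_comp_an h.an l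
  have hfan : ∀ i, AnalyticAt ℂ (fun z => lin (t i) (ψ z)) z₀ := fun i => Lift_lin_an hcomp _
  have hdec : ∀ i, ∃ v : ℂ → ℂ, AnalyticAt ℂ v z₀ ∧ v z₀ ≠ 0 ∧
      ∀ᶠ z in 𝓝 z₀, lin (t i) (ψ z) = (z - z₀) ^ o i * v z := by
    intro i
    have h1 := (h.order_eq i).symm
    rw [(hfan i).analyticOrderAt_eq_natCast] at h1
    exact h1
  choose v hv hv0 hψv using hdec
  choose A hA1 hA using fun i => Lift_bound (hfan i) (hv i) (hψv i)
  set B : Finset ι := Finset.univ.filter fun i => o i ≠ 0 with hB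
  have hBcard : B.card ≤ n := h.card_le hgp
  have hBli : LinearIndependent ℂ (fun j : B => t j) := Lift_indep hgp B (by omega)
  obtain ⟨C, hC0, hC⟩ := hQ.norm_bound hBli
  -- a bound for the coordinates
  choose R hR1 hR using fun l => Pool.Agent.H92.GGL.exists_bound_near (hcomp l).continuousAt
  choose R' hR1' hR' using fun l =>
    Pool.Agent.H92.GGL.exists_bound_near (hcomp l).deriv.continuousAt
  set S : ℝ := 1 + ∑ l, (R l + R' l) with hS
  have hRsum : 0 ≤ ∑ l, (R l + R' l) :=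
    Finset.sum_nonneg fun l _ => by linarith [hR1 l, hR1' l]
  have hS0 : 0 < S := by linarith
  have hRS : ∀ l, R l ≤ S ∧ R' l ≤ S := by
    intro l
    have h1 : R l + R' l ≤ ∑ l, (R l + R' l) :=
      Finset.single_le_sum (f := fun l => R l + R' l)
        (fun l _ => by linarith [hR1 l, hR1' l]) (Finset.mem_univ l)
    constructor <;> linarith [hR1 l, hR1' l]
  have hbound : ∀ᶠ z in 𝓝[≠] z₀, ‖ev ![ψ z, fun l => deriv (fun w => ψ w l) z] Q‖ ≤
      S ^ (2 * K) * (C * ∏ i ∈ B, (S⁻¹ * A i)) * ‖z - z₀‖ ^ (∑ i, (o i - 1)) := by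
    filter_upwards [mem_nhdsWithin_of_mem_nhds (eventually_all.mpr hA),
      mem_nhdsWithin_of_mem_nhds (eventually_all.mpr hR),
      mem_nhdsWithin_of_mem_nhds (eventually_all.mpr hR'),
      mem_nhdsWithin_of_mem_nhds h.an.eventually_analyticAt] with z h1 h2 h3 h4
    set p : Fin (n + 1) → ℂ := ψ z with hp
    set p' : Fin (n + 1) → ℂ := fun l => deriv (fun w => ψ w l) z with hp'
    have hlin' : ∀ i, lin (t i) p' = deriv (fun w => lin (t i) (ψ w)) z := fun i =>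
      (Lift_lin_deriv (fun l => Lift_comp_an h4 l) (t i)).symm
    have hlinscale : ∀ (v : Fin (n + 1) → ℂ) (q : Fin (n + 1) → ℂ) (a : ℂ),
        lin v (fun l => a * q l) = a * lin v q := by
      intro v q a
      rw [GoodBound_lin, GoodBound_lin, Finset.mul_sum]
      refine Finset.sum_congr rfl fun i _ => ?_
      ring
    have hnorm : ‖((S⁻¹ : ℝ) : ℂ)‖ = S⁻¹ := by
      rw [Complex.norm_real, Real.norm_of_nonneg (by positivity)]
    have h5 := hC ![fun l => ((S⁻¹ : ℝ) : ℂ) * p l, fun l => ((S⁻¹ : ℝ) : ℂ) * p' l]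
      (fun i => S⁻¹ * A i * ‖z - z₀‖ ^ (o i - 1)) (by
        intro a l
        fin_cases a
        · show ‖((S⁻¹ : ℝ) : ℂ) * p l‖ ≤ 1
          rw [norm_mul, hnorm, inv_mul_le_iff₀ hS0, mul_one]
          exact (h2 l).trans (hRS l).1
        · show ‖((S⁻¹ : ℝ) : ℂ) * p' l‖ ≤ 1
          rw [norm_mul, hnorm, inv_mul_le_iff₀ hS0, mul_one]
          exact (h3 l).trans (hRS l).2) (by
        intro j _ a
        fin_cases a
        · show ‖lin (t j) (fun l => ((S⁻¹ : ℝ) : ℂ) * p l)‖ ≤ _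
          rw [hlinscale, norm_mul, hnorm, mul_assoc]
          gcongr
          exact (h1 j).1
        · show ‖lin (t j) (fun l => ((S⁻¹ : ℝ) : ℂ) * p' l)‖ ≤ _
          rw [hlinscale, norm_mul, hnorm, mul_assoc, hlin']
          gcongr
          exact (h1 j).2) (fun j _ => by
        have := hA1 j
        positivity)
    have h6 := GoodBound_scale hQ (fun l => ((S⁻¹ : ℝ) : ℂ) * p l)
      (fun l => ((S⁻¹ : ℝ) : ℂ) * p' l) (S : ℂ) (S : ℂ)
    have h7 : (![fun l => (S : ℂ) * (((S⁻¹ : ℝ) : ℂ) * p l),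
        fun l => (S : ℂ) * (((S⁻¹ : ℝ) : ℂ) * p' l)] : Fin 2 → Fin (n + 1) → ℂ) = ![p, p'] := by
      have h8 : ∀ z : ℂ, (S : ℂ) * (((S⁻¹ : ℝ) : ℂ) * z) = z := by
        intro z
        rw [← mul_assoc, ← Complex.ofReal_mul, mul_inv_cancel₀ hS0.ne', Complex.ofReal_one,
          one_mul]
      congr 1
      · funext l
        exact h8 _
      · congr 1
        funext l
        exact h8 _
    rw [h7] at h6
    rw [h6, norm_mul, norm_pow, norm_mul, Complex.norm_real, Real.norm_of_nonneg hS0.le, ← sq,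
      ← pow_mul]
    have h9 : ∏ i ∈ B, (S⁻¹ * A i * ‖z - z₀‖ ^ (o i - 1)) =
        (∏ i ∈ B, (S⁻¹ * A i)) * ‖z - z₀‖ ^ (∑ i, (o i - 1)) := by
      rw [Finset.prod_mul_distrib, Finset.prod_pow_eq_pow_sum]
      congr 2
      refine Finset.sum_subset (Finset.subset_univ _) fun i _ hi => ?_
      have : o i = 0 := by
        by_contra h
        exact hi (Finset.mem_filter.mpr ⟨Finset.mem_univ i, h⟩)
      omega
    rw [h9] at h5
    calc S ^ (2 * K) * ‖ev ![fun l => ((S⁻¹ : ℝ) : ℂ) * p l,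
          fun l => ((S⁻¹ : ℝ) : ℂ) * p' l] Q‖
        ≤ S ^ (2 * K) * (C * ((∏ i ∈ B, (S⁻¹ * A i)) * ‖z - z₀‖ ^ (∑ i, (o i - 1)))) := by
          gcongr
      _ = _ := by ring
  refine Pool.Agent.H92.GGL.le_ordZ_of_bound (h := fun z => v i₀ z ^ (2 * K))
    (B := S ^ (2 * K) * (C * ∏ i ∈ B, (S⁻¹ * A i))) hgm hgo ((hv i₀).pow _)
    (pow_ne_zero _ (hv0 i₀)) ?_
  filter_upwards [hbound, h.ev_eq hQ hF, mem_nhdsWithin_of_mem_nhds (hψv i₀), hg]
    with z h1 h2 h3 h4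
  have h5 : (z - z₀) ^ (2 * K * o i₀) * v i₀ z ^ (2 * K) = lin (t i₀) (ψ z) ^ (2 * K) := by
    rw [h3, mul_pow, ← pow_mul, mul_comm (2 * K)]
  rw [h5, ← norm_mul, h4, h2]
  exact h1

end Pool.Agent.H39.HC
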