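import Pool.Agent.H39.HC.OrbCore

/-!
# The big Picard theorem for maps with multiplicities
-/

open MvPolynomial Topology Filter
open Pool.Agent.H17 (PN HolomorphicInto puncturedDisc)
open Pool.Agent.H5.DG (MeetsWithMult)

noncomputable section

namespace Pool.Agent.H39.HC

/-! ### Linear maps of projective spaces -/

private theorem Orb_lin_smul {n : ℕ} (v : Fin (n + 1) → ℂ) (c : ℂ) (x : Fin (n + 1) → ℂ) :
    lin v (c • x) = c * lin v x := by
  unfold lin
  rw [Finset.mul_sum]
  refine Finset.sum_congr rfl fun i _ => ?_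
  rw [Pi.smul_apply, smul_eq_mul, smul_eq_mul, smul_eq_mul]
  ring

private theorem Orb_lin_dot {n : ℕ} (v x : Fin (n + 1) → ℂ) : lin v x = ∑ a, v a * x a := rfl

private theorem Orb_lin_an {n : ℕ} (v : Fin (n + 1) → ℂ) {φ : ℂ → Fin (n + 1) → ℂ} {s : ℂ}
    (hφ : AnalyticAt ℂ φ s) : AnalyticAt ℂ (fun z => lin v (φ z)) s := by
  have h : AnalyticAt ℂ (fun z => ∑ a, v a * φ z a) s :=
    Finset.analyticAt_fun_sum _ fun a _ => analyticAt_const.fun_mul (analyticAt_pi_iff.mp hφ a)
  exact h

/-- the map of projective spaces given by a matrix -/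
private def Orb_map {n n' : ℕ} (M : Fin (n' + 1) → Fin (n + 1) → ℂ) (x : PN n) : PN n' := by
  classical
  exact if h : (fun l => lin (M l) x.rep) ≠ 0 then Projectivization.mk ℂ _ h
    else Projectivization.mk ℂ (fun _ => 1) fun h => one_ne_zero (congrFun h 0)

private theorem Orb_map_mk {n n' : ℕ} (M : Fin (n' + 1) → Fin (n + 1) → ℂ)
    {v : Fin (n + 1) → ℂ} (hv : v ≠ 0) (h : (fun l => lin (M l) v) ≠ 0) :
    Orb_map M (Projectivization.mk ℂ v hv) = Projectivization.mk ℂ _ h := by
  obtain ⟨a, ha, h1⟩ := Pool.Agent.H17.exists_smul_rep v hv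
  have h2 : (fun l => lin (M l) (Projectivization.mk ℂ v hv).rep) =
      a • fun l => lin (M l) v := by
    funext l
    rw [h1]
    exact Orb_lin_smul (M l) a v
  have h3 : (fun l => lin (M l) (Projectivization.mk ℂ v hv).rep) ≠ 0 := by
    rw [h2]
    exact smul_ne_zero ha h
  unfold Orb_map
  rw [dif_pos h3, Projectivization.mk_eq_mk_iff']
  exact ⟨a, h2.symm⟩

/-- the matrix does not vanish on the representative iff it does not vanish on the vector -/
private theorem Orb_ne {n n' : ℕ} (M : Fin (n' + 1) → Fin (n + 1) → ℂ)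
    {v : Fin (n + 1) → ℂ} (hv : v ≠ 0)
    (h : (fun l => lin (M l) (Projectivization.mk ℂ v hv).rep) ≠ 0) :
    (fun l => lin (M l) v) ≠ 0 := by
  obtain ⟨a, ha, h1⟩ := Pool.Agent.H17.exists_smul_rep v hv
  intro h0
  apply h
  funext l
  rw [h1, Orb_lin_smul, show lin (M l) v = 0 from congrFun h0 l, mul_zero]
  rfl

private theorem Orb_holo {n n' : ℕ} (M : Fin (n' + 1) → Fin (n + 1) → ℂ) {f : ℂ → PN n}
    {U : Set ℂ} (hU : IsOpen U) (hf : HolomorphicInto f U)
    (h : ∀ z ∈ U, (fun l => lin (M l) (f z).rep) ≠ 0) :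
    HolomorphicInto (fun z => Orb_map M (f z)) U := by
  intro s hs
  obtain ⟨φ, hφ, he⟩ := hf s hs
  refine ⟨fun z l => lin (M l) (φ z), ?_, ?_⟩
  · rw [analyticAt_pi_iff]
    exact fun l => Orb_lin_an (M l) hφ
  · filter_upwards [he, hU.mem_nhds hs] with z hz hzU
    obtain ⟨h1, h2⟩ := hz
    have h3 := h z hzU
    rw [h2] at h3
    have h4 := Orb_ne M h1 h3
    refine ⟨h4, ?_⟩
    rw [h2]
    exact Orb_map_mk M h1 h4

private theorem Orb_isOpen : IsOpen puncturedDisc :=
  Metric.isOpen_ball.sdiff isClosed_singleton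

/-- **Big Picard theorem.**  A holomorphic map from the punctured disc to `ℙ^n` which meets the
hyperplanes `lin (t j) = 0` with multiplicities at least `q` extends. -/
theorem orb_ext {ι : Type} [Fintype ι] {n q b : ℕ} (hn : 1 ≤ n) (hq : 2 ≤ q)
    (hb : n * (q + 1) < b * (q - 1)) {t : ι → Fin (n + 1) → ℂ} (ht : GenPos t)
    (hs : Spans b t) {f : ℂ → PN n} (hf : HolomorphicInto f puncturedDisc)
    (hm : ∀ j, MeetsWithMult q (t j) f puncturedDisc) :
    ∃ g : ℂ → PN n, HolomorphicInto g (Metric.ball 0 1) ∧ ∀ z ∈ puncturedDisc, g z = f z := by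
  classical
  have hb1 : 1 ≤ b := by
    by_contra hcon
    have h1 : b = 0 := by omega
    rw [h1, zero_mul] at hb
    exact Nat.not_lt_zero _ hb
  -- the hyperplanes which contain the image
  obtain ⟨J, hJmem⟩ : ∃ J : Finset ι, ∀ j, j ∈ J ↔
      ∀ s ∈ puncturedDisc, lin (t j) (f s).rep = 0 :=
    ⟨Finset.univ.filter fun j => ∀ s ∈ puncturedDisc, lin (t j) (f s).rep = 0, fun j => by
      rw [Finset.mem_filter]
      exact ⟨fun h => h.2, fun h => ⟨Finset.mem_univ _, h⟩⟩⟩
  have hz₁ : (1 / 2 : ℂ) ∈ puncturedDisc := by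
    refine ⟨?_, ?_⟩
    · rw [mem_ball_zero_iff]
      norm_num
    · rw [Set.mem_singleton_iff]
      norm_num
  have hJ : ∃ x : Fin (n + 1) → ℂ, x ≠ 0 ∧ ∀ j ∈ J, lin (t j) x = 0 :=
    ⟨(f (1 / 2)).rep, (f (1 / 2)).rep_nonzero, fun j hj => (hJmem j).mp hj _ hz₁⟩
  obtain ⟨n', B, C, D, hn', hCB, hD, ht', hs'⟩ := exists_restrict hb1 ht hs J hJ
  -- vectors on the subspace
  have hrep : ∀ z ∈ puncturedDisc, ∀ i, (f z).rep i = lin (B i) fun l => lin (C l) (f z).rep :=
    fun z hz i => eq_lin_of_restrict hD (fun j hj => (hJmem j).mp hj z hz) i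
  have hCne : ∀ z ∈ puncturedDisc, (fun l => lin (C l) (f z).rep) ≠ 0 := by
    intro z hz h0
    apply (f z).rep_nonzero
    funext i
    rw [hrep z hz i, h0, Orb_lin_dot]
    simp
  -- the matrix `B` is injective
  have hBne : ∀ y : Fin (n' + 1) → ℂ, y ≠ 0 → (fun i => lin (B i) y) ≠ 0 := by
    intro y hy h0
    apply hy
    funext l
    have h1 : lin (C l) (fun i => lin (B i) y) = y l := by
      rw [Orb_lin_dot]
      simp only [Orb_lin_dot, Finset.mul_sum]
      rw [Finset.sum_comm]
      have h2 : ∀ l', ∑ i, C l i * (B i l' * y l') = (if l = l' then 1 else 0) * y l' := by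
        intro l'
        rw [← hCB, Finset.sum_mul]
        exact Finset.sum_congr rfl fun i _ => (mul_assoc _ _ _).symm
      rw [Finset.sum_congr rfl fun l' _ => h2 l']
      simp
    rw [← h1, h0, Orb_lin_dot]
    simp
  -- the map into the small projective space
  have hf' : HolomorphicInto (fun z => Orb_map C (f z)) puncturedDisc :=
    Orb_holo C Orb_isOpen hf hCne
  have hf'mk : ∀ z ∈ puncturedDisc, ∀ h, Orb_map C (f z) =
      Projectivization.mk ℂ (fun l => lin (C l) (f z).rep) h := by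
    intro z _ h
    conv_lhs => rw [← (f z).mk_rep]
    exact Orb_map_mk C (f z).rep_nonzero h
  -- it is enough to extend this map
  suffices hmain : ∃ g' : ℂ → PN n', HolomorphicInto g' (Metric.ball 0 1) ∧
      ∀ z ∈ puncturedDisc, g' z = Orb_map C (f z) by
    obtain ⟨g', hg', hgf⟩ := hmain
    refine ⟨fun z => Orb_map B (g' z),
      Orb_holo B Metric.isOpen_ball hg' fun z _ => hBne _ (g' z).rep_nonzero, fun z hz => ?_⟩
    show Orb_map B (g' z) = f z
    have h1 := hCne z hz
    have h2 := hBne _ h1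
    rw [hgf z hz, hf'mk z hz h1, Orb_map_mk B h1 h2]
    conv_rhs => rw [← (f z).mk_rep]
    rw [Projectivization.mk_eq_mk_iff']
    refine ⟨1, ?_⟩
    rw [one_smul]
    funext i
    exact hrep z hz i
  rcases Nat.eq_zero_or_pos n' with h0 | h0
  · -- a map into a point
    subst h0
    have h1 : (fun _ : Fin (0 + 1) => (1 : ℂ)) ≠ 0 := fun h => one_ne_zero (congrFun h 0)
    refine ⟨fun _ => Projectivization.mk ℂ (fun _ => 1) h1, fun z _ =>
      ⟨fun _ _ => 1, analyticAt_const, Filter.Eventually.of_forall fun w => ⟨h1, rfl⟩⟩,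
      fun z hz => ?_⟩
    have h2 := hCne z hz
    show Projectivization.mk ℂ (fun _ => 1) h1 = _
    rw [hf'mk z hz h2, Projectivization.mk_eq_mk_iff']
    have h3 : lin (C 0) (f z).rep ≠ 0 := by
      intro h4
      apply h2
      funext l
      rw [Fin.fin_one_eq_zero l]
      exact h4
    refine ⟨(lin (C 0) (f z).rep)⁻¹, ?_⟩
    funext l
    rw [Pi.smul_apply, smul_eq_mul, Fin.fin_one_eq_zero l]
    exact inv_mul_cancel₀ h3
  · refine orb_core h0 hq ((Nat.mul_le_mul_right _ hn').trans_lt hb) ht' hs' hf' ?_ ?_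
    · -- the multiplicities
      intro j s hs
      obtain ⟨φ, hφ, he, ho⟩ := hm j.1 s hs
      have hφJ : ∀ᶠ z in 𝓝 s, ∀ i, φ z i = lin (B i) fun l => lin (C l) (φ z) := by
        filter_upwards [he, Orb_isOpen.mem_nhds hs] with z hz hzU i
        obtain ⟨h1, h2⟩ := hz
        refine eq_lin_of_restrict hD (fun j' hj' => ?_) i
        obtain ⟨a, ha, h3⟩ := Pool.Agent.H17.exists_smul_rep (φ z) h1
        have h4 := (hJmem j').mp hj' z hzU
        rw [h2, h3, Orb_lin_smul] at h4
        exact (mul_eq_zero.mp h4).resolve_left ha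
      have hval : ∀ᶠ z in 𝓝 s, ∑ a, restr B (t j.1) a * lin (C a) (φ z) =
          ∑ a, t j.1 a * φ z a := by
        filter_upwards [hφJ] with z hz
        have h1 : lin (restr B (t j.1)) (fun l => lin (C l) (φ z)) = lin (t j.1) (φ z) := by
          rw [lin_restr]
          congr 1
          funext i
          exact (hz i).symm
        exact h1
      refine ⟨fun z l => lin (C l) (φ z), ?_, ?_, fun h1 => ?_⟩
      · rw [analyticAt_pi_iff]
        exact fun l => Orb_lin_an (C l) hφ
      · filter_upwards [he, Orb_isOpen.mem_nhds hs] with z hz hzU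
        obtain ⟨h1, h2⟩ := hz
        have h3 := hCne z hzU
        rw [h2] at h3
        have h4 := Orb_ne C h1 h3
        refine ⟨h4, ?_⟩
        rw [h2]
        exact Orb_map_mk C h1 h4
      · have h2 := hval.self_of_nhds
        rw [h1] at h2
        rw [analyticOrderAt_congr hval]
        exact ho h2.symm
    · -- the image is in none of the hyperplanes
      intro j
      have h1 := j.2
      rw [hJmem] at h1
      push Not at h1
      obtain ⟨z, hz, h2⟩ := h1
      refine ⟨z, hz, ?_⟩
      have h3 := hCne z hz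
      rw [hf'mk z hz h3]
      obtain ⟨a, ha, h4⟩ := Pool.Agent.H17.exists_smul_rep (fun l => lin (C l) (f z).rep) h3
      rw [h4, Orb_lin_smul, lin_restr]
      refine mul_ne_zero ha ?_
      have h5 : (fun i => lin (B i) fun l => lin (C l) (f z).rep) = (f z).rep := by
        funext i
        exact (hrep z hz i).symm
      rw [h5]
      exact h2

end Pool.Agent.H39.HC
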