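import Pool.Agent.H39.HC.Growth
import Pool.Agent.H39.HC.GoodSharp
import Pool.Agent.H39.HC.Restrict
import Pool.Agent.H39.HC.Num
import Pool.Agent.H62.FC.PunctMero
import Pool.Agent.H62.FC.Extend
import Pool.Agent.H5.DG.OrbDefs

/-!
# The big Picard theorem for maps with multiplicities: maps into no hyperplane
-/

open MvPolynomial Topology Filter
open Pool.Agent.H17 (PN HolomorphicInto puncturedDisc)
open Pool.Agent.H5.DG (MeetsWithMult)

noncomputable section

namespace Pool.Agent.H39.HC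

open Pool.Agent.H62.FC (PunctMero MeroPunct)
open Pool.Agent.H92.GGL (indN)

/-! ### Linear algebra -/

private theorem OrbCore_genPos {ι ι' : Type} {n : ℕ} {t : ι → Fin (n + 1) → ℂ} (ht : GenPos t)
    {g : ι' → ι} (hg : Function.Injective g) : GenPos (fun i => t (g i)) := by
  classical
  intro S hS
  have h1 := ht (S.image g) ((Finset.card_image_le).trans hS)
  have he : Function.Injective
      (fun j : S => (⟨g j, Finset.mem_image_of_mem g j.2⟩ : S.image g)) :=
    fun a b hab => Subtype.ext (hg (congrArg Subtype.val hab))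
  exact h1.comp _ he

private theorem OrbCore_elim {ι : Type} {n : ℕ} {t : ι → Fin (n + 1) → ℂ} (ht : GenPos t) :
    GenPos (Sum.elim t (fun j : Empty => (j.elim : Fin (n + 1) → ℂ))) := by
  have hinj : Function.Injective
      (Sum.elim (fun j : ι => j) (fun j : Empty => j.elim)) := by
    rintro (a | a) (b | b) hab
    · exact congrArg Sum.inl hab
    · exact b.elim
    · exact a.elim
    · exact a.elim
  have h1 := OrbCore_genPos ht hinj
  have h2 : (fun x => t (Sum.elim (fun j : ι => j) (fun j : Empty => j.elim) x)) =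
      Sum.elim t (fun j : Empty => (j.elim : Fin (n + 1) → ℂ)) := by
    funext x
    rcases x with x | x
    · rfl
    · exact x.elim
  rwa [h2] at h1

private theorem OrbCore_lin {n : ℕ} (v : Fin (n + 1) → ℂ) (x : Fin (n + 1) → ℂ) :
    lin v x = ∑ i, v i * x i := by
  unfold lin
  exact Finset.sum_congr rfl fun i _ => smul_eq_mul _ _

private theorem OrbCore_lin_smul {n : ℕ} (v : Fin (n + 1) → ℂ) (a : ℂ) (x : Fin (n + 1) → ℂ) :
    lin v (fun l => a * x l) = a * lin v x := by
  rw [OrbCore_lin, OrbCore_lin, Finset.mul_sum]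
  refine Finset.sum_congr rfl fun i _ => ?_
  ring

private theorem OrbCore_lin_div {n : ℕ} (v : Fin (n + 1) → ℂ) (a : ℂ) (x : Fin (n + 1) → ℂ) :
    lin v (fun l => x l / a) = lin v x / a := by
  rw [OrbCore_lin, OrbCore_lin, Finset.sum_div]
  refine Finset.sum_congr rfl fun i _ => ?_
  ring

private theorem OrbCore_lin_single {n : ℕ} (k : Fin (n + 1)) (x : Fin (n + 1) → ℂ) :
    lin (Pi.single k 1) x = x k := by
  rw [OrbCore_lin, Finset.sum_eq_single k]
  · rw [Pi.single_eq_same, one_mul]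
  · intro b _ hb
    rw [Pi.single_eq_of_ne hb, zero_mul]
  · intro h
    exact absurd (Finset.mem_univ k) h

private theorem OrbCore_lin_an {n : ℕ} {φ : ℂ → Fin (n + 1) → ℂ} {s : ℂ}
    (h : ∀ i, AnalyticAt ℂ (fun z => φ z i) s) (v : Fin (n + 1) → ℂ) :
    AnalyticAt ℂ (fun z => lin v (φ z)) s := by
  have h1 : (fun z => lin v (φ z)) = fun z => ∑ i, v i * φ z i := by
    funext z
    exact OrbCore_lin v (φ z)
  rw [h1]
  exact Finset.analyticAt_fun_sum _ fun l _ => analyticAt_const.fun_mul (h l)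

/-! ### Holomorphic maps of the punctured disc -/

private theorem OrbCore_preconnected : IsPreconnected puncturedDisc := by
  have h : puncturedDisc = Complex.exp '' {z : ℂ | z.re < 0} := by
    ext z
    constructor
    · rintro ⟨h1, h2⟩
      have h3 : z ≠ 0 := h2
      refine ⟨Complex.log z, ?_, Complex.exp_log h3⟩
      rw [mem_ball_zero_iff] at h1
      change (Complex.log z).re < 0
      rw [Complex.log_re]
      exact Real.log_neg (norm_pos_iff.mpr h3) h1
    · rintro ⟨w, hw, rfl⟩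
      refine ⟨?_, Complex.exp_ne_zero w⟩
      rw [mem_ball_zero_iff, Complex.norm_exp]
      have h1 := Real.exp_lt_exp.mpr hw
      rwa [Real.exp_zero] at h1
  rw [h]
  exact (convex_halfSpace_re_lt 0).isPreconnected.image _ Complex.continuous_exp.continuousOn

private theorem OrbCore_isOpen : IsOpen puncturedDisc :=
  Metric.isOpen_ball.sdiff isClosed_singleton

private theorem OrbCore_mem {z : ℂ} : z ∈ puncturedDisc ↔ 0 < ‖z‖ ∧ ‖z‖ < 1 := by
  unfold puncturedDisc
  rw [Set.mem_sdiff, mem_ball_zero_iff, Set.mem_singleton_iff, norm_pos_iff]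
  exact and_comm

private theorem OrbCore_nhds {s : ℂ} (hs : s ∈ puncturedDisc) : ∀ᶠ z in 𝓝 s, z ∈ puncturedDisc :=
  OrbCore_isOpen.mem_nhds hs

private theorem OrbCore_nhds_zero : ∀ᶠ z in 𝓝[≠] (0 : ℂ), z ∈ puncturedDisc := by
  have h1 : ∀ᶠ z in 𝓝 (0 : ℂ), z ∈ Metric.ball (0 : ℂ) 1 :=
    Metric.ball_mem_nhds (0 : ℂ) one_pos
  filter_upwards [h1.filter_mono nhdsWithin_le_nhds, self_mem_nhdsWithin] with z h2 h3
  exact ⟨h2, h3⟩

variable {n : ℕ}

private theorem OrbCore_rep {φ : ℂ → Fin (n + 1) → ℂ} {f : ℂ → PN n} {s : ℂ}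
    (he : ∀ᶠ z in 𝓝 s, ∃ h : φ z ≠ 0, f z = Projectivization.mk ℂ (φ z) h) :
    ∀ᶠ z in 𝓝 s, ∃ c : ℂ, c ≠ 0 ∧ ∀ i, (f z).rep i = c * φ z i := by
  filter_upwards [he] with z hz
  obtain ⟨h1, h2⟩ := hz
  obtain ⟨a, ha, h3⟩ := Pool.Agent.H17.exists_smul_rep (φ z) h1
  refine ⟨a, ha, fun i => ?_⟩
  rw [h2, h3]
  rfl

/-- lifts and representatives -/
private theorem OrbCore_lift {f : ℂ → PN n} (hf : HolomorphicInto f puncturedDisc) {s : ℂ}
    (hs : s ∈ puncturedDisc) : ∃ φ : ℂ → Fin (n + 1) → ℂ, (∀ i, AnalyticAt ℂ (fun z => φ z i) s) ∧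
      φ s ≠ 0 ∧ ∀ᶠ z in 𝓝 s, ∃ c : ℂ, c ≠ 0 ∧ ∀ i, (f z).rep i = c * φ z i := by
  obtain ⟨φ, hφ, he⟩ := hf s hs
  exact ⟨φ, analyticAt_pi_iff.mp hφ, he.self_of_nhds.1, OrbCore_rep he⟩

private theorem OrbCore_lin_rep {f : ℂ → PN n} {φ : ℂ → Fin (n + 1) → ℂ} {z c : ℂ}
    (h : ∀ i, (f z).rep i = c * φ z i) (v : Fin (n + 1) → ℂ) :
    lin v (f z).rep = c * lin v (φ z) := by
  have h1 : (f z).rep = fun i => c * φ z i := funext h
  rw [h1, OrbCore_lin_smul]

/-- the identity principle -/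
private theorem OrbCore_dich {f : ℂ → PN n} (hf : HolomorphicInto f puncturedDisc)
    (v : Fin (n + 1) → ℂ) : (∀ s ∈ puncturedDisc, lin v (f s).rep = 0) ∨
      (∀ s ∈ puncturedDisc, ∀ᶠ z in 𝓝[≠] s, lin v (f z).rep ≠ 0) := by
  have hou : IsOpen {s | ∀ᶠ z in 𝓝 s, lin v (f z).rep = 0} := isOpen_setOfPred_eventually_nhds
  have hov : IsOpen {s | ∀ᶠ z in 𝓝[≠] s, lin v (f z).rep ≠ 0} :=
    isOpen_setOfPred_eventually_nhdsWithin
  have hd : Disjoint {s | ∀ᶠ z in 𝓝 s, lin v (f z).rep = 0}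
      {s | ∀ᶠ z in 𝓝[≠] s, lin v (f z).rep ≠ 0} := by
    rw [Set.disjoint_left]
    intro s hs hs'
    have h1 : ∀ᶠ z in 𝓝 s, lin v (f z).rep = 0 := hs
    have h2 : ∀ᶠ z in 𝓝[≠] s, lin v (f z).rep ≠ 0 := hs'
    obtain ⟨z, h3, h4⟩ := ((h1.filter_mono nhdsWithin_le_nhds).and h2).exists
    exact h4 h3
  have hsub : puncturedDisc ⊆ {s | ∀ᶠ z in 𝓝 s, lin v (f z).rep = 0} ∪
      {s | ∀ᶠ z in 𝓝[≠] s, lin v (f z).rep ≠ 0} := by
    intro s hs
    obtain ⟨φ, hφ, -, he⟩ := OrbCore_lift hf hs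
    rcases (OrbCore_lin_an hφ v).eventually_eq_zero_or_eventually_ne_zero with h | h
    · left
      change ∀ᶠ z in 𝓝 s, lin v (f z).rep = 0
      filter_upwards [h, he] with z hz hfz
      obtain ⟨c, hc, h2⟩ := hfz
      rw [OrbCore_lin_rep h2, hz, mul_zero]
    · right
      change ∀ᶠ z in 𝓝[≠] s, lin v (f z).rep ≠ 0
      filter_upwards [h, he.filter_mono nhdsWithin_le_nhds] with z hz hfz
      obtain ⟨c, hc, h2⟩ := hfz
      rw [OrbCore_lin_rep h2]
      exact mul_ne_zero hc hz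
  by_cases hne : (puncturedDisc ∩ {s | ∀ᶠ z in 𝓝 s, lin v (f z).rep = 0}).Nonempty
  · left
    intro s hs
    have h1 := OrbCore_preconnected.subset_left_of_subset_union hou hov hd hsub hne hs
    have h2 : ∀ᶠ z in 𝓝 s, lin v (f z).rep = 0 := h1
    exact h2.self_of_nhds
  · right
    intro s hs
    rcases hsub hs with h | h
    · exact absurd ⟨s, hs, h⟩ hne
    · exact h

private theorem OrbCore_quot_mero {f : ℂ → PN n} (hf : HolomorphicInto f puncturedDisc)
    (v w : Fin (n + 1) → ℂ) {s : ℂ} (hs : s ∈ puncturedDisc) :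
    MeromorphicAt (fun z => lin v (f z).rep / lin w (f z).rep) s := by
  obtain ⟨φ, hφ, -, he⟩ := OrbCore_lift hf hs
  have h1 : MeromorphicAt (fun z => lin v (φ z) / lin w (φ z)) s :=
    (OrbCore_lin_an hφ v).meromorphicAt.fun_div (OrbCore_lin_an hφ w).meromorphicAt
  refine h1.congr ?_
  filter_upwards [he.filter_mono nhdsWithin_le_nhds] with z hz
  obtain ⟨c, hc, h2⟩ := hz
  rw [OrbCore_lin_rep h2, OrbCore_lin_rep h2, mul_div_mul_left _ _ hc]

private theorem OrbCore_ne_phi {f : ℂ → PN n} {φ : ℂ → Fin (n + 1) → ℂ} {s : ℂ}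
    (he : ∀ᶠ z in 𝓝 s, ∃ c : ℂ, c ≠ 0 ∧ ∀ i, (f z).rep i = c * φ z i)
    {w : Fin (n + 1) → ℂ} (h0 : lin w (f s).rep ≠ 0) : lin w (φ s) ≠ 0 := by
  intro h
  obtain ⟨c, hc, h2⟩ := he.self_of_nhds
  apply h0
  rw [OrbCore_lin_rep h2, h, mul_zero]

private theorem OrbCore_quot_an {f : ℂ → PN n} (hf : HolomorphicInto f puncturedDisc)
    (v w : Fin (n + 1) → ℂ) {s : ℂ} (hs : s ∈ puncturedDisc) (h0 : lin w (f s).rep ≠ 0) :
    AnalyticAt ℂ (fun z => lin v (f z).rep / lin w (f z).rep) s := by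
  obtain ⟨φ, hφ, -, he⟩ := OrbCore_lift hf hs
  have hne : lin w (φ s) ≠ 0 := OrbCore_ne_phi he h0
  have h1 : AnalyticAt ℂ (fun z => lin v (φ z) / lin w (φ z)) s :=
    (OrbCore_lin_an hφ v).fun_div (OrbCore_lin_an hφ w) hne
  refine h1.congr ?_
  filter_upwards [he] with z hz
  obtain ⟨c, hc, h2⟩ := hz
  rw [OrbCore_lin_rep h2, OrbCore_lin_rep h2, mul_div_mul_left _ _ hc]

private theorem OrbCore_ne_nhds {f : ℂ → PN n} (hf : HolomorphicInto f puncturedDisc)
    {w : Fin (n + 1) → ℂ} {s : ℂ} (hs : s ∈ puncturedDisc) (h0 : lin w (f s).rep ≠ 0) :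
    ∀ᶠ z in 𝓝 s, lin w (f z).rep ≠ 0 := by
  obtain ⟨φ, hφ, -, he⟩ := OrbCore_lift hf hs
  have hne : lin w (φ s) ≠ 0 := OrbCore_ne_phi he h0
  filter_upwards [he, (OrbCore_lin_an hφ w).continuousAt.eventually_ne hne] with z hz h1
  obtain ⟨c, hc, h2⟩ := hz
  rw [OrbCore_lin_rep h2]
  exact mul_ne_zero hc h1

/-- multiplicities of an arbitrary lift -/
private theorem OrbCore_mult {f : ℂ → PN n} {q : ℕ} {v : Fin (n + 1) → ℂ}
    (hm : MeetsWithMult q v f puncturedDisc) {s : ℂ} (hs : s ∈ puncturedDisc)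
    {φ : ℂ → Fin (n + 1) → ℂ} (hφ : ∀ i, AnalyticAt ℂ (fun z => φ z i) s) (hφ0 : φ s ≠ 0)
    (he : ∀ᶠ z in 𝓝 s, ∃ c : ℂ, c ≠ 0 ∧ ∀ i, (f z).rep i = c * φ z i)
    (h0 : lin v (φ s) = 0) :
    (q : ℕ∞) ≤ analyticOrderAt (fun z => lin v (φ z)) s := by
  obtain ⟨ψ, hψ, hψe, hord⟩ := hm s hs
  have hψ' := analyticAt_pi_iff.mp hψ
  have hψ0 : ψ s ≠ 0 := hψe.self_of_nhds.1
  have hψr := OrbCore_rep hψe
  obtain ⟨l, hl⟩ : ∃ l, ψ s l ≠ 0 := by
    by_contra hcon
    push Not at hcon
    exact hψ0 (funext hcon)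
  -- the ratio
  have hc : AnalyticAt ℂ (fun z => φ z l / ψ z l) s := (hφ l).fun_div (hψ' l) hl
  have hrat : ∀ᶠ z in 𝓝 s, ∀ i, φ z i = (φ z l / ψ z l) * ψ z i := by
    filter_upwards [he, hψr, (hψ' l).continuousAt.eventually_ne hl] with z h1 h2 h3 i
    obtain ⟨c, hc, h4⟩ := h1
    obtain ⟨d, hd, h5⟩ := h2
    have h6 : ∀ i, φ z i = (d / c) * ψ z i := by
      intro i
      have h7 : c * φ z i = d * ψ z i := by rw [← h4, ← h5]
      rw [div_mul_eq_mul_div, eq_div_iff hc, mul_comm, h7]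
    rw [h6 i, h6 l, mul_div_assoc, div_self h3, mul_one]
  have hcs : φ s l / ψ s l ≠ 0 := by
    intro h
    apply hφ0
    funext i
    rw [hrat.self_of_nhds i, h, zero_mul]
    rfl
  have hlin : (fun z => lin v (φ z)) =ᶠ[𝓝 s]
      ((fun z => φ z l / ψ z l) * fun z => ∑ a, v a * ψ z a) := by
    filter_upwards [hrat] with z hz
    have h1 : φ z = fun i => (φ z l / ψ z l) * ψ z i := funext hz
    rw [Pi.mul_apply, ← OrbCore_lin v (ψ z), ← OrbCore_lin_smul]
    exact congrArg (lin v) h1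
  have hψa : AnalyticAt ℂ (fun z => ∑ a, v a * ψ z a) s :=
    Finset.analyticAt_fun_sum _ fun a _ => analyticAt_const.fun_mul (hψ' a)
  rw [analyticOrderAt_congr hlin, analyticOrderAt_mul hc hψa, hc.analyticOrderAt_eq_zero.mpr hcs,
    zero_add]
  refine hord ?_
  have h2 : lin v (φ s) = φ s l / ψ s l * ∑ a, v a * ψ s a := hlin.self_of_nhds
  rw [h0] at h2
  exact (mul_eq_zero.mp h2.symm).resolve_left hcs

/-! ### Functions meromorphic at the puncture -/

private theorem OrbCore_add {f g : ℂ → ℂ} (hf : PunctMero f) (hg : PunctMero g) :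
    PunctMero (fun z => f z + g z) := by
  obtain ⟨v, hv, hfv⟩ := hf
  obtain ⟨w, hw, hgw⟩ := hg
  refine ⟨fun z => v z + w z, hv.add hw, ?_⟩
  filter_upwards [hfv, hgw] with z h1 h2
  filter_upwards [h1, h2] with ζ h3 h4
  rw [h3, h4]

private theorem OrbCore_sum {α : Type} (S : Finset α) {f : α → ℂ → ℂ}
    (hf : ∀ a ∈ S, PunctMero (f a)) : PunctMero (fun z => ∑ a ∈ S, f a z) := by
  classical
  induction S using Finset.induction_on with
  | empty => simpa using PunctMero.const 0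
  | insert a S ha ih =>
    have h1 := OrbCore_add (hf a (Finset.mem_insert_self a S))
      (ih fun b hb => hf b (Finset.mem_insert_of_mem hb))
    simpa [Finset.sum_insert ha] using h1

private theorem OrbCore_growth {u : ℂ → ℂ} {R₀ ε M : ℝ} {k : ℕ} (hε : 0 < ε) (hR₀ : 0 < R₀)
    (hu : ∀ z, 0 < ‖z‖ → ‖z‖ < R₀ → MeromorphicAt u z)
    (h : ∀ z, 0 < ‖z‖ → ‖z‖ < ε → 0 ≤ meromorphicOrderAt u z ∧
      (AnalyticAt ℂ u z → ‖u z‖ * ‖z‖ ^ k ≤ M)) : PunctMero u := by
  set ε' := min ε R₀ with hε'def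
  have hε' : 0 < ε' := lt_min hε hR₀
  set U : Set ℂ := {z | 0 < ‖z‖ ∧ ‖z‖ < ε'} with hU
  have hUo : IsOpen U :=
    (isOpen_lt continuous_const continuous_norm).inter (isOpen_lt continuous_norm continuous_const)
  have huz : ∀ z : ℂ, 0 < ‖z‖ → ‖z‖ < ε' → MeromorphicAt u z := fun z h1 h2 =>
    hu z h1 (h2.trans_le (min_le_right _ _))
  have huU : MeromorphicOn u U := fun z hz => huz z hz.1 hz.2
  set g : ℂ → ℂ := toMeromorphicNFOn u U with hg
  have hgu : ∀ z : ℂ, 0 < ‖z‖ → ‖z‖ < ε' → g =ᶠ[𝓝[≠] z] u := fun z h1 h2 =>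
    huU.toMeromorphicNFOn_eq_self_on_nhdsNE ⟨h1, h2⟩
  have hgan : ∀ z : ℂ, 0 < ‖z‖ → ‖z‖ < ε' → AnalyticAt ℂ g z := by
    intro z h1 h2
    have hnf : MeromorphicNFAt g z := meromorphicNFOn_toMeromorphicNFOn u U ⟨h1, h2⟩
    refine hnf.meromorphicOrderAt_nonneg_iff_analyticAt.1 ?_
    rw [meromorphicOrderAt_congr (hgu z h1 h2)]
    exact (h z h1 (h2.trans_le (min_le_left _ _))).1
  have hgb : ∀ z : ℂ, 0 < ‖z‖ → ‖z‖ < ε' → ‖z ^ k * g z‖ ≤ M := by
    intro z h1 h2
    have h3 : ∀ᶠ w in 𝓝[≠] z, ‖w ^ k * g w‖ ≤ M := by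
      have h4 : ∀ᶠ w in 𝓝 z, w ∈ U := hUo.mem_nhds ⟨h1, h2⟩
      filter_upwards [hgu z h1 h2, (huz z h1 h2).eventually_analyticAt,
        h4.filter_mono nhdsWithin_le_nhds] with w e1 e2 e3
      rw [norm_mul, norm_pow, e1, mul_comm]
      exact (h w e3.1 (e3.2.trans_le (min_le_left _ _))).2 e2
    have h5 : Tendsto (fun w => ‖w ^ k * g w‖) (𝓝[≠] z) (𝓝 ‖z ^ k * g z‖) :=
      ((analyticAt_id.pow k).mul (hgan z h1 h2)).continuousAt.norm.tendsto.mono_left
        nhdsWithin_le_nhds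
    exact le_of_tendsto h5 h3
  obtain ⟨w, hw, hwg⟩ := Pool.Agent.H92.GGL.meromorphicAt_of_bounded
    (u := fun z => z ^ k * g z) (ε := ε') (M := M) hε'
    (fun z h1 h2 => (analyticAt_id.pow k).mul (hgan z h1 h2)) hgb
  refine ⟨fun z => (z ^ k)⁻¹ * w z, (((analyticAt_id.pow k).meromorphicAt).inv).mul
    hw.meromorphicAt, ?_⟩
  have hεe : ∀ᶠ z in 𝓝[≠] (0 : ℂ), 0 < ‖z‖ ∧ ‖z‖ < ε' := by
    filter_upwards [mem_nhdsWithin_of_mem_nhds (Metric.ball_mem_nhds (0 : ℂ) hε'),
      self_mem_nhdsWithin] with z h1 h2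
    exact ⟨norm_pos_iff.mpr h2, by simpa using h1⟩
  filter_upwards [hεe] with z hz
  have hz0 : z ≠ 0 := norm_pos_iff.1 hz.1
  have h5 : ∀ᶠ ζ in 𝓝[≠] z, ζ ≠ 0 :=
    mem_nhdsWithin_of_mem_nhds (isOpen_compl_singleton.mem_nhds hz0 : ({(0 : ℂ)}ᶜ : Set ℂ) ∈ 𝓝 z)
  filter_upwards [hgu z hz.1 hz.2, h5] with ζ h6 h7
  rw [hwg ζ h7, ← h6, ← mul_assoc, inv_mul_cancel₀ (pow_ne_zero k h7), one_mul]

/-- **Big Picard theorem.**  A holomorphic map from the punctured disc to `ℙ^n`, into none of the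
hyperplanes `lin (t j) = 0`, which meets them with multiplicities at least `q` extends. -/
theorem orb_core {ι : Type} [Fintype ι] {n q b : ℕ} (hn : 1 ≤ n) (hq : 2 ≤ q)
    (hb : n * (q + 1) < b * (q - 1)) {t : ι → Fin (n + 1) → ℂ} (ht : GenPos t)
    (hs : Spans b t) {f : ℂ → PN n} (hf : HolomorphicInto f puncturedDisc)
    (hm : ∀ j, MeetsWithMult q (t j) f puncturedDisc)
    (hne : ∀ j, ∃ z ∈ puncturedDisc, lin (t j) (f z).rep ≠ 0) :
    ∃ g : ℂ → PN n, HolomorphicInto g (Metric.ball 0 1) ∧ ∀ z ∈ puncturedDisc, g z = f z := by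
  classical
  have hq0 : q ≠ 0 := by omega
  obtain ⟨T, hTc, hT⟩ := exists_indep hs
  -- numbers
  have hb1 : 1 ≤ b := by
    rcases Nat.eq_zero_or_pos b with h | h
    · rw [h, Nat.zero_mul] at hb
      exact absurd hb (Nat.not_lt_zero _)
    · exact h
  have hK : 1 ≤ wtK n (b + 1) 2 := by
    unfold wtK
    exact Nat.choose_pos (by omega)
  have hTcard : n + 1 ≤ T.card := by
    rw [hTc]
    calc n + 1 = (n + 1).choose n := (Nat.choose_succ_self_right n).symm
      _ ≤ (n + b).choose n := Nat.choose_le_choose n (by omega)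
  have hTN : T.card ≤ Fintype.card ι := Finset.card_le_univ T
  have hnumT : q * 2 * wtK n (b + 1) 2 < (q - 1) * T.card := by
    rw [hTc]
    exact numCond hn hq hb le_rfl (by omega)
  have hnz : ∀ j, ∀ s ∈ puncturedDisc, ∀ᶠ z in 𝓝[≠] s, lin (t j) (f z).rep ≠ 0 := by
    intro j
    rcases OrbCore_dich hf (t j) with h | h
    · obtain ⟨z, hz, hz'⟩ := hne j
      exact absurd (h z hz) hz'
    · exact h
  -- the base form
  obtain ⟨i₀, hi₀T⟩ : T.Nonempty := Finset.card_pos.mp (by omega)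
  obtain ⟨z₁, hz₁, hi₀⟩ := hne i₀
  set F : ℂ → Fin (n + 1) → ℂ := fun z l => (f z).rep l / lin (t i₀) (f z).rep with hFdef
  have hFlin : ∀ s, ∀ v, lin v (F s) = lin v (f s).rep / lin (t i₀) (f s).rep :=
    fun s v => OrbCore_lin_div v _ _
  have hFl : ∀ l, (fun w => F w l) =
      fun w => lin (Pi.single l 1) (f w).rep / lin (t i₀) (f w).rep := by
    intro l
    funext w
    rw [OrbCore_lin_single]
  have hFan : ∀ s ∈ puncturedDisc, lin (t i₀) (f s).rep ≠ 0 → AnalyticAt ℂ F s := by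
    intro s hs h0
    refine analyticAt_pi_iff.mpr fun l => ?_
    have h1 := OrbCore_quot_an hf (Pi.single l 1) (t i₀) hs h0
    rw [← hFl l] at h1
    exact h1
  have hFmero : ∀ l, ∀ s ∈ puncturedDisc, MeromorphicAt (fun w => F w l) s := by
    intro l s hs
    rw [hFl l]
    exact OrbCore_quot_mero hf _ _ hs
  have hmain : ∀ l, PunctMero (fun z => F z l) := by
    by_cases hcase : ∀ s ∈ puncturedDisc, lin (t i₀) (f s).rep ≠ 0 →
        ∀ l, deriv (fun w => F w l) s = 0
    · intro l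
      have hconst : ∀ᶠ z in 𝓝 z₁, F z l = F z₁ l := by
        have h1 : ∀ᶠ z in 𝓝 z₁, z ∈ puncturedDisc ∧ lin (t i₀) (f z).rep ≠ 0 :=
          (OrbCore_nhds hz₁).and (OrbCore_ne_nhds hf hz₁ hi₀)
        obtain ⟨r, hr, hball⟩ := Metric.eventually_nhds_iff_ball.mp h1
        filter_upwards [Metric.ball_mem_nhds z₁ hr] with z hz
        refine Metric.isOpen_ball.is_const_of_deriv_eq_zero (s := Metric.ball z₁ r)
          (f := fun w => F w l) (convex_ball z₁ r).isPreconnected ?_ ?_ hz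
          (Metric.mem_ball_self hr)
        · intro w hw
          exact (analyticAt_pi_iff.mp (hFan w (hball w hw).1 (hball w hw).2)
            l).differentiableAt.differentiableWithinAt
        · intro w hw
          exact hcase w (hball w hw).1 (hball w hw).2 l
      have hmer : MeromorphicOn (fun w => F w l - F z₁ l) puncturedDisc := fun s hs =>
        (hFmero l s hs).sub (MeromorphicAt.const _ _)
      have htop : ∀ s ∈ puncturedDisc, meromorphicOrderAt (fun w => F w l - F z₁ l) s = ⊤ := by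
        intro s hs
        by_contra hne
        have h1 := hmer.meromorphicOrderAt_ne_top_of_isPreconnected OrbCore_preconnected hs
          hz₁ hne
        apply h1
        rw [meromorphicOrderAt_eq_top_iff]
        filter_upwards [hconst.filter_mono nhdsWithin_le_nhds] with w hw
        rw [hw, sub_self]
      refine (PunctMero.const (F z₁ l)).congr ?_
      filter_upwards [OrbCore_nhds_zero] with s hs
      have h1 := htop s hs
      rw [meromorphicOrderAt_eq_top_iff] at h1
      filter_upwards [h1] with w hw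
      exact (sub_eq_zero.mp hw).symm
    · push Not at hcase
      obtain ⟨s₂, hs₂, hs₂0, l₀, hl₀⟩ := hcase
      -- a generic point
      have hd₀ : ∀ᶠ z in 𝓝 s₂, deriv (fun w => F w l₀) z ≠ 0 :=
        (analyticAt_pi_iff.mp (hFan s₂ hs₂ hs₂0) l₀).deriv.continuousAt.eventually_ne hl₀
      have hgen : ∀ᶠ z in 𝓝[≠] s₂, ∀ j, lin (t j) (f z).rep ≠ 0 := by
        rw [eventually_all]
        exact fun j => hnz j s₂ hs₂
      obtain ⟨z₀, hz₀g, hz₀d, hz₀D⟩ := (hgen.and ((hd₀.filter_mono nhdsWithin_le_nhds).and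
        ((OrbCore_nhds hs₂).filter_mono nhdsWithin_le_nhds))).exists
      have hz₀i : lin (t i₀) (f z₀).rep ≠ 0 := hz₀g i₀
      have hFan0 := hFan z₀ hz₀D hz₀i
      set c₁ : Fin (n + 1) → ℂ := fun l => deriv (fun w => F w l) z₀ with hc₁
      have hlinD : ∀ j, HasDerivAt (fun w => lin (t j) (F w)) (lin (t j) c₁) z₀ := by
        intro j
        unfold lin
        refine HasDerivAt.fun_sum fun l _ => ?_
        exact (analyticAt_pi_iff.mp hFan0 l).differentiableAt.hasDerivAt.const_smul (t j l)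
      have hone0 : ∀ᶠ w in 𝓝 z₀, lin (t i₀) (F w) = 1 := by
        filter_upwards [OrbCore_ne_nhds hf hz₀D hz₀i] with w hw1
        rw [hFlin w, div_self hw1]
      have h1 : lin (t i₀) c₁ = 0 :=
        (hlinD i₀).unique ((hasDerivAt_const z₀ (1 : ℂ)).congr_of_eventuallyEq hone0)
      -- the index set
      have htT : GenPos (fun j : {j // j ∈ T} => t j) :=
        OrbCore_genPos ht Subtype.val_injective
      have hgp := OrbCore_elim htT
      have hcs : n + 1 ≤ Fintype.card {j // j ∈ T} + Fintype.card Empty := by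
        rw [Fintype.card_coe, Fintype.card_empty]
        omega
      -- the good polynomial
      have hFne : ∀ j, lin (t j) (F z₀) ≠ 0 := by
        intro j
        rw [hFlin z₀]
        exact div_ne_zero (hz₀g j) hz₀i
      obtain ⟨Q, hQ, hQne⟩ := exists_good_sharp (ι := {j // j ∈ T}) (n := n) (r := 2)
        (e := b + 1) (by omega) (by omega) (by omega) (t := fun j => t j)
        (fun j => by
          have h3 := ht {(j : ι)} (by simp)
          exact h3.ne_zero ⟨j, by simp⟩)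
        hT (u := ![F z₀, c₁])
        (by
          rw [LinearIndependent.pair_iff]
          intro α β hαβ
          have h3 : ∀ l, α * F z₀ l + β * c₁ l = 0 := fun l => by
            have h4 := congrFun hαβ l
            simpa using h4
          have h4 : α * lin (t i₀) (F z₀) + β * lin (t i₀) c₁ = 0 := by
            rw [← OrbCore_lin_smul, ← OrbCore_lin_smul]
            unfold lin
            rw [← Finset.sum_add_distrib]
            refine Finset.sum_eq_zero fun l _ => ?_
            rw [← smul_add, h3 l, smul_zero]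
          rw [hone0.self_of_nhds, h1, mul_one, mul_zero, add_zero] at h4
          refine ⟨h4, ?_⟩
          have h5 := h3 l₀
          rw [h4, zero_mul, zero_add] at h5
          exact (mul_eq_zero.mp h5).resolve_right hz₀d)
        (fun j => ⟨0, hFne j⟩)
      -- numbers
      have hnum' : ∑ _i : {j // j ∈ T}, (1 / (q : ℝ)) + 2 * (wtK n (b + 1) 2 : ℕ) <
          Fintype.card {j // j ∈ T} := by
        rw [Finset.sum_const, Finset.card_univ, Fintype.card_coe, nsmul_eq_mul]
        have h4 : ((q * 2 * wtK n (b + 1) 2 : ℕ) : ℝ) < (((q - 1) * T.card : ℕ) : ℝ) := by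
          exact_mod_cast hnumT
        rw [Nat.cast_mul, Nat.cast_mul, Nat.cast_mul, Nat.cast_sub (by omega)] at h4
        push_cast at h4
        have h5 : (0 : ℝ) < q := by exact_mod_cast (by omega : 0 < q)
        rw [mul_one_div, ← sub_pos]
        have h6 : (T.card : ℝ) - (T.card / q + 2 * (wtK n (b + 1) 2 : ℝ)) =
            ((q - 1) * T.card - q * 2 * wtK n (b + 1) 2) / q := by
          field_simp
          ring
        rw [h6]
        exact div_pos (by linarith) h5
      -- orders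
      have hind : ∀ a : ℕ∞, a ≠ ⊤ → (a ≠ 0 → (q : ℕ∞) ≤ a) →
          indN a.toNat ≤ 1 / (q : ℝ) * (a.toNat : ℝ) := by
        intro a hat ha
        unfold indN
        split_ifs with h4
        · have h5 : (0 : ℝ) ≤ 1 / (q : ℝ) := by positivity
          exact mul_nonneg h5 (Nat.cast_nonneg _)
        · have h5 : a ≠ 0 := fun h6 => h4 (by rw [h6]; rfl)
          have h6 := ha h5
          have h7 : q ≤ a.toNat := by
            have h8 : ((q : ℕ) : ℕ∞) ≤ ((a.toNat : ℕ) : ℕ∞) := by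
              rwa [ENat.natCast_toNat hat]
            exact_mod_cast h8
          have h8 : (0 : ℝ) < q := by exact_mod_cast (by omega : 0 < q)
          rw [one_div, inv_mul_eq_div, le_div_iff₀ h8, one_mul]
          exact_mod_cast h7
      -- local lifts
      have hloc : ∀ z, 0 < ‖z‖ → ‖z‖ < 1 → ∃ ψ,
          LocalLift (fun j : {j // j ∈ T} => t j)
            (fun j : Empty => (j.elim : Fin (n + 1) → ℂ)) (fun _ => 1 / (q : ℝ))
            (fun (j : {j // j ∈ T}) z => lin (t j) (f z).rep / lin (t i₀) (f z).rep)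
            ⟨i₀, hi₀T⟩ z ψ := by
        intro s hs1 hs2
        have hs := OrbCore_mem.mpr ⟨hs1, hs2⟩
        obtain ⟨φ, hφ, hφ0, hφe⟩ := OrbCore_lift hf hs
        have hφne : ∀ j, ∀ᶠ z in 𝓝[≠] s, lin (t j) (φ z) ≠ 0 := by
          intro j
          filter_upwards [hφe.filter_mono nhdsWithin_le_nhds, hnz j s hs] with z h4 h5
          obtain ⟨c, hc, h6⟩ := h4
          intro h7
          apply h5
          rw [OrbCore_lin_rep h6, h7, mul_zero]
        refine ⟨φ, ⟨analyticAt_pi_iff.mpr hφ, ?_, ?_, ?_, hφ0, ?_⟩⟩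
        · intro i
          exact hφne i
        · filter_upwards [hφe] with z h4 i
          obtain ⟨c, hc, h6⟩ := h4
          rw [OrbCore_lin_rep h6, OrbCore_lin_rep h6, mul_div_mul_left _ _ hc]
        · exact Eventually.of_forall fun z j => j.elim
        · refine Finset.sum_le_sum fun i _ => ?_
          have h3 := OrbCore_lin_an hφ (t i)
          refine hind _ ?_ ?_
          · intro htop
            rw [analyticOrderAt_eq_top] at htop
            obtain ⟨z, h4, h5⟩ := ((htop.filter_mono nhdsWithin_le_nhds).and (hφne i)).exists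
            exact h5 h4
          · intro h4
            refine OrbCore_mult (hm i) hs hφ hφ0 hφe ?_
            by_contra h5
            exact h4 (h3.analyticOrderAt_eq_zero.mpr h5)
      -- the lift at the generic point
      have hψ₀ : LocalLift (fun j : {j // j ∈ T} => t j)
            (fun j : Empty => (j.elim : Fin (n + 1) → ℂ)) (fun _ => 1 / (q : ℝ))
            (fun (j : {j // j ∈ T}) z => lin (t j) (f z).rep / lin (t i₀) (f z).rep)
            ⟨i₀, hi₀T⟩ z₀ F := by
        refine ⟨hFan0, ?_, ?_, ?_, ?_, ?_⟩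
        · intro i
          filter_upwards [hnz i z₀ hz₀D, hnz i₀ z₀ hz₀D] with z h4 h5
          rw [hFlin z]
          exact div_ne_zero h4 h5
        · filter_upwards [hone0] with z h4 i
          rw [h4, div_one, hFlin z]
        · exact Eventually.of_forall fun z j => j.elim
        · intro h3
          have h4 := hone0.self_of_nhds
          rw [h3] at h4
          unfold lin at h4
          have h5 : ∑ l, t i₀ l • (0 : Fin (n + 1) → ℂ) l = 0 :=
            Finset.sum_eq_zero fun l _ => smul_zero _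
          rw [h5] at h4
          exact zero_ne_one h4
        · refine Finset.sum_le_sum fun i _ => ?_
          have h3 : analyticOrderNatAt (fun z => lin (t i) (F z)) z₀ = 0 := by
            have h4 : AnalyticAt ℂ (fun z => lin (t i) (F z)) z₀ :=
              OrbCore_lin_an (analyticAt_pi_iff.mp hFan0) (t i)
            unfold analyticOrderNatAt
            rw [h4.analyticOrderAt_eq_zero.mpr (hFne i)]
            rfl
          rw [h3, Nat.cast_zero, mul_zero]
          exact le_of_eq (if_pos rfl)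
      obtain ⟨b', hb'⟩ := exists_leftInverse hgp hcs
      have hz₀m := OrbCore_mem.mp hz₀D
      have hu : ∀ j : {j // j ∈ T},
          PunctMero (fun z => lin (t j) (f z).rep / lin (t i₀) (f z).rep) := by
        intro j
        obtain ⟨ε, M, k, hε, hM, hgr⟩ := growth_core (K := wtK n (b + 1) 2) hgp hcs hQ hK
          (fun _ => by positivity) hnum' one_pos
          (u := fun (j : {j // j ∈ T}) z => lin (t j) (f z).rep / lin (t i₀) (f z).rep)
          (i₀ := ⟨i₀, hi₀T⟩)
          (fun z hz => by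
            rw [div_self]
            intro h
            rw [h, div_zero] at hz
            exact hz rfl)
          hloc hz₀m.1 hz₀m.2 hψ₀ (hFne i₀) hQne j
        exact OrbCore_growth hε one_pos (fun z h3 h4 =>
          OrbCore_quot_mero hf (t j) (t i₀) (OrbCore_mem.mpr ⟨h3, h4⟩)) hgr
      intro l
      have h3 : PunctMero (fun z => ∑ i : {j // j ∈ T},
          b' l i * (lin (t i) (f z).rep / lin (t i₀) (f z).rep)) :=
        OrbCore_sum Finset.univ fun i _ => (PunctMero.const (b' l i)).mul (hu i)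
      refine h3.congr ?_
      filter_upwards [OrbCore_nhds_zero] with s hs
      refine Eventually.of_forall fun z => ?_
      change ∑ i : {j // j ∈ T}, b' l i * (lin (t i) (f z).rep / lin (t i₀) (f z).rep) = F z l
      rw [hb' (F z) (fun j => j.elim) l]
      refine Finset.sum_congr rfl fun i _ => ?_
      rw [hFlin z]
  -- all quotients
  obtain ⟨k, hk⟩ : ∃ k, (f z₁).rep k ≠ 0 := by
    by_contra hcon
    push Not at hcon
    exact (f z₁).rep_nonzero (funext hcon)
  have hkz : ∀ s ∈ puncturedDisc, ∀ᶠ z in 𝓝[≠] s, (f z).rep k ≠ 0 := by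
    rcases OrbCore_dich hf (Pi.single k 1) with h | h
    · have h1 := h z₁ hz₁
      rw [OrbCore_lin_single] at h1
      exact absurd h1 hk
    · intro s hs
      filter_upwards [h s hs] with z hz
      rwa [OrbCore_lin_single] at hz
  refine Pool.Agent.H62.FC.exists_extension hf (i₀ := k) ?_ ?_
  · filter_upwards [OrbCore_nhds_zero] with z hz
    exact hkz z hz
  · intro j
    refine ((hmain j).mul (hmain k).inv).congr ?_
    filter_upwards [OrbCore_nhds_zero] with z hz
    filter_upwards [hnz i₀ z hz] with w hw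
    rw [hFdef]
    simp only
    rw [← div_eq_mul_inv, div_div_div_cancel_right₀ hw]

end Pool.Agent.H39.HC
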