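import Pool.Agent.H39.HC.Defs

/-!
# The determinant of the symmetric power of a matrix
-/

open MvPolynomial

noncomputable section

namespace Pool.Agent.H39.HC

/-- The multiindices of degree `e` in `p` variables. -/
abbrev MI (p e : ℕ) : Type :=
  (Finset.finsuppAntidiag (Finset.univ : Finset (Fin p)) e : Finset (Fin p →₀ ℕ))

/-- The symmetric power of a matrix: the monomials of degree `e` in the linear forms
`∑ l', A l l' * X l'`. -/
def symMat {p : ℕ} (e : ℕ) (A : Matrix (Fin p) (Fin p) ℂ) : Matrix (MI p e) (MI p e) ℂ :=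
  fun β β' => coeff β'.1 (∏ l, (∑ l', C (A l l') * X l') ^ β.1 l : MvPolynomial (Fin p) ℂ)

/-- Substitution in a form of degree `e`. -/
theorem coeff_subst {p e : ℕ} {G : MvPolynomial (Fin p) ℂ} (hG : G.IsHomogeneous e)
    (A : Matrix (Fin p) (Fin p) ℂ) (β' : MI p e) :
    coeff β'.1 (aeval (fun l => (∑ l', C (A l l') * X l' : MvPolynomial (Fin p) ℂ)) G) =
      ∑ β : MI p e, coeff β.1 G * symMat e A β β' := by
  have h1 : aeval (fun l => (∑ l', C (A l l') * X l' : MvPolynomial (Fin p) ℂ)) G =
      ∑ β ∈ G.support, C (coeff β G) * ∏ l, (∑ l', C (A l l') * X l') ^ β l := by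
    rw [aeval_def, eval₂_eq']
    rfl
  rw [h1, coeff_sum]
  have h2 : G.support ⊆ Finset.finsuppAntidiag (Finset.univ : Finset (Fin p)) e := by
    intro β hβ
    rw [Finset.mem_finsuppAntidiag]
    refine ⟨?_, Finset.subset_univ _⟩
    have h3 := hG (mem_support_iff.1 hβ)
    rw [← h3, Finsupp.weight_apply, Finsupp.sum_fintype]
    · simp
    · simp
  have h4 : ∑ β : MI p e, coeff β.1 G * symMat e A β β' =
      ∑ β ∈ Finset.finsuppAntidiag (Finset.univ : Finset (Fin p)) e,
        coeff β G * coeff β'.1 (∏ l, (∑ l', C (A l l') * X l') ^ β l : MvPolynomial (Fin p) ℂ) :=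
    Finset.sum_coe_sort (Finset.finsuppAntidiag (Finset.univ : Finset (Fin p)) e)
      (fun β => coeff β G *
        coeff β'.1 (∏ l, (∑ l', C (A l l') * X l') ^ β l : MvPolynomial (Fin p) ℂ))
  rw [h4]
  simp only [coeff_C_mul]
  apply Finset.sum_subset h2
  intro β _ hβ
  rw [notMem_support_iff.1 hβ, zero_mul]

private theorem SymDet_prod {p e : ℕ} (A : Matrix (Fin p) (Fin p) ℂ) (β : MI p e) :
    (∏ l, (∑ l', C (A l l') * X l') ^ β.1 l : MvPolynomial (Fin p) ℂ).IsHomogeneous e := by
  have h1 : ∑ l, β.1 l = e := (Finset.mem_finsuppAntidiag.1 β.2).1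
  have h := IsHomogeneous.prod Finset.univ
    (fun l => ((∑ l', C (A l l') * X l') ^ β.1 l : MvPolynomial (Fin p) ℂ)) (fun l => β.1 l) (by
      intro l _
      have h2 : (∑ l', C (A l l') * X l' : MvPolynomial (Fin p) ℂ).IsHomogeneous 1 := by
        apply IsHomogeneous.sum
        intro l' _
        exact isHomogeneous_C_mul_X _ _
      have h3 := h2.pow (β.1 l)
      rwa [one_mul] at h3)
  rw [h1] at h
  exact h

private theorem SymDet_mul {p e : ℕ} (A B : Matrix (Fin p) (Fin p) ℂ) :
    symMat e (A * B) = symMat e A * symMat e B := by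
  ext β β''
  rw [Matrix.mul_apply]
  have h1 := coeff_subst (SymDet_prod A β) B β''
  change coeff β''.1 (∏ l, (∑ l', C ((A * B) l l') * X l') ^ β.1 l : MvPolynomial (Fin p) ℂ) =
    ∑ β' : MI p e, coeff β'.1 (∏ l, (∑ l', C (A l l') * X l') ^ β.1 l : MvPolynomial (Fin p) ℂ) *
      symMat e B β' β''
  rw [← h1]
  congr 1
  rw [map_prod]
  refine Finset.prod_congr rfl fun l _ => ?_
  rw [map_pow, map_sum]
  congr 1
  simp only [map_mul, aeval_C, aeval_X, algebraMap_eq, Finset.mul_sum, Matrix.mul_apply, map_sum,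
    Finset.sum_mul]
  rw [Finset.sum_comm]
  refine Finset.sum_congr rfl fun i _ => Finset.sum_congr rfl fun j _ => ?_
  ring

private theorem SymDet_diag {p e : ℕ} (D : Fin p → ℂ) :
    symMat e (Matrix.diagonal D) = Matrix.diagonal fun β : MI p e => ∏ l, D l ^ β.1 l := by
  ext β β'
  change coeff β'.1 _ = _
  have h1 : (∏ l, (∑ l', C (Matrix.diagonal D l l') * X l') ^ β.1 l : MvPolynomial (Fin p) ℂ) =
      monomial β.1 (∏ l, D l ^ β.1 l) := by
    rw [monomial_eq, Finsupp.prod_fintype _ _ (fun _ => pow_zero _), map_prod,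
      ← Finset.prod_mul_distrib]
    refine Finset.prod_congr rfl fun l _ => ?_
    rw [Finset.sum_eq_single l]
    · rw [Matrix.diagonal_apply_eq, mul_pow, map_pow]
    · intro l' _ hl'
      rw [Matrix.diagonal_apply_ne _ (Ne.symm hl'), C_0, zero_mul]
    · intro h
      exact absurd (Finset.mem_univ _) h
  rw [h1, coeff_monomial, Matrix.diagonal_apply]
  by_cases h : β = β'
  · rw [if_pos h, if_pos (congrArg Subtype.val h)]
  · rw [if_neg h, if_neg fun h' => h (Subtype.ext h')]

private theorem SymDet_one {p e : ℕ} : symMat e (1 : Matrix (Fin p) (Fin p) ℂ) = 1 := by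
  rw [← Matrix.diagonal_one, SymDet_diag, ← Matrix.diagonal_one]
  congr 1
  funext β
  exact Finset.prod_eq_one fun l _ => one_pow _

private theorem SymDet_det_mul {p e : ℕ} (A B : Matrix (Fin p) (Fin p) ℂ) :
    (symMat e (A * B)).det = (symMat e A).det * (symMat e B).det := by
  rw [SymDet_mul, Matrix.det_mul]

private theorem SymDet_ne_zero {p e : ℕ} {A B : Matrix (Fin p) (Fin p) ℂ} (h : A * B = 1) :
    (symMat e A).det ≠ 0 := by
  intro h0
  have h1 := SymDet_det_mul (e := e) A B
  rw [h, SymDet_one, Matrix.det_one, h0, zero_mul] at h1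
  exact one_ne_zero h1

private theorem SymDet_trans {p e : ℕ} {i j : Fin p} (hij : i ≠ j) (c : ℂ) :
    (symMat e (Matrix.transvection i j c)).det = 1 := by
  set D : Fin p → ℂ := fun l => if l = i then 2 else 1 with hD
  have h1 : Matrix.diagonal D * Matrix.transvection i j c =
      Matrix.transvection i j (c + c) * Matrix.diagonal D := by
    ext a b
    rw [Matrix.diagonal_mul, Matrix.mul_diagonal]
    have hT : ∀ c : ℂ, Matrix.transvection i j c a b =
        (if a = b then 1 else 0) + (if i = a ∧ j = b then c else 0) := by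
      intro c
      simp only [Matrix.transvection, Matrix.add_apply, Matrix.one_apply, Matrix.single_apply]
    rw [hT, hT]
    by_cases h : i = a ∧ j = b
    · obtain ⟨rfl, rfl⟩ := h
      have hDi : D i = 2 := if_pos rfl
      have hDj : D j = 1 := if_neg (Ne.symm hij)
      rw [if_neg hij, if_pos ⟨rfl, rfl⟩, if_pos ⟨rfl, rfl⟩, hDi, hDj]
      ring
    · rw [if_neg h, if_neg h]
      by_cases hab : a = b
      · rw [hab, mul_comm]
      · rw [if_neg hab]
        ring
  have h2 : (symMat e (Matrix.diagonal D)).det ≠ 0 := by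
    apply SymDet_ne_zero (B := Matrix.diagonal fun l => (D l)⁻¹)
    rw [Matrix.diagonal_mul_diagonal, ← Matrix.diagonal_one]
    congr 1
    funext l
    apply mul_inv_cancel₀
    rw [hD]
    dsimp only
    split_ifs <;> norm_num
  have h3 : (symMat e (Matrix.transvection i j c)).det ≠ 0 := by
    apply SymDet_ne_zero (B := Matrix.transvection i j (-c))
    rw [Matrix.transvection_mul_transvection_same i j hij, add_neg_cancel, Matrix.transvection_zero]
  have h4 := congrArg (fun A => (symMat e A).det) h1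
  simp only [SymDet_det_mul] at h4
  rw [← Matrix.transvection_mul_transvection_same i j hij, SymDet_det_mul] at h4
  have h5 : (symMat e (Matrix.diagonal D)).det * ((symMat e (Matrix.transvection i j c)).det) * 1 =
      (symMat e (Matrix.diagonal D)).det * ((symMat e (Matrix.transvection i j c)).det) *
        (symMat e (Matrix.transvection i j c)).det := by
    rw [mul_one]
    linear_combination h4
  exact (mul_left_cancel₀ (mul_ne_zero h2 h3) h5).symm

private theorem SymDet_sum {p : ℕ} (hp : 1 ≤ p) (e : ℕ) (l : Fin p) :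
    ∑ β : MI p e, β.1 l = (e + p - 1).choose p := by
  have hsym : ∀ l' : Fin p, ∑ β : MI p e, β.1 l' = ∑ β : MI p e, β.1 l := by
    intro l'
    have hmem : ∀ β : Fin p →₀ ℕ, β ∈ Finset.finsuppAntidiag (Finset.univ : Finset (Fin p)) e →
        β.equivMapDomain (Equiv.swap l l') ∈
          Finset.finsuppAntidiag (Finset.univ : Finset (Fin p)) e := by
      intro β hβ
      rw [Finset.mem_finsuppAntidiag] at hβ ⊢
      refine ⟨?_, Finset.subset_univ _⟩
      rw [← hβ.1]
      exact Equiv.sum_comp (Equiv.swap l l').symm β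
    let σ : MI p e → MI p e := fun β => ⟨β.1.equivMapDomain (Equiv.swap l l'), hmem β.1 β.2⟩
    have hσ : Function.Involutive σ := by
      intro β
      apply Subtype.ext
      apply Finsupp.ext
      intro a
      change β.1 ((Equiv.swap l l').symm ((Equiv.swap l l').symm a)) = β.1 a
      rw [Equiv.symm_swap, Equiv.swap_apply_self]
    have h1 := Equiv.sum_comp hσ.toPerm (fun β : MI p e => β.1 l)
    rw [← h1]
    refine Finset.sum_congr rfl fun β _ => ?_
    change β.1 l' = β.1 ((Equiv.swap l l').symm l)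
    rw [Equiv.symm_swap, Equiv.swap_apply_left]
  have h1 : ∑ l' : Fin p, ∑ β : MI p e, β.1 l' = p * ∑ β : MI p e, β.1 l := by
    rw [Finset.sum_congr rfl fun l' _ => hsym l', Finset.sum_const, Finset.card_univ,
      Fintype.card_fin, smul_eq_mul]
  have h2 : ∑ l' : Fin p, ∑ β : MI p e, β.1 l' = (p + e - 1).choose e * e := by
    rw [Finset.sum_comm]
    have h3 : ∀ β : MI p e, ∑ l' : Fin p, β.1 l' = e := fun β =>
      (Finset.mem_finsuppAntidiag.1 β.2).1
    rw [Finset.sum_congr rfl fun β _ => h3 β, Finset.sum_const, Finset.card_univ, smul_eq_mul]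
    congr 1
    rw [Fintype.card_coe, Finset.card_finsuppAntidiag_nat_eq_choose, Finset.card_univ,
      Fintype.card_fin]
  obtain ⟨p', rfl⟩ : ∃ p', p = p' + 1 := ⟨p - 1, by omega⟩
  have h4 : (e + (p' + 1) - 1).choose (p' + 1) * (p' + 1) = (e + (p' + 1) - 1).choose p' * e := by
    have h5 := Nat.choose_succ_right_eq (e + (p' + 1) - 1) p'
    have h6 : e + (p' + 1) - 1 - p' = e := by omega
    rwa [h6] at h5
  have h7 : (p' + 1 + e - 1).choose e = (e + (p' + 1) - 1).choose p' := by
    have h8 : p' + 1 + e - 1 = e + (p' + 1) - 1 := by omega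
    rw [h8]
    exact Nat.choose_symm_of_eq_add (by omega)
  have h9 : (p' + 1) * ∑ β : MI (p' + 1) e, β.1 l =
      (p' + 1) * (e + (p' + 1) - 1).choose (p' + 1) := by
    rw [← h1, h2, h7, ← h4, mul_comm]
  exact Nat.eq_of_mul_eq_mul_left (Nat.succ_pos p') h9

/-- The determinant of the symmetric power of a matrix. -/
theorem det_symMat {p : ℕ} (hp : 1 ≤ p) (e : ℕ) (A : Matrix (Fin p) (Fin p) ℂ) :
    (symMat e A).det = A.det ^ (e + p - 1).choose p := by
  apply Matrix.diagonal_transvection_induction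
    (fun A : Matrix (Fin p) (Fin p) ℂ => (symMat e A).det = A.det ^ (e + p - 1).choose p) A
  · intro D _
    rw [SymDet_diag, Matrix.det_diagonal, Matrix.det_diagonal, Finset.prod_comm, ← Finset.prod_pow]
    refine Finset.prod_congr rfl fun l _ => ?_
    rw [Finset.prod_pow_eq_pow_sum, SymDet_sum hp]
  · intro t
    rw [Matrix.TransvectionStruct.det, one_pow]
    exact SymDet_trans t.hij t.c
  · intro A B hA hB
    rw [SymDet_det_mul, hA, hB, Matrix.det_mul, mul_pow]

end Pool.Agent.H39.HC
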