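import Pool.Agent.H39.HC.Defs
import Pool.Agent.H92.GT.Wrap
import Pool.Agent.H62.FC.LGTMain

/-!
# Log general type from one function, in terms of `H23.Fano`
-/

open Pool.Agent.H23.Fano (PrimeDivisorOver Form)
open Pool.Agent.H17LG.Variety (IsLogGeneralType PoleAtMost)
open Pool.Agent.H23 (dualDer)

noncomputable section

namespace Pool.Agent.H39.HC

variable {L : Type} [Field L] [Algebra ℂ L] {k : ℕ}

/-- Log general type from a function with the required poles (compare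
`H92.GT.isLogGeneralType_of_function`, `H62.FC.logGeneralType_of_circuits`). -/
theorem isLogGeneralType_of_function [Algebra.EssFiniteType ℂ L] {z : Fin (k + 1) → L}
    (hz : IsTranscendenceBasis ℂ z) {b : Module.Basis (Fin (k + 1)) L Ω[L⁄ℂ]}
    {Bd : PrimeDivisorOver L (k + 1) → Prop} {M : ℕ} (hM : 1 ≤ M)
    {N : ℕ} {x : Fin (N + 1) → L} {j₀ : Fin (N + 1)} (hj₀ : x j₀ = 1)
    (halg : Algebra.IsAlgebraic (IntermediateField.adjoin ℂ (Set.range x)) L) {Θ : L}
    (hΘ : Θ ≠ 0)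
    (h : ∀ (E : PrimeDivisorOver L (k + 1)) (g₀ : L)
      (bE : Module.Basis (Fin (k + 1)) L Ω[L⁄ℂ]), E.ord g₀ = 1 →
      (∀ i f, 0 ≤ E.ord f → 0 ≤ E.ord (dualDer bE i f)) →
      (∀ i, i ≠ 0 → ∀ f, E.ord f ≤ E.ord (dualDer bE i f)) →
      (∀ f, E.ord f ≤ E.ord (g₀ * dualDer bE 0 f)) → ∀ i,
      (¬ Bd E → 0 ≤ E.ord (Θ * x i * (bE.toMatrix b).det ^ M)) ∧
        0 ≤ E.ord (Θ * x i * (bE.toMatrix b).det ^ M) + M) :
    IsLogGeneralType Bd := by
  refine ⟨M, hM, exteriorPower.ιMulti L (k + 1) (fun i => b i), ?_, N + 1,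
    Fin.cons (Θ * x j₀) fun i => Θ * x i, ?_, ?_, ?_⟩
  · intro h0
    have h1 : Pool.Agent.H23.fc b (exteriorPower.ιMulti L (k + 1) fun i => b i) = 0 := by
      rw [show (exteriorPower.ιMulti L (k + 1) fun i => b i) = 0 from h0, map_zero]
    rw [Pool.Agent.H23.fc_self] at h1
    exact one_ne_zero h1
  · rw [Fin.cons_zero, hj₀, mul_one]
    exact hΘ
  · intro i E
    obtain ⟨g, bE, hbE, hg0, hg, hη, hη', hη0⟩ :=
      Pool.Agent.H17LG.exists_logDivisorCoords hz (Pool.Agent.H23.ofFano E)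
    change E.ord (g 0) = 1 at hg0
    change ∀ i, 0 ≤ E.ord (g i) at hg
    change ∀ i f, 0 ≤ E.ord f → 0 ≤ E.ord (dualDer bE i f) at hη
    change ∀ i, i ≠ 0 → ∀ f, E.ord f ≤ E.ord (dualDer bE i f) at hη'
    change ∀ f, E.ord f ≤ E.ord (g 0 * dualDer bE 0 f) at hη0
    have hmem : Form.mk 1 g ∈ Pool.Agent.H23.Fano.regularForms (k + 1) E.localRing := by
      refine AddSubgroup.subset_closure ⟨1, g, ?_, hg, rfl⟩
      change 0 ≤ E.ord 1
      rw [E.ord.map_one]
    have hform : exteriorPower.ιMulti L (k + 1) (fun i => b i) =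
        (bE.toMatrix b).det • Form.mk 1 g := by
      change exteriorPower.ιMulti L (k + 1) (fun i => b i) = (bE.toMatrix b).det • ((1 : L) •
        exteriorPower.ιMulti L (k + 1) fun i => KaehlerDifferential.D ℂ L (g i))
      rw [one_smul, Pool.Agent.H23.ιMulti_eq bE (fun i => b i), Module.Basis.det_apply]
      simp only [hbE]
    have hi : ∃ i', (Fin.cons (Θ * x j₀) (fun i => Θ * x i) : Fin (N + 1 + 1) → L) i =
        Θ * x i' := by
      refine Fin.cases ⟨j₀, ?_⟩ (fun i => ⟨i, ?_⟩) i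
      · rw [Fin.cons_zero]
      · rw [Fin.cons_succ]
    obtain ⟨i', hi'⟩ := hi
    have h1 := h E (g 0) bE hg0 hη hη' hη0 i'
    rw [hi']
    refine ⟨fun hE => ⟨_, _, hmem, hform, ?_⟩, fun _ => ⟨_, _, hmem, hform, h1.2⟩⟩
    rw [Nat.cast_zero, add_zero]
    exact h1.1 hE
  · refine Pool.Agent.H92.GT.algebraic_of_le ?_ halg
    rw [IntermediateField.adjoin_le_iff]
    rintro _ ⟨i, rfl⟩
    apply IntermediateField.subset_adjoin
    refine ⟨i.succ, ?_⟩
    simp only [Fin.cons_succ, Fin.cons_zero]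
    rw [hj₀, mul_one, mul_div_cancel_left₀ _ hΘ]

end Pool.Agent.H39.HC
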